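import Pool.Agent.Lib.H76Q.Q3
import Pool.Agent.Lib.H76Q.Q4
import Pool.Agent.Lib.H45P.P0

/-!
# Y0: definitions for the third version (components without a form)
-/

set_option autoImplicit false
set_option linter.unusedSectionVars false
namespace Pool.Agent.H76Y
open Module Matrix Polynomial Pool.Agent.H53Toric
open Pool.Agent.H76P
open Pool.Agent.H76T (IsIdeal Fam)
open Pool.Agent.H76V (Cmp)
open Pool.Agent.H76U (cmp preL Lb IsSplitting)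
open Pool.Agent.H76RM (spanK similD)
open Pool.Agent.H76Q

section
variable {κ : Type*} [Fintype κ] [DecidableEq κ] {K : Type*} [Field K]

/-- An irreducible Lie algebra of operators of trace zero such that only the scalars commute with
all its involutions. -/
structure CmpN (L : Submodule K (Module.End K (κ → K))) : Prop where
  lie : IsLie L
  irr : Irr L
  tr : ∀ X ∈ L, LinearMap.trace K (κ → K) X = 0
  gen : ∀ T : Module.End K (κ → K), (∀ y ∈ L, y * y = 1 → T * y = y * T) → ∃ c : K, T = c • 1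

/-- `CmpN`, and the diagonal elements of `L` separate the basis vectors. -/
structure TM [CharZero K] (L : Submodule K (Module.End K (κ → K))) : Prop where
  cmp : CmpN L
  diag : ∀ f : κ → ℚ, dq f ∈ L → f ∈ Yo L
  sep : ∀ a b : κ, a ≠ b → ∃ f ∈ Yo L, f a ≠ f b

/-- `L` respects a nondegenerate alternating form. -/
def SyL (L : Submodule K (Module.End K (κ → K))) : Prop :=
  ∃ J : Matrix κ κ K, Jᵀ = -J ∧ IsUnit J.det ∧ ∀ X ∈ L, adjE J X = -X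

/-- `L` respects no bilinear form `≠ 0`. -/
def NsL (L : Submodule K (Module.End K (κ → K))) : Prop :=
  ∀ b : (κ → K) →ₗ[K] (κ → K) →ₗ[K] K, (∀ X ∈ L, ∀ v w, b (X v) w + b v (X w) = 0) → b = 0

/-- `L` respects an alternating form if `t` is true and no form if `t` is false. -/
def Cls (t : Prop) (L : Submodule K (Module.End K (κ → K))) : Prop := (t → SyL L) ∧ (¬ t → NsL L)

/-- `X` is a pure tensor `u * r`, and `u` has determinant `t`. -/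
def PTN {Y : Submodule ℚ (κ → ℚ)} (L : Submodule K (Module.End K (κ → K))) (P : Module.End ℚ Y)
    (X u r : Module.End K (κ → K)) (t : K) : Prop :=
  u ∈ AZ L P ∧ r ∈ AZ L (1 - P) ∧ X = u * r ∧ t ≠ 0 ∧ LinearMap.det u = t ∧ LinearMap.det r ≠ 0

/-- A semilinear automorphism of the operators which respects `L` and the diagonal. -/
structure ThetaN (L : Submodule K (Module.End K (κ → K)))
    (θ : Module.End K (κ → K) ≃+* Module.End K (κ → K)) (τ : K ≃+* K) (σ : Equiv.Perm κ) : Prop where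
  smul : ∀ (c : K) X, θ (c • X) = τ c • θ X
  diag : ∀ g : κ → K, θ (dg g) = dg fun k => τ (g (σ.symm k))
  mem : ∀ X, θ X ∈ L ↔ X ∈ L
  det : ∀ X, LinearMap.det (θ X) = τ (LinearMap.det X)

/-- `P` is compatible with the simple ideals of all Lie algebras in the class `t` with the
configuration `Y`. -/
def GoodN {n : ℕ} {Y : Submodule ℚ (Fin n → ℚ)} (t : Prop) (P : Module.End ℚ Y) : Prop :=
  ∀ (K : Type) [Field K] [CharZero K] [IsAlgClosed K]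
    (L : Submodule K (Module.End K (Fin n → K))), TM L → Cls t L → Yo L = Y → Comp L P

end

section
variable {ι : Type*} [Fintype ι] [DecidableEq ι] {K : Type*} [Field K]

/-- The Lie algebra of the component: the operators of trace zero. -/
noncomputable def LcN {n : ℕ} (J : Matrix ι ι K) (S : Set (Matrix ι ι K))
    (P : Matrix ι (Fin n) K) (Q : Matrix (Fin n) ι K) : Submodule K (Module.End K (Fin n → K)) where
  carrier := {X | X ∈ Lb J S P Q ∧ LinearMap.trace K (Fin n → K) X = 0}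
  add_mem' := by
    rintro X Y ⟨h1, h2⟩ ⟨h3, h4⟩
    exact ⟨add_mem h1 h3, by rw [map_add, h2, h4, add_zero]⟩
  zero_mem' := ⟨zero_mem _, map_zero _⟩
  smul_mem' := by
    rintro c X ⟨h1, h2⟩
    exact ⟨Submodule.smul_mem _ c h1, by rw [map_smul, h2, smul_zero]⟩

/-- `e = U V` an idempotent, `V U = 1`, the columns of `U` are eigenvectors of `x` with the eigenvalues
`d`; `S` the image of a subgroup of finite index, `𝓗` the set of projectors, `q` the multiplier of `x`,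
`Y` the configuration. -/
structure LocN [CharZero K] (t : Prop)
    (J : Matrix ι ι K) (S 𝓗 : Set (Matrix ι ι K)) (e x : Matrix ι ι K) (q : K) {n : ℕ}
    (U : Matrix ι (Fin n) K) (V : Matrix (Fin n) ι K) (d : Fin n → K)
    (Y : Submodule ℚ (Fin n → ℚ)) : Prop where
  pos : 0 < n
  UV : e = U * V
  VU : V * U = 1
  ec : EC x U d
  ex : e * x = x * e
  ts : TM (LcN J S U V)
  cls : Cls t (LcN J S U V)
  yo : Yo (LcN J S U V) = Y
  par : ∀ h ∈ 𝓗, h * h = h ∧ h * e = e * h ∧ 2 * (h * e).rank = n ∧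
    phi (cmp U V ((2 : K) • h - 1)) ∈ LcN J S U V
  lie : ∀ C ∈ zlie S, C * e = e * C ∧ ∃ c : K, phi (cmp U V (C - c • 1)) ∈ LcN J S U V
  prod : (∏ k, d k) ^ 2 = q ^ n

/-- The conditions at the prime `p`. -/
structure CrysN {L : Type*} [Field L] (K : Type*) [Field K] [Algebra L K] {G : Type*} [Group G]
    (ρ : G →* Matrix.GeneralLinearGroup ι L) {M : Type*} [Field M] {m : ℕ}
    (e : Fin m → Matrix ι ι M) (σ : G) (φ μ ν : Matrix ι ι K) (v : K → ℚ)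
    (Δ : Set (K ≃+* K)) : Prop where
  val : IsVal v
  mu : μ ∈ properProj K ρ
  muphi : μ * φ = φ * μ
  phigen : φ ∈ tgen K ρ
  nu : ∀ (c : K) (z : ι → K), φ *ᵥ z = c • z → ν *ᵥ z = (v c : K) • z
  newton : ∀ (i : M →+* K) (b : Fin m) (H : Subgroup G), H.FiniteIndex →
    ∀ I : Submodule K (Matrix ι ι K), adStable (zlie (img K ρ H)) I →
      ((2 : K) • μ - 1) * (e b).map i ∈ I → ∃ c : K, (ν - c • 1) * (e b).map i ∈ I
  unr : ∃ ξ ξ' : Matrix ι ι K, ξ ∈ tgen K ρ ∧ ξ * ξ' = 1 ∧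
    ∀ (H : Subgroup G), H.FiniteIndex → ∀ I : Submodule K (Matrix ι ι K),
      adStable (zlie (img K ρ H)) I → (∀ X ∈ I, μ * X = X * μ) → ∀ X ∈ I,
        ((ρ σ)⁻¹.1.map (algebraMap L K) * (ξ * φ * ξ')) * X =
          X * ((ρ σ)⁻¹.1.map (algebraMap L K) * (ξ * φ * ξ'))
  int : (ρ σ).1.map (algebraMap L K) ∈ Submonoid.closure
    {x | ∃ h ∈ properProj K ρ, IntMat v h ∧ ∃ t : K, t ≠ 0 ∧ v t = 0 ∧ x = 1 + (t - 1) • h}
  eint : ∀ (i : M →+* K) (b : Fin m), IntMat v ((e b).map i)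
  dfix : ∀ δ ∈ Δ, ∀ c : L, δ (algebraMap L K c) = algebraMap L K c
  dphi : ∀ δ ∈ Δ, φ.map δ = φ
  dM : ∀ δ ∈ Δ, ∀ (i : M →+* K) (c : M), δ (i c) = i c
  dideal : ∀ δ ∈ Δ, ∀ H : Subgroup G, H.FiniteIndex → ∀ I : Submodule K (Matrix ι ι K),
    I ≤ zlie (img K ρ H) → adStable (zlie (img K ρ H)) I → ∀ X ∈ I, ∀ Y ∈ I,
      (X * Y - Y * X).map δ ∈ I
  dval : ∀ x : K, x ≠ 0 → (∀ δ ∈ Δ, δ x = x) → ∃ n : ℤ, v x = n

end

/-- The hypotheses of the third version of the theorem except the conditions on the ranks. -/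
structure Core3 {ι : Type*} [Fintype ι] [DecidableEq ι] (ψ : Matrix ι ι ℚ)
    (D : Subalgebra ℚ (Matrix ι ι ℚ)) {M : Type*} [Field M] [NumberField M]
    {m : ℕ} (bar : Fin m → Fin m) (e : Fin m → Matrix ι ι M) {G : Type*} [Group G]
    (ρ : ∀ (l : ℕ) [Fact l.Prime], G →* Matrix.GeneralLinearGroup ι ℚ_[l])
    (p : ℕ) [Fact p.Prime] (σ : G) (q : ℚ) (F : Fin m → M[X])
    (φ μ ν : Matrix ι ι (AlgebraicClosure ℚ_[p])) (v : AlgebraicClosure ℚ_[p] → ℚ)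
    (Δ : Set (AlgebraicClosure ℚ_[p] ≃+* AlgebraicClosure ℚ_[p]))
    {Ω : Type*} [Field Ω] [CharZero Ω] [IsAlgClosed Ω] [Algebra.IsAlgebraic ℚ Ω] (j : M →+* Ω)
    (R : Finset Ω) (N : Set ℕ) : Prop where
  hψ : ψᵀ = -ψ
  hψ0 : ψ.det ≠ 0
  hspl : IsSplitting D ψ bar e
  lin : ∀ (l : ℕ) [Fact l.Prime], ∀ g : G, ∀ d ∈ D,
      (ρ l g).1 * d.map (algebraMap ℚ ℚ_[l]) = d.map (algebraMap ℚ ℚ_[l]) * (ρ l g).1
  sim : ∀ (l : ℕ) [Fact l.Prime], ∀ g : G, ∃ c : ℚ_[l],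
      (ρ l g).1ᵀ * ψ.map (algebraMap ℚ ℚ_[l]) * (ρ l g).1 = c • ψ.map (algebraMap ℚ ℚ_[l])
  semis : ∀ (l : ℕ) [Fact l.Prime], ∀ H : Subgroup G, H.FiniteIndex →
      ∀ W : Submodule (AlgebraicClosure ℚ_[l]) (ι → AlgebraicClosure ℚ_[l]),
      (∀ s ∈ img (AlgebraicClosure ℚ_[l]) (ρ l) H, ∀ w ∈ W, s *ᵥ w ∈ W) →
      ∃ W' : Submodule (AlgebraicClosure ℚ_[l]) (ι → AlgebraicClosure ℚ_[l]),
        (∀ s ∈ img (AlgebraicClosure ℚ_[l]) (ρ l) H, ∀ w ∈ W', s *ᵥ w ∈ W') ∧ IsCompl W W'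
  commt : ∀ (l : ℕ) [Fact l.Prime], ∀ H : Subgroup G, H.FiniteIndex →
      ∀ y : Matrix ι ι (AlgebraicClosure ℚ_[l]),
      (∀ s ∈ img (AlgebraicClosure ℚ_[l]) (ρ l) H, y * s = s * y) →
        y ∈ spanK (AlgebraicClosure ℚ_[l]) D
  gen : ∀ (l : ℕ) [Fact l.Prime], ∀ g : G,
      (ρ l g).1.map (algebraMap ℚ_[l] (AlgebraicClosure ℚ_[l])) ∈
        tgen (AlgebraicClosure ℚ_[l]) (ρ l)
  bal : ∀ (l : ℕ) [Fact l.Prime], ∀ h ∈ properProj (AlgebraicClosure ℚ_[l]) (ρ l),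
      ∀ (i : M →+* AlgebraicClosure ℚ_[l]) (b : Fin m),
        2 * (h * (e b).map i).rank = (e b).rank
  hq : ∀ n : ℕ, n ≠ 0 → q ^ n ≠ 1
  mult : ∀ (l : ℕ) [Fact l.Prime], l ≠ p →
      (ρ l σ).1ᵀ * ψ.map (algebraMap ℚ ℚ_[l]) * (ρ l σ).1 =
        algebraMap ℚ ℚ_[l] q • ψ.map (algebraMap ℚ ℚ_[l])
  frob : ∀ (l : ℕ) [Fact l.Prime], l ≠ p →
      FrobT (AlgebraicClosure ℚ_[l]) (ρ l) e F
        ((ρ l σ).1.map (algebraMap ℚ_[l] (AlgebraicClosure ℚ_[l])))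
  frobp : FrobT (AlgebraicClosure ℚ_[p]) (ρ p) e F φ
  multp : φᵀ * ψ.map (algebraMap ℚ (AlgebraicClosure ℚ_[p])) * φ =
      algebraMap ℚ (AlgebraicClosure ℚ_[p]) q • ψ.map (algebraMap ℚ (AlgebraicClosure ℚ_[p]))
  crys : CrysN (AlgebraicClosure ℚ_[p]) (ρ p) e σ φ μ ν v Δ
  vq : v (algebraMap ℚ (AlgebraicClosure ℚ_[p]) q) = 1
  hN : p ∈ N
  arith : ∀ b, H45P.ArithM (e b).rank R N ρ σ
  munr : ∀ b, ∀ δ ∈ Δ, ∀ z : AlgebraicClosure ℚ_[p], z ^ (e b).rank = 1 → δ z = z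
  Rstab : ∀ s : Ω ≃+* Ω, ∀ r ∈ R, s r ∈ R
  Rval : ∀ i : Ω →+* AlgebraicClosure ℚ_[p],
      ∃ r ∈ R, v (i r) = 1 ∧ ∀ r' ∈ R, r' ≠ r → v (i r') = 0
  Rfix : ∀ i : Ω →+* AlgebraicClosure ℚ_[p], ∀ r ∈ R, ∀ δ ∈ Δ, δ (i r) = i r
  Rtrans : ∀ r ∈ R, ∀ r' ∈ R, ∃ s : Ω ≃+* Ω, s r = r'
  dec : ∀ (s : Ω ≃+* Ω) (T : Finset Ω), ∃ u : ℕ, Odd u ∧ ∃ (l : ℕ) (_ : Fact l.Prime), l ∉ N ∧
      ∃ (i : Ω →+* AlgebraicClosure ℚ_[l]) (t : AlgebraicClosure ℚ_[l] ≃ₐ[ℚ_[l]] AlgebraicClosure ℚ_[l]),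
        ∀ x ∈ T, t (i x) = i ((s ^ u) x)
  gal : ∀ b, ∀ a a' : Ω, (F b).eval₂ j a = 0 → (F b).eval₂ j a' = 0 → a ≠ a' →
      ∃ i : Ω →+* AlgebraicClosure ℚ_[p], v (i a) ≠ v (i a')

end Pool.Agent.H76Y
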