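import Pool.Agent.Lib.H76V.VA2
import Pool.Agent.Lib.H76Y.Y0

/-!
# The decomposition of an irreducible symplectic Lie algebra with many involutions
-/

set_option autoImplicit false
set_option linter.unusedSectionVars false
namespace Pool.Agent.H76Y
open Pool.Agent.H76P Pool.Agent.H76V Pool.Agent.H76Q
open Module Matrix Pool.Agent.H53Toric
open Pool.Agent.H76T (IsIdeal Fam tr_skew scalar_skew adjoin_comm)

variable {κ : Type*} [Fintype κ] [DecidableEq κ] {K : Type*} [Field K]

variable [CharZero K] {L : Submodule K (Module.End K (κ → K))} 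

variable [IsAlgClosed K] [Nonempty κ] {m : ℕ} {I : Fin m → Submodule K (Module.End K (κ → K))}

/-- Every minimal ideal contains an involution. -/
theorem CmpN.inv_mem (h : CmpN L) (hF : Fam L I) (k : Fin m) : ∃ y ∈ I k, y * y = 1 := by
  by_contra hcon
  push Not at hcon
  apply hF.ne_bot k
  rw [eq_bot_iff]
  intro X hX
  obtain ⟨c, hc⟩ := h.gen X (fun y hy hy2 => by
    have hy0 : y ≠ 0 := by
      rintro rfl
      rw [mul_zero] at hy2
      exact zero_ne_one hy2
    obtain ⟨j, hj⟩ := hF.one h.irr h.tr hy hy0 (a := 0) (b := -1) (by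
      rw [hy2]; module)
    have hkj : k ≠ j := by
      rintro rfl
      exact hcon y hj hy2
    exact hF.comm k j hkj X hX y hj)
  have h1 := h.tr X ((hF.ideal k).1 hX)
  rw [hc, map_smul, LinearMap.trace_one, smul_eq_mul, mul_eq_zero] at h1
  rw [Submodule.mem_bot, hc]
  rcases h1 with h1 | h1
  · rw [h1, zero_smul]
  · exact absurd h1 (by exact_mod_cast (finrank_pos (R := K) (M := κ → K)).ne')

/-- The dimensions of the two factors. -/
theorem CmpN.dims (h : CmpN L) (hF : Fam L I) {i j : Fin m} (hij : i ≠ j) :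
    ∃ a d : ℕ, finrank K (calg I j) = a * a ∧ finrank K (alg I j) = d * d ∧
      finrank K (κ → K) = a * d ∧ Even a ∧ Even d ∧
      (∀ N ∈ alg I j, ∀ X ∈ alg I j, N * X * N = N → a ∣ finrank K (LinearMap.range N)) ∧
      (∀ N ∈ calg I j, ∀ X ∈ calg I j, N * X * N = N →
        d ∣ finrank K (LinearMap.range N)) := by
  obtain ⟨a, d, ha, hd, hV, h1, h2⟩ := two_rank' (Fam.calg_comm hF j) (Fam.calg_top hF h.irr j)
  have hV0 : 0 < finrank K (κ → K) := finrank_pos
  refine ⟨a, d, ha, hd, hV, ?_, ?_, h1, h2⟩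
  · obtain ⟨y, hy, hy2⟩ := h.inv_mem hF i
    have hf : (1 / 2 : K) • (1 + y) ∈ calg I j :=
      Subalgebra.smul_mem _ (Subalgebra.add_mem _ (Subalgebra.one_mem _) (mem_calg hij hy)) _
    have h3 := h2 _ hf 1 (Subalgebra.one_mem _) (by rw [mul_one, half_idem hy2])
    have h4 := half_rank hy2 (h.tr y ((hF.ideal i).1 hy))
    obtain ⟨t, ht⟩ := h3
    rw [ht, hV] at h4
    have hd0 : 0 < d := by
      rcases Nat.eq_zero_or_pos d with h5 | h5
      · rw [h5, mul_zero] at hV; omega
      · exact h5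
    have h5 : a = 2 * t := by
      apply Nat.eq_of_mul_eq_mul_left hd0
      rw [mul_comm d a, ← h4]; ring
    exact ⟨t, by omega⟩
  · obtain ⟨y, hy, hy2⟩ := h.inv_mem hF j
    have hf : (1 / 2 : K) • (1 + y) ∈ alg I j :=
      Subalgebra.smul_mem _ (Subalgebra.add_mem _ (Subalgebra.one_mem _) (mem_alg hy)) _
    have h3 := h1 _ hf 1 (Subalgebra.one_mem _) (by rw [mul_one, half_idem hy2])
    have h4 := half_rank hy2 (h.tr y ((hF.ideal j).1 hy))
    obtain ⟨t, ht⟩ := h3
    rw [ht, hV] at h4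
    have ha0 : 0 < a := by
      rcases Nat.eq_zero_or_pos a with h5 | h5
      · rw [h5, zero_mul] at hV; omega
      · exact h5
    have h5 : d = 2 * t := by
      apply Nat.eq_of_mul_eq_mul_left ha0
      rw [← h4]; ring
    exact ⟨t, by omega⟩

/-- A partner in the same ideal. -/
theorem CmpN.partner (h : CmpN L) (hF : Fam L I) {j : Fin m} {N : Module.End K (κ → K)}
    (hN : N ∈ I j) (hN2 : N * N = 0) : ∃ X ∈ I j, N * X * N = N := by
  obtain ⟨X, hX, hNX⟩ := exists_partner h.lie h.irr h.tr ((hF.ideal j).1 hN) hN2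
  have h1 : X ∈ ⨆ j, I j := by rw [hF.sup]; exact hX
  obtain ⟨f, hfI, hfX⟩ := (Submodule.mem_iSup_iff_exists_finsupp I X).1 h1
  have hXs : X = f j + ∑ i ∈ Finset.univ.erase j, f i := by
    rw [Finset.add_sum_erase _ _ (Finset.mem_univ j), ← hfX, Finsupp.sum_fintype]
    intro _; rfl
  refine ⟨f j, hfI j, ?_⟩
  have h2 : N * (∑ i ∈ Finset.univ.erase j, f i) * N = 0 := by
    rw [Finset.mul_sum, Finset.sum_mul]
    apply Finset.sum_eq_zero
    intro i hi
    rw [hF.comm j i (Finset.ne_of_mem_erase hi).symm N hN (f i) (hfI i), mul_assoc, hN2,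
      mul_zero]
  have h3 := hNX
  rw [hXs, mul_add, add_mul, h2, add_zero] at h3
  exact h3

end Pool.Agent.H76Y
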