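import Pool.Agent.Lib.H76Y.T1
import Pool.Agent.Lib.H76Y.V2
import Pool.Agent.Lib.H76Y.Y0

/-!
# T4: involutions and minimal ideals
-/

set_option autoImplicit false
set_option linter.unusedSectionVars false
namespace Pool.Agent.H76Y
open Pool.Agent.H76P Pool.Agent.H76V Pool.Agent.H76Q
open Module Matrix Pool.Agent.H53Toric
open Pool.Agent.H76T (IsIdeal Fam)
open Pool.Agent.H76V (Cmp alg calg)

variable {κ : Type*} {K : Type*} [Field K] [CharZero K] [Fintype κ] [DecidableEq κ]
  {L : Submodule K (Module.End K (κ → K))} {J : Matrix κ κ K} {ν : κ → ℚ}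
variable [IsAlgClosed K] [Nonempty κ] {m : ℕ} {I : Fin m → Submodule K (Module.End K (κ → K))}

/-- PROOF. `Fam.one` (H76T.TA2) with `a = 0`, `b = -1` (`dq_sq`; `dq ε ≠ 0` since `κ` is nonempty; `CmpN.tr`, `CmpN.irr`). -/
theorem Hs_mem (h : CmpN L) (hF : Fam L I) {ε : κ → ℚ} (hε : ε ∈ Hs L) : ∃ j, dq ε ∈ I j := by
  have hy2 : (dq ε : Module.End K (κ → K)) * dq ε = 1 := dq_sq hε.1
  have hy0 : (dq ε : Module.End K (κ → K)) ≠ 0 := by
    intro h0
    rw [h0, mul_zero] at hy2
    exact zero_ne_one hy2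
  exact hF.one h.irr h.tr hε.2 hy0 (a := 0) (b := -1) (by rw [hy2]; module)

/-- an element of `L` that commutes with all minimal ideals is zero -/
theorem t4_zero (h : CmpN L) (hF : Fam L I) {X : Module.End K (κ → K)} (hX : X ∈ L)
    (hc : ∀ i, ∀ Y ∈ I i, X * Y = Y * X) : X = 0 := by
  have hc2 : ∀ Y ∈ L, X * Y = Y * X := by
    intro Y hY
    rw [← hF.sup] at hY
    induction hY using Submodule.iSup_induction' with
    | mem j Y hY => exact hc j Y hY
    | zero => rw [mul_zero, zero_mul]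
    | add a b _ _ ha hb => rw [mul_add, add_mul, ha, hb]
  obtain ⟨c, hc3⟩ := h.gen X (fun y hy _ => hc2 y hy)
  have h1 := h.tr X hX
  rw [hc3, map_smul, LinearMap.trace_one, smul_eq_mul, mul_eq_zero] at h1
  rw [hc3]
  rcases h1 with h1 | h1
  · rw [h1, zero_smul]
  · exact absurd h1 (by exact_mod_cast (finrank_pos (R := K) (M := κ → K)).ne')

/-- PROOF. `X j = -∑_{i ≠ j} X i` commutes with every element of `I j` (`hF.comm`) and of `I i`, `i ≠ j`, hence with `L` (`hF.sup`), so it is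
a scalar (`Irr`: `CmpN.gen`, or H76T.Fam.top), of trace zero (`CmpN.tr`, `X j ∈ L`), i.e. zero (`κ` is nonempty, characteristic zero;
`H76T.tr_skew`, `scalar_skew`). -/
theorem indep (h : CmpN L) (hF : Fam L I) {X : Fin m → Module.End K (κ → K)}
    (hX : ∀ i, X i ∈ I i) (h0 : ∑ i, X i = 0) (j : Fin m) : X j = 0 := by
  refine t4_zero h hF ((hF.ideal j).1 (hX j)) fun i Y hY => ?_
  by_cases hij : i = j
  · subst hij
    have h1 : X i = -∑ k ∈ Finset.univ.erase i, X k := by
      rw [← Finset.add_sum_erase _ _ (Finset.mem_univ i)] at h0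
      exact eq_neg_of_add_eq_zero_left h0
    have h2 : (∑ k ∈ Finset.univ.erase i, X k) * Y = Y * ∑ k ∈ Finset.univ.erase i, X k := by
      rw [Finset.sum_mul, Finset.mul_sum]
      refine Finset.sum_congr rfl fun k hk => ?_
      exact hF.comm k i (Finset.ne_of_mem_erase hk) _ (hX k) Y hY
    rw [h1]
    exact (Commute.neg_left h2 : Commute _ _)
  · exact hF.comm j i (Ne.symm hij) _ (hX j) Y hY

end Pool.Agent.H76Y
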