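import Pool.Agent.Lib.H76Y.T4
import Pool.Agent.Lib.H76Y.Y0

/-!
# T7: a minimal ideal is generated by its elements of degree two
-/

set_option autoImplicit false
set_option linter.unusedSectionVars false
namespace Pool.Agent.H76Y
open Pool.Agent.H76P Pool.Agent.H76V Pool.Agent.H76Q
open Module Matrix Pool.Agent.H53Toric
open Pool.Agent.H76T (IsIdeal Fam)
open Pool.Agent.H76V (Cmp alg calg)

section Abs

variable {K : Type*} [Field K] {R : Type*} [Ring R] [Algebra K R]

/-- the elements `X` of `I` with `y X = a X`, `X y = b X` -/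
def t7E (I : Submodule K R) (y : R) (a b : K) : Submodule K R where
  carrier := {X | X ∈ I ∧ y * X = a • X ∧ X * y = b • X}
  add_mem' := by
    rintro X X' ⟨h1, h2, h3⟩ ⟨h1', h2', h3'⟩
    exact ⟨I.add_mem h1 h1', by rw [mul_add, h2, h2', smul_add], by rw [add_mul, h3, h3', smul_add]⟩
  zero_mem' := ⟨I.zero_mem, by rw [mul_zero, smul_zero], by rw [zero_mul, smul_zero]⟩
  smul_mem' := by
    rintro c X ⟨h1, h2, h3⟩
    exact ⟨I.smul_mem _ h1, by rw [mul_smul_comm, h2, smul_comm], by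
      rw [smul_mul_assoc, h3, smul_comm]⟩

/-- the elements `X` of `I` which commute with `y` -/
def t7Z (I : Submodule K R) (y : R) : Submodule K R where
  carrier := {X | X ∈ I ∧ y * X = X * y}
  add_mem' := by
    rintro X X' ⟨h1, h2⟩ ⟨h1', h2'⟩
    exact ⟨I.add_mem h1 h1', by rw [mul_add, h2, h2', add_mul]⟩
  zero_mem' := ⟨I.zero_mem, by rw [mul_zero, zero_mul]⟩
  smul_mem' := by
    rintro c X ⟨h1, h2⟩
    exact ⟨I.smul_mem _ h1, by rw [mul_smul_comm, h2, smul_mul_assoc]⟩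

/-- the span of the brackets -/
def t7B (I : Submodule K R) (y : R) : Submodule K R :=
  Submodule.span K {b | ∃ X ∈ t7E I y (1 : K) (-1), ∃ X' ∈ t7E I y (-1 : K) 1, b = X * X' - X' * X}

/-- the submodule generated by the elements of degree two -/
def t7M (I : Submodule K R) (y : R) : Submodule K R :=
  t7E I y (1 : K) (-1) ⊔ (t7B I y ⊔ t7E I y (-1 : K) 1)

variable {I L : Submodule K R} {y : R}

theorem t7_BZ (hid : ∀ X ∈ I, ∀ Y ∈ I, X * Y - Y * X ∈ I) : t7B I y ≤ t7Z I y := by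
  unfold t7B
  rw [Submodule.span_le]
  rintro b ⟨X, ⟨h1, h2, h3⟩, X', ⟨h1', h2', h3'⟩, rfl⟩
  refine ⟨hid _ h1 _ h1', ?_⟩
  rw [mul_sub, sub_mul, ← mul_assoc, ← mul_assoc, h2, h2', mul_assoc, mul_assoc, h3, h3']
  simp

theorem t7_ZE (hid : ∀ X ∈ I, ∀ Y ∈ I, X * Y - Y * X ∈ I) {a b : K} {W X : R}
    (hW : W ∈ t7Z I y) (hX : X ∈ t7E I y a b) : W * X - X * W ∈ t7E I y a b := by
  obtain ⟨h1, h2⟩ := hW
  obtain ⟨h3, h4, h5⟩ := hX
  refine ⟨hid _ h1 _ h3, ?_, ?_⟩
  · rw [mul_sub, ← mul_assoc, ← mul_assoc, h2, h4, mul_assoc, h4, smul_sub, mul_smul_comm,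
      smul_mul_assoc]
  · rw [sub_mul, mul_assoc, mul_assoc, h5, ← h2, ← mul_assoc, h5, smul_sub, mul_smul_comm,
      smul_mul_assoc]

theorem t7_ZB (hid : ∀ X ∈ I, ∀ Y ∈ I, X * Y - Y * X ∈ I) {W X : R}
    (hW : W ∈ t7Z I y) (hX : X ∈ t7B I y) : W * X - X * W ∈ t7B I y := by
  unfold t7B at hX
  induction hX using Submodule.span_induction with
  | mem b hb =>
    obtain ⟨X, hX, X', hX', rfl⟩ := hb
    have e : W * (X * X' - X' * X) - (X * X' - X' * X) * W =
        ((W * X - X * W) * X' - X' * (W * X - X * W)) +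
          (X * (W * X' - X' * W) - (W * X' - X' * W) * X) := by noncomm_ring
    rw [e]
    refine Submodule.add_mem _ (Submodule.subset_span ?_) (Submodule.subset_span ?_)
    · exact ⟨_, t7_ZE hid hW hX, _, hX', rfl⟩
    · exact ⟨_, hX, _, t7_ZE hid hW hX', rfl⟩
  | zero => rw [mul_zero, zero_mul, sub_zero]; exact Submodule.zero_mem _
  | add a b _ _ ha hb =>
    have e : W * (a + b) - (a + b) * W = (W * a - a * W) + (W * b - b * W) := by noncomm_ring
    rw [e]
    exact Submodule.add_mem _ ha hb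
  | smul c a _ ha =>
    have e : W * (c • a) - (c • a) * W = c • (W * a - a * W) := by
      rw [mul_smul_comm, smul_mul_assoc, smul_sub]
    rw [e]
    exact Submodule.smul_mem _ _ ha

variable [CharZero K]

theorem t7_EE {a : K} (ha : a ≠ 0) {W X : R} (hW : W ∈ t7E I y a (-a)) (hX : X ∈ t7E I y a (-a)) :
    W * X = 0 := by
  obtain ⟨-, -, h2⟩ := hW
  obtain ⟨-, h3, -⟩ := hX
  have h4 : W * y * X = W * (y * X) := mul_assoc _ _ _
  rw [h2, h3, mul_smul_comm, smul_mul_assoc, neg_smul] at h4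
  have h5 : (2 * a) • (W * X) = 0 := by
    rw [two_mul, add_smul]
    nth_rw 1 [← h4]
    rw [neg_add_cancel]
  exact (smul_eq_zero.1 h5).resolve_left (by simpa using ha)

/-- the submodule is stable under the three parts -/
theorem t7_stab (hid : ∀ X ∈ I, ∀ Y ∈ I, X * Y - Y * X ∈ I) {W : R}
    (hW : W ∈ t7E I y (1 : K) (-1) ∨ W ∈ t7E I y (-1 : K) 1 ∨ W ∈ t7Z I y) :
    ∀ X ∈ t7M I y, W * X - X * W ∈ t7M I y := by
  have hP : t7E I y (1 : K) (-1) ≤ t7M I y := le_sup_left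
  have hB : t7B I y ≤ t7M I y := le_sup_left.trans le_sup_right
  have hN : t7E I y (-1 : K) 1 ≤ t7M I y := le_sup_right.trans le_sup_right
  -- the three kinds of elements
  have key : ∀ X, (X ∈ t7E I y (1 : K) (-1) ∨ X ∈ t7B I y ∨ X ∈ t7E I y (-1 : K) 1) →
      W * X - X * W ∈ t7M I y := by
    intro X hX
    rcases hW with hW | hW | hW
    · rcases hX with hX | hX | hX
      · rw [t7_EE one_ne_zero hW hX, t7_EE one_ne_zero hX hW, sub_zero]
        exact Submodule.zero_mem _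
      · rw [← neg_sub]
        exact Submodule.neg_mem _ (hP (t7_ZE hid (t7_BZ hid hX) hW))
      · exact hB (Submodule.subset_span ⟨W, hW, X, hX, rfl⟩)
    · rcases hX with hX | hX | hX
      · rw [← neg_sub]
        exact Submodule.neg_mem _ (hB (Submodule.subset_span ⟨X, hX, W, hW, rfl⟩))
      · rw [← neg_sub]
        exact Submodule.neg_mem _ (hN (t7_ZE hid (t7_BZ hid hX) hW))
      · have h0 : (-1 : K) ≠ 0 := neg_ne_zero.2 one_ne_zero
        have hW' : W ∈ t7E I y (-1 : K) (-(-1)) := by rw [neg_neg]; exact hW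
        have hX' : X ∈ t7E I y (-1 : K) (-(-1)) := by rw [neg_neg]; exact hX
        rw [t7_EE h0 hW' hX', t7_EE h0 hX' hW', sub_zero]
        exact Submodule.zero_mem _
    · rcases hX with hX | hX | hX
      · exact hP (t7_ZE hid hW hX)
      · exact hB (t7_ZB hid hW hX)
      · exact hN (t7_ZE hid hW hX)
  have hlin : ∀ A B : R, W * A - A * W ∈ t7M I y → W * B - B * W ∈ t7M I y →
      W * (A + B) - (A + B) * W ∈ t7M I y := by
    intro A B hA hB
    have e : W * (A + B) - (A + B) * W = (W * A - A * W) + (W * B - B * W) := by noncomm_ring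
    rw [e]
    exact Submodule.add_mem _ hA hB
  intro X hX
  obtain ⟨A, hA, X', hX', rfl⟩ := Submodule.mem_sup.1 hX
  obtain ⟨B, hB', C, hC, rfl⟩ := Submodule.mem_sup.1 hX'
  exact hlin _ _ (key A (Or.inl hA)) (hlin _ _ (key B (Or.inr (Or.inl hB')))
    (key C (Or.inr (Or.inr hC))))

theorem t7_le (hid : ∀ X ∈ I, ∀ Y ∈ I, X * Y - Y * X ∈ I) : t7M I y ≤ I := by
  refine sup_le (fun X hX => hX.1) (sup_le (fun X hX => (t7_BZ hid hX).1) (fun X hX => hX.1))

/-- the decomposition -/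
theorem t7_dec (hid : ∀ X ∈ I, ∀ Y ∈ I, X * Y - Y * X ∈ I) (hy : y ∈ I) (hyy : y * y = 1) {W : R}
    (hW : W ∈ I) : ∃ A ∈ t7E I y (1 : K) (-1), ∃ B ∈ t7E I y (-1 : K) 1, ∃ C ∈ t7Z I y,
      W = A + B + C ∧ y * W - W * y = (2 : K) • A - (2 : K) • B := by
  have h1 : y * W - W * y ∈ I := hid _ hy _ hW
  have h2 : W - y * W * y ∈ I := by
    have h3 : y * (y * W - W * y) - (y * W - W * y) * y ∈ I := hid _ hy _ h1
    have e : y * (y * W - W * y) - (y * W - W * y) * y = (2 : K) • (W - y * W * y) := by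
      rw [mul_sub, sub_mul, ← mul_assoc, hyy, one_mul, mul_assoc W y y, hyy, mul_one, two_smul,
        ← mul_assoc]
      abel
    rw [e] at h3
    have h4 := I.smul_mem (2 : K)⁻¹ h3
    rwa [smul_smul, inv_mul_cancel₀ (two_ne_zero), one_smul] at h4
  have y1 : y * (y * W * y) = W * y := by rw [← mul_assoc, ← mul_assoc, hyy, one_mul]
  have y2 : y * W * y * y = y * W := by rw [mul_assoc, hyy, mul_one]
  have y3 : y * (y * W) = W := by rw [← mul_assoc, hyy, one_mul]
  have y4 : W * y * y = W := by rw [mul_assoc, hyy, mul_one]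
  have y5 : y * (W * y) = y * W * y := by rw [mul_assoc]
  refine ⟨(4 : K)⁻¹ • ((W - y * W * y) + (y * W - W * y)), ⟨I.smul_mem _ (I.add_mem h2 h1), ?_, ?_⟩,
    (4 : K)⁻¹ • ((W - y * W * y) - (y * W - W * y)), ⟨I.smul_mem _ (I.sub_mem h2 h1), ?_, ?_⟩,
    W - (2 : K)⁻¹ • (W - y * W * y), ⟨I.sub_mem hW (I.smul_mem _ h2), ?_⟩, ?_, ?_⟩
  · rw [mul_smul_comm, one_smul, mul_add, mul_sub, mul_sub, y1, y3, y5]
    congr 1
    abel
  · rw [smul_mul_assoc, add_mul, sub_mul, sub_mul, y2, y4, smul_comm, neg_smul, one_smul]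
    congr 1
    abel
  · rw [mul_smul_comm, mul_sub, mul_sub, mul_sub, y1, y3, y5, smul_comm, neg_smul, one_smul]
    congr 1
    abel
  · rw [smul_mul_assoc, sub_mul, sub_mul, sub_mul, y2, y4, one_smul]
    congr 1
    abel
  · rw [mul_sub, sub_mul, mul_smul_comm, smul_mul_assoc, mul_sub, sub_mul, y1, y2]
    module
  · module
  · module

/-- the abstract form -/
theorem t7_abs (hIL : I ≤ L) (hid : ∀ X ∈ L, ∀ Y ∈ I, X * Y - Y * X ∈ I) (hy : y ∈ I)
    (hyy : y * y = 1)
    (hL : ∀ S : Submodule K R, I ≤ S → (∀ W, (∀ X ∈ I, W * X = X * W) → W ∈ S) → L ≤ S)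
    (hmin : ∀ J : Submodule K R, J ≤ L → (∀ X ∈ L, ∀ Y ∈ J, X * Y - Y * X ∈ J) → J ≤ I →
      J = ⊥ ∨ J = I)
    (hnc : ∃ W ∈ I, y * W ≠ W * y) {Z : R}
    (hZ : ∀ X ∈ I, (y * X - X * y = (2 : K) • X ∨ y * X - X * y = (-2 : K) • X) →
      Z * X = X * Z) :
    ∀ X ∈ I, Z * X = X * Z := by
  have hid' : ∀ X ∈ I, ∀ Y ∈ I, X * Y - Y * X ∈ I := fun X hX => hid X (hIL hX)
  have hle : t7M I y ≤ I := t7_le hid'
  let S : Submodule K R :=
    { carrier := {W | ∀ X ∈ t7M I y, W * X - X * W ∈ t7M I y}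
      add_mem' := by
        intro A B hA hB X hX
        have e : (A + B) * X - X * (A + B) = (A * X - X * A) + (B * X - X * B) := by noncomm_ring
        rw [e]
        exact Submodule.add_mem _ (hA X hX) (hB X hX)
      zero_mem' := by
        intro X hX
        rw [zero_mul, mul_zero, sub_zero]
        exact Submodule.zero_mem _
      smul_mem' := by
        intro c A hA X hX
        rw [smul_mul_assoc, mul_smul_comm, ← smul_sub]
        exact Submodule.smul_mem _ _ (hA X hX) }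
  have hS : L ≤ S := by
    apply hL
    · intro W hW
      obtain ⟨A, hA, B, hB, C, hC, rfl, -⟩ := t7_dec hid' hy hyy hW
      exact S.add_mem (S.add_mem (t7_stab hid' (Or.inl hA)) (t7_stab hid' (Or.inr (Or.inl hB))))
        (t7_stab hid' (Or.inr (Or.inr hC)))
    · intro W hW X hX
      rw [hW X (hle hX), sub_self]
      exact Submodule.zero_mem _
  rcases hmin (t7M I y) (hle.trans hIL) (fun X hX Y hY => hS hX Y hY) hle with h0 | h0
  · exfalso
    obtain ⟨W, hW, hW2⟩ := hnc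
    obtain ⟨A, hA, B, hB, C, -, -, h1⟩ := t7_dec hid' hy hyy hW
    have hA0 : A ∈ t7M I y := Submodule.mem_sup_left hA
    have hB0 : B ∈ t7M I y := Submodule.mem_sup_right (Submodule.mem_sup_right hB)
    rw [h0, Submodule.mem_bot] at hA0 hB0
    rw [hA0, hB0, smul_zero, sub_zero] at h1
    exact hW2 (sub_eq_zero.1 h1)
  · have hP : ∀ X ∈ t7E I y (1 : K) (-1), Z * X = X * Z := by
      rintro X ⟨h1, h2, h3⟩
      refine hZ X h1 (Or.inl ?_)
      rw [h2, h3]
      module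
    have hN : ∀ X ∈ t7E I y (-1 : K) 1, Z * X = X * Z := by
      rintro X ⟨h1, h2, h3⟩
      refine hZ X h1 (Or.inr ?_)
      rw [h2, h3]
      module
    have hB : ∀ X ∈ t7B I y, Z * X = X * Z := by
      intro X hX
      unfold t7B at hX
      induction hX using Submodule.span_induction with
      | mem b hb =>
        obtain ⟨X, hX, X', hX', rfl⟩ := hb
        have e1 := hP X hX
        have e2 := hN X' hX'
        rw [mul_sub, sub_mul, ← mul_assoc, ← mul_assoc, e1, e2, mul_assoc, mul_assoc, e1, e2,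
          mul_assoc, mul_assoc]
      | zero => rw [mul_zero, zero_mul]
      | add a b _ _ ha hb => rw [mul_add, add_mul, ha, hb]
      | smul c a _ ha => rw [mul_smul_comm, smul_mul_assoc, ha]
    intro X hX
    rw [← h0] at hX
    obtain ⟨A, hA, X', hX', rfl⟩ := Submodule.mem_sup.1 hX
    obtain ⟨B, hB', C, hC, rfl⟩ := Submodule.mem_sup.1 hX'
    rw [mul_add, add_mul, mul_add, add_mul, hP A hA, hB B hB', hN C hC]

end Abs

variable {κ : Type*} {K : Type*} [Field K] [CharZero K] [Fintype κ] [DecidableEq κ]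
  {L : Submodule K (Module.End K (κ → K))} {J : Matrix κ κ K}
variable [IsAlgClosed K] [Nonempty κ] {m : ℕ} {I : Fin m → Submodule K (Module.End K (κ → K))}

/-- PROOF. Write `ad X = y * X - X * y`.  As `y * y = 1`, `ad (ad X) = 2 X - 2 y X y` and `ad (ad (ad X)) = 4 ad X`.
For `X ∈ I j` put `X₊ = (1 / 8) (ad (ad X) + 2 ad X)`, `X₋ = (1 / 8) (ad (ad X) - 2 ad X)`, `X₀ = X - X₊ - X₋`; all in `I j` (`y ∈ I j ≤ L`),
`ad X₊ = 2 X₊`, `ad X₋ = -2 X₋`, `ad X₀ = 0`.  Let `P = {X ∈ I j | ad X = 2 X}`, `N = {X ∈ I j | ad X = -2 X}`, and let `B` be the span of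
the `X * X' - X' * X`, `X ∈ P`, `X' ∈ N`; `M = P + B + N`.  `M` is an ideal of `L`: elements of `I i`, `i ≠ j`, commute with `I j`
(`hF.comm`, `hF.sup`: induction over the supremum), and for `X ∈ I j` treat `X₀`, `X₊`, `X₋` separately.  `[X₀, P] ⊆ P`,
`[X₀, N] ⊆ N` and `[X₀, B] ⊆ B` by the Jacobi identity.  `[P, P] = 0`: `ad X = 2 X` means `X = p X (1 - p)` with the idempotent
`p = (1 + y) / 2`, so `X X' = 0` for `X`, `X' ∈ P`; in the same way `[N, N] = 0`.  `[P, N] ⊆ B`.  `[P, B] ⊆ P`: `ad` of an element of `B` is `0`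
(Jacobi), so `ad [X, Z] = 2 [X, Z]` for `X ∈ P`, `Z ∈ B`, and `[X, Z] ∈ I j`.  The same for `N`.
`M ≠ ⊥`: otherwise `X₊ = X₋ = 0` for all `X ∈ I j`, `y` commutes with `I j`, hence with `L`, so `y` is a scalar (`h.gen`) of trace zero
(`h.tr`), so `y = 0`, contradiction to `y * y = 1`.  So `M = I j` (`hF.min`).  `Z` commutes with `P`, `N`, hence with `B` and with `M`. -/
theorem gen_of_grading (h : CmpN L) (hF : Fam L I) {j : Fin m} {y : Module.End K (κ → K)}
    (hy : y ∈ I j) (hyy : y * y = 1) {Z : Module.End K (κ → K)}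
    (hZ : ∀ X ∈ I j, (y * X - X * y = (2 : K) • X ∨ y * X - X * y = (-2 : K) • X) →
      Z * X = X * Z) :
    ∀ X ∈ I j, Z * X = X * Z := by
  refine t7_abs (hF.ideal j).1 (hF.ideal j).2 hy hyy ?_ ?_ ?_ hZ
  · intro S hS1 hS2
    rw [← hF.sup]
    refine iSup_le fun i => ?_
    by_cases hij : i = j
    · rw [hij]
      exact hS1
    · intro W hW
      exact hS2 W fun X hX => hF.comm i j hij W hW X hX
  · intro J' h1 h2 h3
    exact hF.min j J' ⟨h1, h2⟩ h3
  · by_contra hcon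
    push Not at hcon
    have h1 : y = 0 := t4_zero h hF ((hF.ideal j).1 hy) fun i Y hY => by
      by_cases hij : i = j
      · subst hij
        exact hcon Y hY
      · exact hF.comm j i (Ne.symm hij) y hy Y hY
    rw [h1, mul_zero] at hyy
    exact zero_ne_one hyy

end Pool.Agent.H76Y
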