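import Pool.Agent.Lib.H76Y.T1
import Pool.Agent.Lib.H76Y.T2
import Pool.Agent.Lib.H76Y.T4
import Pool.Agent.Lib.H76Y.T8
import Pool.Agent.Lib.H76Y.T9
import Pool.Agent.Lib.H76Y.T13
import Pool.Agent.Lib.H76P.T12
import Pool.Agent.Lib.H76Q.Q0
import Pool.Agent.Lib.H76Y.Y0

/-!
# A1: the component without assumption on the valuation (copies of parts of H76P.T1, T2, T4, T10, T11)
-/

set_option autoImplicit false
set_option linter.unusedSectionVars false
namespace Pool.Agent.H76Y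
open Pool.Agent.H76P Pool.Agent.H76V Pool.Agent.H76Q
open Module Matrix Pool.Agent.H53Toric
open Pool.Agent.H76P
open Pool.Agent.H76T (IsIdeal Fam)
open Pool.Agent.H76V (Cmp alg calg)

variable {κ : Type*} {K : Type*} [Field K] [CharZero K] [Fintype κ] [DecidableEq κ]
  {L : Submodule K (Module.End K (κ → K))} {J : Matrix κ κ K}

/-- PROOF. The entry `(a, b)` of the matrix of `X` (`a ≠ b`) is zero: with `f` as in `TM.sep` compare the entries `(a, b)` of
`X * dq f` and `dq f * X`. -/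
theorem TM.diag_of_comm (h : TM L) {X : Module.End K (κ → K)}
    (hX : ∀ f ∈ Yo L, X * dq f = dq f * X) : ∃ g : κ → K, X = dg g := by
  have hz : ∀ a b : κ, a ≠ b → X (Pi.single b 1) a = 0 := by
    intro a b hab
    obtain ⟨f, hf, hne⟩ := h.sep a b hab
    have h1 := congrFun (congrArg (fun T : Module.End K (κ → K) => T (Pi.single b 1)) (hX f hf)) a
    simp only [Module.End.mul_apply] at h1
    have h2 : (dq f : Module.End K (κ → K)) (Pi.single b 1) = (f b : K) • Pi.single b (1 : K) := by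
      funext c
      unfold dq
      rw [dg_apply, Pi.smul_apply, smul_eq_mul]
      by_cases hc : c = b
      · rw [hc]
      · rw [Pi.single_eq_of_ne hc, mul_zero, mul_zero]
    rw [h2, map_smul, Pi.smul_apply, smul_eq_mul] at h1
    unfold dq at h1
    rw [dg_apply] at h1
    have h3 : ((f b : K) - (f a : K)) * X (Pi.single b 1) a = 0 := by
      rw [sub_mul, h1, sub_self]
    rcases mul_eq_zero.1 h3 with h4 | h4
    · exfalso
      apply hne
      have h5 : (f b : K) = (f a : K) := sub_eq_zero.1 h4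
      exact_mod_cast h5.symm
    · exact h4
  refine ⟨fun a => X (Pi.single a 1) a, ?_⟩
  refine LinearMap.pi_ext' fun b => LinearMap.ext_ring (funext fun a => ?_)
  show X (Pi.single b 1) a = dg (fun a => X (Pi.single a 1) a) (Pi.single b 1) a
  rw [dg_apply]
  by_cases hab : a = b
  · rw [hab, Pi.single_eq_same, mul_one]
  · rw [hz a b hab, Pi.single_eq_of_ne hab, mul_zero]

/-- PROOF. `TM.sep`. -/
theorem TM.pt_inj (h : TM L) : Function.Injective (pt L) := by
  intro a b hab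
  by_contra hne
  obtain ⟨f, hf, hfab⟩ := h.sep a b hne
  apply hfab
  have h1 := congrArg (fun φ : Module.Dual ℚ (Yo L) => φ ⟨f, hf⟩) hab
  exact h1

variable [IsAlgClosed K] [Nonempty κ] {m : ℕ} {I : Fin m → Submodule K (Module.End K (κ → K))}

/-- PROOF. If not, every `ε ∈ Hs L` is in some `I i` with `i ≠ j` (`Hs_mem`), so `dq ε` commutes with all `X ∈ I j` (`hF.comm`), so
`dq f` commutes with `X` for all `f ∈ Yo L`, so all elements of `I j` are diagonal (`TM.diag_of_comm`) and commute with each other.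
They commute with the elements of `I i`, `i ≠ j`, too, so they commute with `L`; they are scalars of trace zero, and `I j = ⊥`,
contradiction to `hF.ne_bot`. -/
theorem TM.exists_diag (h : TM L) (hF : Fam L I) (j : Fin m) :
    ∃ f ∈ Yo L, f ≠ 0 ∧ dq f ∈ I j := by
  by_contra hcon
  push Not at hcon
  have h1 : ∀ X ∈ I j, ∀ f ∈ Yo L, X * dq f = dq f * X := by
    intro X hX f hf
    unfold Yo at hf
    induction hf using Submodule.span_induction with
    | mem ε hε =>
      obtain ⟨i, hi⟩ := Hs_mem h.cmp hF hε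
      have hij : j ≠ i := by
        rintro rfl
        refine hcon ε (Submodule.subset_span hε) ?_ hi
        intro h0
        obtain ⟨a⟩ := ‹Nonempty κ›
        have h2 := congrFun h0 a
        rcases hε.1 a with h3 | h3 <;> rw [h3] at h2 <;> simp at h2
      exact hF.comm j i hij X hX _ hi
    | zero =>
      have h2 : (dq (0 : κ → ℚ) : Module.End K (κ → K)) = 0 := by
        refine LinearMap.ext fun v => funext fun a => ?_
        simp [dq, dg_apply]
      rw [h2, mul_zero, zero_mul]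
    | add f g _ _ hf hg => rw [dq_add, mul_add, add_mul, hf, hg]
    | smul c f _ hf => rw [dq_smul, mul_smul_comm, smul_mul_assoc, hf]
  apply hF.ne_bot j
  rw [eq_bot_iff]
  intro X hX
  rw [Submodule.mem_bot]
  refine t4_zero h.cmp hF ((hF.ideal j).1 hX) fun i Y hY => ?_
  by_cases hij : i = j
  · subst hij
    obtain ⟨g, rfl⟩ := h.diag_of_comm (h1 X hX)
    obtain ⟨g', rfl⟩ := h.diag_of_comm (h1 Y hY)
    rw [dg_mul, dg_mul, mul_comm]
  · exact hF.comm j i (Ne.symm hij) X hX Y hY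

/-- an operator of weight zero is diagonal -/
theorem ts_diag (h : TM L) {δ : Module.Dual ℚ (Yo L)} (hδ : δ = 0)
    {X : Module.End K (κ → K)} (hX : IsWt L δ X) : ∃ g : κ → K, X = dg g := by
  apply h.diag_of_comm
  intro f hf
  have h1 := hX ⟨f, hf⟩
  rw [hδ, LinearMap.zero_apply, Rat.cast_zero, zero_smul, sub_eq_zero] at h1
  exact h1.symm

/-- PROOF. `e = X * Y` and `e' = Y * X` are idempotent, `e * e' = X Y Y X = 0`, `e' * e = Y X X Y = 0`; both have weight `0`
(`IsWt.mul`), i.e. they commute with all `dq f`, `f ∈ Yo L`, so `e = dg g`, `e' = dg g'` (`TM.diag_of_comm`) with `g a, g' a ∈ {0, 1}`,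
`g a * g' a = 0` (`dg_mul`, `dg_inj`).  Let `fv a = (if g a = 1 then 1 else 0) - (if g' a = 1 then 1 else 0)`.  `dq fv = e - e' = [X, Y] ∈ I j ≤ L`, so
`fv ∈ Yo L` (`h.diag`).  `e' ≠ 0` since `X * e' = X ≠ 0`, so there is `a` with `g' a = 1`, `fv a = -1`.  If `fv c = -1` then `g' c = 1`; let `u` be the
basis vector `Pi.single c 1`, `w = X u`; `Y w = e' u = u`, so `w ≠ 0`; let `w d ≠ 0`: the entry `(d, c)` of `X` is not zero, so
`pt L d - pt L c = δ` (`IsWt.entry`); `e w = X Y X u = w`, so `g d * w d = w d`, `g d = 1`, `fv d = 1`.  The same for `fv c = 1` with `Y`, `e`. -/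
theorem TM.coroot (h : TM L) (hF : Fam L I) {j : Fin m} {X Y : Module.End K (κ → K)}
    (hX : X ∈ I j) (hY : Y ∈ I j) (hX0 : X ≠ 0) {δ : Module.Dual ℚ (Yo L)}
    (hwX : IsWt L δ X) (hwY : IsWt L (-δ) Y) (hXX : X * X = 0) (hYY : Y * Y = 0)
    (hXYX : X * Y * X = X) (hYXY : Y * X * Y = Y) :
    ∃ fv ∈ Yo L, (∀ a, fv a = -1 ∨ fv a = 0 ∨ fv a = 1) ∧ (∃ a, fv a = -1) ∧
      (∀ c, fv c = -1 → ∃ d, pt L d = pt L c + δ ∧ fv d = 1) ∧
      (∀ c, fv c = 1 → ∃ d, pt L d = pt L c - δ ∧ fv d = -1) := by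
  classical
  obtain ⟨g, hg⟩ := ts_diag h (add_neg_cancel δ) (hwX.mul hwY)
  obtain ⟨g', hg'⟩ := ts_diag h (neg_add_cancel δ) (hwY.mul hwX)
  have hgg : ∀ a, g a = 0 ∨ g a = 1 := by
    intro a
    have h1 : dg (g * g) = dg g := by
      rw [← dg_mul, ← hg, ← mul_assoc, hXYX]
    have h2 := congrFun (dg_inj h1) a
    rw [Pi.mul_apply] at h2
    have h3 : g a * (g a - 1) = 0 := by linear_combination h2
    rcases mul_eq_zero.1 h3 with h4 | h4
    · exact Or.inl h4
    · exact Or.inr (sub_eq_zero.1 h4)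
  have hgg' : ∀ a, g' a = 0 ∨ g' a = 1 := by
    intro a
    have h1 : dg (g' * g') = dg g' := by
      rw [← dg_mul, ← hg', ← mul_assoc, hYXY]
    have h2 := congrFun (dg_inj h1) a
    rw [Pi.mul_apply] at h2
    have h3 : g' a * (g' a - 1) = 0 := by linear_combination h2
    rcases mul_eq_zero.1 h3 with h4 | h4
    · exact Or.inl h4
    · exact Or.inr (sub_eq_zero.1 h4)
  have hmul : ∀ a, g a * g' a = 0 := by
    intro a
    have h1 : dg (g * g') = dg (0 : κ → K) := by
      rw [← dg_mul, ← hg, ← hg']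
      have h2 : X * Y * (Y * X) = X * (Y * Y) * X := by noncomm_ring
      rw [h2, hYY, mul_zero, zero_mul]
      refine LinearMap.ext fun v => funext fun b => ?_
      simp [dg_apply]
    exact congrFun (dg_inj h1) a
  set fv : κ → ℚ := fun a => (if g a = 1 then 1 else 0) - (if g' a = 1 then 1 else 0) with hfv
  have hval : ∀ a, (g a = 0 ∧ g' a = 0 ∧ fv a = 0) ∨ (g a = 1 ∧ g' a = 0 ∧ fv a = 1) ∨
      (g a = 0 ∧ g' a = 1 ∧ fv a = -1) := by
    intro a
    have h0 := hmul a
    rcases hgg a with h1 | h1 <;> rcases hgg' a with h2 | h2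
    · left
      exact ⟨h1, h2, by simp [hfv, h1, h2]⟩
    · right; right
      exact ⟨h1, h2, by simp [hfv, h1, h2]⟩
    · right; left
      exact ⟨h1, h2, by simp [hfv, h1, h2]⟩
    · rw [h1, h2, mul_one] at h0
      exact absurd h0 one_ne_zero
  have hdq : (dq fv : Module.End K (κ → K)) = X * Y - Y * X := by
    rw [hg, hg']
    refine LinearMap.ext fun v => funext fun a => ?_
    rw [LinearMap.sub_apply, Pi.sub_apply, dg_apply, dg_apply, dq, dg_apply]
    rcases hval a with ⟨h1, h2, h3⟩ | ⟨h1, h2, h3⟩ | ⟨h1, h2, h3⟩ <;> rw [h1, h2, h3] <;>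
      push_cast <;> ring
  have hL : (dq fv : Module.End K (κ → K)) ∈ L := by
    rw [hdq]
    exact (hF.ideal j).1 ((hF.ideal j).2 X ((hF.ideal j).1 hX) Y hY)
  refine ⟨fv, h.diag fv hL, ?_, ?_, ?_, ?_⟩
  · intro a
    rcases hval a with ⟨-, -, h3⟩ | ⟨-, -, h3⟩ | ⟨-, -, h3⟩
    · exact Or.inr (Or.inl h3)
    · exact Or.inr (Or.inr h3)
    · exact Or.inl h3
  · by_contra hcon
    push Not at hcon
    apply hX0
    have h1 : g' = 0 := by
      ext a
      rcases hval a with ⟨-, h2, -⟩ | ⟨-, h2, -⟩ | ⟨-, -, h3⟩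
      · exact h2
      · exact h2
      · exact absurd h3 (hcon a)
    have h2 : Y * X = 0 := by
      rw [hg', h1]
      refine LinearMap.ext fun v => funext fun b => ?_
      simp [dg_apply]
    rw [← hXYX, mul_assoc, h2, mul_zero]
  · intro c hc
    have hc' : g' c = 1 := by
      rcases hval c with ⟨-, -, h3⟩ | ⟨-, -, h3⟩ | ⟨-, h2, -⟩
      · rw [h3] at hc; norm_num at hc
      · rw [h3] at hc; norm_num at hc
      · exact h2
    obtain ⟨d, hd1, hd2⟩ := t10_entry hwX hXYX hg hg' hc'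
    refine ⟨d, ?_, ?_⟩
    · rw [← hd1]; abel
    · rcases hval d with ⟨h1, -, -⟩ | ⟨-, -, h3⟩ | ⟨h1, -, -⟩
      · rw [h1] at hd2; exact absurd hd2 zero_ne_one
      · exact h3
      · rw [h1] at hd2; exact absurd hd2 zero_ne_one
  · intro c hc
    have hc' : g c = 1 := by
      rcases hval c with ⟨-, -, h3⟩ | ⟨h1, -, -⟩ | ⟨-, -, h3⟩
      · rw [h3] at hc; norm_num at hc
      · exact h1
      · rw [h3] at hc; norm_num at hc
    obtain ⟨d, hd1, hd2⟩ := t10_entry hwY hYXY hg' hg hc'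
    refine ⟨d, ?_, ?_⟩
    · rw [sub_eq_iff_eq_add'] at hd1
      rw [hd1, sub_eq_add_neg]
    · rcases hval d with ⟨-, h2, -⟩ | ⟨-, h2, -⟩ | ⟨-, -, h3⟩
      · rw [h2] at hd2; exact absurd hd2 zero_ne_one
      · rw [h2] at hd2; exact absurd hd2 zero_ne_one
      · exact h3

/-- PROOF. Notation: `V = Dual ℚ (Yo L)`, `π = P.dualMap`, so `(π u) f = u (P f)`; `q * π = q`; by `Spl.comm` also `π * q = q`.
(1) There is `ε ∈ Hs L` with `(q u) ε = u ε` for all `u`: `q ≠ 0`, so there are `u`, `f` with `(q u) f ≠ 0`; `f` is in the span of `Hs L`, so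
`(q u) ε ≠ 0` for some `ε ∈ Hs L` (as an element of `Yo L`); apply `two_values` (C6) with the functional `u ↦ u ε` on `V`.
For all `u`: `u (P ε) = (π u) ε = (q (π u)) ε = ((q * π) u) ε = (q u) ε = u ε`, so `P ε = ε` and `dq ε ∈ I j` (`hP1`).
(2) There is `f' : Yo L`, `f' ≠ 0`, `P f' = f'`, `(q u) f' = 0` for all `u`: `r = π - q ≠ 0`, so `(r u) f ≠ 0` for some `u`, `f`.  As `Yo L` is finite
dimensional, there is `f'` with `u f' = (r u) f` for all `u` (the functional `u ↦ (r u) f` on `V`, reflexivity).  `f' ≠ 0`.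
`(q u) f' = (r (q u)) f = ((π * q - q * q) u) f = 0`.  `u (P f') = (π u) f' = (r (π u)) f = ((π * π - q * π) u) f = (r u) f = u f'`, so `P f' = f'` and
`dq f' ∈ I j`.
(3) `mixed_root` for `ε`, `f'` gives `X`, `a`, `b`; let `δ = pt L a - pt L b`.  `(q δ) ε = δ ε = ε a - ε b ≠ 0`, so `q δ ≠ 0`.
`((1 - q) δ) f' = δ f' = f' a - f' b ≠ 0`, so `(1 - q) δ ≠ 0`.
(4) `sl2_pair`, `coroot` give `fv`; `root_two` (C7) with the functional `u ↦ u fv`. -/
theorem TM.atom_two (h : TM L) (hF : Fam L I) {j : Fin m} {P : Module.End ℚ (Yo L)}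
    (hP1 : ∀ f, dq (P f : κ → ℚ) ∈ I j)
    (hP2 : ∀ f : Yo L, dq (f : κ → ℚ) ∈ I j → P f = f) (hPS : Spl (pt L) P.dualMap)
    {q : Module.End ℚ (Module.Dual ℚ (Yo L))} (hq : Atom (pt L) q) (hqP : q * P.dualMap = q)
    (hne : q ≠ P.dualMap) : cnt (pt L) q = 2 := by
  have hs : Spans (pt L) := pt_spans h.cmp
  have hcomm := Spl.comm hs hq.1 hPS
  have hπq : ∀ u, P.dualMap (q u) = q u := fun u => by
    have h1 : (P.dualMap * q) u = q u := by rw [← hcomm, hqP]
    exact h1
  have hqπ : ∀ u, q (P.dualMap u) = q u := fun u => by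
    have h1 : (q * P.dualMap) u = q u := by rw [hqP]
    exact h1
  have hππ : ∀ u, P.dualMap (P.dualMap u) = P.dualMap u := fun u => by
    have h1 : (P.dualMap * P.dualMap) u = P.dualMap u := by rw [hPS.1]
    exact h1
  have hqq : ∀ u, q (q u) = q u := fun u => by
    have h1 : (q * q) u = q u := by rw [hq.1.1]
    exact h1
  have hπ : ∀ (u : Module.Dual ℚ (Yo L)) (f : Yo L), u (P f) = P.dualMap u f := fun u f => by
    rw [LinearMap.dualMap_apply]
  have hsep : ∀ f g : Yo L, (∀ u : Module.Dual ℚ (Yo L), u f = u g) → f = g := by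
    intro f g hfg
    rw [← sub_eq_zero, ← Module.forall_dual_apply_eq_zero_iff ℚ]
    intro u
    rw [map_sub, hfg u, sub_self]
  -- (1)
  have hstep1 : ∃ (ε : κ → ℚ) (hε : ε ∈ Hs L), ∀ u : Module.Dual ℚ (Yo L),
      q u ⟨ε, Submodule.subset_span hε⟩ = u ⟨ε, Submodule.subset_span hε⟩ := by
    have h1 : ∃ u, q u ≠ 0 := by
      by_contra h2
      push Not at h2
      exact hq.2.1 (LinearMap.ext h2)
    obtain ⟨u, hu⟩ := h1
    have h2 : ∃ (ε : κ → ℚ) (hε : ε ∈ Hs L), q u ⟨ε, Submodule.subset_span hε⟩ ≠ 0 := by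
      by_contra h3
      push Not at h3
      apply hu
      refine LinearMap.ext fun f => ?_
      obtain ⟨f, hf⟩ := f
      rw [LinearMap.zero_apply]
      have key : ∀ (f : κ → ℚ) (hf : f ∈ Submodule.span ℚ (Hs L)), q u ⟨f, hf⟩ = 0 := by
        intro f hf
        induction hf using Submodule.span_induction with
        | mem ε hε => exact h3 ε hε
        | zero => exact map_zero (q u)
        | add a b ha hb ha' hb' =>
          have e : (⟨a + b, Submodule.add_mem _ ha hb⟩ : Yo L) = ⟨a, ha⟩ + ⟨b, hb⟩ := rfl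
          exact (congrArg (q u) e).trans (by rw [map_add, ha', hb', add_zero])
        | smul c a ha ha' =>
          have e : (⟨c • a, Submodule.smul_mem _ c ha⟩ : Yo L) = c • ⟨a, ha⟩ := rfl
          exact (congrArg (q u) e).trans (by rw [map_smul, ha', smul_zero])
      exact key f hf
    obtain ⟨ε, hε, h3⟩ := h2
    refine ⟨ε, hε, ?_⟩
    rcases two_values hs hq.1
      (ε := Module.Dual.eval ℚ (Yo L) ⟨ε, Submodule.subset_span hε⟩) (e := ε)
      (fun a b => rfl) hε.1 with h4 | h4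
    · exact h4
    · exact absurd (h4 u) h3
  obtain ⟨ε, hε, hqε⟩ := hstep1
  have hPε : P ⟨ε, Submodule.subset_span hε⟩ = ⟨ε, Submodule.subset_span hε⟩ := by
    apply hsep
    intro u
    rw [hπ, ← hqε (P.dualMap u), hqπ, hqε]
  have hεj : dq ε ∈ I j := by
    have h1 := hP1 ⟨ε, Submodule.subset_span hε⟩
    rwa [hPε] at h1
  -- (2)
  have hstep2 : ∃ f' : Yo L, f' ≠ 0 ∧ P f' = f' ∧ ∀ u, q u f' = 0 := by
    have h1 : ∃ u, P.dualMap u - q u ≠ 0 := by
      by_contra h2
      push Not at h2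
      apply hne
      refine LinearMap.ext fun u => ?_
      exact (sub_eq_zero.1 (h2 u)).symm
    obtain ⟨u₀, hu₀⟩ := h1
    have h2 : ∃ f₀, (P.dualMap u₀ - q u₀) f₀ ≠ 0 := by
      by_contra h3
      push Not at h3
      exact hu₀ (LinearMap.ext h3)
    obtain ⟨f₀, hf₀⟩ := h2
    let φ : Module.Dual ℚ (Module.Dual ℚ (Yo L)) :=
      (Module.Dual.eval ℚ (Yo L) f₀) ∘ₗ (P.dualMap - q)
    let f' : Yo L := (Module.evalEquiv ℚ (Yo L)).symm φ
    have hf' : ∀ u : Module.Dual ℚ (Yo L), u f' = (P.dualMap u - q u) f₀ := by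
      intro u
      have h3 : u f' = φ u := Module.apply_evalEquiv_symm_apply ℚ (Yo L) u φ
      rw [h3]
      rfl
    refine ⟨f', ?_, ?_, ?_⟩
    · intro h3
      apply hf₀
      rw [← hf' u₀, h3, map_zero]
    · apply hsep
      intro u
      rw [hπ, hf', hππ, hqπ, ← hf']
    · intro u
      rw [hf', hπq, hqq, sub_self, LinearMap.zero_apply]
  obtain ⟨f', hf'0, hPf', hqf'⟩ := hstep2
  have hf'j : dq (f' : κ → ℚ) ∈ I j := by
    have h1 := hP1 f'
    rwa [hPf'] at h1
  -- (3)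
  obtain ⟨X, hX, a, b, hX0, hab, hab', hw⟩ := mixed_root h.cmp hF hε hεj f'.2 hf'j
    (fun h0 => hf'0 (Subtype.ext h0))
  -- (4)
  obtain ⟨Y, hY, hwY, hXX, hYY, hXYX, hYXY⟩ := sl2_pair h.cmp hF hX hε hab hw
  obtain ⟨fv, hfv, hv1, hv2, hv3, hv4⟩ := h.coroot hF hX hY hX0 hw hwY hXX hYY hXYX hYXY
  refine root_two hs hq (δ := pt L a - pt L b) (f := Module.Dual.eval ℚ (Yo L) ⟨fv, hfv⟩)
    (fv := fv) (fun a b => rfl) hv1 hv2 hv3 hv4 ?_ ?_
  · intro h0
    have h1 := hqε (pt L a - pt L b)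
    rw [h0, LinearMap.zero_apply, LinearMap.sub_apply, pt_apply, pt_apply] at h1
    exact hab (sub_eq_zero.1 h1.symm)
  · intro h0
    have h1 := LinearMap.congr_fun h0 f'
    rw [LinearMap.sub_apply, Module.End.one_apply, LinearMap.sub_apply, hqf', sub_zero,
      LinearMap.sub_apply, pt_apply, pt_apply, LinearMap.zero_apply] at h1
    exact hab' (sub_eq_zero.1 h1)

end Pool.Agent.H76Y
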