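import Pool.Agent.Lib.H76Q.B2
import Pool.Agent.Lib.H76Q.Q2
import Pool.Agent.Lib.H76Y.A1
import Pool.Agent.Lib.H76Y.Y0
import Pool.Agent.Lib.H76Q.C2

/-!
# they generate all operators
-/

set_option autoImplicit false
set_option linter.unusedSectionVars false
namespace Pool.Agent.H76Y
open Pool.Agent.H76P Pool.Agent.H76V Pool.Agent.H76Q
open Module Matrix Pool.Agent.H53Toric
open Pool.Agent.H76P
open Pool.Agent.H76T (IsIdeal Fam)

variable {κ : Type*} {K : Type*} [Field K] [CharZero K] [Fintype κ] [DecidableEq κ]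
  {L : Submodule K (Module.End K (κ → K))} {J : Matrix κ κ K} [IsAlgClosed K] [Nonempty κ]
  {Y : Submodule ℚ (κ → ℚ)} {P : Module.End ℚ Y}

/-- PROOF. `exists_fam`, `Fam.top` (H76T.TA2): each `I j` is in `AZ L P` or in `AZ L (1 - P)`. -/
theorem AZ_top (h : TM L) (hc : Comp L P) : AZ L P ⊔ AZ L (1 - P) = ⊤ := by
  obtain ⟨m, I, hF⟩ := H76T.exists_fam h.cmp.lie h.cmp.irr h.cmp.tr
  rw [eq_top_iff, ← H76T.Fam.top hF h.cmp.irr]
  refine Algebra.adjoin_le fun X hX => ?_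
  obtain ⟨j, hj⟩ := Set.mem_iUnion.1 hX
  rcases hc m I hF j with h1 | h1
  · have h2 : X ∈ AZ L P := Algebra.subset_adjoin ⟨I j, hF.ideal j, h1, hj⟩
    exact (le_sup_left : AZ L P ≤ AZ L P ⊔ AZ L (1 - P)) h2
  · have h2 : X ∈ AZ L (1 - P) := Algebra.subset_adjoin ⟨I j, hF.ideal j, h1, hj⟩
    exact (le_sup_right : AZ L (1 - P) ≤ AZ L P ⊔ AZ L (1 - P)) h2

/-- PROOF. `X` commutes with `AZ L P ⊔ AZ L (1 - P) = ⊤`, so with all elements of `L`; `CmpN.gen`. -/
theorem AZ_scalar (h : TM L) (hc : Comp L P) {X : Module.End K (κ → K)}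
    (h1 : ∀ A ∈ AZ L P, X * A = A * X) (h2 : ∀ A ∈ AZ L (1 - P), X * A = A * X) :
    ∃ c : K, X = c • 1 := by
  have h3 : AZ L P ⊔ AZ L (1 - P) ≤ Subalgebra.centralizer K {X} := by
    refine sup_le ?_ ?_
    · intro A hA
      rw [Subalgebra.mem_centralizer_iff]
      intro X' hX'
      rw [Set.mem_singleton_iff.1 hX']
      exact h1 A hA
    · intro A hA
      rw [Subalgebra.mem_centralizer_iff]
      intro X' hX'
      rw [Set.mem_singleton_iff.1 hX']
      exact h2 A hA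
  refine h.cmp.gen X fun y _ _ => ?_
  have h4 : y ∈ AZ L P ⊔ AZ L (1 - P) := by
    rw [AZ_top h hc]
    exact Algebra.mem_top
  exact (Subalgebra.mem_centralizer_iff K).1 (h3 h4) X (Set.mem_singleton X)

end Pool.Agent.H76Y
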