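import Mathlib

/-!
# EN0: pure tensors in two commuting algebras, semilinear automorphisms, powers and commutators
-/

set_option autoImplicit false
set_option linter.unusedSectionVars false
namespace Pool.Agent.H76Y.EN
open Module

variable {K : Type*} [Field K] {V : Type*} [AddCommGroup V] [Module K V] [FiniteDimensional K V]

/-- An invertible element of a subalgebra has its inverse in the subalgebra. -/
theorem exists_inv {A : Subalgebra K (Module.End K V)} {u : Module.End K V} (hu : u ∈ A) (h0 : LinearMap.det u ≠ 0) :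
    ∃ w ∈ A, u * w = 1 ∧ w * u = 1 := by
  have h1 : IsUnit u := by
    rw [LinearMap.isUnit_iff_isUnit_det]
    exact isUnit_iff_ne_zero.2 h0
  let f : A →ₗ[K] A := LinearMap.mulLeft K (⟨u, hu⟩ : A)
  have hf : Function.Injective f := by
    rw [← LinearMap.ker_eq_bot, LinearMap.ker_eq_bot']
    intro w hw
    have h2 : u * (w : Module.End K V) = 0 := congrArg Subtype.val hw
    have h3 : (w : Module.End K V) = 0 := h1.mul_right_eq_zero.1 h2
    exact Subtype.ext h3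
  have hs := LinearMap.injective_iff_surjective.1 hf
  obtain ⟨w, hw⟩ := hs 1
  have h2 : u * (w : Module.End K V) = 1 := congrArg Subtype.val hw
  exact ⟨w, w.2, h2, mul_eq_one_comm.1 h2⟩

/-- `X` is the product of invertible elements `u` of `A` and `r` of `A'`. -/
def PU (A A' : Subalgebra K (Module.End K V)) (X u r : Module.End K V) : Prop :=
  u ∈ A ∧ r ∈ A' ∧ X = u * r ∧ LinearMap.det u ≠ 0 ∧ LinearMap.det r ≠ 0

variable {A A' : Subalgebra K (Module.End K V)}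

theorem PU.one : PU A A' 1 1 1 := by
  refine ⟨one_mem _, one_mem _, (mul_one 1).symm, ?_, ?_⟩ <;> rw [map_one] <;> exact one_ne_zero

theorem PU.mul (hc : ∀ X ∈ A, ∀ X' ∈ A', X * X' = X' * X) {X u r X' u' r' : Module.End K V}
    (h : PU A A' X u r) (h' : PU A A' X' u' r') : PU A A' (X * X') (u * u') (r * r') := by
  obtain ⟨hu, hr, hX, h1, h2⟩ := h
  obtain ⟨hu', hr', hX', h1', h2'⟩ := h'
  refine ⟨mul_mem hu hu', mul_mem hr hr', ?_, ?_, ?_⟩
  · rw [hX, hX', mul_assoc, mul_assoc, ← mul_assoc r u' r', ← hc u' hu' r hr, mul_assoc u' r r']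
  · rw [map_mul]
    exact mul_ne_zero h1 h1'
  · rw [map_mul]
    exact mul_ne_zero h2 h2'

theorem PU.pow (hc : ∀ X ∈ A, ∀ X' ∈ A', X * X' = X' * X) {X u r : Module.End K V}
    (h : PU A A' X u r) (m : ℕ) : PU A A' (X ^ m) (u ^ m) (r ^ m) := by
  induction m with
  | zero =>
    rw [pow_zero, pow_zero, pow_zero]
    exact PU.one
  | succ m ih =>
    rw [pow_succ, pow_succ, pow_succ]
    exact ih.mul hc h

theorem PU.inv (hc : ∀ X ∈ A, ∀ X' ∈ A', X * X' = X' * X) {X u r X' w : Module.End K V}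
    (h : PU A A' X u r) (hX : X * X' = 1) (hw : w ∈ A) (huw : u * w = 1) : ∃ r', PU A A' X' w r' := by
  obtain ⟨hu, hr, hXe, h1, h2⟩ := h
  obtain ⟨s, hs, hrs, hsr⟩ := exists_inv hr h2
  have h3 : X' = w * s := by
    have h4 : X * (w * s) = 1 := by
      rw [hXe, hc w hw s hs]
      calc u * r * (s * w) = u * (r * s) * w := by simp only [mul_assoc]
        _ = 1 := by rw [hrs, mul_one, huw]
    have h5 : X' * X = 1 := mul_eq_one_comm.1 hX
    calc X' = X' * (X * (w * s)) := by rw [h4, mul_one]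
      _ = w * s := by rw [← mul_assoc, h5, one_mul]
  refine ⟨s, hw, hs, h3, fun h0 => ?_, fun h0 => ?_⟩
  · have h4 := congrArg LinearMap.det huw
    rw [map_mul, h0, mul_zero, map_one] at h4
    exact zero_ne_one h4
  · have h4 := congrArg LinearMap.det hrs
    rw [map_mul, h0, mul_zero, map_one] at h4
    exact zero_ne_one h4

/-- Uniqueness up to scalars. -/
theorem PU.unique (hc : ∀ X ∈ A, ∀ X' ∈ A', X * X' = X' * X) (hs : ∀ X ∈ A, X ∈ A' → ∃ c : K, X = c • 1)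
    [Nontrivial V] {X u r u' r' : Module.End K V} (h : PU A A' X u r) (h' : PU A A' X u' r') :
    ∃ c : K, c ≠ 0 ∧ u' = c • u := by
  obtain ⟨hu, hr, hX, h1, h2⟩ := h
  obtain ⟨hu', hr', hX', h1', h2'⟩ := h'
  obtain ⟨w, hw, huw, hwu⟩ := exists_inv hu h1
  obtain ⟨s, hs', hrs, hsr⟩ := exists_inv hr' h2'
  have h3 : w * u' = r * s := by
    have h4 : u * r = u' * r' := by rw [← hX, ← hX']
    calc w * u' = w * (u' * r') * s := by rw [mul_assoc w, mul_assoc u', hrs, mul_one]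
      _ = w * (u * r) * s := by rw [h4]
      _ = (w * u) * r * s := by simp only [mul_assoc]
      _ = r * s := by rw [hwu, one_mul]
  obtain ⟨c, hc1⟩ := hs (w * u') (mul_mem hw hu') (h3 ▸ mul_mem hr hs')
  have h5 : u' = c • u := by
    calc u' = u * w * u' := by rw [huw, one_mul]
      _ = u * (w * u') := mul_assoc _ _ _
      _ = c • u := by rw [hc1, mul_smul_comm, mul_one]
  refine ⟨c, ?_, h5⟩
  rintro rfl
  rw [zero_smul] at h5
  apply h1'
  rw [h5]
  exact LinearMap.det_zero'' 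

/-- The conditions on a set of semilinear automorphisms. -/
structure TS0 (A A' : Subalgebra K (Module.End K V)) (T : Set ((Module.End K V ≃+* Module.End K V) × (K ≃+* K)))
    (W : Set (Module.End K V →ₗ[K] K)) : Prop where
  smul : ∀ x ∈ T, ∀ (c : K) X, x.1 (c • X) = x.2 c • x.1 X
  left : ∀ x ∈ T, ∀ X ∈ A, x.1 X ∈ A
  right : ∀ x ∈ T, ∀ X ∈ A', x.1 X ∈ A'
  det : ∀ x ∈ T, ∀ X, LinearMap.det (x.1 X) = x.2 (LinearMap.det X)
  form : ∀ x ∈ T, ∀ w ∈ W, ∀ X, w (x.1 X) = x.2 (w X)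
  sep : ∀ X, X ≠ 0 → ∃ w ∈ W, w X ≠ 0

variable {T : Set ((Module.End K V ≃+* Module.End K V) × (K ≃+* K))} {W : Set (Module.End K V →ₗ[K] K)}

theorem PU.map (hT : TS0 A A' T W) {x : (Module.End K V ≃+* Module.End K V) × (K ≃+* K)} (hx : x ∈ T)
    {X u r : Module.End K V} (h : PU A A' X u r) : PU A A' (x.1 X) (x.1 u) (x.1 r) := by
  obtain ⟨hu, hr, hX, h1, h2⟩ := h
  refine ⟨hT.left x hx _ hu, hT.right x hx _ hr, by rw [hX, map_mul], ?_, ?_⟩
  · rw [hT.det x hx]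
    exact (map_ne_zero_iff _ x.2.injective).2 h1
  · rw [hT.det x hx]
    exact (map_ne_zero_iff _ x.2.injective).2 h2

theorem PU.smul {X u r : Module.End K V} (h : PU A A' X u r) {c : K} (hc : c ≠ 0) : PU A A' X (c • u) (c⁻¹ • r) := by
  obtain ⟨hu, hr, hX, h1, h2⟩ := h
  refine ⟨A.smul_mem hu _, A'.smul_mem hr _, ?_, ?_, ?_⟩
  · rw [smul_mul_smul_comm, mul_inv_cancel₀ hc, one_smul, hX]
  · rw [LinearMap.det_smul]
    exact mul_ne_zero (pow_ne_zero _ hc) h1
  · rw [LinearMap.det_smul]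
    exact mul_ne_zero (pow_ne_zero _ (inv_ne_zero hc)) h2

/-- Normalisation. -/
theorem exists_normN (hc : ∀ X ∈ A, ∀ X' ∈ A', X * X' = X' * X) (hs : ∀ X ∈ A, X ∈ A' → ∃ c : K, X = c • 1)
    [Nontrivial V] (hT : TS0 A A' T W) {X u r : Module.End K V} (h1 : PU A A' X u r)
    (hX : ∀ x ∈ T, x.1 X = X) : ∃ u r, PU A A' X u r ∧ ∀ x ∈ T, x.1 u = u := by
  have hu0 : u ≠ 0 := by
    rintro rfl
    exact h1.2.2.2.1 LinearMap.det_zero''
  obtain ⟨w, hw, hwu⟩ := hT.sep u hu0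
  refine ⟨_, _, h1.smul (inv_ne_zero hwu), fun x hx => ?_⟩
  have h2 := h1.map hT hx
  rw [hX x hx] at h2
  obtain ⟨c, hc0, hcu⟩ := PU.unique hc hs h1 h2
  have h3 : c * w u = x.2 (w u) := by
    rw [← hT.form x hx w hw u, hcu, map_smul, smul_eq_mul]
  rw [hT.smul x hx, map_inv₀, ← h3, hcu, smul_smul, mul_inv, mul_assoc, mul_comm (w u)⁻¹ c,
      ← mul_assoc, inv_mul_cancel₀ hc0, one_mul]

/-- Products of `m`-th powers and commutators have rational `u` whose determinant is an `m`-th power. -/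
theorem powers (hc : ∀ X ∈ A, ∀ X' ∈ A', X * X' = X' * X) (hs : ∀ X ∈ A, X ∈ A' → ∃ c : K, X = c • 1)
    [Nontrivial V] (hT : TS0 A A' T W) {B : Set (Module.End K V)}
    (hB : ∀ X ∈ B, (∃ u r, PU A A' X u r) ∧ ∀ x ∈ T, x.1 X = X) (m : ℕ) {X : Module.End K V}
    (hX : X ∈ Submonoid.closure ({Z | ∃ X ∈ B, Z = X ^ m} ∪
      {Z | ∃ X ∈ B, ∃ Y ∈ B, ∃ X' Y', X * X' = 1 ∧ Y * Y' = 1 ∧ Z = X * Y * X' * Y'})) :
    ∃ u r c, PU A A' X u r ∧ LinearMap.det u = c ^ m ∧ c ≠ 0 ∧ ∀ x ∈ T, x.1 u = u ∧ x.2 c = c := by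
  induction hX using Submonoid.closure_induction with
  | mem Z hZ =>
    rcases hZ with ⟨X, hXB, rfl⟩ | ⟨X, hXB, Y, hYB, X', Y', hXX, hYY, rfl⟩
    · obtain ⟨⟨u, r, h1⟩, hfix⟩ := hB X hXB
      obtain ⟨u, r, h1, hfu⟩ := exists_normN hc hs hT h1 hfix
      refine ⟨u ^ m, r ^ m, LinearMap.det u, h1.pow hc m, map_pow _ _ _, h1.2.2.2.1, fun x hx => ⟨?_, ?_⟩⟩
      · rw [map_pow, hfu x hx]
      · rw [← hT.det x hx, hfu x hx]
    · obtain ⟨⟨u, r, h1⟩, hfix⟩ := hB X hXB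
      obtain ⟨u, r, h1, hfu⟩ := exists_normN hc hs hT h1 hfix
      obtain ⟨⟨u', r', h1'⟩, hfix'⟩ := hB Y hYB
      obtain ⟨u', r', h1', hfu'⟩ := exists_normN hc hs hT h1' hfix'
      obtain ⟨w, hw, huw, hwu⟩ := exists_inv h1.1 h1.2.2.2.1
      obtain ⟨w', hw', huw', hwu'⟩ := exists_inv h1'.1 h1'.2.2.2.1
      obtain ⟨s, h2⟩ := h1.inv hc hXX hw huw
      obtain ⟨s', h2'⟩ := h1'.inv hc hYY hw' huw'
      have hfw : ∀ x ∈ T, x.1 w = w := by
        intro x hx
        have h3 : u * x.1 w = 1 := by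
          nth_rw 1 [← hfu x hx]
          rw [← map_mul, huw, map_one]
        calc x.1 w = (w * u) * x.1 w := by rw [hwu, one_mul]
          _ = w := by rw [mul_assoc, h3, mul_one]
      have hfw' : ∀ x ∈ T, x.1 w' = w' := by
        intro x hx
        have h3 : u' * x.1 w' = 1 := by
          nth_rw 1 [← hfu' x hx]
          rw [← map_mul, huw', map_one]
        calc x.1 w' = (w' * u') * x.1 w' := by rw [hwu', one_mul]
          _ = w' := by rw [mul_assoc, h3, mul_one]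
      refine ⟨_, _, 1, ((h1.mul hc h1').mul hc h2).mul hc h2', ?_, one_ne_zero, fun x hx => ⟨?_, map_one _⟩⟩
      · rw [map_mul, map_mul, map_mul, one_pow]
        have h3 : LinearMap.det u * LinearMap.det w = 1 := by rw [← map_mul, huw, map_one]
        have h4 : LinearMap.det u' * LinearMap.det w' = 1 := by rw [← map_mul, huw', map_one]
        linear_combination (LinearMap.det u' * LinearMap.det w') * h3 + h4
      · rw [map_mul, map_mul, map_mul, hfu x hx, hfu' x hx, hfw x hx, hfw' x hx]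
  | one =>
    refine ⟨1, 1, 1, PU.one, ?_, one_ne_zero, fun x _ => ⟨map_one _, map_one _⟩⟩
    rw [one_pow, map_one]
  | mul X X' _ _ ih ih' =>
    obtain ⟨u, r, c, h1, hd, hc0, hfix⟩ := ih
    obtain ⟨u', r', c', h1', hd', hc0', hfix'⟩ := ih'
    refine ⟨_, _, c * c', h1.mul hc h1', ?_, mul_ne_zero hc0 hc0', fun x hx => ⟨?_, ?_⟩⟩
    · rw [map_mul, hd, hd', mul_pow]
    · rw [map_mul, (hfix x hx).1, (hfix' x hx).1]
    · rw [map_mul, (hfix x hx).2, (hfix' x hx).2]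

end Pool.Agent.H76Y.EN
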