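import Pool.Agent.Lib.H76Q.F2
import Pool.Agent.Lib.H76Q.F1
import Pool.Agent.Lib.H76U.Factor

/-!
# EN1: determinants of block matrices, of integral matrices, of one parameter groups
-/

set_option autoImplicit false
set_option linter.unusedSectionVars false
namespace Pool.Agent.H76Y.EN
open Module Matrix
open Pool.Agent.H76Q

variable {ι : Type*} [Fintype ι] [DecidableEq ι] {K : Type*} [Field K] {n : ℕ}

/-- The determinant of a block. -/
theorem det_block {U : Matrix ι (Fin n) K} {V : Matrix (Fin n) ι K} (hVU : V * U = 1) (M : Matrix (Fin n) (Fin n) K) :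
    (U * M * V + (1 - U * V)).det = M.det := by
  have h1 : U * M * V + (1 - U * V) = 1 + U * ((M - 1) * V) := by
    rw [Matrix.sub_mul, Matrix.mul_sub, Matrix.one_mul, Matrix.mul_assoc]
    abel
  rw [h1, Matrix.det_one_add_mul_comm, Matrix.mul_assoc, hVU, Matrix.mul_one, add_sub_cancel]

/-- The determinant of an integral matrix is integral. -/
theorem det_int [CharZero K] [IsAlgClosed K] {v : K → ℚ} (hv : IsVal v) {A : Matrix ι ι K} (hA : IntMat v A) (h0 : A.det ≠ 0) : 0 ≤ v A.det := by
  classical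
  rw [Matrix.det_apply] at h0 ⊢
  refine f1_sum hv _ _ (fun s _ hs => ?_) h0
  have hp : ∀ t : Finset ι, (∏ i ∈ t, A (s i) i) ≠ 0 → 0 ≤ v (∏ i ∈ t, A (s i) i) := by
    intro t
    induction t using Finset.induction_on with
    | empty =>
      intro _
      rw [Finset.prod_empty, (f1_one hv).1]
    | insert a t ha ih =>
      intro h
      rw [Finset.prod_insert ha] at h ⊢
      rw [hv.mul _ _ (left_ne_zero_of_mul h) (right_ne_zero_of_mul h)]
      exact add_nonneg (hA _ _ (left_ne_zero_of_mul h)) (ih (right_ne_zero_of_mul h))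
  rcases Int.units_eq_one_or (Equiv.Perm.sign s) with h1 | h1
  · rw [h1, one_smul] at hs ⊢
    exact hp _ hs
  · rw [h1, Units.neg_smul, one_smul] at hs ⊢
    have h2 : (∏ i, A (s i) i) ≠ 0 := fun h3 => hs (by rw [h3, neg_zero])
    have h3 : -(∏ i, A (s i) i) = (-1) * ∏ i, A (s i) i := by ring
    rw [h3, hv.mul _ _ (neg_ne_zero.2 one_ne_zero) h2, (f1_one hv).2, zero_add]
    exact hp _ h2

theorem one_sub_int [CharZero K] [IsAlgClosed K] {v : K → ℚ} (hv : IsVal v) {A : Matrix ι ι K} (hA : IntMat v A) : IntMat v (1 - A) := by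
  rw [sub_eq_add_neg]
  refine f1_add hv (f1_id hv) fun i j h => ?_
  rw [Matrix.neg_apply] at h ⊢
  have h2 : A i j ≠ 0 := fun h3 => h (by rw [h3, neg_zero])
  have h3 : -(A i j) = (-1) * A i j := by ring
  rw [h3, hv.mul _ _ (neg_ne_zero.2 one_ne_zero) h2, (f1_one hv).2, zero_add]
  exact hA i j h2

/-- The determinant of an operator which is integral together with its inverse is a unit. -/
theorem unit_det [CharZero K] [IsAlgClosed K] {v : K → ℚ} (hv : IsVal v) {U : Matrix ι (Fin n) K} {V : Matrix (Fin n) ι K}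
    (hVU : V * U = 1) (he : IntMat v (U * V)) {u u' : Module.End K (Fin n → K)} (huu : u * u' = 1)
    (hA : IntMat v (U * LinearMap.toMatrix' u * V)) (hB : IntMat v (U * LinearMap.toMatrix' u' * V)) :
    LinearMap.det u ≠ 0 ∧ v (LinearMap.det u) = 0 := by
  have h1 : LinearMap.det u * LinearMap.det u' = 1 := by rw [← map_mul, huu, map_one]
  have hu0 : LinearMap.det u ≠ 0 := left_ne_zero_of_mul (by rw [h1]; exact one_ne_zero)
  have hu0' : LinearMap.det u' ≠ 0 := right_ne_zero_of_mul (by rw [h1]; exact one_ne_zero)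
  have key : ∀ w : Module.End K (Fin n → K), LinearMap.det w ≠ 0 → IntMat v (U * LinearMap.toMatrix' w * V) → 0 ≤ v (LinearMap.det w) := by
    intro w hw hi
    have h2 : (U * LinearMap.toMatrix' w * V + (1 - U * V)).det = LinearMap.det w := by
      rw [det_block hVU, LinearMap.det_toMatrix']
    have h3 := det_int hv (f1_add hv hi (one_sub_int hv he)) (by rw [h2]; exact hw)
    rwa [h2] at h3
  have h2 := key u hu0 hA
  have h3 := key u' hu0' hB
  have h4 := hv.mul _ _ hu0 hu0'
  rw [h1, (f1_one hv).1] at h4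
  exact ⟨hu0, le_antisymm (by linarith) h2⟩

/-- The determinant of `t ^ h`. -/
theorem det_par {h : Matrix ι ι K} (hh : h * h = h) (t : K) : (1 + (t - 1) • h).det = t ^ h.rank := by
  obtain ⟨P, Q, hPQ, hQP⟩ := Pool.Agent.H76U.idem_factor hh
  have h1 : 1 + (t - 1) • h = 1 + P * ((t - 1) • Q) := by
    rw [Matrix.mul_smul, ← hPQ]
  rw [h1, Matrix.det_one_add_mul_comm, Matrix.smul_mul, hQP]
  have h2 : (1 : Matrix (Fin h.rank) (Fin h.rank) K) + (t - 1) • 1 = t • 1 := by
    rw [sub_smul, one_smul]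
    abel
  rw [h2, Matrix.det_smul, Matrix.det_one, mul_one, Fintype.card_fin]

end Pool.Agent.H76Y.EN
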