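import Pool.Agent.Lib.H76Y.C1
import Pool.Agent.Lib.H76Y.C2
import Pool.Agent.Lib.H76Y.C3
import Pool.Agent.Lib.H76Y.EN0
import Pool.Agent.Lib.H76Y.EN1
import Pool.Agent.Lib.H76V.VA2

/-!
# C5: pure tensors with determinants
-/

set_option autoImplicit false
set_option linter.unusedSectionVars false
namespace Pool.Agent.H76Y
open Pool.Agent.H76P Pool.Agent.H76V Pool.Agent.H76Q
open Module Matrix Pool.Agent.H53Toric
open Pool.Agent.H76T (IsIdeal Fam)

variable {κ : Type*} {K : Type*} [Field K] [CharZero K] [Fintype κ] [DecidableEq κ]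
  {L : Submodule K (Module.End K (κ → K))} [IsAlgClosed K] [Nonempty κ]
  {Y : Submodule ℚ (κ → ℚ)} {P : Module.End ℚ Y}

theorem PTN.pu {X u r : Module.End K (κ → K)} {t : K} (h : PTN L P X u r t) : EN.PU (AZ L P) (AZ L (1 - P)) X u r :=
  ⟨h.1, h.2.1, h.2.2.1, by rw [h.2.2.2.2.1]; exact h.2.2.2.1, h.2.2.2.2.2⟩

theorem ptn_of {X u r : Module.End K (κ → K)} (h : EN.PU (AZ L P) (AZ L (1 - P)) X u r) :
    PTN L P X u r (LinearMap.det u) :=
  ⟨h.1, h.2.1, h.2.2.1, h.2.2.2.1, rfl, h.2.2.2.2⟩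

theorem PT_one (_h : TM L) : PTN L P 1 1 1 1 := by
  have h := ptn_of (L := L) (P := P) EN.PU.one
  rwa [map_one] at h

/-- The scalars are the common elements of the two algebras. -/
theorem AZ_inter (h : TM L) (hY : Yo L = Y) (hP : Sp P) (hc : Comp L P) :
    ∀ X ∈ AZ L P, X ∈ AZ L (1 - P) → ∃ c : K, X = c • 1 := by
  intro X h1 h2
  exact AZ_scalar h hc (fun A hA => (AZ_comm h hY hP A hA X h2).symm) (fun A hA => AZ_comm h hY hP X h1 A hA)

theorem PT_mul (h : TM L) (hY : Yo L = Y) (hP : Sp P) {X u r X' u' r' : Module.End K (κ → K)}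
    {t t' : K} (h1 : PTN L P X u r t) (h2 : PTN L P X' u' r' t') :
    PTN L P (X * X') (u * u') (r * r') (t * t') := by
  have h3 := ptn_of (EN.PU.mul (AZ_comm h hY hP) h1.pu h2.pu)
  rwa [map_mul, h1.2.2.2.2.1, h2.2.2.2.2.1] at h3

theorem PT_pow (h : TM L) (hY : Yo L = Y) (hP : Sp P) {X u r : Module.End K (κ → K)}
    {t : K} (h1 : PTN L P X u r t) (m : ℕ) : PTN L P (X ^ m) (u ^ m) (r ^ m) (t ^ m) := by
  have h3 := ptn_of (EN.PU.pow (AZ_comm h hY hP) h1.pu m)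
  rwa [map_pow, h1.2.2.2.2.1] at h3

theorem PT_inv (h : TM L) (hY : Yo L = Y) (hP : Sp P) {X X' u r : Module.End K (κ → K)} {t : K}
    (h1 : PTN L P X u r t) (hX : X * X' = 1) :
    ∃ w r', u * w = 1 ∧ PTN L P X' w r' t⁻¹ := by
  obtain ⟨w, hw, huw, hwu⟩ := EN.exists_inv h1.1 h1.pu.2.2.2.1
  obtain ⟨r', h2⟩ := EN.PU.inv (AZ_comm h hY hP) h1.pu hX hw huw
  refine ⟨w, r', huw, ?_⟩
  have h3 := ptn_of h2
  have h4 : LinearMap.det w = t⁻¹ := by
    have h5 := congrArg LinearMap.det huw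
    rw [map_mul, map_one, h1.2.2.2.2.1] at h5
    exact eq_inv_of_mul_eq_one_right h5
  rwa [h4] at h3

/-- The inverse of `t ^ h`. -/
theorem par_inv {y : Module.End K (κ → K)} (hyy : y * y = 1) {t : K} (ht : t ≠ 0) :
    (((1 + t) / 2) • 1 + ((t - 1) / 2) • y) * (((1 + t⁻¹) / 2) • 1 + ((t⁻¹ - 1) / 2) • y) = 1 := by
  simp only [add_mul, mul_add, smul_mul_assoc, mul_smul_comm, one_mul, mul_one, hyy, smul_smul]
  have e1 : (1 + t) / 2 * ((1 + t⁻¹) / 2) + (t - 1) / 2 * ((t⁻¹ - 1) / 2) = 1 := by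
    field_simp
    ring
  have e2 : (1 + t) / 2 * ((t⁻¹ - 1) / 2) + (t - 1) / 2 * ((1 + t⁻¹) / 2) = 0 := by
    field_simp
    ring
  calc _ = ((1 + t) / 2 * ((1 + t⁻¹) / 2) + (t - 1) / 2 * ((t⁻¹ - 1) / 2)) • (1 : Module.End K (κ → K)) +
        ((1 + t) / 2 * ((t⁻¹ - 1) / 2) + (t - 1) / 2 * ((1 + t⁻¹) / 2)) • y := by module
    _ = 1 := by rw [e1, e2, one_smul, zero_smul, add_zero]

theorem det_par (h : TM L) {y : Module.End K (κ → K)} (hy : y ∈ L) (hyy : y * y = 1) (t : K) :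
    LinearMap.det (((1 + t) / 2) • (1 : Module.End K (κ → K)) + ((t - 1) / 2) • y) =
      t ^ (Fintype.card κ / 2) := by
  set E : Module.End K (κ → K) := (1 / 2 : K) • (1 + y) with hE
  have h1 : ((1 + t) / 2) • (1 : Module.End K (κ → K)) + ((t - 1) / 2) • y = 1 + (t - 1) • E := by
    rw [hE, smul_smul, smul_add]
    module
  have h2 : E * E = E := half_idem hyy
  have h3 : LinearMap.toMatrix' E * LinearMap.toMatrix' E = LinearMap.toMatrix' E := by
    rw [← LinearMap.toMatrix'_mul, h2]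
  have h4 := EN.det_par h3 t
  have h5 : LinearMap.toMatrix' (1 + (t - 1) • E) = 1 + (t - 1) • LinearMap.toMatrix' E := by
    rw [map_add, map_smul, LinearMap.toMatrix'_one]
  have h6 := half_rank hyy (h.cmp.tr y hy)
  rw [← hE, Module.finrank_fintype_fun_eq_card] at h6
  have h7 : (LinearMap.toMatrix' E).rank = finrank K (LinearMap.range E) := by
    rw [Matrix.rank, ← Matrix.toLin'_apply', Matrix.toLin'_toMatrix']
  rw [h1, ← LinearMap.det_toMatrix', h5, h4, h7]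
  congr 1
  omega

theorem PT_par (h : TM L) (hc : Comp L P) {y : Module.End K (κ → K)} (hy : y ∈ L)
    (hyy : y * y = 1) {t : K} (ht : t ≠ 0) :
    PTN L P (((1 + t) / 2) • 1 + ((t - 1) / 2) • y) (((1 + t) / 2) • 1 + ((t - 1) / 2) • y) 1
      (t ^ (Fintype.card κ / 2)) ∨
    PTN L P (((1 + t) / 2) • 1 + ((t - 1) / 2) • y) 1 (((1 + t) / 2) • 1 + ((t - 1) / 2) • y) 1 := by
  have hdet : LinearMap.det (((1 + t) / 2) • (1 : Module.End K (κ → K)) + ((t - 1) / 2) • y) ≠ 0 := by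
    rw [det_par h hy hyy]
    exact pow_ne_zero _ ht
  obtain ⟨I, hI, hyI, hIP⟩ := inv_AZ h hc hy hyy
  have hone : LinearMap.det (1 : Module.End K (κ → K)) ≠ 0 := by
    rw [map_one]
    exact one_ne_zero
  rcases hIP with h1 | h1
  · left
    have h2 := ptn_of (L := L) (P := P) (X := ((1 + t) / 2) • (1 : Module.End K (κ → K)) + ((t - 1) / 2) • y)
      (u := ((1 + t) / 2) • (1 : Module.End K (κ → K)) + ((t - 1) / 2) • y) (r := 1)
      ⟨add_mem ((AZ L P).smul_mem (one_mem _) _) ((AZ L P).smul_mem (Algebra.subset_adjoin ⟨I, hI, h1, hyI⟩) _),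
        one_mem _, (mul_one _).symm, hdet, hone⟩
    rwa [det_par h hy hyy] at h2
  · right
    refine ⟨one_mem _, ?_, (one_mul _).symm, one_ne_zero, map_one _, hdet⟩
    exact add_mem ((AZ L (1 - P)).smul_mem (one_mem _) _)
      ((AZ L (1 - P)).smul_mem (Algebra.subset_adjoin ⟨I, hI, h1, hyI⟩) _)

theorem PT_unique (h : TM L) (hY : Yo L = Y) (hP : Sp P) (hc : Comp L P)
    {X u r u' r' : Module.End K (κ → K)} {t t' : K} (h1 : PTN L P X u r t)
    (h2 : PTN L P X u' r' t') : ∃ c : K, c ≠ 0 ∧ u' = c • u ∧ t' = c ^ Fintype.card κ * t := by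
  obtain ⟨c, hc0, hcu⟩ := EN.PU.unique (AZ_comm h hY hP) (AZ_inter h hY hP hc) h1.pu h2.pu
  refine ⟨c, hc0, hcu, ?_⟩
  rw [← h2.2.2.2.2.1, ← h1.2.2.2.2.1, hcu, LinearMap.det_smul, Module.finrank_fintype_fun_eq_card]

end Pool.Agent.H76Y
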