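import Pool.Agent.Lib.H76Y.A1
import Pool.Agent.Lib.H76Y.T14
import Pool.Agent.Lib.H76Q.BL2
import Pool.Agent.Lib.H25Y.BLN

/-!
# BL2: blocks are compatible with the simple ideals
-/

set_option autoImplicit false
set_option linter.unusedSectionVars false
namespace Pool.Agent.H76Y
open Pool.Agent.H76P Pool.Agent.H76V Pool.Agent.H76Q
open Module Matrix Pool.Agent.H53Toric
open Pool.Agent.H76T (IsIdeal Fam)

variable {κ : Type*} {K : Type*} [Field K] [CharZero K] [Fintype κ] [DecidableEq κ]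
  {L : Submodule K (Module.End K (κ → K))} [IsAlgClosed K] [Nonempty κ]
  {Y : Submodule ℚ (κ → ℚ)} {P : Module.End ℚ Y}

theorem ts_of_sy (h : TM L) (hs : SyL L) : ∃ J : Matrix κ κ K, TS L J := by
  obtain ⟨J, h1, h2, h3⟩ := hs
  exact ⟨J, ⟨h.cmp.lie, h.cmp.irr, h1, h2, h3, h.cmp.gen⟩, h.diag, h.sep⟩

theorem IsBlock.comp_cls {t : Prop} (hP : IsBlock P) (h : TM L) (ht : Cls t L) (hY : Yo L = Y) :
    Comp L P := by
  by_cases h1 : t
  · obtain ⟨J, hJ⟩ := ts_of_sy h (ht.1 h1)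
    exact H76Q.IsBlock.comp hP hJ hY
  · exact compN hP h (ht.2 h1) hY

theorem IsBlock.good {n : ℕ} (hn : 0 < n) {Y : Submodule ℚ (Fin n → ℚ)} {P : Module.End ℚ Y} (t : Prop)
    (hP : IsBlock P) : GoodN t P := by
  intro K _ _ _ L h ht hY
  have : Nonempty (Fin n) := ⟨⟨0, hn⟩⟩
  exact IsBlock.comp_cls hP h ht hY

end Pool.Agent.H76Y
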