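import Pool.Agent.Lib.H76Y.V2
import Pool.Agent.Lib.H86N.CoreNS
import Pool.Agent.Lib.H86N.E1

/-!
# The component theorem without a form, one ideal
-/

set_option autoImplicit false
set_option linter.unusedSectionVars false
namespace Pool.Agent.H76Y
open Pool.Agent.H76P Pool.Agent.H76V Pool.Agent.H76Q
open Module Matrix Pool.Agent.H53Toric
open Pool.Agent.H76T (IsIdeal Fam)

variable {κ : Type*} [Fintype κ] [DecidableEq κ] {K : Type*} [Field K]

variable [CharZero K] {L : Submodule K (Module.End K (κ → K))}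

variable [IsAlgClosed K] [Nonempty κ]

theorem CmpN.coreN (h : CmpN L) {I : Fin 1 → Submodule K (Module.End K (κ → K))} (hF : Fam L I) :
    H86N.CoreN L := by
  have hL : I 0 = L := by
    rw [← hF.sup]
    apply le_antisymm
    · exact le_iSup I 0
    · apply iSup_le
      intro j
      rw [Subsingleton.elim j 0]
  exact { lie := h.lie
          irr := h.irr
          tr := h.tr
          simple := fun M hM hM' => by
            have h1 := hF.min 0 M ⟨hM, hM'⟩ (by rw [hL]; exact hM)
            rwa [hL] at h1 }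

/-- A component which is simple and respects no form is everything, or its rank is a power of four. -/
theorem CmpN.simple (h : CmpN L) {I : Fin 1 → Submodule K (Module.End K (κ → K))} (hF : Fam L I)
    (hns : NsL L) :
    ((∃ N ∈ L, N * N = 0 ∧ finrank K (LinearMap.range N) = 1) ∧
      ∀ X : Module.End K (κ → K), LinearMap.trace K (κ → K) X = 0 → X ∈ L) ∨
    (∃ m : ℕ, 4 ≤ m ∧ Even m ∧ Fintype.card κ = 2 ^ m ∧
      ∀ N ∈ L, N * N = 0 → N ≠ 0 → Fintype.card κ ≤ 4 * finrank K (LinearMap.range N)) := by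
  have hcard : finrank K (κ → K) = Fintype.card κ := Module.finrank_fintype_fun_eq_card K
  have hcore := h.coreN hF
  obtain ⟨y, hy, hy2⟩ := h.inv_mem hF 0
  have hyL := (hF.ideal 0).1 hy
  by_cases hnum : (∃ N ∈ L, N * N = 0 ∧ N ≠ 0 ∧ 4 * finrank K (LinearMap.range N) < finrank K (κ → K)) ∨
      (∀ m : ℕ, 4 ≤ m → Even m → finrank K (κ → K) ≠ 2 ^ m)
  · left
    obtain ⟨s', e, f, F, hr⟩ := H86N.coreNS hcore hns hyL hy2 hnum
    exact ⟨⟨e, F.e_mem.1, H86N.A2_pp F.e_mem F.e_mem, hr⟩, fun X hX => H86N.full_sl hcore F hr hns hX⟩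
  · right
    push Not at hnum
    obtain ⟨h1, m, hm, hme, h2⟩ := hnum
    refine ⟨m, hm, hme, by rw [← hcard]; exact h2, fun N hN hN2 hN0 => ?_⟩
    rw [← hcard]
    exact h1 N hN hN2 hN0

end Pool.Agent.H76Y
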