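import Pool.Agent.Lib.H76Q.G10
import Pool.Agent.Lib.H76Y.BL2
import Pool.Agent.Lib.H76Y.SimpleN

/-!
# the blocks of a configuration
-/

set_option autoImplicit false
set_option linter.unusedSectionVars false
namespace Pool.Agent.H76Y
open Pool.Agent.H76P Pool.Agent.H76V Pool.Agent.H76Q
open Module Matrix Pool.Agent.H53Toric
open Pool.Agent.H76T (IsIdeal Fam)

/-- The blocks of a configuration are good for both classes. -/
theorem exists_blocksN {n : ℕ} (hn : 0 < n) {Y : Submodule ℚ (Fin n → ℚ)}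
    (hs : ∀ g ∈ Y, ∑ k, g k = 0) (t : Prop) :
    ∃ FF : Finset (Module.End ℚ Y), (∀ P ∈ FF, Sp P ∧ P ≠ 0 ∧ GoodN t P) ∧
      (∀ P ∈ FF, ∀ P' ∈ FF, P ≠ P' → P * P' = 0) ∧ ∑ P ∈ FF, P = 1 ∧
      (∀ π : Equiv.Perm (Fin n), (∀ g ∈ Y, g ∘ π ∈ Y) → ∀ P ∈ FF, ∃ P' ∈ FF, MvP π P P') ∧
      (FF.card = 1 → IsBlock (1 : Module.End ℚ Y)) := by
  classical
  have : Nonempty (Fin n) := ⟨⟨0, hn⟩⟩
  obtain ⟨B, hB, hsum, horth, hsp⟩ := exists_isBlock (Y := Y) hs
  refine ⟨B, fun P hP => ⟨(hsp P hP).1, (hsp P hP).2, ?_⟩, horth, hsum, fun π hπ P hP => ?_,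
    fun h1 => isBlock_one hs hB h1⟩
  · exact IsBlock.good hn t ((hB P).1 hP)
  · obtain ⟨P', -, hP', -, -, h1, h2⟩ := ((hB P).1 hP).perm hπ
    exact ⟨P', (hB P').2 hP', h1, h2⟩

variable {κ : Type*} {K : Type*} [Field K] [CharZero K] [Fintype κ] [DecidableEq κ]
  {L : Submodule K (Module.End K (κ → K))} [IsAlgClosed K] [Nonempty κ]
  {Y : Submodule ℚ (κ → ℚ)} {P : Module.End ℚ Y}

/-- A Lie algebra without a form whose configuration is one block is simple and contains an operator of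
rank one, unless the dimension is a power of `4`. -/
theorem one_ns' (h : TM L) (hns : NsL L) (hY : Yo L = Y) (h1 : IsBlock (1 : Module.End ℚ Y))
    (two : ∀ k : ℕ, 4 ≤ k → Even k → Fintype.card κ ≠ 2 ^ k) :
    (∃ N ∈ L, N * N = 0 ∧ finrank K (LinearMap.range N) = 1) ∧
      ∀ X : Module.End K (κ → K), LinearMap.trace K (κ → K) X = 0 → X ∈ L := by
  classical
  subst hY
  obtain ⟨m, I, hF⟩ := Pool.Agent.H76T.exists_fam h.cmp.lie h.cmp.irr h.cmp.tr
  rcases Nat.lt_or_ge m 2 with hm | hm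
  · interval_cases m
    · exfalso
      have hL : L = ⊥ := by
        rw [← hF.sup]
        exact iSup_of_empty _
      obtain ⟨a⟩ := ‹Nonempty κ›
      let b : (κ → K) →ₗ[K] (κ → K) →ₗ[K] K := LinearMap.mk₂ K (fun v w => v a * w a)
        (fun v v' w => by simp only [Pi.add_apply]; ring)
        (fun c v w => by simp only [Pi.smul_apply, smul_eq_mul]; ring)
        (fun v w w' => by simp only [Pi.add_apply]; ring)
        (fun c v w => by simp only [Pi.smul_apply, smul_eq_mul]; ring)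
      have hb : b = 0 := hns b fun X hX v w => by
        rw [hL, Submodule.mem_bot] at hX
        rw [hX]
        simp
      have h2 := congrArg (fun b : (κ → K) →ₗ[K] (κ → K) →ₗ[K] K => b (fun _ => 1) (fun _ => 1)) hb
      have h3 : b (fun _ => 1) (fun _ => 1) = 1 * 1 := rfl
      simp only [h3, LinearMap.zero_apply, mul_one] at h2
      exact one_ne_zero h2
    · rcases CmpN.simple h.cmp hF hns with h2 | ⟨k, hk, hk2, hk3, -⟩
      · exact h2
      · exact absurd hk3 (two k hk hk2)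
  · exfalso
    have hs : Spans (pt L) := pt_spans h.cmp
    have hij : (⟨0, by omega⟩ : Fin m) ≠ ⟨1, by omega⟩ := by
      intro e
      exact absurd (congrArg Fin.val e) (by norm_num)
    set i : Fin m := ⟨0, by omega⟩ with hi
    set j : Fin m := ⟨1, by omega⟩ with hj
    -- an atom equal to one is impossible
    have caseA : Atom (pt L) (1 : Module.End ℚ (Module.Dual ℚ (Yo L))) → False := by
      intro hA
      obtain ⟨P, hP1, hP2, hP3, hPS⟩ := exists_proj h.cmp hF i
      have g1 : P.dualMap = 1 := by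
        rcases hA.2.2 P.dualMap hPS (mul_one _) with h2 | h2
        · exfalso
          obtain ⟨f, hf, hf0, hfi⟩ := h.exists_diag hF i
          have h3 : P = 0 := dualMap_inj (by rw [h2, dualMap_zero])
          have h4 := hP2 ⟨f, hf⟩ hfi
          rw [h3, LinearMap.zero_apply] at h4
          exact hf0 (congrArg Subtype.val h4).symm
        · exact h2
      have g2 : P = 1 := dualMap_inj (by rw [g1, dualMap_one])
      obtain ⟨f, hf, hf0, hfi⟩ := h.exists_diag hF j
      have h3 := hP3 j (Ne.symm hij) ⟨f, hf⟩ hfi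
      rw [g2, Module.End.one_apply] at h3
      exact hf0 (congrArg Subtype.val h3)
    rcases h1 with ⟨h8, hA⟩ | ⟨-, hA, hc⟩ | ⟨h8, hS, -, hat⟩
    · rw [dualMap_one] at hA
      exact caseA hA
    · rw [dualMap_one] at hA
      exact caseA hA
    · refine h.not_ns (fun k => ?_) hns
      obtain ⟨k', hk'⟩ := H25Y.sym_of_two hs h.pt_inj (sum_pt h) (fun q hq => (hat q hq).1 (by
        rw [dualMap_one, mul_one])) k
      refine ⟨k', fun f hf => ?_⟩
      have h2 := congrArg (fun φ : Module.Dual ℚ (Yo L) => φ ⟨f, hf⟩) hk'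
      exact h2

theorem one_ns (h : TM L) (hns : NsL L) (hY : Yo L = Y) (h1 : IsBlock (1 : Module.End ℚ Y))
    (two : ∀ k : ℕ, 4 ≤ k → Even k → Fintype.card κ ≠ 2 ^ k) :
    ∃ N ∈ L, N * N = 0 ∧ finrank K (LinearMap.range N) = 1 :=
  (one_ns' h hns hY h1 two).1

theorem one_nsX (h : TM L) (hns : NsL L) (hY : Yo L = Y) (h1 : IsBlock (1 : Module.End ℚ Y))
    (two : ∀ k : ℕ, 4 ≤ k → Even k → Fintype.card κ ≠ 2 ^ k) :
    ∀ X : Module.End K (κ → K), LinearMap.trace K (κ → K) X = 0 → X ∈ L :=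
  (one_ns' h hns hY h1 two).2

end Pool.Agent.H76Y
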