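import Pool.Agent.Lib.H76P.T0
import Pool.Agent.Lib.H76Y.Y0

/-!
# T1: first facts
-/

set_option autoImplicit false
set_option linter.unusedSectionVars false
namespace Pool.Agent.H76Y
open Pool.Agent.H76P Pool.Agent.H76V Pool.Agent.H76Q
open Module Matrix Pool.Agent.H53Toric
open Pool.Agent.H76T (IsIdeal Fam)

variable {κ : Type*} {K : Type*} [Field K] [CharZero K] [Fintype κ] [DecidableEq κ]
  {L : Submodule K (Module.End K (κ → K))} {J : Matrix κ κ K} {ν : κ → ℚ}

/-- PROOF. Matrix of `dg f` is diagonal: `LinearMap.trace` is the sum of the diagonal entries (`dg f = Matrix.toLin' (Matrix.diagonal f)`). -/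
theorem dg_trace (f : κ → K) : LinearMap.trace K (κ → K) (dg f) = ∑ a, f a := by
  have e : dg f = Matrix.toLin' (Matrix.diagonal f) := by
    refine LinearMap.ext fun v => funext fun a => ?_
    rw [dg_apply, Matrix.toLin'_apply, Matrix.mulVec_diagonal]
  rw [e, Matrix.trace_toLin'_eq, Matrix.trace_diagonal]

theorem dq_sq {ε : κ → ℚ} (h : ∀ a, ε a = 1 ∨ ε a = -1) :
    (dq ε : Module.End K (κ → K)) * dq ε = 1 := by
  unfold dq
  rw [dg_mul, ← dg_one]
  congr 1
  funext a
  rw [Pi.mul_apply, Pi.one_apply]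
  rcases h a with h1 | h1 <;> rw [h1] <;> norm_num

/-- `dq` is additive and compatible with rational scalars. -/
theorem dq_add (f g : κ → ℚ) : (dq (f + g) : Module.End K (κ → K)) = dq f + dq g := by
  unfold dq
  rw [← dg_add]
  congr 1
  funext a
  rw [Pi.add_apply, Pi.add_apply, Rat.cast_add]

theorem dq_smul (c : ℚ) (f : κ → ℚ) :
    (dq (c • f) : Module.End K (κ → K)) = (c : K) • dq f := by
  unfold dq
  rw [← dg_smul]
  congr 1
  funext a
  rw [Pi.smul_apply, Pi.smul_apply, smul_eq_mul, smul_eq_mul, Rat.cast_mul]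

theorem dq_inj {f g : κ → ℚ} (h : (dq f : Module.End K (κ → K)) = dq g) : f = g := by
  have h1 := dg_inj h
  funext a
  have h2 : (f a : K) = (g a : K) := congrFun h1 a
  exact_mod_cast h2

/-- PROOF. `Submodule.span_induction`, `dq_add`, `dq_smul`. -/
theorem Yo_mem {f : κ → ℚ} (hf : f ∈ Yo L) : dq f ∈ L := by
  unfold Yo at hf
  induction hf using Submodule.span_induction with
  | mem x hx => exact hx.2
  | zero =>
    have h1 : (dq (0 : κ → ℚ) : Module.End K (κ → K)) = 0 := by
      have h2 := dq_smul (K := K) (0 : ℚ) (0 : κ → ℚ)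
      rw [zero_smul, Rat.cast_zero, zero_smul] at h2
      exact h2
    rw [h1]
    exact L.zero_mem
  | add x y _ _ hx hy =>
    rw [dq_add]
    exact L.add_mem hx hy
  | smul c x _ hx =>
    rw [dq_smul]
    exact L.smul_mem _ hx

/-- PROOF. `Yo_mem`, `CmpN.tr`, `dg_trace` (the cast of rational numbers to `K` is injective). -/
theorem Yo_sum (h : CmpN L) {f : κ → ℚ} (hf : f ∈ Yo L) : ∑ a, f a = 0 := by
  have h1 := h.tr _ (Yo_mem hf)
  unfold dq at h1
  rw [dg_trace] at h1
  exact_mod_cast h1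

end Pool.Agent.H76Y
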