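import Pool.Agent.Lib.H76Y.G4
import Pool.Agent.Lib.H76P.G7

/-!
# G5: the Lie algebra of a component satisfies `CmpN`
-/

set_option autoImplicit false
set_option linter.unusedSectionVars false
namespace Pool.Agent.H76Y
open Pool.Agent.H76P Pool.Agent.H76V Pool.Agent.H76Q
open Module Matrix Polynomial Pool.Agent.H53Toric
open Pool.Agent.H76U (Split4 preL preL_e P_cmp irr_comp p_P mem_Lb preL_bracket cmp_mul cmp_one cmp)
open Pool.Agent.H76V (SH)

variable {ι : Type*} [Fintype ι] [DecidableEq ι] {K : Type*} [Field K]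
  [CharZero K] [IsAlgClosed K] {B : Type*} [Fintype B] [DecidableEq B]
  {J : Matrix ι ι K} {DD : Submodule K (Matrix ι ι K)}
  {bar : B → B} {e : B → Matrix ι ι K} (h : Split4 J DD bar e) {b : B}
  {n : ℕ} {S : Set (Matrix ι ι K)} {𝓗 : Set (Matrix ι ι K)} {φ φ' : Matrix ι ι K}
  (hb : ∀ x ∈ 𝓗, 2 * (x * e b).rank = n)
  (hJ : Jᵀ = -J) (hdet : IsUnit J.det)
  {P : Matrix ι (Fin n) K} {Q : Matrix (Fin n) ι K}
  (hPQ : e b = P * Q) (hQP : Q * P = 1)
  (g : PH S J DD 𝓗 φ φ')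

include g in
theorem g5_preL {x : Matrix ι ι K} (hx : x ∈ 𝓗) : x ∈ preL J S :=
  ⟨⟨0, x, g.sh.hz x hx, by rw [zero_smul, add_zero]⟩, 1, by rw [g.sh.hs x hx, one_smul]⟩

include h g in
theorem g5_comm {x : Matrix ι ι K} (hx : x ∈ 𝓗) : x * e b = e b * x :=
  preL_e (b := b) h g.sh.one g.sh.SD (g5_preL g hx)

include h hPQ hQP g in
theorem g5_irr {W : Submodule K (Fin n → K)}
    (h1 : ∀ x ∈ 𝓗, ∀ w ∈ W, cmp P Q x *ᵥ w ∈ W) : W = ⊥ ∨ W = ⊤ := by
  set U : Submodule K (ι → K) := W.map P.mulVecLin with hU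
  have hUst : ∀ s ∈ S, ∀ w ∈ U, s *ᵥ w ∈ U := by
    intro s hs
    refine zar_stable ?_ (g.sh.gen hs)
    intro m hm
    refine Submonoid.closure_induction (motive := fun m _ => ∀ w ∈ U, m *ᵥ w ∈ U)
      ?_ ?_ ?_ hm
    · rintro _ ⟨x, hx, t, -, rfl⟩ _ ⟨w, hw, rfl⟩
      rw [Matrix.mulVecLin_apply, Matrix.add_mulVec, Matrix.one_mulVec, Matrix.smul_mulVec]
      apply U.add_mem ⟨w, hw, rfl⟩
      apply U.smul_mem
      refine ⟨cmp P Q x *ᵥ w, h1 x hx w hw, ?_⟩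
      rw [Matrix.mulVecLin_apply, Matrix.mulVec_mulVec, Matrix.mulVec_mulVec,
        P_cmp hPQ hQP (g5_comm h g hx)]
    · intro w hw
      rw [Matrix.one_mulVec]; exact hw
    · intro x y _ _ hx hy w hw
      rw [← Matrix.mulVec_mulVec]
      exact hx _ (hy w hw)
  have hUb : ∀ w ∈ U, e b *ᵥ w = w := by
    rintro _ ⟨w, -, rfl⟩
    rw [Matrix.mulVecLin_apply, Matrix.mulVec_mulVec, p_P hPQ hQP]
  rcases irr_comp h b g.sh.semis g.sh.commt hUst hUb with h2 | h2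
  · left
    rw [eq_bot_iff]
    intro w hw
    have h3 : P *ᵥ w ∈ U := ⟨w, hw, rfl⟩
    rw [h2, Submodule.mem_bot] at h3
    rw [Submodule.mem_bot]
    have h4 : w = Q *ᵥ (P *ᵥ w) := by rw [Matrix.mulVec_mulVec, hQP, Matrix.one_mulVec]
    rw [h4, h3, Matrix.mulVec_zero]
  · right
    rw [eq_top_iff]
    intro w _
    obtain ⟨w', hw', hww⟩ := h2 (P *ᵥ w) (by
      rw [Matrix.mulVec_mulVec, p_P hPQ hQP])
    rw [Matrix.mulVecLin_apply] at hww
    have h4 : w' = w := by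
      have h5 := congrArg (fun v => Q *ᵥ v) hww
      simp only [Matrix.mulVec_mulVec, hQP, Matrix.one_mulVec] at h5
      exact h5
    rw [← h4]
    exact hw'

include h hb hdet hPQ hQP g in
theorem g5_inv {x : Matrix ι ι K} (hx : x ∈ 𝓗) :
    phi (cmp P Q ((2 : K) • x - 1)) ∈ LcN J S P Q ∧
      phi (cmp P Q ((2 : K) • x - 1)) * phi (cmp P Q ((2 : K) • x - 1)) = 1 := by
  have hxe := g5_comm (b := b) h g hx
  refine ⟨g4_mem h hPQ hQP g ?_ (g4_bal h hb hPQ hQP g hx hxe), ?_⟩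
  · have h1 := g4_preL hdet g ((zlie S).smul_mem (2 : K) (g.sh.hz x hx)) 1
    rwa [one_smul] at h1
  · rw [← map_mul, map_sub, map_smul, cmp_one hPQ hQP, ← map_one (phi (ι := Fin n) (K := K))]
    congr 1
    have h3 : cmp P Q x * cmp P Q x = cmp P Q x := by
      rw [← cmp_mul hPQ hQP hxe, g.sh.hi x hx]
    simp only [sub_mul, mul_sub, smul_mul_assoc, mul_smul_comm, h3, mul_one, one_mul]
    module

include h hPQ hQP g in
theorem g5_of {W : Submodule K (Fin n → K)} (hinv : ∀ x ∈ 𝓗, ∀ w ∈ W,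
    phi (cmp P Q ((2 : K) • x - 1)) w ∈ W) : W = ⊥ ∨ W = ⊤ := by
  refine g5_irr h hPQ hQP g fun x hx w hw => ?_
  have h3 := hinv x hx w hw
  rw [map_sub, map_smul, cmp_one hPQ hQP, phi_apply, Matrix.sub_mulVec, Matrix.smul_mulVec,
    Matrix.one_mulVec] at h3
  have h4 := W.smul_mem (1 / 2 : K) (W.add_mem h3 hw)
  rw [sub_add_cancel, smul_smul] at h4
  norm_num at h4
  exact h4

include h hb hdet hPQ hQP g in
theorem cmp_unit (hn : 0 < n) : CmpN (LcN J S P Q) := by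
  have : Nonempty (Fin n) := ⟨⟨0, hn⟩⟩
  refine ⟨?_, ?_, fun X hX => hX.2, ?_⟩
  · intro X hX Y hY
    refine ⟨?_, ?_⟩
    · obtain ⟨x, rfl⟩ := (phi (ι := Fin n) (K := K)).surjective X
      obtain ⟨y, rfl⟩ := (phi (ι := Fin n) (K := K)).surjective Y
      obtain ⟨A, hA, rfl⟩ := mem_Lb.1 hX.1
      obtain ⟨A', hA', rfl⟩ := mem_Lb.1 hY.1
      rw [← map_mul (phi (ι := Fin n) (K := K)), ← map_mul (phi (ι := Fin n) (K := K)),
        ← map_sub (phi (ι := Fin n) (K := K)), ← cmp_mul hPQ hQP (preL_e h g.sh.one g.sh.SD hA'),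
        ← cmp_mul hPQ hQP (preL_e h g.sh.one g.sh.SD hA), ← map_sub]
      obtain ⟨h1, h2⟩ := preL_bracket hA hA'
      exact mem_Lb.2 ⟨_, ⟨⟨0, _, h1, by rw [zero_smul, add_zero]⟩, 0, by rw [h2, zero_smul]⟩, rfl⟩
    · rw [map_sub, LinearMap.trace_mul_comm, sub_self]
  · intro W hW
    exact g5_of h hPQ hQP g fun x hx w hw => hW _ (g5_inv h hb hdet hPQ hQP g hx).1 w hw
  · intro T hT
    obtain ⟨c, hc⟩ := Module.End.exists_eigenvalue T
    refine ⟨c, ?_⟩
    have h1 : Module.End.eigenspace T c = ⊤ := by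
      rcases g5_of h hPQ hQP g (W := Module.End.eigenspace T c) (fun x hx w hw => by
        rw [Module.End.mem_eigenspace_iff] at hw ⊢
        have h2 := hT _ (g5_inv h hb hdet hPQ hQP g hx).1 (g5_inv h hb hdet hPQ hQP g hx).2
        have h3 := congrArg (fun f : Module.End K (Fin n → K) => f w) h2
        change T ((phi (cmp P Q ((2 : K) • x - 1))) w) = (phi (cmp P Q ((2 : K) • x - 1))) (T w) at h3
        rw [h3, hw, map_smul]) with h2 | h2
      · exact absurd h2 hc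
      · exact h2
    apply LinearMap.ext
    intro w
    have h2 : w ∈ Module.End.eigenspace T c := by rw [h1]; trivial
    rw [Module.End.mem_eigenspace_iff] at h2
    exact h2

end Pool.Agent.H76Y
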