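import Pool.Agent.Lib.H76P.G5
import Pool.Agent.Lib.H76Y.A1
import Pool.Agent.Lib.H76Y.G4
import Pool.Agent.Lib.H76P.G6
import Pool.Agent.Lib.H76Y.Y0

/-!
# G6: the log linear functions are spanned by the functions of the projectors
-/

set_option autoImplicit false
set_option linter.unusedSectionVars false
namespace Pool.Agent.H76Y
open Pool.Agent.H76P Pool.Agent.H76V Pool.Agent.H76Q
open Module Matrix Pool.Agent.H53Toric
open Pool.Agent.H76RM (van zlie_commute)
open Pool.Agent.H76U (preL cmp Split4)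
open Pool.Agent.H76V (SH)
open Pool.Agent.H76T (Lc mem_Lc)
open Pool.Agent.H76U (tw)

variable {ι : Type*} [Fintype ι] [DecidableEq ι] {K : Type*} [Field K]
  [CharZero K] [IsAlgClosed K] {B : Type*} [Fintype B] [DecidableEq B]
  {J : Matrix ι ι K} {DD : Submodule K (Matrix ι ι K)}
  {bar : B → B} {e : B → Matrix ι ι K} (h : Split4 J DD bar e) {b : B}
  {n : ℕ} {S : Set (Matrix ι ι K)} {𝓗 : Set (Matrix ι ι K)} {φ φ' : Matrix ι ι K}
  (hb : ∀ x ∈ 𝓗, 2 * (x * e b).rank = n)
  (hJ : Jᵀ = -J) (hdet : IsUnit J.det)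
  {P : Matrix ι (Fin n) K} {Q : Matrix (Fin n) ι K}
  (hPQ : e b = P * Q) (hQP : Q * P = 1)
  (g : PH S J DD 𝓗 φ φ') {d : Fin n → K} (E : EC φ P d)

include h hb hdet hPQ hQP g E in
theorem g6_gen {m : Fin n → ℤ}
    (hm : ∀ u ∈ insert 1 (Hs (LcN J S P Q)), ∑ k, (m k : ℚ) * u k = 0)
    {x : Matrix ι ι K} (hx : x ∈ 𝓗) (hxφ : x * φ = φ * x) {t : K} (ht : t ≠ 0) :
    ∃ f : Fin n → K, cmp P Q (1 + (t - 1) • x) = Matrix.diagonal f ∧ (∀ k, f k ≠ 0) ∧
      ∏ k, f k ^ m k = 1 := by
  obtain ⟨ε, hε, he⟩ := eps_mem h hb hdet hPQ hQP g E hx hxφ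
  have h1 : cmp P Q ((2 : K) • x - 1) = Matrix.diagonal (fun k => (ε k : K)) := by
    have : phi (cmp P Q ((2 : K) • x - 1)) = phi (Matrix.diagonal (fun k => (ε k : K))) := by
      rw [he, phi_diag]; rfl
    exact phi.injective this
  have h2 : cmp P Q (1 : Matrix ι ι K) = 1 := H76U.cmp_one hPQ hQP
  have h3 : (2 : K) • cmp P Q x = 1 + Matrix.diagonal (fun k => (ε k : K)) := by
    rw [← h1, map_sub, map_smul, h2]
    abel
  have h4 : cmp P Q x = Matrix.diagonal (fun k => (1 + (ε k : K)) / 2) := by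
    have h5 : cmp P Q x = (2 : K)⁻¹ • ((2 : K) • cmp P Q x) := by
      rw [smul_smul, inv_mul_cancel₀ two_ne_zero, one_smul]
    rw [h5, h3]
    ext i j
    by_cases hij : i = j
    · subst hij
      simp [Matrix.diagonal_apply_eq]
      ring
    · simp [Matrix.diagonal_apply_ne _ hij, Matrix.one_apply_ne hij]
  have hpm : ∀ k, ε k = 1 ∨ ε k = -1 := hε.1
  refine ⟨fun k => if ε k = 1 then t else 1, ?_, ?_, ?_⟩
  · rw [map_add, h2, map_smul, h4]
    ext i j
    by_cases hij : i = j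
    · subst hij
      rcases hpm i with h5 | h5
      · simp [Matrix.diagonal_apply_eq, h5]
      · have h6 : ¬ ((-1 : ℚ) = 1) := by norm_num
        simp [Matrix.diagonal_apply_eq, h5, h6]
    · simp [Matrix.diagonal_apply_ne _ hij, Matrix.one_apply_ne hij]
  · intro k
    dsimp only
    split_ifs
    · exact ht
    · exact one_ne_zero
  · have h5 : ∀ k, (if ε k = 1 then t else 1) ^ m k = t ^ (if ε k = 1 then m k else 0) := by
      intro k
      split_ifs <;> simp
    rw [Finset.prod_congr rfl (fun k _ => h5 k), g6_prod_zpow ht]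
    have h6 : ∑ k, (if ε k = 1 then m k else 0) = 0 := by
      have h7 := hm ε (Set.mem_insert_of_mem _ hε)
      have h8 := hm 1 (Set.mem_insert _ _)
      have h9 : ((∑ k, (if ε k = 1 then m k else 0) : ℤ) : ℚ) = 0 := by
        push_cast
        have h10 : ∀ k, (if ε k = 1 then (m k : ℚ) else 0) =
            ((m k : ℚ) * (1 : Fin n → ℚ) k + (m k : ℚ) * ε k) / 2 := by
          intro k
          rcases hpm k with h11 | h11
          · rw [if_pos h11, h11, Pi.one_apply]; ring
          · rw [if_neg (by rw [h11]; norm_num), h11, Pi.one_apply]; ring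
        rw [Finset.sum_congr rfl (fun k _ => h10 k), ← Finset.sum_div, Finset.sum_add_distrib, h7, h8]
        simp
      exact_mod_cast h9
    rw [h6, zpow_zero]

include h hb hdet hPQ hQP g E in
/-- PROOF. `mem_spanK` for `s = insert 1 (Hs L)`, `L = LcN J S P Q`.  Let `m : Fin n → ℤ` be orthogonal to `1` and to `Hs L`.  Let `m = m₊ - m₋`
(natural numbers) and consider the polynomial function `F y = ∏ k, (Q * y * P) k k ^ m₊ k - ∏ k, (Q * y * P) k k ^ m₋ k`.  Claim: `F` vanishes on the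
submonoid `M` generated by the `1 + (t - 1) • x`, `x ∈ 𝓗` commuting with `φ`, `t ≠ 0`.  All elements `y` of `M` commute with `e b` and with `φ`, so
`Q * y * P` is diagonal (`cmp_diag`), and `y ↦ Q * y * P` is multiplicative on `M`; so it is enough that
`∏ k, (Q * y * P) k k ^ m k = 1` for the generators (all entries are nonzero).  For `y = 1 + (t - 1) • x`, `cmp (2 x - 1) = diagonal ε`, `ε ∈ Hs L`
(`eps_mem`), `(Q * y * P) k k` is `t` if `ε k = 1` and `1` if `ε k = -1`, i.e. `t ^ ((1 + ε k) / 2)`, and `∑ m k (1 + ε k) / 2 = 0`.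
So `F` vanishes on `zar M ∋ φ ^ N` (`g.torgen`); `Q * φ ^ N * P = diagonal (d ^ N)` (`cmp_phi`).  So `∏ k, d k ^ (N * m k) = 1`, and `LogLin` gives
`∑ N * m k * f k = 0`, so `∑ m k * f k = 0`.  (If there is no `x ∈ 𝓗` commuting with `φ` the argument is the same.) -/
theorem span_of_loglin {f : Fin n → K} (hf : LogLin d f) :
    f ∈ Submodule.span K (cst K '' (insert 1 (Hs (LcN J S P Q)))) := by
  refine mem_spanK fun m hm => ?_
  obtain ⟨N, hN, hNz⟩ := g.torgen
  have key : ∀ y ∈ Submonoid.closure {m : Matrix ι ι K | ∃ h ∈ 𝓗, h * φ = φ * h ∧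
      ∃ t : K, t ≠ 0 ∧ m = 1 + (t - 1) • h}, y * e b = e b * y ∧
      ∃ f : Fin n → K, cmp P Q y = Matrix.diagonal f ∧ (∀ k, f k ≠ 0) ∧ ∏ k, f k ^ m k = 1 := by
    intro y hy
    induction hy using Submonoid.closure_induction with
    | mem y hy =>
      obtain ⟨x, hx, hxφ, t, ht, rfl⟩ := hy
      refine ⟨?_, g6_gen h hb hdet hPQ hQP g E hm hx hxφ ht⟩
      have h1 : x * e b = e b * x :=
        zlie_commute g.sh.one (fun s hs => g.sh.SD s hs _ (h.mem b)) (g.sh.hz x hx)
      rw [add_mul, mul_add, one_mul, mul_one, Matrix.smul_mul, Matrix.mul_smul, h1]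
    | one =>
      refine ⟨by rw [one_mul, mul_one], fun _ => 1, ?_, fun _ => one_ne_zero, by simp⟩
      rw [H76U.cmp_one hPQ hQP]
      ext i j
      by_cases hij : i = j
      · subst hij; simp
      · simp [Matrix.diagonal_apply_ne _ hij, Matrix.one_apply_ne hij]
    | mul x y _ _ hx hy =>
      obtain ⟨hx1, fx, hx2, hx3, hx4⟩ := hx
      obtain ⟨hy1, fy, hy2, hy3, hy4⟩ := hy
      refine ⟨by rw [Matrix.mul_assoc, hy1, ← Matrix.mul_assoc, hx1, Matrix.mul_assoc],
        fun k => fx k * fy k, ?_, fun k => mul_ne_zero (hx3 k) (hy3 k), ?_⟩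
      · rw [H76U.cmp_mul hPQ hQP hy1, hx2, hy2, Matrix.diagonal_mul_diagonal]
      · simp only [mul_zpow]
        rw [Finset.prod_mul_distrib, hx4, hy4, one_mul]
  choose G hG using fun k => g6_entry P Q k k
  have h1 : ev (φ ^ N) (∏ k, G k ^ (m k).toNat - ∏ k, G k ^ (-m k).toNat) = 0 := by
    apply hNz
    intro y hy
    obtain ⟨-, f, h2, h3, h4⟩ := key y hy
    rw [map_sub, map_prod, map_prod]
    simp only [map_pow, hG]
    have h5 : ∀ k, (Q * y * P) k k = f k := fun k => by
      have : Q * y * P = Matrix.diagonal f := h2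
      rw [this, Matrix.diagonal_apply_eq]
    simp only [h5]
    rw [sub_eq_zero]
    exact (g6_nat h3 m).1 h4
  have h6 : φ ^ N * P = P * Matrix.diagonal (fun k => d k ^ N) := by
    clear h1 hNz hN
    induction N with
    | zero => simp
    | succ N ih =>
      rw [pow_succ, Matrix.mul_assoc, E.eig, ← Matrix.mul_assoc, ih, Matrix.mul_assoc,
        Matrix.diagonal_mul_diagonal]
      simp only [pow_succ]
  have h7 : ∀ k, (Q * φ ^ N * P) k k = d k ^ N := fun k => by
    rw [Matrix.mul_assoc, h6, ← Matrix.mul_assoc, hQP, Matrix.one_mul, Matrix.diagonal_apply_eq]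
  rw [map_sub, map_prod, map_prod] at h1
  simp only [map_pow, hG, h7] at h1
  rw [sub_eq_zero] at h1
  have h8 : ∏ k, (d k ^ N) ^ m k = 1 := (g6_nat (fun k => pow_ne_zero _ (E.ne k)) m).2 h1
  have h9 := hf (fun k => N * m k) (by
    rw [← h8]
    refine Finset.prod_congr rfl fun k _ => ?_
    rw [_root_.zpow_mul, zpow_natCast])
  have h10 : (N : K) * ∑ k, (m k : K) * f k = 0 := by
    rw [Finset.mul_sum, ← h9]
    refine Finset.sum_congr rfl fun k _ => ?_
    push_cast
    ring
  rcases mul_eq_zero.1 h10 with h11 | h11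
  · exact absurd h11 (by exact_mod_cast hN)
  · exact h11

end Pool.Agent.H76Y
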