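import Pool.Agent.Lib.H76Y.A1
import Pool.Agent.Lib.H76Y.G6
import Pool.Agent.Lib.H76Y.T1
import Pool.Agent.Lib.H76Y.Y0
import Pool.Agent.Lib.H76Y.G5

/-!
# G7: diagonal elements, field automorphisms
-/

set_option autoImplicit false
set_option linter.unusedSectionVars false
namespace Pool.Agent.H76Y
open Pool.Agent.H76P Pool.Agent.H76V Pool.Agent.H76Q
open Module Matrix Pool.Agent.H53Toric
open Pool.Agent.H76RM (van zlie_commute)
open Pool.Agent.H76U (preL cmp Split4)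
open Pool.Agent.H76V (SH)
open Pool.Agent.H76T (Lc mem_Lc)
open Pool.Agent.H76U (tw)

variable {ι : Type*} [Fintype ι] [DecidableEq ι] {K : Type*} [Field K]
  [CharZero K] [IsAlgClosed K] {B : Type*} [Fintype B] [DecidableEq B]
  {J : Matrix ι ι K} {DD : Submodule K (Matrix ι ι K)}
  {bar : B → B} {e : B → Matrix ι ι K} (h : Split4 J DD bar e) {b : B}
  {n : ℕ} {S : Set (Matrix ι ι K)} {𝓗 : Set (Matrix ι ι K)} {φ φ' : Matrix ι ι K}
  (hb : ∀ x ∈ 𝓗, 2 * (x * e b).rank = n)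
  (hJ : Jᵀ = -J) (hdet : IsUnit J.det)
  {P : Matrix ι (Fin n) K} {Q : Matrix (Fin n) ι K}
  (hPQ : e b = P * Q) (hQP : Q * P = 1)
  (g : PH S J DD 𝓗 φ φ') {d : Fin n → K} (E : EC φ P d)

include h hb hdet hPQ hQP g E in
/-- PROOF. By `span_of_loglin` and `rat_of_spanK` `f + constant` is in `span ℚ (insert 1 (Hs L))`: `f - c` is log linear with `c : K`, so
`cst K f = (f - c) + c • 1` is in the span over `K` of `cst K '' (insert 1 (Hs L))`, so `f ∈ span ℚ (insert 1 (Hs L))`, `f = y + r • 1` with `y ∈ Yo L`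
(`Submodule.mem_span_insert`).  The sum of the values of `f` is `0`, that of `y` too (`Yo_sum`, `cmp_unit`), so `r * n = 0`, `r = 0`. -/
theorem mem_Yo (hn : 0 < n) {f : Fin n → ℚ} {c : K}
    (hf : LogLin d (fun k => (f k : K) - c)) (hs : ∑ k, f k = 0) : f ∈ Yo (LcN J S P Q) := by
  have h1 := span_of_loglin h hb hdet hPQ hQP g E hf
  have h2 : cst K f ∈ Submodule.span K (cst K '' (insert 1 (Hs (LcN J S P Q)))) := by
    have h3 : cst K f = (fun k => (f k : K) - c) + c • cst K (1 : Fin n → ℚ) := by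
      funext k
      simp [cst]
    rw [h3]
    exact Submodule.add_mem _ h1
      (Submodule.smul_mem _ _ (Submodule.subset_span ⟨1, Set.mem_insert _ _, rfl⟩))
  have h4 := rat_of_spanK h2
  obtain ⟨r, y, hy, hfy⟩ := Submodule.mem_span_insert.1 h4
  have hy' : y ∈ Yo (LcN J S P Q) := hy
  have h5 := Yo_sum (cmp_unit h hb hdet hPQ hQP g hn) hy'
  have h6 : r * (n : ℚ) = 0 := by
    have h7 : ∑ k, f k = r * n + ∑ k, y k := by
      rw [hfy]
      simp [Finset.sum_add_distrib, mul_comm]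
    rw [hs, h5, add_zero] at h7
    exact h7.symm
  have hr : r = 0 := by
    rcases mul_eq_zero.1 h6 with h8 | h8
    · exact h8
    · exact absurd h8 (by exact_mod_cast hn.ne')
  rw [hfy, hr, zero_smul, zero_add]
  exact hy'

include h hb hdet hPQ hQP g E in
/-- PROOF. `loglin_of_mem` and `mem_Yo`; the sum is `0` by `CmpN.tr` and `dg_trace`. -/
theorem diag_mem (hn : 0 < n) {f : Fin n → ℚ} (hf : dq f ∈ LcN J S P Q) :
    f ∈ Yo (LcN J S P Q) := by
  obtain ⟨c, hc⟩ := loglin_of_mem h hb hdet hPQ hQP g E (f := fun k => (f k : K)) hf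
  refine mem_Yo h hb hdet hPQ hQP g E hn hc ?_
  have h1 := (cmp_unit h hb hdet hPQ hQP g hn).tr _ hf
  unfold dq at h1
  rw [dg_trace] at h1
  exact_mod_cast h1

include h hb hdet hPQ hQP g E in
/-- PROOF. `dq f ∈ L` (`Yo_mem`), so `f - c` is log linear (`loglin_of_mem`).  Then `f ∘ σ - c` is log linear: if `∏ k, d k ^ m k = 1`, apply `s`:
`∏ k, d (σ k) ^ m k = 1`, i.e. `∏ k, d k ^ m (σ⁻¹ k) = 1`, and so `0 = ∑ k, m (σ⁻¹ k) (f k - c) = ∑ k, m k (f (σ k) - c)`.  The sum of the values of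
`f ∘ σ` is that of `f`, i.e. `0` (`Yo_sum`).  `mem_Yo`. -/
theorem gal_mem (hn : 0 < n) {σ : Equiv.Perm (Fin n)} {s : K ≃+* K}
    (hσ : ∀ k, d (σ k) = s (d k)) {f : Fin n → ℚ} (hf : f ∈ Yo (LcN J S P Q)) :
    f ∘ σ ∈ Yo (LcN J S P Q) := by
  have h1 := Yo_mem hf
  have h2 := Yo_sum (cmp_unit h hb hdet hPQ hQP g hn) hf
  obtain ⟨c, hc⟩ := loglin_of_mem h hb hdet hPQ hQP g E (f := fun k => (f k : K)) h1
  refine mem_Yo h hb hdet hPQ hQP g E hn (c := c) ?_ ?_
  · intro m hm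
    have hinv : ∀ k, σ⁻¹ (σ k) = k := fun k => σ.symm_apply_apply k
    have h3 : ∏ k, d k ^ m (σ⁻¹ k) = 1 := by
      have h4 : ∏ k, d (σ k) ^ m k = 1 := by
        have h5 : ∏ k, d (σ k) ^ m k = s (∏ k, d k ^ m k) := by
          rw [map_prod]
          refine Finset.prod_congr rfl fun k _ => ?_
          rw [hσ k, map_zpow₀]
        rw [h5, hm, map_one]
      rw [← h4, ← Equiv.prod_comp σ (fun k => d k ^ m (σ⁻¹ k))]
      refine Finset.prod_congr rfl fun k _ => ?_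
      rw [hinv]
    have h6 := hc (fun k => m (σ⁻¹ k)) h3
    rw [← h6, ← Equiv.sum_comp σ (fun k => ((m (σ⁻¹ k) : ℤ) : K) * ((f k : K) - c))]
    refine Finset.sum_congr rfl fun k _ => ?_
    rw [hinv]
    rfl
  · rw [← h2]
    exact Equiv.sum_comp σ f

end Pool.Agent.H76Y
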