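import Pool.Agent.Lib.H76Y.EN1
import Pool.Agent.Lib.H76Q.Q3

/-!
# EN2: determinants on a component and multipliers
-/

set_option autoImplicit false
set_option linter.unusedSectionVars false
namespace Pool.Agent.H76Y.EN
open Module Matrix
open Pool.Agent.H76Q
open Pool.Agent.H76U (cmp)

variable {ι : Type*} [Fintype ι] [DecidableEq ι] {K : Type*} [Field K] {n : ℕ}

/-- The multiplier of `t ^ h`. -/
theorem mult_par {J h : Matrix ι ι K} (hh : h * h = h) (hJ : hᵀ * J + J * h = J) (t : K) :
    (1 + (t - 1) • h)ᵀ * J * (1 + (t - 1) • h) = t • J := by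
  have h1 : hᵀ * J = J - J * h := eq_sub_of_add_eq hJ
  have h2 : hᵀ * J * h = 0 := by
    rw [h1, Matrix.sub_mul, Matrix.mul_assoc, hh, sub_self]
  rw [Matrix.transpose_add, Matrix.transpose_one, Matrix.transpose_smul, Matrix.add_mul, Matrix.one_mul,
    Matrix.smul_mul, Matrix.add_mul, Matrix.mul_add, Matrix.mul_one, Matrix.mul_add, Matrix.mul_one,
    Matrix.mul_smul, Matrix.smul_mul, Matrix.mul_smul, h2, h1]
  module

theorem rank_cmp {e : Matrix ι ι K} {U : Matrix ι (Fin n) K} {V : Matrix (Fin n) ι K} (hUV : e = U * V)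
    (hVU : V * U = 1) {h : Matrix ι ι K} (he : h * e = e * h) : (cmp U V h).rank = (h * e).rank := by
  have hee : e * e = e := by
    rw [hUV]
    calc U * V * (U * V) = U * (V * U) * V := by simp only [Matrix.mul_assoc]
      _ = U * V := by rw [hVU, Matrix.mul_one]
  have h1 : h * e = U * cmp U V h * V := by
    rw [Pool.Agent.H76U.cmp_apply]
    calc h * e = h * (e * e) := by rw [hee]
      _ = (h * e) * e := (Matrix.mul_assoc _ _ _).symm
      _ = (e * h) * e := by rw [he]
      _ = U * (V * h * U) * V := by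
        rw [hUV]
        simp only [Matrix.mul_assoc]
  have h2 : cmp U V h = V * (h * e) * U := by
    rw [h1]
    calc cmp U V h = (V * U) * cmp U V h * (V * U) := by rw [hVU, Matrix.one_mul, Matrix.mul_one]
      _ = V * (U * cmp U V h * V) * U := by simp only [Matrix.mul_assoc]
  apply le_antisymm
  · rw [h2]
    exact (Matrix.rank_mul_le_left _ _).trans (Matrix.rank_mul_le_right _ _)
  · nth_rw 1 [h1]
    exact (Matrix.rank_mul_le_left _ _).trans (Matrix.rank_mul_le_right _ _)

/-- The square of the determinant on a component is a power of the multiplier, for the elements of the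
group generated by the one parameter groups of balanced projectors. -/
theorem tgen_det {J e : Matrix ι ι K} {U : Matrix ι (Fin n) K} {V : Matrix (Fin n) ι K} (hUV : e = U * V)
    (hVU : V * U = 1) {𝓗 : Set (Matrix ι ι K)}
    (hpar : ∀ h ∈ 𝓗, h * h = h ∧ h * e = e * h ∧ hᵀ * J + J * h = J ∧ 2 * (h * e).rank = n)
    {g : Matrix ι ι K} (hg : g ∈ Submonoid.closure {y | ∃ h ∈ 𝓗, ∃ t : K, t ≠ 0 ∧ y = 1 + (t - 1) • h}) :
    g * e = e * g ∧ ∃ c : K, c ≠ 0 ∧ gᵀ * J * g = c • J ∧ (cmp U V g).det ^ 2 = c ^ n := by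
  induction hg using Submonoid.closure_induction with
  | mem y hy =>
    obtain ⟨h, hh, t, ht, rfl⟩ := hy
    obtain ⟨h1, h2, h3, h4⟩ := hpar h hh
    refine ⟨?_, t, ht, mult_par h1 h3 t, ?_⟩
    · rw [add_mul, mul_add, one_mul, mul_one, smul_mul_assoc, mul_smul_comm, h2]
    · have h5 : cmp U V (1 + (t - 1) • h) = 1 + (t - 1) • cmp U V h := by
        rw [map_add, map_smul, Pool.Agent.H76U.cmp_one hUV hVU]
      have h6 : cmp U V h * cmp U V h = cmp U V h := by
        rw [← Pool.Agent.H76U.cmp_mul hUV hVU h2, h1]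
      rw [h5, det_par h6, rank_cmp hUV hVU h2, ← pow_mul, mul_comm _ 2, h4]
  | one =>
    refine ⟨by rw [one_mul, mul_one], 1, one_ne_zero, ?_, ?_⟩
    · rw [Matrix.transpose_one, Matrix.one_mul, Matrix.mul_one, one_smul]
    · rw [Pool.Agent.H76U.cmp_one hUV hVU, Matrix.det_one, one_pow, one_pow]
  | mul a b _ _ iha ihb =>
    obtain ⟨ha, c, hc, hca, hda⟩ := iha
    obtain ⟨hb, c', hc', hcb, hdb⟩ := ihb
    refine ⟨by rw [mul_assoc, hb, ← mul_assoc, ha, mul_assoc], c * c', mul_ne_zero hc hc', ?_, ?_⟩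
    · calc (a * b)ᵀ * J * (a * b) = bᵀ * (aᵀ * J * a) * b := by
            rw [Matrix.transpose_mul]
            simp only [Matrix.mul_assoc]
        _ = (c * c') • J := by
            rw [hca, Matrix.mul_smul, Matrix.smul_mul, hcb, smul_smul]
    · rw [Pool.Agent.H76U.cmp_mul hUV hVU hb, Matrix.det_mul, mul_pow, mul_pow, hda, hdb]

end Pool.Agent.H76Y.EN
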