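import Pool.Agent.Lib.H76Y.Y0
import Pool.Agent.Lib.H76T.TD5

/-!
# NS: a component which is not its own conjugate respects no form
-/

set_option autoImplicit false
set_option linter.unusedSectionVars false
namespace Pool.Agent.H76Y
open Module Matrix Polynomial Pool.Agent.H53Toric
open Pool.Agent.H76P
open Pool.Agent.H76T (IsIdeal Fam)
open Pool.Agent.H76V (Cmp SH)
open Pool.Agent.H76U (cmp preL Lb Split4)
open Pool.Agent.H76RM (zar_commute)

variable {ι : Type*} [Fintype ι] [DecidableEq ι] {K : Type*} [Field K] [CharZero K]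

variable {B : Type*} [Fintype B] [DecidableEq B]
  {J : Matrix ι ι K} {DD : Submodule K (Matrix ι ι K)}
  {bar : B → B} {e : B → Matrix ι ι K} (h : Split4 J DD bar e) {b : B}
  {n : ℕ} {P : Matrix ι (Fin n) K} {Q : Matrix (Fin n) ι K}
  (hPQ : e b = P * Q) (hQP : Q * P = 1)
  {S : Set (Matrix ι ι K)} {𝓗 : Set (Matrix ι ι K)} {Γ : Type*} [Group Γ] {r : Γ →* Matrix ι ι K}
  (g : SH S J DD r 𝓗)

include h hPQ hQP g in
/-- `2 h - 1` has multiplier `0`, the trace of its compression is `2 rank (h e_b) - n`. -/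
theorem ns_mem {x : Matrix ι ι K} (hx : x ∈ 𝓗) (hbal : 2 * (x * e b).rank = n) :
    phi (cmp P Q ((2 : K) • x - 1)) ∈ LcN J S P Q := by
  have hxL : x ∈ preL J S := ⟨⟨0, x, g.hz x hx, by rw [zero_smul, add_zero]⟩, 1, by rw [g.hs x hx, one_smul]⟩
  have hone : (1 : Matrix ι ι K) ∈ preL J S := by
    refine ⟨⟨1, 0, (zlie S).zero_mem, by rw [one_smul, zero_add]⟩, 2, ?_⟩
    rw [Matrix.transpose_one, one_mul, mul_one, two_smul]
  have hxe := Pool.Agent.H76V.preL_ec (b := b) h g hxL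
  have hmem : (2 : K) • x - 1 ∈ preL J S := Submodule.sub_mem _ (Submodule.smul_mem _ _ hxL) hone
  refine ⟨Pool.Agent.H76U.mem_Lb.2 ⟨_, hmem, rfl⟩, ?_⟩
  have hc : cmp P Q x * cmp P Q x = cmp P Q x := by
    rw [← Pool.Agent.H76U.cmp_mul hPQ hQP hxe, g.hi x hx]
  have hr : (cmp P Q x).rank = (x * e b).rank := Pool.Agent.H76U.rank_cmp hPQ hQP hxe
  have ht := Pool.Agent.H76T.rank_eq_trace (K := K) hc
  rw [map_sub, map_smul, Pool.Agent.H76U.cmp_one hPQ hQP, map_sub, map_smul, map_one, map_sub, map_smul, ← ht, hr,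
    LinearMap.trace_one, Module.finrank_fin_fun, smul_eq_mul]
  have h2 : ((2 * (x * e b).rank : ℕ) : K) = (n : K) := by rw [hbal]
  push_cast at h2
  rw [h2, sub_self]

theorem ns_mat {m : ℕ} (β : (Fin m → K) →ₗ[K] (Fin m → K) →ₗ[K] K) : ∃ M : Matrix (Fin m) (Fin m) K,
    (M = 0 → β = 0) ∧ ∀ x : Matrix (Fin m) (Fin m) K, (∀ v w, β (phi x v) w + β v (phi x w) = 0) → xᵀ * M + M * x = 0 := by
  refine ⟨Matrix.of fun i j => β (Pi.single i 1) (Pi.single j 1), fun h0 => ?_, fun x hx => ?_⟩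
  · apply LinearMap.pi_ext'
    intro i
    ext1
    apply LinearMap.pi_ext'
    intro j
    ext1
    have := congrFun (congrFun h0 i) j
    simpa using this
  · have hcol : ∀ i, phi x (Pi.single i 1) = ∑ k, x k i • (Pi.single k (1 : K) : Fin m → K) := by
      intro i
      rw [phi_apply, Matrix.mulVec_single_one]
      ext k
      rw [Finset.sum_apply]
      simp [Pi.single_apply]
    ext i j
    have h1 := hx (Pi.single i 1) (Pi.single j 1)
    rw [hcol i, hcol j] at h1
    simp only [map_sum, map_smul, LinearMap.sum_apply, LinearMap.smul_apply, smul_eq_mul] at h1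
    rw [Matrix.add_apply, Matrix.mul_apply, Matrix.mul_apply, Matrix.zero_apply, ← h1]
    congr 1
    refine Finset.sum_congr rfl fun k _ => ?_
    rw [Matrix.of_apply, mul_comm]

include h hPQ hQP g in
/-- PROOF. `β` with the matrix `M`; `y = J⁻¹ Qᵀ Mᵀ Q`, `y = e_(bar b) y = y e_b`. For `x ∈ 𝓗`: `y (2 x - 1) = (2 x - 1) y`, so `y` commutes with `S` (`g.gen`), `y ∈ DD` and
`y = e_(bar b) y e_b = 0` (`h.orth`). -/
theorem nsl (hb : bar b ≠ b) (hdet : IsUnit J.det) (hbal : ∀ x ∈ 𝓗, 2 * (x * e b).rank = n) : NsL (LcN J S P Q) := by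
  intro β hβ
  obtain ⟨M, hM0, hMx⟩ := ns_mat β
  apply hM0
  set y : Matrix ι ι K := J⁻¹ * (Qᵀ * Mᵀ * Q) with hy
  have hJy : J * y = Qᵀ * Mᵀ * Q := by
    rw [hy, ← Matrix.mul_assoc, Matrix.mul_nonsing_inv _ hdet, Matrix.one_mul]
  have hQe : Q * e b = Q := Pool.Agent.H76U.Q_p hPQ hQP
  have hye : y * e b = y := by
    rw [hy, Matrix.mul_assoc, Matrix.mul_assoc (Qᵀ * Mᵀ), hQe]
  have hey : e (bar b) * y = y := by
    have h1 : J * (e (bar b) * y) = J * y := by
      rw [← Matrix.mul_assoc, ← h.adj b, Matrix.mul_assoc, hJy, ← Matrix.mul_assoc, ← Matrix.mul_assoc, ← Matrix.transpose_mul, hQe]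
    have h2 := congrArg (fun z => J⁻¹ * z) h1
    simp only [← Matrix.mul_assoc, Matrix.nonsing_inv_mul _ hdet, Matrix.one_mul] at h2
    exact h2
  have hcomm : ∀ x ∈ 𝓗, y * x = x * y := by
    intro x hx
    have hxL : x ∈ preL J S := ⟨⟨0, x, g.hz x hx, by rw [zero_smul, add_zero]⟩, 1, by rw [g.hs x hx, one_smul]⟩
    have hxe := Pool.Agent.H76V.preL_ec (b := b) h g hxL
    set z : Matrix ι ι K := (2 : K) • x - 1 with hz
    have hze : z * e b = e b * z := by
      rw [hz, sub_mul, mul_sub, smul_mul_assoc, mul_smul_comm, hxe, one_mul, mul_one]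
    have hmem := ns_mem h hPQ hQP g hx (hbal x hx)
    have h1 := hMx (cmp P Q z) (hβ _ hmem)
    have h2 : (cmp P Q z)ᵀ * Mᵀ + Mᵀ * cmp P Q z = 0 := by
      have := congrArg Matrix.transpose h1
      rw [Matrix.transpose_add, Matrix.transpose_mul, Matrix.transpose_mul, Matrix.transpose_transpose, Matrix.transpose_zero, add_comm] at this
      exact this
    have hcQ : cmp P Q z * Q = Q * z := Pool.Agent.H76U.cmp_Q hPQ hQP hze
    have hzJ : zᵀ * J + J * z = 0 := by
      have h3 := g.hs x hx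
      rw [hz, Matrix.transpose_sub, Matrix.transpose_smul, Matrix.transpose_one, sub_mul, mul_sub, smul_mul_assoc, mul_smul_comm,
        one_mul, mul_one]
      calc (2 : K) • (xᵀ * J) - J + ((2 : K) • (J * x) - J) = (2 : K) • (xᵀ * J + J * x) - (2 : K) • J := by
            rw [smul_add, two_smul K J]; abel
        _ = 0 := by rw [h3, sub_self]
    have h4 : J * (y * z) = J * (z * y) := by
      calc J * (y * z) = Qᵀ * (Mᵀ * (Q * z)) := by rw [← Matrix.mul_assoc, hJy]; simp only [Matrix.mul_assoc]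
        _ = Qᵀ * (Mᵀ * cmp P Q z) * Q := by rw [← hcQ]; simp only [Matrix.mul_assoc]
        _ = -(Qᵀ * ((cmp P Q z)ᵀ * Mᵀ) * Q) := by
          rw [eq_neg_of_add_eq_zero_right h2, Matrix.mul_neg, Matrix.neg_mul]
        _ = -((cmp P Q z * Q)ᵀ * (Mᵀ * Q)) := by rw [Matrix.transpose_mul]; simp only [Matrix.mul_assoc]
        _ = -(zᵀ * (J * y)) := by rw [hcQ, Matrix.transpose_mul, hJy]; simp only [Matrix.mul_assoc]
        _ = -((zᵀ * J) * y) := by rw [Matrix.mul_assoc zᵀ J y]
        _ = J * (z * y) := by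
          rw [eq_neg_of_add_eq_zero_left hzJ, Matrix.neg_mul, neg_neg, Matrix.mul_assoc]
    have h5 : y * z = z * y := by
      have h6 := congrArg (fun w => J⁻¹ * w) h4
      simp only [← Matrix.mul_assoc, Matrix.nonsing_inv_mul _ hdet, Matrix.one_mul] at h6
      exact h6
    have h7 : (2 : K) • (y * x) = (2 : K) • (x * y) := by
      rw [hz, mul_sub, sub_mul, mul_smul_comm, smul_mul_assoc, mul_one, one_mul] at h5
      exact sub_left_injective h5
    exact smul_right_injective _ (two_ne_zero (α := K)) h7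
  have hyD : y ∈ DD := by
    refine g.commt y fun s hs => ?_
    have h1 : ∀ m ∈ (Submonoid.closure {m | ∃ h ∈ 𝓗, ∃ t : K, t ≠ 0 ∧ m = 1 + (t - 1) • h} : Set (Matrix ι ι K)), m * y = y * m := by
      intro m hm
      induction hm using Submonoid.closure_induction with
      | mem m hm =>
        obtain ⟨x, hx, t, -, rfl⟩ := hm
        rw [add_mul, mul_add, one_mul, mul_one, smul_mul_assoc, mul_smul_comm, hcomm x hx]
      | one => rw [one_mul, mul_one]
      | mul a b _ _ ha hb => rw [mul_assoc, hb, ← mul_assoc, ha, mul_assoc]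
    exact (zar_commute h1 (g.gen hs)).symm
  have h0 : y = 0 := by
    have h1 := h.orth (bar b) b hb y hyD
    rwa [Matrix.mul_assoc, hye, hey] at h1
  have h2 : Qᵀ * Mᵀ * Q = 0 := by rw [← hJy, h0, Matrix.mul_zero]
  have h3 : Mᵀ = 0 := by
    calc Mᵀ = (Q * P)ᵀ * Mᵀ * (Q * P) := by rw [hQP, Matrix.transpose_one, Matrix.one_mul, Matrix.mul_one]
      _ = Pᵀ * (Qᵀ * Mᵀ * Q) * P := by rw [Matrix.transpose_mul]; simp only [Matrix.mul_assoc]
      _ = 0 := by rw [h2, Matrix.mul_zero, Matrix.zero_mul]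
  rw [← Matrix.transpose_transpose M, h3, Matrix.transpose_zero]

end Pool.Agent.H76Y
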