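import Pool.Agent.Lib.H76Y.Y0
import Pool.Agent.Lib.H76Q.D2

/-!
# D2: the number `m = ∏ t`
-/

set_option autoImplicit false
set_option linter.unusedSectionVars false
namespace Pool.Agent.H76Y
open Pool.Agent.H76P Pool.Agent.H76V Pool.Agent.H76Q
open Module Matrix Pool.Agent.H53Toric

variable {κ : Type*} [Fintype κ] [DecidableEq κ] [Nonempty κ] {Y : Submodule ℚ (κ → ℚ)}
  {P : Module.End ℚ Y} {Ω : Type*} [Field Ω] {a : κ → Ω}

theorem lift_prod {t : κ → Ω} (ht : Lift P a t) (s : Ω ≃+* Ω) (σ : Equiv.Perm κ)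
    (hs : ∀ k, s (a k) = a (σ k)) (hσ : StabP P σ) : s (∏ k, t k) = ∏ k, t k := by
  rw [map_prod]
  simp only [ht.eqv s σ hs hσ]
  exact Equiv.prod_comp σ t

theorem lift_prod_ne {t : κ → Ω} (ht : Lift P a t) : ∏ k, t k ≠ 0 :=
  Finset.prod_ne_zero_iff.2 fun k _ => ht.ne k

theorem exists_xN {t t' : κ → Ω} (ht : Lift P a t) (ht' : Lift (1 - P) a t')
    (ha0 : ∀ k, a k ≠ 0) (hP : Sp P) {K : Type*} [Field K] {i : Ω →+* K}
    {u r : κ → K} (hl : LD P a i u r) :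
    ∃ x : Ω, x ≠ 0 ∧ (∀ (s : Ω ≃+* Ω) (σ : Equiv.Perm κ), (∀ k, s (a k) = a (σ k)) → StabP P σ →
        s x = x) ∧ (∏ k, t k) * (∏ k, t' k) = x ^ Fintype.card κ * ∏ k, a k := by
  obtain ⟨k0⟩ := (inferInstance : Nonempty κ)
  obtain ⟨c, hc, huc⟩ := ht.eq_c ha0 hP hl
  have hl' : LD (1 - P) a i r u := by
    refine ⟨fun k => by rw [hl.prod k, mul_comm], hl.fr, ?_⟩
    rw [d2_sub]
    exact hl.fu
  obtain ⟨c', hc', hrc⟩ := ht'.eq_c ha0 hP.compl hl'
  have key : ∀ k, t k * t' k = t k0 * t' k0 / a k0 * a k := by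
    intro k
    apply i.injective
    have h1 := hl.prod k
    have h2 := hl.prod k0
    rw [huc k, hrc k] at h1
    rw [huc k0, hrc k0] at h2
    have h3 : i (a k0) ≠ 0 := (map_ne_zero i).2 (ha0 k0)
    have h4 : i (t k0 * t' k0 / a k0 * a k) = i (t k0) * i (t' k0) / i (a k0) * i (a k) := by
      simp only [map_mul, map_div₀]
    rw [h4, map_mul, div_mul_eq_mul_div, eq_div_iff h3, h1, h2]
    ring
  refine ⟨t k0 * t' k0 / a k0, div_ne_zero (mul_ne_zero (ht.ne _) (ht'.ne _)) (ha0 _),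
    fun s σ hs hσ => ?_, ?_⟩
  · rw [map_div₀, map_mul, ht.eqv s σ hs hσ k0, ht'.eqv s σ hs (d2_stab hσ) k0, hs k0,
      key (σ k0), mul_div_assoc, div_self (ha0 (σ k0)), mul_one]
  · rw [← Finset.prod_mul_distrib, Finset.prod_congr rfl fun k _ => key k, Finset.prod_mul_distrib,
      Finset.prod_const, Finset.card_univ]

end Pool.Agent.H76Y
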