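import Pool.Agent.Lib.H76Q.D2

/-!
# DN1: the determinant of the lift
-/

set_option autoImplicit false
set_option linter.unusedSectionVars false
namespace Pool.Agent.H76Q
open Module Matrix Pool.Agent.H53Toric
open Pool.Agent.H76P

variable {κ : Type*} [Fintype κ] [DecidableEq κ] [Nonempty κ] {Y : Submodule ℚ (κ → ℚ)}
  {P : Module.End ℚ Y} {Ω : Type*} [Field Ω] {a : κ → Ω}

/-- The relation between the lift and the local factorisation. -/
theorem Lift.prod_eq {t : κ → Ω} (ht : Lift P a t) (ha0 : ∀ k, a k ≠ 0) (hP : Sp P) {K : Type*}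
    [Field K] {i : Ω →+* K} {u r : κ → K} (hl : LD P a i u r) :
    ∃ c : K, c ≠ 0 ∧ (∀ k, u k = c * i (t k)) ∧ ∏ k, u k = c ^ Fintype.card κ * i (∏ k, t k) := by
  obtain ⟨c, hc, huc⟩ := ht.eq_c ha0 hP hl
  refine ⟨c, hc, huc, ?_⟩
  rw [Finset.prod_congr rfl fun k _ => huc k, Finset.prod_mul_distrib, Finset.prod_const, Finset.card_univ, map_prod]

end Pool.Agent.H76Q
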