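import Pool.Agent.Lib.H76Q.B2
import Pool.Agent.Lib.H76Q.Q2
import Pool.Agent.Lib.H76Y.A1
import Pool.Agent.Lib.H76Y.Y0

/-!
# the algebras of the two factors commute
-/

set_option autoImplicit false
set_option linter.unusedSectionVars false
namespace Pool.Agent.H76Y
open Pool.Agent.H76P Pool.Agent.H76V Pool.Agent.H76Q
open Module Matrix Pool.Agent.H53Toric
open Pool.Agent.H76P
open Pool.Agent.H76T (IsIdeal Fam)

variable {κ : Type*} {K : Type*} [Field K] [CharZero K] [Fintype κ] [DecidableEq κ]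
  {L : Submodule K (Module.End K (κ → K))} {J : Matrix κ κ K} [IsAlgClosed K] [Nonempty κ]
  {Y : Submodule ℚ (κ → ℚ)} {P : Module.End ℚ Y}

theorem c1_min (h : CmpN L) {m : ℕ} {I : Fin m → Submodule K (Module.End K (κ → K))}
    (hF : Fam L I) {Z : Submodule K (Module.End K (κ → K))} (hZ : IsIdeal L Z) (hZ0 : Z ≠ ⊥) :
    ∃ j, I j ≤ Z := by
  obtain ⟨X, hX, hX0⟩ := (Submodule.ne_bot_iff _).1 hZ0
  have h1 : ∃ i, ∃ Y ∈ I i, X * Y ≠ Y * X := by
    by_contra hcon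
    push Not at hcon
    exact hX0 (t4_zero h hF (hZ.1 hX) hcon)
  obtain ⟨i, Y, hY, hXY⟩ := h1
  refine ⟨i, ?_⟩
  have h2 : X * Y - Y * X ∈ I i := (hF.ideal i).2 X (hZ.1 hX) Y hY
  have h3 : X * Y - Y * X ∈ Z := by
    have h4 := hZ.2 Y ((hF.ideal i).1 hY) X hX
    have h5 := Z.neg_mem h4
    rwa [neg_sub] at h5
  have h6 : IsIdeal L (Z ⊓ I i) := by
    refine ⟨inf_le_left.trans hZ.1, fun A hA B hB => ?_⟩
    exact ⟨hZ.2 A hA B hB.1, (hF.ideal i).2 A hA B hB.2⟩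
  rcases hF.min i (Z ⊓ I i) h6 inf_le_right with h7 | h7
  · exfalso
    have h8 : X * Y - Y * X ∈ Z ⊓ I i := ⟨h3, h2⟩
    rw [h7, Submodule.mem_bot, sub_eq_zero] at h8
    exact hXY h8
  · exact inf_eq_right.1 h7

theorem c1_bot (h : TM L) (hY : Yo L = Y) (hP : Sp P)
    {Z Z' : Submodule K (Module.End K (κ → K))} (hZ : IsIdeal L Z) (hZ' : IsIdeal L Z')
    (h1 : InP P Z) (h2 : InP (1 - P) Z') : Z ⊓ Z' = ⊥ := by
  by_contra hne
  obtain ⟨m, I, hF⟩ := H76T.exists_fam h.cmp.lie h.cmp.irr h.cmp.tr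
  have hid : IsIdeal L (Z ⊓ Z') := by
    refine ⟨inf_le_left.trans hZ.1, fun A hA B hB => ?_⟩
    exact ⟨hZ.2 A hA B hB.1, hZ'.2 A hA B hB.2⟩
  obtain ⟨j, hj⟩ := c1_min h.cmp hF hid hne
  obtain ⟨f, hf, hf0, hfj⟩ := h.exists_diag hF j
  have h3 := hj hfj
  apply hf0
  have hfY : f ∈ Y := hY ▸ hf
  exact FunP_both hP (Yo_sum h.cmp hf) (h1 f hfY h3.1) (h2 f hfY h3.2)

theorem c1_gen (h : TM L) (hY : Yo L = Y) (hP : Sp P)
    {Z Z' : Submodule K (Module.End K (κ → K))} (hZ : IsIdeal L Z) (hZ' : IsIdeal L Z')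
    (h1 : InP P Z) (h2 : InP (1 - P) Z') {X X' : Module.End K (κ → K)} (hX : X ∈ Z)
    (hX' : X' ∈ Z') : X * X' = X' * X := by
  have h3 := c1_bot h hY hP hZ hZ' h1 h2
  have h4 : X * X' - X' * X ∈ Z' := hZ'.2 X (hZ.1 hX) X' hX'
  have h5 : X * X' - X' * X ∈ Z := by
    have h6 := Z.neg_mem (hZ.2 X' (hZ'.1 hX') X hX)
    rwa [neg_sub] at h6
  have h6 : X * X' - X' * X ∈ Z ⊓ Z' := ⟨h5, h4⟩
  rw [h3, Submodule.mem_bot, sub_eq_zero] at h6
  exact h6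

/-- PROOF. `AZ` is generated by ideals.  Let `I`, `I'` be ideals of `L`, `InP P I`, `InP (1 - P) I'`.  A diagonal `dq f`, `f ∈ Y`, in `I ⊓ I'`
has `f = 0` (`FunP_both`, `Yo_sum`).  If `I ⊓ I' ≠ ⊥` it contains some `I j` of the family of minimal ideals (`exists_fam`; for `X ∈ I ⊓ I'` which does not commute
with `I j` the ideal spanned by the brackets is `I j`; if `X` commutes with all `I j` it is `0`, `t4_zero`), and `TM.exists_diag` gives `f ≠ 0`.  So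
`I ⊓ I' = ⊥`, and brackets of `I` with `I'` are in `I ⊓ I'`. -/
theorem AZ_comm (h : TM L) (hY : Yo L = Y) (hP : Sp P) :
    ∀ X ∈ AZ L P, ∀ X' ∈ AZ L (1 - P), X * X' = X' * X := by
  set S1 : Set (Module.End K (κ → K)) := {X | ∃ I, IsIdeal L I ∧ InP P I ∧ X ∈ I} with hS1
  set S2 : Set (Module.End K (κ → K)) := {X | ∃ I, IsIdeal L I ∧ InP (1 - P) I ∧ X ∈ I} with hS2
  have h0 : ∀ X ∈ S1, ∀ X' ∈ S2, X * X' = X' * X := by
    rintro X ⟨Z, hZ, h1, hX⟩ X' ⟨Z', hZ', h2, hX'⟩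
    exact c1_gen h hY hP hZ hZ' h1 h2 hX hX'
  have h1 : Algebra.adjoin K S1 ≤ Subalgebra.centralizer K S2 := by
    refine Algebra.adjoin_le fun X hX => ?_
    rw [SetLike.mem_coe, Subalgebra.mem_centralizer_iff]
    intro X' hX'
    exact (h0 X hX X' hX').symm
  have h2 : Algebra.adjoin K S2 ≤ Subalgebra.centralizer K (Algebra.adjoin K S1 : Set (Module.End K (κ → K))) := by
    refine Algebra.adjoin_le fun X' hX' => ?_
    rw [SetLike.mem_coe, Subalgebra.mem_centralizer_iff]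
    intro X hX
    exact ((Subalgebra.mem_centralizer_iff K).1 (h1 hX) X' hX').symm
  intro X hX X' hX'
  exact (Subalgebra.mem_centralizer_iff K).1 (h2 hX') X hX

end Pool.Agent.H76Y
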