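import Pool.Agent.Lib.H76Q.B2
import Pool.Agent.Lib.H76Q.D2
import Pool.Agent.Lib.H76Q.Q2
import Pool.Agent.Lib.H76Y.A1
import Pool.Agent.Lib.H76Y.C5
import Pool.Agent.Lib.H76Y.C6
import Pool.Agent.Lib.H76Y.Y0

/-!
# comparison of two pure tensors
-/

set_option autoImplicit false
set_option linter.unusedSectionVars false
namespace Pool.Agent.H76Y
open Pool.Agent.H76P Pool.Agent.H76V Pool.Agent.H76Q
open Module Matrix Pool.Agent.H53Toric
open Pool.Agent.H76P
open Pool.Agent.H76T (IsIdeal Fam)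

variable {κ : Type*} {K : Type*} [Field K] [CharZero K] [Fintype κ] [DecidableEq κ]
  {L : Submodule K (Module.End K (κ → K))} {J : Matrix κ κ K} [IsAlgClosed K] [Nonempty κ]
  {Y : Submodule ℚ (κ → ℚ)} {P : Module.End ℚ Y}

/-- PROOF. As `H76Q.unr_u` (F5).  `PT_inv` gives `y'`, `u'` with `y y' = 1`, `u u' = 1` and factorisations of `Ξ'`, `X'`.  `X' * (Ξ * Φ * Ξ')` is a pure tensor with first factor
`s = u' * (y * w * y')` (`PT_mul`); its second factor `ρ` has `det ρ ≠ 0`, so is invertible (`LinearMap.isUnit_iff_isUnit_det` or `LinearMap.equivOfDetNeZero`); `s ρ` commutes with `AZ L P`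
and so does `ρ` (`AZ_comm`), so `s` commutes with `AZ L P`; as `s ∈ AZ L P` it commutes with `AZ L (1 - P)`, too (`AZ_comm`), so `s` is a scalar (`AZ_scalar`), not `0`.
Determinants: `det (y * w * y') = t'`, `det (c • z) = c ^ n det z` (`LinearMap.det_smul`, `Module.finrank_pi`). -/
theorem unr_u (h : TM L) (hY : Yo L = Y) (hP : Sp P) (hc : Comp L P)
    {X X' Φ Ξ Ξ' u r w r' y r'' : Module.End K (κ → K)} {t t' t'' : K} (h1 : PTN L P X u r t)
    (h2 : PTN L P Φ w r' t') (h3 : PTN L P Ξ y r'' t'') (hΞ : Ξ * Ξ' = 1) (hX : X * X' = 1)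
    (hz : ∀ A ∈ AZ L P, (X' * (Ξ * Φ * Ξ')) * A = A * (X' * (Ξ * Φ * Ξ'))) :
    ∃ (c : K) (y' : Module.End K (κ → K)), c ≠ 0 ∧ y * y' = 1 ∧ u = c • (y * w * y') ∧
      t = c ^ Fintype.card κ * t' := by
  obtain ⟨y', r3, hyy, h3'⟩ := PT_inv h hY hP h3 hΞ
  obtain ⟨u', r1, huu, h1'⟩ := PT_inv h hY hP h1 hX
  have h4 := PT_mul h hY hP (PT_mul h hY hP h3 h2) h3'
  have h5 := PT_mul h hY hP h1' h4
  set ρ := r1 * (r'' * r' * r3) with hρ
  set s := u' * (y * w * y') with hs
  obtain ⟨hsA, hρA, hprod, -, -, hρd⟩ := h5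
  obtain ⟨ρ', -, hρinv, -⟩ := EN.exists_inv hρA hρd
  have hs1 : ∀ A ∈ AZ L P, s * A = A * s := by
    intro A hA
    have e1 := hz A hA
    rw [hprod] at e1
    have e2 : A * ρ = ρ * A := AZ_comm h hY hP A hA ρ hρA
    have e3 : (s * A) * ρ = (A * s) * ρ := by
      calc (s * A) * ρ = s * (A * ρ) := mul_assoc _ _ _
        _ = s * (ρ * A) := by rw [e2]
        _ = (s * ρ) * A := (mul_assoc _ _ _).symm
        _ = A * (s * ρ) := e1
        _ = (A * s) * ρ := (mul_assoc _ _ _).symm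
    calc s * A = (s * A) * (ρ * ρ') := by rw [hρinv, mul_one]
      _ = ((s * A) * ρ) * ρ' := (mul_assoc _ _ _).symm
      _ = ((A * s) * ρ) * ρ' := by rw [e3]
      _ = (A * s) * (ρ * ρ') := mul_assoc _ _ _
      _ = A * s := by rw [hρinv, mul_one]
  have hs2 : ∀ A ∈ AZ L (1 - P), s * A = A * s := fun A hA => AZ_comm h hY hP s hsA A hA
  obtain ⟨c, hcs⟩ := AZ_scalar h hc hs1 hs2
  have h6 : y * w * y' = c • u := by
    calc y * w * y' = (u * u') * (y * w * y') := by rw [huu, one_mul]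
      _ = u * s := by rw [hs, mul_assoc]
      _ = c • u := by rw [hcs, mul_smul_comm, mul_one]
  have h7 : LinearMap.det (y * w * y') = t' := by
    have h8 := h4.2.2.2.2.1
    rw [h8, mul_comm t'' t', mul_assoc, mul_inv_cancel₀ h3.2.2.2.1, mul_one]
  have hc0 : c ≠ 0 := by
    intro hc0
    rw [hc0, zero_smul] at h6
    rw [h6] at h7
    exact h2.2.2.2.1 (by rw [← h7]; exact LinearMap.det_zero'')
  have hu : u = c⁻¹ • (y * w * y') := by
    rw [h6, smul_smul, inv_mul_cancel₀ hc0, one_smul]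
  refine ⟨c⁻¹, y', inv_ne_zero hc0, hyy, hu, ?_⟩
  rw [← h1.2.2.2.2.1, hu, LinearMap.det_smul, h7, Module.finrank_fintype_fun_eq_card]

theorem f5_dg_unit (g : κ → K) : IsUnit (dg g : Module.End K (κ → K)) ↔ ∀ k, g k ≠ 0 := by
  constructor
  · intro hu k hk
    obtain ⟨B, hB⟩ := hu.exists_left_inv
    have h1 : (dg g : Module.End K (κ → K)) (Pi.single k 1) = 0 := by
      funext a
      rw [dg_apply]
      by_cases hab : a = k
      · rw [hab, hk, zero_mul]
        rfl
      · rw [Pi.single_eq_of_ne hab, mul_zero]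
        rfl
    have h2 : (B * dg g) (Pi.single k (1 : K)) = 0 := by
      rw [Module.End.mul_apply, h1, map_zero]
    rw [hB] at h2
    have h3 := congrFun h2 k
    rw [Module.End.one_apply, Pi.single_eq_same] at h3
    exact one_ne_zero h3
  · intro hg
    have h1 : (dg g : Module.End K (κ → K)) * dg (fun k => (g k)⁻¹) = 1 := by
      refine LinearMap.ext fun v => funext fun a => ?_
      rw [Module.End.mul_apply, dg_apply, dg_apply, Module.End.one_apply, ← mul_assoc,
        mul_inv_cancel₀ (hg a), one_mul]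
    exact IsUnit.of_mul_eq_one _ h1

/-- PROOF. `u - l • 1 = y * dg (fun k => c * u₀ k - l) * y'`; a diagonal operator is invertible iff no entry is zero. -/
theorem spec_conj {u y y' : Module.End K (κ → K)} {u₀ : κ → K} {c : K} (hy : y * y' = 1)
    (hu : u = c • (y * dg u₀ * y')) (l : K) : ¬ IsUnit (u - l • 1) ↔ ∃ k, l = c * u₀ k := by
  have hy' : y' * y = 1 := mul_eq_one_comm.1 hy
  have hyu : IsUnit y := ⟨⟨y, y', hy, hy'⟩, rfl⟩
  have hyu' : IsUnit y' := ⟨⟨y', y, hy', hy⟩, rfl⟩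
  have h1 : u - l • 1 = y * dg (fun k => c * u₀ k - l) * y' := by
    have e1 : (dg (fun k => c * u₀ k - l) : Module.End K (κ → K)) = c • dg u₀ - l • 1 := by
      refine LinearMap.ext fun v => funext fun a => ?_
      rw [LinearMap.sub_apply, LinearMap.smul_apply, LinearMap.smul_apply, Pi.sub_apply,
        Pi.smul_apply, Pi.smul_apply, dg_apply, dg_apply, Module.End.one_apply, smul_eq_mul,
        smul_eq_mul]
      ring
    rw [e1, mul_sub, sub_mul, mul_smul_comm, smul_mul_assoc, mul_smul_comm, smul_mul_assoc, mul_one,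
      hy, hu]
  have h2 : IsUnit (y * dg (fun k => c * u₀ k - l) * y') ↔
      IsUnit (dg (fun k => c * u₀ k - l) : Module.End K (κ → K)) := by
    constructor
    · intro h
      have h3 := (hyu'.mul h).mul hyu
      have e : y' * (y * dg (fun k => c * u₀ k - l) * y') * y = dg (fun k => c * u₀ k - l) := by
        calc y' * (y * dg (fun k => c * u₀ k - l) * y') * y
            = (y' * y) * dg (fun k => c * u₀ k - l) * (y' * y) := by simp only [mul_assoc]
          _ = dg (fun k => c * u₀ k - l) := by rw [hy', one_mul, mul_one]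
      rwa [e] at h3
    · intro h
      exact (hyu.mul h).mul hyu'
  rw [h1, h2, f5_dg_unit]
  constructor
  · intro hcon
    push Not at hcon
    obtain ⟨k, hk⟩ := hcon
    exact ⟨k, (sub_eq_zero.1 hk).symm⟩
  · rintro ⟨k, hk⟩ hcon
    exact hcon k (by rw [hk, sub_self])

/-- PROOF. `θ (u - l • 1) = u - τ l • 1`, and `θ` maps units to units. -/
theorem ThetaN.spec {θ : Module.End K (κ → K) ≃+* Module.End K (κ → K)} {τ : K ≃+* K}
    {σ : Equiv.Perm κ} (hθ : ThetaN L θ τ σ) {u : Module.End K (κ → K)} (hu : θ u = u) (l : K)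
    (hl : ¬ IsUnit (u - l • 1)) : ¬ IsUnit (u - τ l • 1) := by
  intro hcon
  apply hl
  have h1 : θ (u - l • 1) = u - τ l • 1 := by
    rw [map_sub, hu, hθ.smul, map_one]
  rw [← h1] at hcon
  have h2 := hcon.map θ.symm
  rwa [θ.symm_apply_apply] at h2

end Pool.Agent.H76Y
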