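import Pool.Agent.Lib.H76Y.Y0
import Pool.Agent.Lib.H76Q.Q6
import Pool.Agent.Lib.H76Q.Q7

/-!
# Y1: decompositions of the set of embeddings
-/

set_option autoImplicit false
set_option linter.unusedSectionVars false
namespace Pool.Agent.H76Y
open Module Matrix Polynomial Pool.Agent.H53Toric
open Pool.Agent.H76Q

/-- The combinatorial structure on the set `R` given by a decomposition of the component `e` into `k`
tensor factors with the dimensions `A`: `c` distributes `R` into `k` classes, which are permuted by
all `s` such that the image of `e` under `s` is linked with `e` or with the conjugate `e'` of `e`;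
`s` acts trivially on the classes if it acts on the roots of `F` as `y ↦ q / y`, and the permutation
has a cycle of odd length if `e = e'` (`t`). -/
structure PartN {ι : Type*} [Fintype ι] [DecidableEq ι] (D : Subalgebra ℚ (Matrix ι ι ℚ))
    {M Ω : Type*} [Field M] [Field Ω] [CharZero Ω] (j : M →+* Ω) (t : Prop) (e e' : Matrix ι ι M)
    (F : M[X]) (q : ℚ) (R : Finset Ω) {k : ℕ} (c : Ω → Fin k) (A : Fin k → ℕ) : Prop where
  surj : ∀ x, ∃ r ∈ R, c r = x
  even : ∀ x, Even (A x)
  perm : ∀ s : Ω ≃+* Ω, Linked D (e.map j) (e.map (s.toRingHom.comp j)) ∨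
      Linked D (e'.map j) (e.map (s.toRingHom.comp j)) →
    ∃ π : Equiv.Perm (Fin k), (∀ r ∈ R, c (s r) = π (c r)) ∧ (∀ x, A (π x) = A x) ∧
      ((∀ y, F.eval₂ j y = 0 → s y * y = algebraMap ℚ Ω q) → π = 1) ∧
      (t → ∃ (u : ℕ) (x : Fin k), Odd u ∧ (π ^ u) x = x)

/-- The combinatorial structure on the set of embeddings of `F` given by a decomposition of the
component `e` into `k` tensor factors with the dimensions `A`: `c` distributes the embeddings into
`k` classes, which are permuted by all `s` such that the image of `e` under `s` is linked with `e` or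
with the conjugate `e'` of `e`, i.e. which fix the maximal totally real subfield of the centre of the
component; complex conjugations act trivially on the classes, and the permutation has a cycle of odd
length if `e = e'` (`t`).  `A` is an invariant family of even numbers. -/
structure MumN {ι : Type*} [Fintype ι] [DecidableEq ι] (D : Subalgebra ℚ (Matrix ι ι ℚ))
    {M Ω : Type*} [Field M] [Field Ω] [CharZero Ω] (j : M →+* Ω) (t : Prop) (e e' : Matrix ι ι M)
    (F : Type*) [Field F] {k : ℕ} (c : (F →+* Ω) → Fin k) (A : Fin k → ℕ) : Prop where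
  surj : Function.Surjective c
  even : ∀ x, Even (A x)
  perm : ∀ s : Ω ≃+* Ω, Linked D (e.map j) (e.map (s.toRingHom.comp j)) ∨
      Linked D (e'.map j) (e.map (s.toRingHom.comp j)) →
    ∃ π : Equiv.Perm (Fin k), (∀ τ : F →+* Ω, c (s.toRingHom.comp τ) = π (c τ)) ∧
      (∀ x, A (π x) = A x) ∧
      ((∃ κ : Ω →+* ℂ, ∀ y, κ (s y) = starRingEnd ℂ (κ y)) → π = 1) ∧
      (t → ∃ (u : ℕ) (x : Fin k), Odd u ∧ (π ^ u) x = x)

end Pool.Agent.H76Y
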