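import Pool.Agent.Lib.H76Q.W10a
import Pool.Agent.Lib.H76Y.Y1

/-!
# the number of classes is even
-/

set_option autoImplicit false
set_option linter.unusedSectionVars false
namespace Pool.Agent.H76Y
open Module Matrix Polynomial Pool.Agent.H53Toric
open Pool.Agent.H76P Pool.Agent.H76Q

variable {κ : Type*} [Fintype κ] [DecidableEq κ] {Y : Submodule ℚ (κ → ℚ)} {P : Module.End ℚ Y}

theorem w10a_fib (hsep : ∀ a b : κ, a ≠ b → ∃ f ∈ Y, f a ≠ f b) (hP : Sp P) (k₀ k₁ : κ) :
    Nat.card {k // cz P k k₀} ≤ Nat.card {k // cz P k k₁} := by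
  choose m hm1 hm2 using hP.exists_mx
  let f : {k // cz P k k₀} → {k // cz P k k₁} := fun k => ⟨m k₁ k.1, hm1 k₁ k.1⟩
  refine Nat.card_le_card_of_injective f ?_
  rintro ⟨k, hk⟩ ⟨l, hl⟩ hkl
  have h1 : m k₁ k = m k₁ l := congrArg Subtype.val hkl
  have a1 := hm2 k₁ k
  have a2 := hm2 k₁ l
  rw [← h1] at a2
  exact Subtype.ext (cz_both hsep (cz_trans hk (cz_symm hl)) (cz_trans (cz_symm a1) a2))

/-- If a function with the values `1`, `-1` and the sum `0` depends only on the first coordinate, then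
the number of values of the first coordinate is even. -/
theorem nz_even2 (hsep : ∀ a b : κ, a ≠ b → ∃ f ∈ Y, f a ≠ f b) (hP : Sp P) {ε : κ → ℚ}
    (hε : FunP P ε) (hε1 : ∀ k, ε k = 1 ∨ ε k = -1) (hs : ∑ k, ε k = 0) [Nonempty κ] :
    Even (nz P) := by
  classical
  have hE := w10a_equiv P
  have hfin : Finite (Quot (cz P)) := Finite.of_surjective (Quot.mk (cz P)) Quot.mk_surjective
  have : Fintype (Quot (cz P)) := Fintype.ofFinite _
  obtain ⟨k₀⟩ : Nonempty κ := inferInstance
  set N := Nat.card {k // cz P k k₀} with hN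
  have hN0 : N ≠ 0 := by
    have h1 : Nonempty {k // cz P k k₀} := ⟨⟨k₀, hE.refl k₀⟩⟩
    exact Nat.card_pos.ne'
  have hNk : ∀ k₁, Nat.card {k // cz P k k₁} = N := fun k₁ =>
    le_antisymm (w10a_fib hsep hP k₁ k₀) (w10a_fib hsep hP k₀ k₁)
  let g : Quot (cz P) → ℚ := Quot.lift ε fun k k' h => hε k k' h
  have hg : ∀ k, g (Quot.mk _ k) = ε k := fun k => rfl
  have h1 : ∑ k, ε k = ∑ x : Quot (cz P), (N : ℚ) * g x := by
    rw [← Finset.sum_fiberwise Finset.univ (fun k => Quot.mk (cz P) k) ε]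
    refine Finset.sum_congr rfl fun x _ => ?_
    obtain ⟨k₁, rfl⟩ := Quot.mk_surjective x
    have h2 : ∀ k ∈ Finset.univ.filter (fun k => Quot.mk (cz P) k = Quot.mk (cz P) k₁), ε k = ε k₁ := by
      intro k hk
      exact hε k k₁ ((hE.quot_mk_eq_iff _ _).1 (Finset.mem_filter.1 hk).2)
    rw [Finset.sum_congr rfl h2, Finset.sum_const, nsmul_eq_mul, hg]
    congr 1
    rw [← hNk k₁, Nat.card_eq_fintype_card, Fintype.card_subtype]
    norm_cast
    congr 1
    ext k
    rw [Finset.mem_filter, Finset.mem_filter]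
    simp only [Finset.mem_univ, true_and]
    exact hE.quot_mk_eq_iff _ _
  rw [hs, ← Finset.mul_sum] at h1
  have h2 : ∑ x, g x = 0 := by
    rcases mul_eq_zero.1 h1.symm with h3 | h3
    · exact absurd h3 (by exact_mod_cast hN0)
    · exact h3
  have hg1 : ∀ x, g x = 1 ∨ g x = -1 := by
    intro x
    obtain ⟨k, rfl⟩ := Quot.mk_surjective x
    exact hε1 k
  have h3 : ∑ x, g x = 2 * ((Finset.univ.filter (fun x => g x = 1)).card : ℚ) -
      (Fintype.card (Quot (cz P)) : ℚ) := by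
    have h4 : ∀ x, g x = 2 * (if g x = 1 then 1 else 0) - 1 := by
      intro x
      rcases hg1 x with h5 | h5
      · rw [h5]; norm_num
      · rw [h5]; norm_num
    rw [Finset.sum_congr rfl fun x _ => h4 x, Finset.sum_sub_distrib, ← Finset.mul_sum,
      Finset.sum_boole, Finset.sum_const, Finset.card_univ, nsmul_eq_mul, mul_one]
  rw [h2] at h3
  have h4 : ((Fintype.card (Quot (cz P)) : ℕ) : ℚ) =
      ((2 * (Finset.univ.filter (fun x => g x = 1)).card : ℕ) : ℚ) := by
    push_cast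
    linarith
  have h5 := Nat.cast_injective h4
  rw [nz, Nat.card_eq_fintype_card, h5]
  exact even_two_mul _

end Pool.Agent.H76Y
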