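import Pool.Agent.Lib.H76Y.AS1
import Pool.Agent.Lib.H76U.Final4

/-!
# AS2: the monodromy group from one element of rank one in every component
-/

set_option autoImplicit false
set_option linter.unusedSectionVars false
namespace Pool.Agent.H76Y
open Module Matrix Polynomial Pool.Agent.H53Toric
open Pool.Agent.H76P
open Pool.Agent.H76T (IsIdeal Fam Lc mem_Lc rK)
open Pool.Agent.H76V (Cmp SH)
open Pool.Agent.H76U (cmp preL Lb Split4 IsSplitting typeGrp split4_of)
open Pool.Agent.H76RM (zar_commute van spanK similD)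
open Pool.Agent.H76Q (tgen)

variable {ι : Type*} [Fintype ι] [DecidableEq ι]

/-- The `K`-points of the group of the symplectic similitudes `x` of `ψ` which commute with `D` and
satisfy `det(x | e b V) = c ^ (dim (e b V) / 2)`, where `c` is the multiplier of `x`. -/
def balGrp (K : Type*) [Field K] [Algebra ℚ K] (ψ : Matrix ι ι ℚ)
    (D : Subalgebra ℚ (Matrix ι ι ℚ)) {m : ℕ} (e : Fin m → Matrix ι ι K) : Set (Matrix ι ι K) :=
  {x | x.det ≠ 0 ∧ (∀ d ∈ D, x * d.map (algebraMap ℚ K) = d.map (algebraMap ℚ K) * x) ∧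
    ∃ c : K, xᵀ * ψ.map (algebraMap ℚ K) * x = c • ψ.map (algebraMap ℚ K) ∧
      ∀ b, (1 - e b + x * e b).det = c ^ ((e b).rank / 2)}

theorem typeGrp_eq [Nonempty ι] (K : Type*) [Field K] [Algebra ℚ K] {ψ : Matrix ι ι ℚ} (hψ0 : ψ.det ≠ 0)
    (D : Subalgebra ℚ (Matrix ι ι ℚ)) {m : ℕ} (e : Fin m → Matrix ι ι K) :
    typeGrp K ψ D e {fun b => (e b).rank / 2} = balGrp K ψ D e := by
  set J : Matrix ι ι K := ψ.map (algebraMap ℚ K) with hJ
  have hdet : J.det ≠ 0 := by
    have h1 : J.det = algebraMap ℚ K ψ.det := by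
      rw [hJ, RingHom.map_det]; rfl
    rw [h1]
    exact (map_ne_zero (algebraMap ℚ K)).2 hψ0
  have hJ0 : J ≠ 0 := by
    rintro h0
    rw [h0, Matrix.det_zero] at hdet
    exact hdet rfl
  have hc0 : ∀ (x : Matrix ι ι K) (c : K), x.det ≠ 0 → xᵀ * J * x = c • J → c ≠ 0 := by
    rintro x c hx hc rfl
    rw [zero_smul] at hc
    have h3 := congrArg Matrix.det hc
    rw [Matrix.det_mul, Matrix.det_mul, Matrix.det_transpose, Matrix.det_zero] at h3
    exact (mul_ne_zero (mul_ne_zero hx hdet) hx) h3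
  ext x
  constructor
  · rintro ⟨⟨hx, hD, c, hc⟩, hchar⟩
    refine ⟨hx, hD, c, hc, fun b => ?_⟩
    have hcc := hc0 x c hx hc
    have h1 := hchar (Pi.single b 1) (-(((e b).rank / 2 : ℕ) : ℤ)) (by
      intro n hn
      rw [Set.mem_singleton_iff] at hn
      subst hn
      rw [Finset.sum_eq_single b]
      · simp
      · intro c _ hcb
        rw [Pi.single_eq_of_ne hcb, zero_mul]
      · intro hb
        exact absurd (Finset.mem_univ _) hb) c hc
    rw [Finset.prod_eq_single b, Pi.single_eq_same, zpow_one, _root_.zpow_neg, zpow_natCast] at h1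
    · exact (mul_inv_eq_one₀ (pow_ne_zero _ hcc)).1 h1
    · intro c _ hcb
      rw [Pi.single_eq_of_ne hcb, zpow_zero]
    · intro hb
      exact absurd (Finset.mem_univ _) hb
  · rintro ⟨hx, hD, c, hc, hb⟩
    have hcc := hc0 x c hx hc
    refine ⟨⟨hx, hD, c, hc⟩, ?_⟩
    intro a a₀ ha c' hc'
    have hcc' : c' = c := by
      have h1 : (c' - c) • J = 0 := by rw [sub_smul, ← hc, ← hc', sub_self]
      exact sub_eq_zero.1 ((smul_eq_zero.1 h1).resolve_right hJ0)
    subst hcc'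
    have h1 := ha _ rfl
    have h2 : ∀ b, (1 - e b + x * e b).det ^ a b = c' ^ (a b * (((e b).rank / 2 : ℕ) : ℤ)) := by
      intro b
      rw [hb, mul_comm, _root_.zpow_mul, zpow_natCast]
    rw [Finset.prod_congr rfl fun b _ => h2 b]
    have h3 : ∀ T : Finset (Fin m), ∏ b ∈ T, c' ^ (a b * (((e b).rank / 2 : ℕ) : ℤ)) =
        c' ^ (∑ b ∈ T, a b * (((e b).rank / 2 : ℕ) : ℤ)) := by
      intro T
      induction T using Finset.induction_on with
      | empty => simp
      | insert b T hb ih => rw [Finset.prod_insert hb, Finset.sum_insert hb, ih, zpow_add₀ hcc]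
    rw [h3, ← zpow_add₀ hcc, h1, zpow_zero]

section
variable {K : Type*} [Field K] [CharZero K]

theorem om_nd2 {κ : Type*} [Fintype κ] [DecidableEq κ] {J : Matrix κ κ K} (hJ : Jᵀ = -J) (hdet : IsUnit J.det) :
    ∀ u, (∀ w, om J u w = 0) → u = 0 := by
  intro u hu
  apply om_nd hdet
  intro w
  rw [omega_antisymm (om_alt hJ), hu, neg_zero]

/-- A full symplectic component contains an element of rank one. -/
theorem as2_sp {B : Type*} [Fintype B] [DecidableEq B]
    {J : Matrix ι ι K} {DD : Submodule K (Matrix ι ι K)}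
    {bar : B → B} {e : B → Matrix ι ι K} (h : Split4 J DD bar e) {b : B} (hb : bar b = b)
    {S : Set (Matrix ι ι K)} {𝓗 : Set (Matrix ι ι K)} {Γ : Type*} [Group Γ] {r : Γ →* Matrix ι ι K}
    (g : SH S J DD r 𝓗) (hJ : Jᵀ = -J) (hdet : IsUnit J.det) {n : ℕ} (hn : 0 < n)
    {U : Matrix ι (Fin n) K} {V : Matrix (Fin n) ι K} (hUV : e b = U * V) (hVU : V * U = 1)
    (hfull : ∀ X : Module.End K (Fin n → K), adjE (Uᵀ * J * U) X = -X → X ∈ Lc J S U V) :
    ∃ A ∈ preL J S, (A * e b).rank = 1 := by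
  have hpJ : (e b)ᵀ * J = J * e b := by
    have := h.adj b
    rwa [hb] at this
  have hdb := Pool.Agent.H76U.det_cmp hUV hVU hpJ hdet
  have hJb : (Uᵀ * J * U)ᵀ = -(Uᵀ * J * U) := by
    rw [Matrix.transpose_mul, Matrix.transpose_mul, Matrix.transpose_transpose, hJ,
      Matrix.neg_mul, Matrix.mul_neg, Matrix.mul_assoc]
  have : Nonempty (Fin n) := ⟨⟨0, hn⟩⟩
  set d : Fin n → K := Pi.single ⟨0, hn⟩ 1 with hd
  have hd0 : d ≠ 0 := by
    intro h0
    have := congrFun h0 ⟨0, hn⟩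
    rw [hd, Pi.single_eq_same] at this
    exact one_ne_zero this
  set X := Matrix.vecMulVec d ((Uᵀ * J * U) *ᵥ d) with hX
  have hXg := hfull (phi X) ((skew_iff hdb X).2 (trv_skew hJb d))
  obtain ⟨A, hA, hAX⟩ := Pool.Agent.H76U.mem_Lb.1 hXg.1
  have hAe := Pool.Agent.H76V.preL_ec (b := b) h g hA
  refine ⟨A, hA, ?_⟩
  rw [← Pool.Agent.H76U.rank_cmp hUV hVU hAe, hAX]
  apply le_antisymm
  · rw [hX]
    exact Matrix.rank_vecMulVec_le _ _
  · apply Pool.Agent.H76T.rank_pos_of_ne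
    intro h0
    have h1 : phi X = 0 := by rw [h0, map_zero]
    rw [phi_trv] at h1
    exact Pool.Agent.H76RM.trv_ne (om_nd2 hJb hdb) (om_alt hJb) hd0 h1

/-- An element of rank one of a component. -/
theorem as2_sl {B : Type*} [Fintype B] [DecidableEq B]
    {J : Matrix ι ι K} {DD : Submodule K (Matrix ι ι K)}
    {bar : B → B} {e : B → Matrix ι ι K} (h : Split4 J DD bar e) {b : B}
    {S : Set (Matrix ι ι K)} {𝓗 : Set (Matrix ι ι K)} {Γ : Type*} [Group Γ] {r : Γ →* Matrix ι ι K}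
    (g : SH S J DD r 𝓗) {n : ℕ}
    {U : Matrix ι (Fin n) K} {V : Matrix (Fin n) ι K} (hUV : e b = U * V) (hVU : V * U = 1)
    {X : Module.End K (Fin n → K)} (hX : X ∈ LcN J S U V) (hr : finrank K (LinearMap.range X) = 1) :
    ∃ A ∈ preL J S, (A * e b).rank = 1 := by
  obtain ⟨x, rfl⟩ := (phi (ι := Fin n) (K := K)).surjective X
  obtain ⟨A, hA, hAX⟩ := Pool.Agent.H76U.mem_Lb.1 hX.1
  have hAe := Pool.Agent.H76V.preL_ec (b := b) h g hA
  refine ⟨A, hA, ?_⟩
  rw [← Pool.Agent.H76U.rank_cmp hUV hVU hAe, hAX]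
  exact hr

end

section
variable {L : Type*} [Field L] {K : Type*} [Field K] [Algebra L K] {G : Type*} [Group G]

/-- Some element with a multiplier `≠ 1` comes from the one parameter groups. -/
theorem as2_nonempty {J : Matrix ι ι K} (hJ0 : J ≠ 0) {ρ : G →* Matrix.GeneralLinearGroup ι L}
    {σ : G} (gen : (ρ σ).1.map (algebraMap L K) ∈ tgen K ρ) {c : K}
    (hc : ((ρ σ).1.map (algebraMap L K))ᵀ * J * (ρ σ).1.map (algebraMap L K) = c • J)
    (hc1 : c ≠ 1) : (properProj K ρ).Nonempty := by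
  by_contra hcon
  rw [Set.not_nonempty_iff_eq_empty] at hcon
  have h1 : (ρ σ).1.map (algebraMap L K) = 1 := by
    have h2 : tgen K ρ = ⊥ := by
      rw [tgen, hcon, eq_bot_iff, Submonoid.closure_le]
      rintro x ⟨h, hh, -⟩
      exact hh.elim
    rw [h2] at gen
    exact Submonoid.mem_bot.1 gen
  rw [h1, Matrix.transpose_one, Matrix.one_mul, Matrix.mul_one] at hc
  apply hc1
  have h3 : (c - 1) • J = 0 := by rw [sub_smul, one_smul, ← hc, sub_self]
  exact sub_eq_zero.1 ((smul_eq_zero.1 h3).resolve_right hJ0)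

/-- **The monodromy group**: all ranks are balanced, and every component of the Lie algebra (for one
subgroup of finite index, of prime vanishing ideal) contains an element of rank one. -/
theorem as2_mono [CharZero L] [CharZero K] [IsAlgClosed K] [Nonempty ι] {ψ : Matrix ι ι ℚ}
    (hψ : ψᵀ = -ψ) (hψ0 : ψ.det ≠ 0) (D : Subalgebra ℚ (Matrix ι ι ℚ))
    (ρ : G →* Matrix.GeneralLinearGroup ι L)
    (lin : ∀ σ : G, ∀ d ∈ D, (ρ σ).1 * d.map (algebraMap ℚ L) =
      d.map (algebraMap ℚ L) * (ρ σ).1)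
    (sim : ∀ σ : G, ∃ c : L, (ρ σ).1ᵀ * ψ.map (algebraMap ℚ L) * (ρ σ).1 =
      c • ψ.map (algebraMap ℚ L))
    (semis : ∀ H : Subgroup G, H.FiniteIndex → ∀ W : Submodule K (ι → K),
      (∀ s ∈ img K ρ H, ∀ w ∈ W, s *ᵥ w ∈ W) →
      ∃ W' : Submodule K (ι → K), (∀ s ∈ img K ρ H, ∀ w ∈ W', s *ᵥ w ∈ W') ∧ IsCompl W W')
    (commt : ∀ H : Subgroup G, H.FiniteIndex → ∀ y : Matrix ι ι K,
      (∀ s ∈ img K ρ H, y * s = s * y) → y ∈ spanK K D)
    {m : ℕ} {bar : Fin m → Fin m} {e : Fin m → Matrix ι ι K} (hspl : IsSplitting D ψ bar e)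
    (hne : (properProj K ρ).Nonempty)
    (gen : ∀ g : G, (ρ g).1.map (algebraMap L K) ∈ tgen K ρ)
    (bal : ∀ x ∈ properProj K ρ, ∀ b, 2 * (x * e b).rank = (e b).rank)
    (block : ∀ H₀ : Subgroup G, H₀.FiniteIndex → (van (img K ρ H₀)).IsPrime → ∀ b,
      ∃ A ∈ preL (ψ.map (algebraMap ℚ K)) (img K ρ H₀), (A * e b).rank = 1)
    (H : Subgroup G) (hH : H.FiniteIndex) : monodromy K ρ H = balGrp K ψ D e := by
  classical
  obtain ⟨hJ, hdet⟩ := gram_basic hψ hψ0 K
  have hspl4 := split4_of hspl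
  set J : Matrix ι ι K := ψ.map (algebraMap ℚ K) with hJdef
  have hrank0 : ∀ b, 0 < (e b).rank := by
    intro b
    exact Pool.Agent.H76T.rank_pos_of_ne (hspl.ne_zero b)
  have hrbar : ∀ b, (e (bar b)).rank = (e b).rank := by
    intro b
    have h1 := hspl.adj b
    have h2 : ((e b)ᵀ * J).rank = (e b).rank := by
      rw [Matrix.rank_mul_eq_left_of_isUnit_det _ _ hdet, Matrix.rank_transpose]
    rw [← h2, h1, Matrix.rank_mul_eq_right_of_isUnit_det _ _ hdet]
  have heven : ∀ b, 2 * ((e b).rank / 2) = (e b).rank := by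
    intro b
    obtain ⟨x, hx⟩ := hne
    have := bal x hx b
    omega
  have hbalh : ∀ x ∈ properProj K ρ, ∀ b, (x * e b).rank = (e b).rank / 2 := by
    intro x hx b
    have := bal x hx b
    omega
  have hgen : img K ρ ⊤ ⊆ zar (Submonoid.closure {m | ∃ h ∈ properProj K ρ, ∃ t : K,
      t ≠ 0 ∧ m = 1 + (t - 1) • h} : Set (Matrix ι ι K)) := by
    rintro _ ⟨γ, -, rfl⟩
    exact subset_zar _ (gen γ)
  have hsimG : ∀ x : G, ∃ c : K, ((ρ x).1.map (algebraMap L K))ᵀ * J *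
      (ρ x).1.map (algebraMap L K) = c • J := by
    intro x
    obtain ⟨c, hc⟩ := sim x
    exact ⟨_, sim_map hc⟩
  have hseed : ∀ b, ∃ N : Matrix ι ι K, N * N = 0 ∧ 1 + N ∈ zar (img K ρ ⊤) ∧ (N * e b).rank = 1 := by
    intro b
    obtain ⟨H₀, -, hfin, hprime⟩ := H76RM.exists_prime (K := K) ρ ⊤ inferInstance
    have g := Pool.Agent.H76V.mk_sh (H' := ⊤) hψ hψ0 D ρ lin sim semis commt (𝓗 := properProj K ρ)
      (fun x hx => hx.1) (fun x hx => hx.2) inferInstance hgen hfin hprime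
    obtain ⟨A, hA, hA1⟩ := block H₀ hfin hprime b
    obtain ⟨x, hx⟩ := hne
    have hxne : ∀ c, x * e c ≠ 0 := by
      intro c h0
      have h1 := hbalh x hx c
      rw [h0, Matrix.rank_zero] at h1
      have h2 := heven c
      have h3 := hrank0 c
      omega
    obtain ⟨N, hN, hN2, -, hN1⟩ := as1_seed hspl4 g hJ hdet (img_mul ρ H₀) hprime
      (by rintro _ ⟨γ, -, rfl⟩; exact ⟨γ, rfl⟩) hx (hxne b) (hxne (bar b)) hA hA1
    refine ⟨N, hN2, ?_, hN1⟩
    have h1 := zlie_exp hN hN2 1 (img_one ρ H₀) 1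
    rw [one_mul, one_smul] at h1
    refine zar_mono ?_ h1
    rintro _ ⟨γ, -, rfl⟩
    exact ⟨γ, Subgroup.mem_top γ, rfl⟩
  rw [← typeGrp_eq K hψ0 D e]
  refine Pool.Agent.H76U.monodromy_type hψ hψ0 D ρ lin sim semis commt hspl (sig := {fun b => (e b).rank / 2})
    ?_ (𝓗 := properProj K ρ) (fun x hx => hx.1) ?_ ?_ (H₀ := ⊤) hgen ?_ H hH le_top
  · intro n hn b
    rw [Set.mem_singleton_iff] at hn
    subst hn
    have h1 := heven b
    refine ⟨?_, ?_⟩
    · show (e b).rank / 2 + (e (bar b)).rank / 2 = (e b).rank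
      rw [hrbar]
      omega
    · intro h2
      show 0 < (e b).rank / 2
      omega
  · intro x hx
    rw [Set.mem_singleton_iff]
    funext b
    exact hbalh x hx b
  · intro n hn
    rw [Set.mem_singleton_iff] at hn
    subst hn
    obtain ⟨x, hx⟩ := hne
    exact ⟨x, hx, hbalh x hx⟩
  · intro b
    obtain ⟨N, h1, h2, h3⟩ := hseed b
    exact Or.inr (Or.inr ⟨N, h1, h2, Or.inl h3⟩)

end

end Pool.Agent.H76Y
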