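import Pool.Agent.Lib.H76Q.A7
import Pool.Agent.Lib.H76Y.Y1

/-!
# the local data for a component which is its own conjugate
-/

set_option autoImplicit false
set_option linter.unusedSectionVars false
namespace Pool.Agent.H76Y
open Module Matrix Polynomial Pool.Agent.H53Toric
open Pool.Agent.H76P Pool.Agent.H76Q
open Pool.Agent.H76T (IsIdeal Fam Lc)
open Pool.Agent.H76V (Cmp)
open Pool.Agent.H76U (cmp preL IsSplitting)
open Pool.Agent.H76RM (spanK similD)

variable {ι : Type*} [Fintype ι] [DecidableEq ι] {K : Type*} [Field K] [CharZero K]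
  [IsAlgClosed K]

variable {L : Type*} [Field L] [CharZero L] [Algebra L K] {G : Type*} [Group G]

/-- PROOF. `J = ψ.map`, `S = img K ρ H₀`, `𝓗 = properProj K ρ`.  `gram_basic`, `split4_of (hspl.map _)`, `mk_phT` (A4); `ts`: `mk_ts`, `yo`: `Yo_eq_YS` (A5), `YS_map` (A2);
`par`: fields `hi`, `hs` of `g.sh`, `H76V.preL_ec`, and `g4_mem` (see the proof of `eps_mem` in H76P/G4); `lie`: `lc_of_zlie` (G4); `C ∈ zlie S` commutes with `e` (`H76V.preL_ec` or
`zlie_commute`).  `pos`: `e ≠ 0` (`hspl.ne_zero`).  `ht` gives the hypothesis of `mk_ts` (`i` is injective). -/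
theorem mk_loc_old {ψ : Matrix ι ι ℚ}
    (hψ : ψᵀ = -ψ) (hψ0 : ψ.det ≠ 0) (D : Subalgebra ℚ (Matrix ι ι ℚ))
    (ρ : G →* Matrix.GeneralLinearGroup ι L)
    (lin : ∀ σ : G, ∀ d ∈ D, (ρ σ).1 * d.map (algebraMap ℚ L) =
      d.map (algebraMap ℚ L) * (ρ σ).1)
    (sim : ∀ σ : G, ∃ c : L, (ρ σ).1ᵀ * ψ.map (algebraMap ℚ L) * (ρ σ).1 =
      c • ψ.map (algebraMap ℚ L))
    (semis : ∀ H : Subgroup G, H.FiniteIndex → ∀ W : Submodule K (ι → K),
      (∀ s ∈ img K ρ H, ∀ w ∈ W, s *ᵥ w ∈ W) →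
      ∃ W' : Submodule K (ι → K), (∀ s ∈ img K ρ H, ∀ w ∈ W', s *ᵥ w ∈ W') ∧ IsCompl W W')
    (commt : ∀ H : Subgroup G, H.FiniteIndex → ∀ y : Matrix ι ι K,
      (∀ s ∈ img K ρ H, y * s = s * y) → y ∈ spanK K D)
    (gen : ∀ g : G, (ρ g).1.map (algebraMap L K) ∈ tgen K ρ)
    {M : Type*} [Field M] [CharZero M] {m : ℕ} {bar : Fin m → Fin m} {e : Fin m → Matrix ι ι M} {F : Fin m → M[X]}
    (hspl : IsSplitting D ψ bar e) {x : Matrix ι ι K} (hF : FrobT K ρ e F x) {q : ℚ}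
    (hmult : xᵀ * ψ.map (algebraMap ℚ K) * x = algebraMap ℚ K q • ψ.map (algebraMap ℚ K))
    {H₀ : Subgroup G} (hfin : H₀.FiniteIndex) (hprime : (H76RM.van (img K ρ H₀)).IsPrime)
    {Ω : Type*} [Field Ω] [IsAlgClosed Ω] (j : M →+* Ω) (i : Ω →+* K) (b : Fin m) (hb : bar b = b)
    {n : ℕ} {a : Fin n → Ω} (ha : Function.Injective a)
    (hroot : ∀ y : Ω, (F b).eval₂ j y = 0 ↔ ∃ k, y = a k)
    (ht : ∀ k l : Fin n, ∀ N : ℕ, N ≠ 0 → a k ^ N = a l ^ N → k = l) :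
    ∃ (U : Matrix ι (Fin n) K) (V : Matrix (Fin n) ι K),
      H76Q.Loc (ψ.map (algebraMap ℚ K)) (img K ρ H₀) (properProj K ρ) ((e b).map (i.comp j)) x
        (algebraMap ℚ K q) U V (fun k => i (a k)) (YS a) := by
  classical
  obtain ⟨hJ, hdet⟩ := gram_basic hψ hψ0 K
  have hsplK : IsSplitting D ψ bar (fun c => (e c).map (i.comp j)) := hspl.map (i.comp j)
  have hspl4 := Pool.Agent.H76U.split4_of hsplK
  have hι : Nonempty ι := by
    by_contra hemp
    rw [not_nonempty_iff] at hemp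
    apply hsplK.ne_zero b
    ext i'
    exact (hemp.false i').elim
  obtain ⟨φ', g⟩ := mk_phT (K := K) hψ hψ0 D ρ lin sim semis commt gen hF hfin hprime
  have hφe : x * (e b).map (i.comp j) = (e b).map (i.comp j) * x := g.φD _ (hspl4.mem b)
  obtain ⟨U, V, hUV, hVU, E⟩ := exists_ecT hF j i b (hspl.idem b) hφe.symm ha hroot
  have hn : 0 < n := by
    rw [Nat.pos_iff_ne_zero]
    rintro rfl
    apply hsplK.ne_zero b
    rw [hUV]
    ext i' j'
    rw [Matrix.mul_apply, Finset.univ_eq_empty, Finset.sum_empty]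
    rfl
  have hadj : ((e b).map (i.comp j))ᵀ * ψ.map (algebraMap ℚ K) = ψ.map (algebraMap ℚ K) * (e b).map (i.comp j) := by
    have h1 := hspl4.adj b
    rwa [hb] at h1
  refine ⟨U, V, ?_⟩
  refine
    { pos := hn
      UV := hUV
      VU := hVU
      ec := E
      ex := hφe.symm
      Jt := hJ
      Jd := hdet
      adj := hadj
      mult := hmult
      ts := ?_
      yo := ?_
      par := ?_
      lie := ?_ }
  · refine H76Q.mk_ts (b := b) hspl4 hb hJ hdet hUV hVU g E hn ?_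
    intro k l N hN hkl
    refine ht k l N hN (i.injective ?_)
    rw [map_pow, map_pow]
    exact hkl
  · rw [H76Q.Yo_eq_YS (b := b) hspl4 hb hJ hdet hUV hVU g E hn]
    exact YS_map i a
  · intro h hh
    have hxz := g.sh.hz h hh
    have hxs := g.sh.hs h hh
    have hxL : h ∈ preL (ψ.map (algebraMap ℚ K)) (img K ρ H₀) :=
      ⟨⟨0, h, hxz, by rw [zero_smul, add_zero]⟩, 1, by rw [hxs, one_smul]⟩
    refine ⟨g.sh.hi h hh, Pool.Agent.H76V.preL_ec (b := b) hspl4 g.sh hxL, hxs, ?_⟩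
    refine H76P.g4_mem (b := b) hspl4 hb hdet hUV hVU g (A := (2 : K) • h - 1)
      ⟨-1, (2 : K) • h, (zlie (img K ρ H₀)).smul_mem _ hxz, by rw [neg_smul, one_smul, sub_eq_add_neg]⟩ ?_
    rw [Matrix.transpose_sub, Matrix.transpose_smul, Matrix.transpose_one, sub_mul, mul_sub, smul_mul_assoc,
      one_mul, mul_smul_comm, mul_one]
    have h1 : (2 : K) • (hᵀ * ψ.map (algebraMap ℚ K)) - ψ.map (algebraMap ℚ K) +
        ((2 : K) • (ψ.map (algebraMap ℚ K) * h) - ψ.map (algebraMap ℚ K)) =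
        (2 : K) • (hᵀ * ψ.map (algebraMap ℚ K) + ψ.map (algebraMap ℚ K) * h - ψ.map (algebraMap ℚ K)) := by
      rw [smul_sub, smul_add, two_smul K (ψ.map (algebraMap ℚ K))]
      abel
    rw [h1, hxs, sub_self, smul_zero]
  · intro C hC
    refine ⟨?_, H76P.lc_of_zlie (b := b) hspl4 hb hdet hUV hVU g hC⟩
    exact Pool.Agent.H76RM.zlie_commute g.sh.one (fun s hs => g.sh.SD s hs _ (hspl4.mem b)) hC

end Pool.Agent.H76Y
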