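import Pool.Agent.Lib.H76Q.A4
import Pool.Agent.Lib.H76Q.A6
import Pool.Agent.Lib.H76Q.A7
import Pool.Agent.Lib.H76Y.A5
import Pool.Agent.Lib.H76Y.NS
import Pool.Agent.Lib.H76Y.EN2

/-!
# existence of the local data
-/

set_option autoImplicit false
set_option linter.unusedSectionVars false
namespace Pool.Agent.H76Y
open Pool.Agent.H76P Pool.Agent.H76V Pool.Agent.H76Q
open Module Matrix Polynomial Pool.Agent.H53Toric
open Pool.Agent.H76T (IsIdeal Fam Lc)
open Pool.Agent.H76U (cmp preL IsSplitting Lb)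
open Pool.Agent.H76RM (spanK similD)

variable {ι : Type*} [Fintype ι] [DecidableEq ι] {K : Type*} [Field K] [CharZero K]
  [IsAlgClosed K]

section
variable {B : Type*} [Fintype B] [DecidableEq B]
  {J : Matrix ι ι K} {DD : Submodule K (Matrix ι ι K)}
  {bar : B → B} {e : B → Matrix ι ι K} (h : H76U.Split4 J DD bar e) {b : B}
  {n : ℕ} {S : Set (Matrix ι ι K)} {𝓗 : Set (Matrix ι ι K)} {φ φ' : Matrix ι ι K}
  {P : Matrix ι (Fin n) K} {Q : Matrix (Fin n) ι K}
  (hPQ : e b = P * Q) (hQP : Q * P = 1)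
  (g : PH S J DD 𝓗 φ φ')

include h hPQ hQP g in
/-- A component which is its own conjugate respects an alternating form. -/
theorem syl (hb : bar b = b) (hJ : Jᵀ = -J) (hdet : IsUnit J.det) (hn : 0 < n) :
    SyL (LcN J S P Q) := by
  have hpJ : (e b)ᵀ * J = J * e b := by
    have := h.adj b
    rwa [hb] at this
  have hdb : IsUnit (Pᵀ * J * P).det := Pool.Agent.H76U.det_cmp hPQ hQP hpJ hdet
  refine ⟨Pᵀ * J * P, ?_, hdb, ?_⟩
  · rw [Matrix.transpose_mul, Matrix.transpose_mul, Matrix.transpose_transpose, hJ,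
      Matrix.neg_mul, Matrix.mul_neg, Matrix.mul_assoc]
  · rintro X ⟨hX, htr⟩
    obtain ⟨x, rfl⟩ := (phi (ι := Fin n) (K := K)).surjective X
    obtain ⟨A, hA, rfl⟩ := Pool.Agent.H76U.mem_Lb.1 hX
    have hAe := Pool.Agent.H76V.preL_ec (b := b) h g.sh hA
    obtain ⟨-, d, hd⟩ := hA
    have h1 := Pool.Agent.H76U.cmp_sim hPQ hQP hpJ hAe
    rw [hd, Matrix.mul_smul, Matrix.smul_mul] at h1
    rw [g4_trace] at htr
    set A' := cmp P Q A with hA'
    set J' := Pᵀ * J * P with hJ'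
    have h2 : J'⁻¹ * A'ᵀ * J' + A' = d • 1 := by
      have h3 := congrArg (fun z => J'⁻¹ * z) h1
      simp only [Matrix.mul_add, Matrix.mul_smul, ← Matrix.mul_assoc,
        Matrix.nonsing_inv_mul _ hdb, Matrix.one_mul] at h3
      exact h3
    have h4 : d * (n : K) = 0 := by
      have h3 := congrArg Matrix.trace h2
      rw [Matrix.trace_add, Matrix.mul_assoc, Matrix.trace_mul_comm, Matrix.mul_assoc,
        Matrix.mul_nonsing_inv _ hdb, Matrix.mul_one, Matrix.trace_transpose, htr, add_zero,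
        Matrix.trace_smul, Matrix.trace_one, Fintype.card_fin, smul_eq_mul] at h3
      exact h3.symm
    have h5 : d = 0 := by
      rcases mul_eq_zero.1 h4 with h6 | h6
      · exact h6
      · exact absurd h6 (by exact_mod_cast hn.ne')
    rw [h5, zero_smul] at h2
    rw [adjE_phi, eq_neg_of_add_eq_zero_left h2, map_neg]

end

variable {L : Type*} [Field L] [CharZero L] [Algebra L K] {G : Type*} [Group G]

/-- The hypotheses of this section are those of `H76Q.mk_loc`, with the condition `bal` of balance. -/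
theorem mk_loc {ψ : Matrix ι ι ℚ}
    (hψ : ψᵀ = -ψ) (hψ0 : ψ.det ≠ 0) (D : Subalgebra ℚ (Matrix ι ι ℚ))
    (ρ : G →* Matrix.GeneralLinearGroup ι L)
    (lin : ∀ σ : G, ∀ d ∈ D, (ρ σ).1 * d.map (algebraMap ℚ L) =
      d.map (algebraMap ℚ L) * (ρ σ).1)
    (sim : ∀ σ : G, ∃ c : L, (ρ σ).1ᵀ * ψ.map (algebraMap ℚ L) * (ρ σ).1 =
      c • ψ.map (algebraMap ℚ L))
    (semis : ∀ H : Subgroup G, H.FiniteIndex → ∀ W : Submodule K (ι → K),
      (∀ s ∈ img K ρ H, ∀ w ∈ W, s *ᵥ w ∈ W) →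
      ∃ W' : Submodule K (ι → K), (∀ s ∈ img K ρ H, ∀ w ∈ W', s *ᵥ w ∈ W') ∧ IsCompl W W')
    (commt : ∀ H : Subgroup G, H.FiniteIndex → ∀ y : Matrix ι ι K,
      (∀ s ∈ img K ρ H, y * s = s * y) → y ∈ spanK K D)
    (gen : ∀ g : G, (ρ g).1.map (algebraMap L K) ∈ tgen K ρ)
    {M : Type*} [Field M] [CharZero M] {m : ℕ} {bar : Fin m → Fin m}
    {e : Fin m → Matrix ι ι M} {F : Fin m → M[X]}
    (hspl : IsSplitting D ψ bar e) {x : Matrix ι ι K} (hF : FrobT K ρ e F x)
    (hx : x ∈ tgen K ρ) {q : ℚ}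
    (hmult : xᵀ * ψ.map (algebraMap ℚ K) * x = algebraMap ℚ K q • ψ.map (algebraMap ℚ K))
    {H₀ : Subgroup G} (hfin : H₀.FiniteIndex) (hprime : (H76RM.van (img K ρ H₀)).IsPrime)
    {Ω : Type*} [Field Ω] [IsAlgClosed Ω] (j : M →+* Ω) (i : Ω →+* K) (b : Fin m)
    {n : ℕ} (bal : ∀ h ∈ properProj K ρ, 2 * (h * (e b).map (i.comp j)).rank = n)
    {a : Fin n → Ω} (ha : Function.Injective a)
    (hroot : ∀ y : Ω, (F b).eval₂ j y = 0 ↔ ∃ k, y = a k)
    (ht : ∀ k l : Fin n, ∀ N : ℕ, N ≠ 0 → a k ^ N = a l ^ N → k = l) :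
    ∃ (U : Matrix ι (Fin n) K) (V : Matrix (Fin n) ι K),
      LocN (bar b = b) (ψ.map (algebraMap ℚ K)) (img K ρ H₀) (properProj K ρ) ((e b).map (i.comp j)) x
        (algebraMap ℚ K q) U V (fun k => i (a k)) (YS a) := by
  classical
  obtain ⟨hJ, hdet⟩ := gram_basic hψ hψ0 K
  have hsplK : IsSplitting D ψ bar (fun c => (e c).map (i.comp j)) := hspl.map (i.comp j)
  have hspl4 := Pool.Agent.H76U.split4_of hsplK
  have hι : Nonempty ι := by
    by_contra hemp
    rw [not_nonempty_iff] at hemp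
    apply hsplK.ne_zero b
    ext i'
    exact (hemp.false i').elim
  obtain ⟨φ', g⟩ := mk_phT (K := K) hψ hψ0 D ρ lin sim semis commt gen hF hfin hprime
  have hφe : x * (e b).map (i.comp j) = (e b).map (i.comp j) * x := g.φD _ (hspl4.mem b)
  obtain ⟨U, V, hUV, hVU, E⟩ := exists_ecT hF j i b (hspl.idem b) hφe.symm ha hroot
  have hn : 0 < n := by
    rw [Nat.pos_iff_ne_zero]
    rintro rfl
    apply hsplK.ne_zero b
    rw [hUV]
    ext i' j'
    rw [Matrix.mul_apply, Finset.univ_eq_empty, Finset.sum_empty]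
    rfl
  refine ⟨U, V, ?_⟩
  refine
    { pos := hn
      UV := hUV
      VU := hVU
      ec := E
      ex := hφe.symm
      ts := ?_
      cls := ⟨fun hb => syl (b := b) hspl4 hUV hVU g hb hJ hdet hn, fun hb =>
        nsl (b := b) hspl4 hUV hVU g.sh hb hdet bal⟩
      yo := ?_
      par := ?_
      lie := ?_
      prod := ?_ }
  · refine mk_tm (b := b) hspl4 bal hdet hUV hVU g E hn ?_
    intro k l N hN hkl
    refine ht k l N hN (i.injective ?_)
    rw [map_pow, map_pow]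
    exact hkl
  · rw [Yo_eq_YS (b := b) hspl4 bal hdet hUV hVU g E hn]
    exact YS_map i a
  · intro h hh
    exact ⟨g.sh.hi h hh, g5_comm (b := b) hspl4 g hh, bal h hh,
      (g5_inv (b := b) hspl4 bal hdet hUV hVU g hh).1⟩
  · intro C hC
    refine ⟨?_, lc_of_zlie (b := b) hspl4 hdet hUV hVU g hn hC⟩
    exact Pool.Agent.H76RM.zlie_commute g.sh.one (fun s hs => g.sh.SD s hs _ (hspl4.mem b)) hC
  · obtain ⟨-, c, -, hc, hd⟩ := EN.tgen_det (n := n) (J := ψ.map (algebraMap ℚ K)) hUV hVU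
      (𝓗 := properProj K ρ) (fun h hh => ⟨g.sh.hi h hh, g5_comm (b := b) hspl4 g hh, g.sh.hs h hh,
        bal h hh⟩) hx
    have hJ0 : ψ.map (algebraMap ℚ K) ≠ 0 := by
      intro h0
      rw [h0] at hdet
      rw [Matrix.det_zero] at hdet
      exact not_isUnit_zero hdet
    have hcq : c = algebraMap ℚ K q := smul_left_injective K hJ0 (by
      show c • ψ.map (algebraMap ℚ K) = algebraMap ℚ K q • ψ.map (algebraMap ℚ K)
      rw [← hc, hmult])
    have hdg : cmp U V x = Matrix.diagonal (fun k => i (a k)) := cmp_phi hVU E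
    rw [hdg, Matrix.det_diagonal, hcq] at hd
    exact hd

end Pool.Agent.H76Y
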