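import Pool.Agent.Lib.H76Q.A6
import Pool.Agent.Lib.H76Q.F2
import Pool.Agent.Lib.H76Q.Q6
import Pool.Agent.Lib.H76Y.A1
import Pool.Agent.Lib.H76Y.Y0

/-!
# the eigenvalues
-/

set_option autoImplicit false
set_option linter.unusedSectionVars false
namespace Pool.Agent.H76Y
open Pool.Agent.H76P Pool.Agent.H76V Pool.Agent.H76Q
open Module Matrix Polynomial Pool.Agent.H53Toric
open Pool.Agent.H76P
open Pool.Agent.H76T (IsIdeal Fam Lc)
open Pool.Agent.H76U (cmp preL IsSplitting)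
open Pool.Agent.H76RM (spanK similD)

variable {ι : Type*} [Fintype ι] [DecidableEq ι] {ψ : Matrix ι ι ℚ}
    {D : Subalgebra ℚ (Matrix ι ι ℚ)} {M : Type*} [Field M] [NumberField M]
    {m : ℕ} {bar : Fin m → Fin m} {e : Fin m → Matrix ι ι M} {G : Type*} [Group G]
    {ρ : ∀ (l : ℕ) [Fact l.Prime], G →* Matrix.GeneralLinearGroup ι ℚ_[l]}
    {p : ℕ} [Fact p.Prime] {σ : G} {q : ℚ} {F : Fin m → M[X]}
    {φ μ ν : Matrix ι ι (AlgebraicClosure ℚ_[p])} {v : AlgebraicClosure ℚ_[p] → ℚ}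
    {Δ : Set (AlgebraicClosure ℚ_[p] ≃+* AlgebraicClosure ℚ_[p])}
    {Ω : Type*} [Field Ω] [CharZero Ω] [IsAlgClosed Ω] [Algebra.IsAlgebraic ℚ Ω] {j : M →+* Ω}
    {R : Finset Ω} {N : Set ℕ} (C : Core3 ψ D bar e ρ p σ q F φ μ ν v Δ j R N)

include C

theorem w1_lin (s : G) : ∀ d ∈ D, (ρ p s).1.map (algebraMap ℚ_[p] (AlgebraicClosure ℚ_[p])) *
      d.map (algebraMap ℚ (AlgebraicClosure ℚ_[p])) =
      d.map (algebraMap ℚ (AlgebraicClosure ℚ_[p])) *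
        (ρ p s).1.map (algebraMap ℚ_[p] (AlgebraicClosure ℚ_[p])) := by
  intro d hd
  have h1 := congrArg (fun m : Matrix ι ι ℚ_[p] => m.map (algebraMap ℚ_[p] (AlgebraicClosure ℚ_[p])))
    (C.lin p s d hd)
  have h2 : (d.map (algebraMap ℚ ℚ_[p])).map (algebraMap ℚ_[p] (AlgebraicClosure ℚ_[p])) =
      d.map (algebraMap ℚ (AlgebraicClosure ℚ_[p])) := by
    ext i j
    simp
  simp only [Matrix.map_mul] at h1
  rw [h2] at h1
  exact h1

theorem w1_phiD : ∀ d ∈ spanK (AlgebraicClosure ℚ_[p]) D, φ * d = d * φ := by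
  intro d hd
  refine Pool.Agent.H76RM.zar_commute ?_ (C.frobp.idc.2 ⊤ inferInstance)
  rintro _ ⟨s, -, rfl⟩
  exact Pool.Agent.H76RM.comm_span (w1_lin C s) d hd

theorem w1_ne (i : Ω →+* AlgebraicClosure ℚ_[p]) (b : Fin m) {a : Ω}
    (ha : (F b).eval₂ j a = 0) : i a ≠ 0 := by
  intro h0
  have h1 : (F b).eval₂ (i.comp j) (i a) = 0 := by
    rw [← Polynomial.hom_eval₂, ha, map_zero]
  obtain ⟨z, hz, -, hφ⟩ := (C.frobp.eig (i.comp j) b (i a)).2 h1
  rw [h0, zero_smul] at hφ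
  exact hz (Matrix.eq_zero_of_mulVec_eq_zero C.frobp.idc.1 hφ)

/-- PROOF. If `a ≠ a'` then `v (i a) ≠ v (i a')` for some `i` (`C.gal`), but `N v (i a) = v (i (a ^ N)) = N v (i a')` (`IsVal.basic`; the roots are not `0`, because `φ` is invertible). -/
theorem Core3.tor (b : Fin m) {a a' : Ω} (ha : (F b).eval₂ j a = 0) (ha' : (F b).eval₂ j a' = 0)
    {n : ℕ} (hn : n ≠ 0) (h : a ^ n = a' ^ n) : a = a' := by
  by_contra hne
  obtain ⟨i, hi⟩ := C.gal b a a' ha ha' hne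
  have hb := (IsVal.basic C.crys.val).2.2.2
  have h1 := hb _ (w1_ne C i b ha) n
  have h2 := hb _ (w1_ne C i b ha') n
  rw [← map_pow, h, map_pow, h2] at h1
  have hn' : (n : ℚ) ≠ 0 := Nat.cast_ne_zero.2 hn
  exact hi (mul_left_cancel₀ hn' h1).symm

/-- PROOF. `exists_enum` (A6) for `φ` and any `i : Ω →+* closure of ℚ_[p]` (`IsAlgClosed.lift`); `φ` commutes with `(e b).map _` (`C.frobp.idc`, `C.lin`, as in `at_p`, H76P/G15). -/
theorem Core3.enum (b : Fin m) : ∃ a : Fin (e b).rank → Ω, Function.Injective a ∧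
      ∀ y : Ω, (F b).eval₂ j y = 0 ↔ ∃ k, y = a k := by
  let i : Ω →+* AlgebraicClosure ℚ_[p] :=
    (IsAlgClosed.lift (R := ℚ) (S := Ω) (M := AlgebraicClosure ℚ_[p])).toRingHom
  have hspl : IsSplitting D ψ bar (fun c => (e c).map (i.comp j)) := C.hspl.map (i.comp j)
  exact exists_enum C.frobp j i b (C.hspl.idem b) (w1_phiD C _ (hspl.mem b)).symm

end Pool.Agent.H76Y
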