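import Pool.Agent.Lib.H76Q.A7
import Pool.Agent.Lib.H76Y.A7
import Pool.Agent.Lib.H76Q.Q6
import Pool.Agent.Lib.H76Y.A1
import Pool.Agent.Lib.H76Y.W1
import Pool.Agent.Lib.H76Y.Y0

/-!
# the local data
-/

set_option autoImplicit false

/-!
# the local data
-/
set_option linter.unusedSectionVars false
namespace Pool.Agent.H76Y
open Pool.Agent.H76P Pool.Agent.H76V Pool.Agent.H76Q
open Module Matrix Polynomial Pool.Agent.H53Toric
open Pool.Agent.H76P
open Pool.Agent.H76T (IsIdeal Fam Lc)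
open Pool.Agent.H76U (cmp preL IsSplitting)
open Pool.Agent.H76RM (spanK similD)

variable {ι : Type*} [Fintype ι] [DecidableEq ι] {ψ : Matrix ι ι ℚ}
    {D : Subalgebra ℚ (Matrix ι ι ℚ)} {M : Type*} [Field M] [NumberField M]
    {m : ℕ} {bar : Fin m → Fin m} {e : Fin m → Matrix ι ι M} {G : Type*} [Group G]
    {ρ : ∀ (l : ℕ) [Fact l.Prime], G →* Matrix.GeneralLinearGroup ι ℚ_[l]}
    {p : ℕ} [Fact p.Prime] {σ : G} {q : ℚ} {F : Fin m → M[X]}
    {φ μ ν : Matrix ι ι (AlgebraicClosure ℚ_[p])} {v : AlgebraicClosure ℚ_[p] → ℚ}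
    {Δ : Set (AlgebraicClosure ℚ_[p] ≃+* AlgebraicClosure ℚ_[p])}
    {Ω : Type*} [Field Ω] [CharZero Ω] [IsAlgClosed Ω] [Algebra.IsAlgebraic ℚ Ω] {j : M →+* Ω}
    {R : Finset Ω} {N : Set ℕ} (C : Core3 ψ D bar e ρ p σ q F φ μ ν v Δ j R N)

include C

/-- The number of eigenvalues is the rank of the idempotent. -/
theorem Core3.card (b : Fin m)
    {n : ℕ} {a : Fin n → Ω} (ha : Function.Injective a)
    (hroot : ∀ y : Ω, (F b).eval₂ j y = 0 ↔ ∃ k, y = a k) : n = (e b).rank := by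
  obtain ⟨a', ha', hroot'⟩ := C.enum b
  have h1 : ∀ k, ∃ k', a k = a' k' := fun k => (hroot' _).1 ((hroot _).2 ⟨k, rfl⟩)
  have h2 : ∀ k, ∃ k', a' k = a k' := fun k => (hroot _).1 ((hroot' _).2 ⟨k, rfl⟩)
  choose f hf using h1
  choose g hg using h2
  have hfi : Function.Injective f := fun x y h => ha (by rw [hf, hf, h])
  have hgi : Function.Injective g := fun x y h => ha' (by rw [hg, hg, h])
  have h3 := Fintype.card_le_of_injective f hfi
  have h4 := Fintype.card_le_of_injective g hgi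
  rw [Fintype.card_fin, Fintype.card_fin] at h3 h4
  exact le_antisymm h3 h4

/-- PROOF. `mk_loc` (A7) with `H76RM.exists_prime` (see `lie_p` in H76P/G12); `Core3.tor`. -/
theorem Core3.locp (b : Fin m)
    {n : ℕ} {a : Fin n → Ω} (ha : Function.Injective a)
    (hroot : ∀ y : Ω, (F b).eval₂ j y = 0 ↔ ∃ k, y = a k)
    (i : Ω →+* AlgebraicClosure ℚ_[p]) :
    ∃ (H₀ : Subgroup G) (U : Matrix ι (Fin n) (AlgebraicClosure ℚ_[p]))
      (V : Matrix (Fin n) ι (AlgebraicClosure ℚ_[p])), H₀.FiniteIndex ∧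
      LocN (bar b = b) (ψ.map (algebraMap ℚ (AlgebraicClosure ℚ_[p]))) (img (AlgebraicClosure ℚ_[p]) (ρ p) H₀)
        (properProj (AlgebraicClosure ℚ_[p]) (ρ p)) ((e b).map (i.comp j)) φ
        (algebraMap ℚ (AlgebraicClosure ℚ_[p]) q) U V (fun k => i (a k)) (YS a) := by
  obtain ⟨H₀, -, hfin, hprime⟩ := H76RM.exists_prime (K := AlgebraicClosure ℚ_[p]) (ρ p) ⊤ inferInstance
  have hc := C.card b ha hroot
  obtain ⟨U, V, hL⟩ := mk_loc C.hψ C.hψ0 D (ρ p) (C.lin p) (C.sim p) (C.semis p) (C.commt p) (C.gen p) C.hspl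
    C.frobp C.crys.phigen C.multp hfin hprime j i b (fun h hh => by rw [C.bal p h hh (i.comp j) b, hc]) ha hroot (fun k l N hN h =>
      ha (C.tor b ((hroot _).2 ⟨k, rfl⟩) ((hroot _).2 ⟨l, rfl⟩) hN h))
  exact ⟨H₀, U, V, hfin, hL⟩

/-- PROOF. The same for `l ≠ p`; `C.mult` mapped to the closure. -/
theorem Core3.locl (b : Fin m)
    {n : ℕ} {a : Fin n → Ω} (ha : Function.Injective a)
    (hroot : ∀ y : Ω, (F b).eval₂ j y = 0 ↔ ∃ k, y = a k)
    (l : ℕ) [Fact l.Prime] (hl : l ≠ p) (i : Ω →+* AlgebraicClosure ℚ_[l]) :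
    ∃ (H₀ : Subgroup G) (U : Matrix ι (Fin n) (AlgebraicClosure ℚ_[l]))
      (V : Matrix (Fin n) ι (AlgebraicClosure ℚ_[l])), H₀.FiniteIndex ∧
      LocN (bar b = b) (ψ.map (algebraMap ℚ (AlgebraicClosure ℚ_[l]))) (img (AlgebraicClosure ℚ_[l]) (ρ l) H₀)
        (properProj (AlgebraicClosure ℚ_[l]) (ρ l)) ((e b).map (i.comp j))
        ((ρ l σ).1.map (algebraMap ℚ_[l] (AlgebraicClosure ℚ_[l])))
        (algebraMap ℚ (AlgebraicClosure ℚ_[l]) q) U V (fun k => i (a k)) (YS a) := by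
  obtain ⟨H₀, -, hfin, hprime⟩ := H76RM.exists_prime (K := AlgebraicClosure ℚ_[l]) (ρ l) ⊤ inferInstance
  have hmult : ((ρ l σ).1.map (algebraMap ℚ_[l] (AlgebraicClosure ℚ_[l])))ᵀ *
      ψ.map (algebraMap ℚ (AlgebraicClosure ℚ_[l])) * (ρ l σ).1.map (algebraMap ℚ_[l] (AlgebraicClosure ℚ_[l])) =
      algebraMap ℚ (AlgebraicClosure ℚ_[l]) q • ψ.map (algebraMap ℚ (AlgebraicClosure ℚ_[l])) := by
    have h1 := congrArg (fun m : Matrix ι ι ℚ_[l] => m.map (algebraMap ℚ_[l] (AlgebraicClosure ℚ_[l]))) (C.mult l hl)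
    have h2 : (ψ.map (algebraMap ℚ ℚ_[l])).map (algebraMap ℚ_[l] (AlgebraicClosure ℚ_[l])) =
        ψ.map (algebraMap ℚ (AlgebraicClosure ℚ_[l])) := by
      ext i j
      simp
    have h3 : (algebraMap ℚ ℚ_[l] q • ψ.map (algebraMap ℚ ℚ_[l])).map
        (algebraMap ℚ_[l] (AlgebraicClosure ℚ_[l])) =
        algebraMap ℚ (AlgebraicClosure ℚ_[l]) q • ψ.map (algebraMap ℚ (AlgebraicClosure ℚ_[l])) := by
      ext i j
      simp
    simp only [Matrix.map_mul] at h1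
    rw [h2, h3, Matrix.transpose_map] at h1
    exact h1
  have hc := C.card b ha hroot
  obtain ⟨U, V, hL⟩ := mk_loc C.hψ C.hψ0 D (ρ l) (C.lin l) (C.sim l) (C.semis l) (C.commt l) (C.gen l) C.hspl
    (C.frob l hl) (C.gen l σ) hmult hfin hprime j i b (fun h hh => by rw [C.bal l h hh (i.comp j) b, hc]) ha hroot (fun k l N hN h =>
      ha (C.tor b ((hroot _).2 ⟨k, rfl⟩) ((hroot _).2 ⟨l, rfl⟩) hN h))
  exact ⟨H₀, U, V, hfin, hL⟩

end Pool.Agent.H76Y
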