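import Pool.Agent.Lib.H76Q.Q6
import Pool.Agent.Lib.H76Q.X7
import Pool.Agent.Lib.H76Q.X8
import Pool.Agent.Lib.H76Y.X9
import Pool.Agent.Lib.H76Y.A1
import Pool.Agent.Lib.H76Q.E6
import Pool.Agent.Lib.H76Y.A8
import Pool.Agent.Lib.H76Y.W13a
import Pool.Agent.Lib.H76Y.W2
import Pool.Agent.Lib.H76Y.Y0

/-!
# no block is exchanged with its complement
-/

set_option autoImplicit false
set_option linter.unusedSectionVars false
namespace Pool.Agent.H76Y
open Pool.Agent.H76P Pool.Agent.H76V Pool.Agent.H76Q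
open Module Matrix Polynomial TensorProduct Pool.Agent.H53Toric
open Pool.Agent.H76P
open Pool.Agent.H76T (IsIdeal Fam Lc)
open Pool.Agent.H76U (cmp preL IsSplitting)
open Pool.Agent.H76RM (spanK similD)

variable {ι : Type*} [Fintype ι] [DecidableEq ι] {ψ : Matrix ι ι ℚ}
    {D : Subalgebra ℚ (Matrix ι ι ℚ)} {M : Type*} [Field M] [NumberField M]
    {m : ℕ} {bar : Fin m → Fin m} {e : Fin m → Matrix ι ι M} {G : Type*} [Group G]
    {ρ : ∀ (l : ℕ) [Fact l.Prime], G →* Matrix.GeneralLinearGroup ι ℚ_[l]}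
    {p : ℕ} [Fact p.Prime] {σ : G} {q : ℚ} {F : Fin m → M[X]}
    {φ μ ν : Matrix ι ι (AlgebraicClosure ℚ_[p])} {v : AlgebraicClosure ℚ_[p] → ℚ}
    {Δ : Set (AlgebraicClosure ℚ_[p] ≃+* AlgebraicClosure ℚ_[p])}
    {Ω : Type*} [Field Ω] [CharZero Ω] [IsAlgClosed Ω] [Algebra.IsAlgebraic ℚ Ω] {j : M →+* Ω}
    {R : Finset Ω} {N : Set ℕ} (C : Core3 ψ D bar e ρ p σ q F φ μ ν v Δ j R N)

include C

/-- The local data of the first kind for a component which is its own conjugate. -/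
theorem Core3.locl_old (b : Fin m) (hb : bar b = b)
    {n : ℕ} {a : Fin n → Ω} (ha : Function.Injective a)
    (hroot : ∀ y : Ω, (F b).eval₂ j y = 0 ↔ ∃ k, y = a k)
    (l : ℕ) [Fact l.Prime] (hl : l ≠ p) (i : Ω →+* AlgebraicClosure ℚ_[l]) :
    ∃ (H₀ : Subgroup G) (U : Matrix ι (Fin n) (AlgebraicClosure ℚ_[l]))
      (V : Matrix (Fin n) ι (AlgebraicClosure ℚ_[l])), H₀.FiniteIndex ∧
      H76Q.Loc (ψ.map (algebraMap ℚ (AlgebraicClosure ℚ_[l]))) (img (AlgebraicClosure ℚ_[l]) (ρ l) H₀)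
        (properProj (AlgebraicClosure ℚ_[l]) (ρ l)) ((e b).map (i.comp j))
        ((ρ l σ).1.map (algebraMap ℚ_[l] (AlgebraicClosure ℚ_[l])))
        (algebraMap ℚ (AlgebraicClosure ℚ_[l]) q) U V (fun k => i (a k)) (YS a) := by
  obtain ⟨H₀, -, hfin, hprime⟩ := H76RM.exists_prime (K := AlgebraicClosure ℚ_[l]) (ρ l) ⊤ inferInstance
  have hmult : ((ρ l σ).1.map (algebraMap ℚ_[l] (AlgebraicClosure ℚ_[l])))ᵀ *
      ψ.map (algebraMap ℚ (AlgebraicClosure ℚ_[l])) * (ρ l σ).1.map (algebraMap ℚ_[l] (AlgebraicClosure ℚ_[l])) =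
      algebraMap ℚ (AlgebraicClosure ℚ_[l]) q • ψ.map (algebraMap ℚ (AlgebraicClosure ℚ_[l])) := by
    have h1 := congrArg (fun m : Matrix ι ι ℚ_[l] => m.map (algebraMap ℚ_[l] (AlgebraicClosure ℚ_[l]))) (C.mult l hl)
    have h2 : (ψ.map (algebraMap ℚ ℚ_[l])).map (algebraMap ℚ_[l] (AlgebraicClosure ℚ_[l])) =
        ψ.map (algebraMap ℚ (AlgebraicClosure ℚ_[l])) := by
      ext i j
      simp
    have h3 : (algebraMap ℚ ℚ_[l] q • ψ.map (algebraMap ℚ ℚ_[l])).map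
        (algebraMap ℚ_[l] (AlgebraicClosure ℚ_[l])) =
        algebraMap ℚ (AlgebraicClosure ℚ_[l]) q • ψ.map (algebraMap ℚ (AlgebraicClosure ℚ_[l])) := by
      ext i j
      simp
    simp only [Matrix.map_mul] at h1
    rw [h2, h3, Matrix.transpose_map] at h1
    exact h1
  obtain ⟨U, V, hL⟩ := mk_loc_old C.hψ C.hψ0 D (ρ l) (C.lin l) (C.sim l) (C.semis l) (C.commt l) (C.gen l) C.hspl
    (C.frob l hl) hmult hfin hprime j i b hb ha hroot (fun k l N hN h =>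
      ha (C.tor b ((hroot _).2 ⟨k, rfl⟩) ((hroot _).2 ⟨l, rfl⟩) hN h))
  exact ⟨H₀, U, V, hfin, hL⟩

/-- PROOF. `Loc` at `(l, i)` from `C.locl`; `τ = t.toRingEquiv`; `(e b).map (i.comp j)` is `e` of X8, its image under `τ` is `(e b).map (i.comp (s.toRingHom.comp j))` (`ht2`); `Pr.map i hpr` gives `a`, `a'`; they commute with `ρ_l` and with `zlie S` (`C.lin`, elements of `zlie` commute with what
commutes with `S`: `zlie_commute`), `hja` is `C.pr_form`.  `x`, `J`, `S` are fixed by `τ` (`H76Q.e6_fix`).  `exists_theta'` gives `θ` for `π` (`ht1`, `hπ`: `τ (i (a k)) = i (a (π k))`).  `no_swap` with `P = z`, `Y = YS a` (`hloc.ts`, `hloc.yo`, `hG` for `Comp`; note `n > 0`: `hloc.pos`) is the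
contradiction. -/
theorem Core3.no_half (b : Fin m) (hb : bar b = b) {n : ℕ} {a : Fin n → Ω} (ha : Function.Injective a)
    (hroot : ∀ y : Ω, (F b).eval₂ j y = 0 ↔ ∃ k, y = a k) {z : Module.End ℚ (YS a)}
    (hz : Sp z) (hG : ∀ (K : Type) [Field K] [CharZero K] [IsAlgClosed K]
      (L : Submodule K (Module.End K (Fin n → K))) (J : Matrix (Fin n) (Fin n) K),
      H76Q.TS L J → Yo L = YS a → Comp L z) {s : Ω ≃+* Ω}
    (hpr : Pr D ((e b).map j) ((e b).map (s.toRingHom.comp j)))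
    {π : Equiv.Perm (Fin n)} (hπ : ∀ k, s (a k) = a (π k)) (hmv : MvP π z (1 - z))
    (l : ℕ) [Fact l.Prime] (hl : l ≠ p) (i : Ω →+* AlgebraicClosure ℚ_[l])
    (t : AlgebraicClosure ℚ_[l] ≃ₐ[ℚ_[l]] AlgebraicClosure ℚ_[l])
    (ht1 : ∀ k, t (i (a k)) = i (s (a k))) (ht2 : ∀ c : M, t (i (j c)) = i (s (j c))) : False := by
  classical
  have hSp := hz
  obtain ⟨H₀, U, V, hfin, hloc⟩ := C.locl_old b hb ha hroot l hl i
  have hne : Nonempty (Fin n) := ⟨⟨0, hloc.pos⟩⟩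
  obtain ⟨a₁, ha₁, a', ha', h1, h2, h3, h4, h5, h6⟩ := hpr.map i
  have e1 : ((e b).map j).map i = (e b).map (i.comp j) := by
    ext x y
    rfl
  have e2 : ((e b).map (s.toRingHom.comp j)).map i = (e b).map (i.comp (s.toRingHom.comp j)) := by
    ext x y
    rfl
  have e3 : (e b).map (i.comp (s.toRingHom.comp j)) = ((e b).map (i.comp j)).map t.toRingEquiv := by
    ext x y
    exact (ht2 _).symm
  rw [e1] at h2 h3 h6
  rw [e2] at h1 h4 h5
  obtain ⟨c, hc⟩ := C.pr_form l b hb (i.comp j) (i.comp (s.toRingHom.comp j)) ha' h3 h4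
  rw [e3] at h1 h4 h5 hc
  have hlinS : ∀ y ∈ spanK (AlgebraicClosure ℚ_[l]) D, ∀ g : G,
      (ρ l g).1.map (algebraMap ℚ_[l] (AlgebraicClosure ℚ_[l])) * y =
        y * (ρ l g).1.map (algebraMap ℚ_[l] (AlgebraicClosure ℚ_[l])) := by
    intro y hy g
    refine Submodule.span_induction (p := fun y _ => (ρ l g).1.map (algebraMap ℚ_[l] (AlgebraicClosure ℚ_[l])) * y =
        y * (ρ l g).1.map (algebraMap ℚ_[l] (AlgebraicClosure ℚ_[l]))) ?_ ?_ ?_ ?_ hy
    · rintro _ ⟨d, hd, rfl⟩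
      have h7 := congrArg (fun m : Matrix ι ι ℚ_[l] => m.map (algebraMap ℚ_[l] (AlgebraicClosure ℚ_[l]))) (C.lin l g d hd)
      have h8 : (d.map (algebraMap ℚ ℚ_[l])).map (algebraMap ℚ_[l] (AlgebraicClosure ℚ_[l])) =
          d.map (algebraMap ℚ (AlgebraicClosure ℚ_[l])) := by
        ext i j
        simp
      simp only [Matrix.map_mul] at h7
      rw [h8] at h7
      exact h7
    · rw [Matrix.mul_zero, Matrix.zero_mul]
    · intro y y' _ _ h7 h8
      rw [Matrix.mul_add, Matrix.add_mul, h7, h8]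
    · intro c y _ h7
      rw [Matrix.mul_smul, Matrix.smul_mul, h7]
  have hz : ∀ y ∈ spanK (AlgebraicClosure ℚ_[l]) D, ∀ A ∈ zlie (img (AlgebraicClosure ℚ_[l]) (ρ l) H₀), y * A = A * y := by
    intro y hy A hA
    refine (H76RM.zlie_commute (img_one (ρ l) H₀) ?_ hA).symm
    rintro _ ⟨g, -, rfl⟩
    exact hlinS y hy g
  obtain ⟨θ, hθ⟩ := H76Q.exists_theta' hloc (τ := t.toRingEquiv) h1 h2 h3 h4 h5 h6 (hlinS a' ha' σ) (hz a₁ ha₁) (hz a' ha') hc
    (H76Q.e6_fix t _) (by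
      ext x y
      show t (algebraMap ℚ (AlgebraicClosure ℚ_[l]) (ψ x y)) = algebraMap ℚ (AlgebraicClosure ℚ_[l]) (ψ x y)
      rw [IsScalarTower.algebraMap_apply ℚ ℚ_[l] (AlgebraicClosure ℚ_[l]), t.commutes]) (fun x hx => by
      obtain ⟨g, -, rfl⟩ := hx
      exact H76Q.e6_fix t _) (σ := π) (fun k => by
      show t (i (a k)) = i (a (π k))
      rw [ht1, hπ])
  exact H76Q.no_swap hloc.ts hloc.yo hSp (hG _ _ _ hloc.ts hloc.yo) hθ hmv

end Pool.Agent.H76Y
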