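import Pool.Agent.Lib.H76Q.Q3
import Pool.Agent.Lib.H76Y.A1
import Pool.Agent.Lib.H76Y.C3
import Pool.Agent.Lib.H76Y.Y0

/-!
# the Hodge-Tate projector
-/

set_option autoImplicit false
set_option linter.unusedSectionVars false
namespace Pool.Agent.H76Y
open Pool.Agent.H76P Pool.Agent.H76V Pool.Agent.H76Q
open Module Matrix Polynomial Pool.Agent.H53Toric
open Pool.Agent.H76P
open Pool.Agent.H76T (IsIdeal Fam Lc)
open Pool.Agent.H76U (cmp preL IsSplitting)
open Pool.Agent.H76RM (spanK similD)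

variable {ι : Type*} [Fintype ι] [DecidableEq ι] {K : Type*} [Field K] [CharZero K]
  [IsAlgClosed K]

/-- The signs of the projector `μ` on the eigenvectors of `x` on the range of `e`. -/
def IsHT (μ x e : Matrix ι ι K) {n : ℕ} (d : Fin n → K) (ε : Fin n → ℚ) : Prop :=
  ∀ k, (ε k = 1 ∧ ∃ z : ι → K, z ≠ 0 ∧ e *ᵥ z = z ∧ x *ᵥ z = d k • z ∧ μ *ᵥ z = z) ∨
    (ε k = -1 ∧ ∃ z : ι → K, z ≠ 0 ∧ e *ᵥ z = z ∧ x *ᵥ z = d k • z ∧ μ *ᵥ z = 0)

/-- the compression of `μ` is diagonal with entries `0` and `1` -/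
theorem f3_diag {ct : Prop} {J : Matrix ι ι K} {S 𝓗 : Set (Matrix ι ι K)} {e x : Matrix ι ι K} {q : K}
    {n : ℕ} {U : Matrix ι (Fin n) K} {V : Matrix (Fin n) ι K} {d : Fin n → K}
    {Y : Submodule ℚ (Fin n → ℚ)} (h : LocN ct J S 𝓗 e x q U V d Y) {μ : Matrix ι ι K} (hμ : μ ∈ 𝓗)
    (hμx : μ * x = x * μ) : ∃ f : Fin n → K, cmp U V μ = Matrix.diagonal f ∧
      ∀ k, f k = 0 ∨ f k = 1 := by
  obtain ⟨hmm, hme, _, _⟩ := h.par μ hμ
  have hUM := Pool.Agent.H76U.P_cmp h.UV h.VU hme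
  have hxU := h.ec.eig
  set M := cmp U V μ with hM
  have hcomm : Matrix.diagonal d * M = M * Matrix.diagonal d := by
    have h1 : U * (Matrix.diagonal d * M) = U * (M * Matrix.diagonal d) := by
      calc U * (Matrix.diagonal d * M) = (U * Matrix.diagonal d) * M := (Matrix.mul_assoc _ _ _).symm
        _ = (x * U) * M := by rw [hxU]
        _ = x * (U * M) := Matrix.mul_assoc _ _ _
        _ = x * (μ * U) := by rw [hUM]
        _ = (x * μ) * U := (Matrix.mul_assoc _ _ _).symm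
        _ = (μ * x) * U := by rw [hμx]
        _ = μ * (x * U) := Matrix.mul_assoc _ _ _
        _ = μ * (U * Matrix.diagonal d) := by rw [hxU]
        _ = (μ * U) * Matrix.diagonal d := (Matrix.mul_assoc _ _ _).symm
        _ = (U * M) * Matrix.diagonal d := by rw [hUM]
        _ = U * (M * Matrix.diagonal d) := Matrix.mul_assoc _ _ _
    have h2 := congrArg (fun A => V * A) h1
    simp only [← Matrix.mul_assoc V U, h.VU, Matrix.one_mul] at h2
    exact h2
  have hdiag : M = Matrix.diagonal fun k => M k k := by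
    ext i j
    by_cases hij : i = j
    · subst hij
      rw [Matrix.diagonal_apply_eq]
    · rw [Matrix.diagonal_apply_ne _ hij]
      have h1 := congrFun (congrFun hcomm i) j
      rw [Matrix.diagonal_mul, Matrix.mul_diagonal] at h1
      have h2 : (d i - d j) * M i j = 0 := by
        rw [sub_mul, h1]
        ring
      rcases mul_eq_zero.1 h2 with h3 | h3
      · exact absurd (h.ec.inj (sub_eq_zero.1 h3)) hij
      · exact h3
  refine ⟨fun k => M k k, hdiag, ?_⟩
  intro k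
  have h1 := Pool.Agent.H76U.cmp_mul h.UV h.VU (A := μ) (C := μ) hme
  rw [hmm, ← hM, hdiag, Matrix.diagonal_mul_diagonal] at h1
  have h2 := congrFun (congrFun h1 k) k
  rw [Matrix.diagonal_apply_eq, Matrix.diagonal_apply_eq] at h2
  have h3 : M k k * (M k k - 1) = 0 := by rw [mul_sub, mul_one, ← h2, sub_self]
  rcases mul_eq_zero.1 h3 with h4 | h4
  · exact Or.inl h4
  · exact Or.inr (sub_eq_zero.1 h4)

/-- `μ` acts on an eigenvector of `x` in the range of `e` by the entry of the compression -/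
theorem f3_act {ct : Prop} {J : Matrix ι ι K} {S 𝓗 : Set (Matrix ι ι K)} {e x : Matrix ι ι K} {q : K}
    {n : ℕ} {U : Matrix ι (Fin n) K} {V : Matrix (Fin n) ι K} {d : Fin n → K}
    {Y : Submodule ℚ (Fin n → ℚ)} (h : LocN ct J S 𝓗 e x q U V d Y) {μ : Matrix ι ι K} (hμ : μ ∈ 𝓗)
    {f : Fin n → K} (hf : cmp U V μ = Matrix.diagonal f) {k : Fin n} {z : ι → K}
    (hez : e *ᵥ z = z) (hxz : x *ᵥ z = d k • z) : μ *ᵥ z = f k • z := by
  obtain ⟨hmm, hme, _, _⟩ := h.par μ hμ
  have hUM := Pool.Agent.H76U.P_cmp h.UV h.VU hme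
  rw [hf] at hUM
  have hxU := h.ec.eig
  set w : Fin n → K := V *ᵥ z with hw
  have hzw : z = U *ᵥ w := by
    rw [hw, Matrix.mulVec_mulVec, ← h.UV, hez]
  have hVU : ∀ y : Fin n → K, V *ᵥ (U *ᵥ y) = y := by
    intro y
    rw [Matrix.mulVec_mulVec, h.VU, Matrix.one_mulVec]
  have h1 : Matrix.diagonal d *ᵥ w = d k • w := by
    have h2 : U *ᵥ (Matrix.diagonal d *ᵥ w) = U *ᵥ (d k • w) := by
      rw [Matrix.mulVec_mulVec, ← hxU, ← Matrix.mulVec_mulVec, ← hzw, hxz, Matrix.mulVec_smul, ← hzw]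
    have h3 := congrArg (fun y => V *ᵥ y) h2
    simp only [hVU] at h3
    exact h3
  have hw0 : ∀ l, l ≠ k → w l = 0 := by
    intro l hl
    have h2 := congrFun h1 l
    rw [Matrix.mulVec_diagonal, Pi.smul_apply, smul_eq_mul] at h2
    have h3 : (d l - d k) * w l = 0 := by
      rw [sub_mul, h2, sub_self]
    rcases mul_eq_zero.1 h3 with h4 | h4
    · exact absurd (h.ec.inj (sub_eq_zero.1 h4)) hl
    · exact h4
  have h4 : Matrix.diagonal f *ᵥ w = f k • w := by
    funext l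
    rw [Matrix.mulVec_diagonal, Pi.smul_apply, smul_eq_mul]
    by_cases hl : l = k
    · rw [hl]
    · rw [hw0 l hl, mul_zero, mul_zero]
  rw [hzw, Matrix.mulVec_mulVec, ← hUM, ← Matrix.mulVec_mulVec, h4, Matrix.mulVec_smul]

/-- PROOF. The columns of `U` are eigenvectors of `x` with different eigenvalues; `μ` commutes with `x` and `e`, so it maps the column `k` to a multiple, by `0` or `1`. -/
theorem exists_HT {ct : Prop} {J : Matrix ι ι K} {S 𝓗 : Set (Matrix ι ι K)} {e x : Matrix ι ι K} {q : K}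
    {n : ℕ} {U : Matrix ι (Fin n) K} {V : Matrix (Fin n) ι K} {d : Fin n → K}
    {Y : Submodule ℚ (Fin n → ℚ)} (h : LocN ct J S 𝓗 e x q U V d Y) {μ : Matrix ι ι K} (hμ : μ ∈ 𝓗)
    (hμx : μ * x = x * μ) : ∃ ε, IsHT μ x e d ε := by
  classical
  obtain ⟨f, hf, hf01⟩ := f3_diag h hμ hμx
  refine ⟨fun k => if f k = 1 then 1 else -1, ?_⟩
  intro k
  set z : ι → K := U *ᵥ (Pi.single k 1) with hz
  have hVU : V *ᵥ z = Pi.single k 1 := by
    rw [hz, Matrix.mulVec_mulVec, h.VU, Matrix.one_mulVec]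
  have hz0 : z ≠ 0 := by
    intro h0
    rw [h0, Matrix.mulVec_zero] at hVU
    have := congrFun hVU k
    rw [Pi.single_eq_same] at this
    exact zero_ne_one this
  have hez : e *ᵥ z = z := by
    rw [h.UV, ← Matrix.mulVec_mulVec, hVU]
  have hxz : x *ᵥ z = d k • z := by
    rw [hz, Matrix.mulVec_mulVec, h.ec.eig, ← Matrix.mulVec_mulVec, ← Matrix.mulVec_smul]
    congr 1
    funext l
    rw [Matrix.mulVec_diagonal, Pi.smul_apply, smul_eq_mul]
    by_cases hl : l = k
    · rw [hl]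
    · rw [Pi.single_eq_of_ne hl, mul_zero, mul_zero]
  have hact := f3_act h hμ hf hez hxz
  rcases hf01 k with h0 | h1
  · right
    refine ⟨?_, z, hz0, hez, hxz, ?_⟩
    · show (if f k = 1 then (1 : ℚ) else -1) = -1
      rw [h0, if_neg zero_ne_one]
    · rw [hact, h0, zero_smul]
  · left
    refine ⟨?_, z, hz0, hez, hxz, ?_⟩
    · show (if f k = 1 then (1 : ℚ) else -1) = 1
      rw [if_pos h1]
    · rw [hact, h1, one_smul]

/-- PROOF. See `H76P.eps_mem`: `cmp U V μ` is the diagonal matrix with entries `(1 + ε k) / 2`: an eigenvector of `x` in the range of `e` with eigenvalue `d k` is a multiple of the column `k` of `U`. -/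
theorem HT_spec {ct : Prop} {J : Matrix ι ι K} {S 𝓗 : Set (Matrix ι ι K)} {e x : Matrix ι ι K} {q : K}
    {n : ℕ} {U : Matrix ι (Fin n) K} {V : Matrix (Fin n) ι K} {d : Fin n → K}
    {Y : Submodule ℚ (Fin n → ℚ)} (h : LocN ct J S 𝓗 e x q U V d Y) {μ : Matrix ι ι K} (hμ : μ ∈ 𝓗)
    (hμx : μ * x = x * μ) {ε : Fin n → ℚ} (hε : IsHT μ x e d ε) :
    phi (cmp U V ((2 : K) • μ - 1)) = dq ε ∧ ε ∈ Y ∧ (∀ k, ε k = 1 ∨ ε k = -1) := by
  obtain ⟨f, hf, hf01⟩ := f3_diag h hμ hμx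
  have hfe : ∀ k, 2 * f k - 1 = (ε k : K) := by
    intro k
    rcases hε k with ⟨h1, z, hz0, hez, hxz, hμz⟩ | ⟨h1, z, hz0, hez, hxz, hμz⟩
    · have hact := f3_act h hμ hf hez hxz
      rw [hμz] at hact
      have h2 : f k = 1 := by
        rcases hf01 k with h0 | h0
        · rw [h0, zero_smul] at hact
          exact absurd hact hz0
        · exact h0
      rw [h1, h2]
      norm_num
    · have hact := f3_act h hμ hf hez hxz
      rw [hμz] at hact
      have h2 : f k = 0 := by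
        rcases smul_eq_zero.1 hact.symm with h0 | h0
        · exact h0
        · exact absurd h0 hz0
      rw [h1, h2]
      norm_num
  have h1 : cmp U V ((2 : K) • μ - 1) = Matrix.diagonal (fun k => 2 * f k - 1) := by
    rw [map_sub, map_smul, Pool.Agent.H76U.cmp_one h.UV h.VU, hf]
    ext i j
    by_cases hij : i = j
    · subst hij
      simp
    · simp [Matrix.diagonal_apply_ne _ hij, Matrix.one_apply_ne hij]
  have hval : phi (cmp U V ((2 : K) • μ - 1)) = dq ε := by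
    rw [h1, phi_diag]
    unfold dq
    congr 1
    ext k
    exact hfe k
  refine ⟨hval, ?_, ?_⟩
  · have h2 := (h.par μ hμ).2.2.2
    rw [hval] at h2
    have h3 := h.ts.diag ε h2
    rw [h.yo] at h3
    exact h3
  · intro k
    rcases hε k with ⟨h1, _⟩ | ⟨h1, _⟩
    · exact Or.inl h1
    · exact Or.inr h1

/-- PROOF. `dq ε ∈ L`, `dq ε * dq ε = 1`: `inv_AZ` (C3): `dq ε` is in an ideal with `InP P` or `InP (1 - P)`. -/
theorem HT_or {ct : Prop} {J : Matrix ι ι K} {S 𝓗 : Set (Matrix ι ι K)} {e x : Matrix ι ι K} {q : K}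
    {n : ℕ} {U : Matrix ι (Fin n) K} {V : Matrix (Fin n) ι K} {d : Fin n → K}
    {Y : Submodule ℚ (Fin n → ℚ)} (h : LocN ct J S 𝓗 e x q U V d Y) {μ : Matrix ι ι K} (hμ : μ ∈ 𝓗)
    (hμx : μ * x = x * μ) {ε : Fin n → ℚ} (hε : IsHT μ x e d ε) {P : Module.End ℚ Y}
    (hc : Comp (LcN J S U V) P) : FunP P ε ∨ FunP (1 - P) ε := by
  have : Nonempty (Fin n) := ⟨⟨0, h.pos⟩⟩
  obtain ⟨hval, hY, h01⟩ := HT_spec h hμ hμx hε
  have hL := (h.par μ hμ).2.2.2
  rw [hval] at hL
  have hsq : (dq ε : Module.End K (Fin n → K)) * dq ε = 1 := by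
    unfold dq
    rw [dg_mul, ← dg_one]
    congr 1
    funext k
    rw [Pi.mul_apply, Pi.one_apply]
    rcases h01 k with h1 | h1
    · rw [h1]
      norm_num
    · rw [h1]
      norm_num
  obtain ⟨I, _, hI, hor⟩ := inv_AZ h.ts hc hL hsq
  rcases hor with h1 | h1
  · exact Or.inl (h1 ε hY hI)
  · exact Or.inr (h1 ε hY hI)

end Pool.Agent.H76Y
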