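import Pool.Agent.Lib.H76Q.B2
import Pool.Agent.Lib.H76Q.Q6
import Pool.Agent.Lib.H76Y.A1
import Pool.Agent.Lib.H76Y.C3
import Pool.Agent.Lib.H76Y.W2
import Pool.Agent.Lib.H76Y.F3
import Pool.Agent.Lib.H76Y.Y0

/-!
# the Newton function
-/

set_option autoImplicit false
set_option linter.unusedSectionVars false
namespace Pool.Agent.H76Y
open Pool.Agent.H76P Pool.Agent.H76V Pool.Agent.H76Q
open Module Matrix Polynomial Pool.Agent.H53Toric
open Pool.Agent.H76P
open Pool.Agent.H76T (IsIdeal Fam Lc)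
open Pool.Agent.H76U (cmp preL IsSplitting)
open Pool.Agent.H76RM (spanK similD)

variable {ι : Type*} [Fintype ι] [DecidableEq ι] {ψ : Matrix ι ι ℚ}
    {D : Subalgebra ℚ (Matrix ι ι ℚ)} {M : Type*} [Field M] [NumberField M]
    {m : ℕ} {bar : Fin m → Fin m} {e : Fin m → Matrix ι ι M} {G : Type*} [Group G]
    {ρ : ∀ (l : ℕ) [Fact l.Prime], G →* Matrix.GeneralLinearGroup ι ℚ_[l]}
    {p : ℕ} [Fact p.Prime] {σ : G} {q : ℚ} {F : Fin m → M[X]}
    {φ μ ν : Matrix ι ι (AlgebraicClosure ℚ_[p])} {v : AlgebraicClosure ℚ_[p] → ℚ}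
    {Δ : Set (AlgebraicClosure ℚ_[p] ≃+* AlgebraicClosure ℚ_[p])}
    {Ω : Type*} [Field Ω] [CharZero Ω] [IsAlgClosed Ω] [Algebra.IsAlgebraic ℚ Ω] {j : M →+* Ω}
    {R : Finset Ω} {N : Set ℕ} (C : Core3 ψ D bar e ρ p σ q F φ μ ν v Δ j R N)

include C

/-- PROOF. `Core3.locp`.  `dq ε` is in an ideal `I` of `L = LcN J S U V` with `InP P I` or `InP (1 - P) I` (`inv_AZ`, `HT_spec`); the first is impossible (`ε` would be constant, `FunP_both`).  As in `H76P.vid_mem` (G8): the space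
`{A | A commutes with e and phi (cmp U V A) ∈ I}` or `{U X V : X ∈ I}` is `adStable`, contains `(2 μ - 1) e`, so (`C.crys.newton`) `(ν - c) e`, so `dq (fun k => v (d k) - c) ∈ I` (`C.crys.nu`); `c` is the average
(trace zero) and rational; so this function is in `Y` (`h.ts.diag`) and depends only on the second coordinate. -/
theorem Core3.newt (b : Fin m)
    {n : ℕ} {a : Fin n → Ω} (ha : Function.Injective a)
    (hroot : ∀ y : Ω, (F b).eval₂ j y = 0 ↔ ∃ k, y = a k)
    {P : Module.End ℚ (YS a)} (hP : Sp P) (hg : GoodN (bar b = b) P) (i : Ω →+* AlgebraicClosure ℚ_[p])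
    {ε : Fin n → ℚ} (hε : IsHT μ φ ((e b).map (i.comp j)) (fun k => i (a k)) ε)
    (hεP : FunP (1 - P) ε) : FunP (1 - P) (fun k => v (i (a k))) := by
  obtain ⟨H₀, U, V, hfin, h⟩ := C.locp b ha hroot i
  have hμ := C.crys.mu
  have hμφ := C.crys.muphi
  obtain ⟨hphi, hεY, hε1⟩ := HT_spec h hμ hμφ hε
  obtain ⟨hμμ, hμe, -, hμL⟩ := h.par μ hμ
  have : Nonempty (Fin n) := ⟨⟨0, h.pos⟩⟩
  have hc : Comp (LcN (ψ.map (algebraMap ℚ (AlgebraicClosure ℚ_[p])))
      (img (AlgebraicClosure ℚ_[p]) (ρ p) H₀) U V) P := hg _ _ h.ts h.cls h.yo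
  rw [hphi] at hμL
  have hsq : (dq ε : Module.End (AlgebraicClosure ℚ_[p]) (Fin n → AlgebraicClosure ℚ_[p])) * dq ε
      = 1 := by
    unfold dq
    rw [dg_mul, ← dg_one]
    congr 1
    funext k
    rcases hε1 k with h1 | h1 <;> simp [h1]
  obtain ⟨I, hI, hεI, hIP⟩ := inv_AZ h.ts hc hμL hsq
  have hIP' : InP (1 - P) I := by
    rcases hIP with h1 | h1
    · exfalso
      have h2 : ε = 0 := FunP_both hP hεY.1 (h1 ε hεY hεI) hεP
      have h3 := hε1 ⟨0, h.pos⟩
      rw [h2] at h3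
      rcases h3 with h3 | h3 <;> simp at h3
    · exact h1
  set E := (e b).map (i.comp j) with hE
  have hEE : E * E = E := by
    rw [h.UV]
    calc U * V * (U * V) = U * (V * U) * V := by simp only [Matrix.mul_assoc]
      _ = U * V := by rw [h.VU, Matrix.mul_one]
  have heU : E * U = U := by rw [h.UV, Matrix.mul_assoc, h.VU, Matrix.mul_one]
  let I' : Submodule (AlgebraicClosure ℚ_[p]) (Matrix ι ι (AlgebraicClosure ℚ_[p])) :=
    { carrier := {A | A * E = A ∧ E * A = A ∧ phi (cmp U V A) ∈ I}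
      add_mem' := by
        rintro A A' ⟨h1, h2, h3⟩ ⟨h4, h5, h6⟩
        refine ⟨by rw [Matrix.add_mul, h1, h4], by rw [Matrix.mul_add, h2, h5], ?_⟩
        rw [map_add, map_add]
        exact I.add_mem h3 h6
      zero_mem' := by
        refine ⟨Matrix.zero_mul _, Matrix.mul_zero _, ?_⟩
        rw [map_zero, map_zero]
        exact I.zero_mem
      smul_mem' := by
        rintro c A ⟨h1, h2, h3⟩
        refine ⟨by rw [Matrix.smul_mul, h1], by rw [Matrix.mul_smul, h2], ?_⟩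
        rw [map_smul, map_smul]
        exact I.smul_mem _ h3 }
  have hmem : ∀ A, A ∈ I' ↔ A * E = A ∧ E * A = A ∧ phi (cmp U V A) ∈ I := fun A => Iff.rfl
  have hstab : adStable (zlie (img (AlgebraicClosure ℚ_[p]) (ρ p) H₀)) I' := by
    intro Z hZ A hA
    obtain ⟨h1, h2, h3⟩ := (hmem A).1 hA
    obtain ⟨hCe, c, hc⟩ := h.lie Z hZ
    rw [hmem]
    refine ⟨?_, ?_, ?_⟩
    · rw [Matrix.sub_mul, Matrix.mul_assoc, h1, Matrix.mul_assoc, hCe, ← Matrix.mul_assoc, h1]
    · rw [Matrix.mul_sub, ← Matrix.mul_assoc, ← Matrix.mul_assoc, h2, ← hCe, Matrix.mul_assoc, h2]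
    · have hC' : (Z - c • 1) * E = E * (Z - c • 1) := by
        rw [Matrix.sub_mul, Matrix.mul_sub, hCe, Matrix.smul_mul, Matrix.mul_smul, Matrix.one_mul,
          Matrix.mul_one]
      have hA' : A * E = E * A := by rw [h1, h2]
      have e1 : Z * A - A * Z = (Z - c • 1) * A - A * (Z - c • 1) := by
        rw [Matrix.sub_mul, Matrix.mul_sub, Matrix.smul_mul, Matrix.mul_smul, Matrix.one_mul,
          Matrix.mul_one]
        abel
      rw [e1, map_sub, H76U.cmp_mul h.UV h.VU hA', H76U.cmp_mul h.UV h.VU hC', map_sub, map_mul,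
        map_mul]
      exact hI.2 _ hc _ h3
  have hbase : ((2 : AlgebraicClosure ℚ_[p]) • μ - 1) * E ∈ I' := by
    have hye : ((2 : AlgebraicClosure ℚ_[p]) • μ - 1) * E =
        E * ((2 : AlgebraicClosure ℚ_[p]) • μ - 1) := by
      rw [Matrix.sub_mul, Matrix.mul_sub, Matrix.smul_mul, Matrix.mul_smul, Matrix.one_mul,
        Matrix.mul_one, hμe]
    rw [hmem]
    refine ⟨by rw [Matrix.mul_assoc, hEE], by rw [← Matrix.mul_assoc, ← hye, Matrix.mul_assoc, hEE], ?_⟩
    have e2 : cmp U V (((2 : AlgebraicClosure ℚ_[p]) • μ - 1) * E) =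
        cmp U V ((2 : AlgebraicClosure ℚ_[p]) • μ - 1) := by
      rw [H76U.cmp_apply, H76U.cmp_apply]
      rw [← Matrix.mul_assoc V, Matrix.mul_assoc _ E U, heU]
    rw [e2, hphi]
    exact hεI
  obtain ⟨c, hc⟩ := C.crys.newton (i.comp j) b H₀ hfin I' hstab hbase
  have hc2 := ((hmem _).1 hc).2.2
  have hν : ν * U = U * Matrix.diagonal (fun k => (v (i (a k)) : AlgebraicClosure ℚ_[p])) := by
    ext x k
    have h1 : φ *ᵥ (fun x => U x k) = (i (a k)) • (fun x => U x k) := by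
      have h2 := h.ec.eig
      funext y
      have h3 := congrFun (congrFun h2 y) k
      rw [Matrix.mul_diagonal] at h3
      rw [Pi.smul_apply, smul_eq_mul, mul_comm, ← h3]
      rfl
    have h2 := congrFun (C.crys.nu _ _ h1) x
    rw [Matrix.mul_diagonal, mul_comm]
    exact h2
  have e3 : cmp U V ((ν - c • 1) * E) =
      Matrix.diagonal (fun k => (v (i (a k)) : AlgebraicClosure ℚ_[p]) - c) := by
    rw [H76U.cmp_apply, ← Matrix.mul_assoc V, Matrix.mul_assoc _ E U, heU, Matrix.mul_sub,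
      Matrix.sub_mul, Matrix.mul_assoc, hν, ← Matrix.mul_assoc, h.VU, Matrix.one_mul, Matrix.mul_smul,
      Matrix.mul_one, Matrix.smul_mul, h.VU]
    ext i j
    by_cases hij : i = j
    · subst hij
      simp
    · simp [Matrix.diagonal_apply_ne _ hij, Matrix.one_apply_ne hij]
  rw [e3, phi_diag] at hc2
  have htr := h.ts.cmp.tr _ (hI.1 hc2)
  rw [dg_trace, Finset.sum_sub_distrib, Finset.sum_const, Finset.card_univ, Fintype.card_fin,
    nsmul_eq_mul] at htr
  have hn0 : (n : AlgebraicClosure ℚ_[p]) ≠ 0 := by exact_mod_cast h.pos.ne'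
  have hcv : c = (∑ k, (v (i (a k)) : AlgebraicClosure ℚ_[p])) / n := by
    rw [eq_div_iff hn0]
    linear_combination -htr
  have e4 : (dq (fun k => v (i (a k)) - (∑ l, v (i (a l))) / n) :
      Module.End (AlgebraicClosure ℚ_[p]) (Fin n → AlgebraicClosure ℚ_[p])) =
      dg (fun k => (v (i (a k)) : AlgebraicClosure ℚ_[p]) - c) := by
    unfold dq
    congr 1
    funext k
    rw [hcv]
    push_cast
    ring
  rw [← e4] at hc2
  have hY := h.ts.diag _ (hI.1 hc2)
  rw [h.yo] at hY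
  have hfun := hIP' _ hY hc2
  intro k k' hk
  have h5 := hfun k k' hk
  exact sub_left_injective h5

/-- PROOF. Otherwise `FunP (1 - P) ε` for all `i`, `ε` (`HT_or`), so `v (i (a k)) = v (i (a k'))` for all `i` if `cz (1 - P) k k'` (`Core3.newt`), so `k = k'` (`C.gal`).  But `P ≠ 0`, so `cz P k k'` fails for some
`k`, `k'`; `c` with `cz P c k`, `cz (1 - P) c k'` (`Sp.exists_mx`) is `k'`: contradiction.  (`i`, `ε` exist: `Core3.locp`, `exists_HT`.) -/
theorem Core3.onto (b : Fin m)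
    {n : ℕ} {a : Fin n → Ω} (ha : Function.Injective a)
    (hroot : ∀ y : Ω, (F b).eval₂ j y = 0 ↔ ∃ k, y = a k)
    {P : Module.End ℚ (YS a)} (hP : Sp P) (hg : GoodN (bar b = b) P) (hP0 : P ≠ 0) :
    ∃ (i : Ω →+* AlgebraicClosure ℚ_[p]) (ε : Fin n → ℚ),
      IsHT μ φ ((e b).map (i.comp j)) (fun k => i (a k)) ε ∧ FunP P ε := by
  by_contra hcon
  push Not at hcon
  have hμ := C.crys.mu
  have hμφ := C.crys.muphi
  have hall : ∀ i : Ω →+* AlgebraicClosure ℚ_[p], FunP (1 - P) (fun k => v (i (a k))) := by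
    intro i
    obtain ⟨H₀, U, V, hfin, h⟩ := C.locp b ha hroot i
    obtain ⟨ε, hε⟩ := exists_HT h hμ hμφ
    have hc : Comp (LcN (ψ.map (algebraMap ℚ (AlgebraicClosure ℚ_[p])))
      (img (AlgebraicClosure ℚ_[p]) (ρ p) H₀) U V) P := hg _ _ h.ts h.cls h.yo
    rcases HT_or h hμ hμφ hε hc with h1 | h1
    · exact absurd h1 (hcon i ε hε)
    · exact C.newt b ha hroot hP hg i hε h1
  have hkk : ∀ k k', cz (1 - P) k k' → k = k' := by
    intro k k' hk
    by_contra hne
    obtain ⟨i, hi⟩ := C.gal b (a k) (a k') ((hroot _).2 ⟨k, rfl⟩) ((hroot _).2 ⟨k', rfl⟩)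
      (fun h1 => hne (ha h1))
    exact hi (hall i k k' hk)
  apply hP0
  refine LinearMap.ext fun f => Subtype.ext ?_
  have hconst : ∀ k k', (P f : Fin n → ℚ) k = (P f : Fin n → ℚ) k' := by
    intro k k'
    obtain ⟨c, hc1, hc2⟩ := hP.exists_mx k k'
    have h1 := hkk c k' hc2
    rw [h1] at hc1
    exact (hc1 f).symm
  have hsum := (P f).2.1
  funext k
  have h1 : (n : ℚ) * (P f : Fin n → ℚ) k = 0 := by
    rw [← hsum, Finset.sum_congr rfl fun l _ => hconst l k, Finset.sum_const, Finset.card_univ,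
      nsmul_eq_mul, Fintype.card_fin]
  have hn0 : (n : ℚ) ≠ 0 := by
    have := k.pos
    positivity
  exact (mul_eq_zero.1 h1).resolve_left hn0

end Pool.Agent.H76Y
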