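import Pool.Agent.Lib.H76Y.E1
import Pool.Agent.Lib.H76Q.E3

/-!
# the semilinear automorphism of an automorphism of the field
-/

set_option autoImplicit false
set_option linter.unusedSectionVars false
namespace Pool.Agent.H76Y
open Pool.Agent.H76Q
open Module Matrix Polynomial Pool.Agent.H53Toric
open Pool.Agent.H76P
open Pool.Agent.H76T (IsIdeal Fam Lc)
open Pool.Agent.H76V (Cmp)
open Pool.Agent.H76U (cmp preL IsSplitting)
open Pool.Agent.H76RM (spanK similD)

theorem det_phi {K : Type*} [Field K] {n : ℕ} (A : Matrix (Fin n) (Fin n) K) :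
    LinearMap.det (phi A : Module.End K (Fin n → K)) = A.det := by
  have : (phi A : Module.End K (Fin n → K)) = Matrix.toLin' A := rfl
  rw [this, LinearMap.det_toLin']

theorem trace_phi {K : Type*} [Field K] {n : ℕ} (A : Matrix (Fin n) (Fin n) K) :
    LinearMap.trace K (Fin n → K) (phi A : Module.End K (Fin n → K)) = A.trace := by
  have : (phi A : Module.End K (Fin n → K)) = Matrix.toLin' A := rfl
  rw [this, Matrix.trace_toLin'_eq]

variable {ι : Type*} [Fintype ι] [DecidableEq ι] {K : Type*} [Field K] [CharZero K]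
  [IsAlgClosed K] {J : Matrix ι ι K} {S 𝓗 : Set (Matrix ι ι K)} {e x : Matrix ι ι K} {q : K} {n : ℕ}
  {U : Matrix ι (Fin n) K} {V : Matrix (Fin n) ι K} {d : Fin n → K}
  {Y : Submodule ℚ (Fin n → ℚ)}

theorem exists_theta {ct : Prop} (h : LocN ct J S 𝓗 e x q U V d Y) {τ : K ≃+* K} (he : e.map τ = e)
    (hx : x.map τ = x) (hJ : J.map τ = J) (hS : ∀ s ∈ S, s.map τ = s)
    {σ : Equiv.Perm (Fin n)} (hσ : ∀ k, τ (d k) = d (σ k)) :
    ∃ θ : Module.End K (Fin n → K) ≃+* Module.End K (Fin n → K),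
      ThetaN (LcN J S U V) θ τ σ ∧
      ∀ X, (U * LinearMap.toMatrix' X * V).map τ = U * LinearMap.toMatrix' (θ X) * V := by
  have hUV := h.UV
  have hVU := h.VU
  have hVe : V * e = V := by rw [hUV, ← Matrix.mul_assoc, hVU, Matrix.one_mul]
  have heU : e * U = U := by rw [hUV, Matrix.mul_assoc, hVU, Matrix.mul_one]
  have heUt : e * U.map τ = U.map τ := by
    nth_rw 1 [← he]
    rw [← e3_map_mul, heU]
  have hVte : V.map τ * e = V.map τ := by
    nth_rw 1 [← he]
    rw [← e3_map_mul, hVe]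
  have hUVt : U.map τ * V.map τ = e := by rw [← e3_map_mul, ← hUV, he]
  obtain ⟨C, hC⟩ : ∃ C, C = V * U.map τ := ⟨_, rfl⟩
  obtain ⟨C', hC'⟩ : ∃ C', C' = V.map τ * U := ⟨_, rfl⟩
  have hCC : C * C' = 1 := by
    calc C * C' = V * (U.map τ * V.map τ) * U := by rw [hC, hC']; simp only [Matrix.mul_assoc]
      _ = 1 := by rw [hUVt, hVe, hVU]
  have hCl : ∀ l k, C l k ≠ 0 → l = σ k := by
    intro l k hne
    have hVx : V * x = Matrix.diagonal d * V := by
      calc V * x = V * e * x := by rw [hVe]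
        _ = V * (x * U) * V := by
            rw [Matrix.mul_assoc V e x, h.ex, hUV]
            simp only [Matrix.mul_assoc]
        _ = V * U * Matrix.diagonal d * V := by rw [h.ec.eig]; simp only [Matrix.mul_assoc]
        _ = _ := by rw [hVU, Matrix.one_mul]
    have hxU : x * U.map τ = U.map τ * Matrix.diagonal (fun k => d (σ k)) := by
      have h1 := congrArg (fun M : Matrix ι (Fin n) K => M.map τ) h.ec.eig
      beta_reduce at h1
      rw [e3_map_mul, e3_map_mul, hx] at h1
      rw [h1]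
      congr 1
      ext a b
      rw [Matrix.map_apply, Matrix.diagonal_apply, Matrix.diagonal_apply]
      split_ifs
      · exact hσ a
      · exact map_zero τ
    have h2 : Matrix.diagonal d * C = C * Matrix.diagonal (fun k => d (σ k)) := by
      rw [hC, ← Matrix.mul_assoc, ← hVx, Matrix.mul_assoc, hxU, Matrix.mul_assoc]
    have h3 := congrFun (congrFun h2 l) k
    rw [Matrix.diagonal_mul, Matrix.mul_diagonal, mul_comm (C l k)] at h3
    exact h.ec.inj (mul_right_cancel₀ hne h3)
  have hmat : ∀ X : Module.End K (Fin n → K), ∃ y : Matrix (Fin n) (Fin n) K, X = phi y ∧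
      LinearMap.toMatrix' X = y := by
    intro X
    obtain ⟨y, rfl⟩ := (phi (ι := Fin n) (K := K)).surjective X
    exact ⟨y, rfl, (phi (ι := Fin n) (K := K)).symm_apply_apply y⟩
  have hC'C : C' * C = 1 := _root_.mul_eq_one_comm.1 hCC
  have htr : ∀ X : Module.End K (Fin n → K), LinearMap.trace K (Fin n → K) (H76T.tht τ hCC X) =
      τ (LinearMap.trace K (Fin n → K) X) := by
    intro X
    obtain ⟨y, rfl, -⟩ := hmat X
    rw [H76T.tht_apply, trace_phi, trace_phi, Matrix.trace_mul_comm, ← Matrix.mul_assoc, hC'C, Matrix.one_mul]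
    exact (AddMonoidHom.map_trace (τ : K →+* K).toAddMonoidHom y).symm
  have hdet : ∀ X : Module.End K (Fin n → K), LinearMap.det (H76T.tht τ hCC X) =
      τ (LinearMap.det X) := by
    intro X
    obtain ⟨y, rfl, -⟩ := hmat X
    rw [H76T.tht_apply, det_phi, det_phi, Matrix.det_mul, Matrix.det_mul, mul_right_comm, ← Matrix.det_mul, hCC, Matrix.det_one, one_mul]
    exact (RingHom.map_det (τ : K →+* K) y).symm
  have hcmp : ∀ A : Matrix ι ι K, H76T.tht τ hCC (phi (cmp U V A)) = phi (cmp U V (A.map τ)) := by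
    intro A
    rw [H76T.tht_apply]
    congr 1
    rw [H76U.cmp_apply, H76U.cmp_apply, e3_map_mul, e3_map_mul, hC, hC']
    calc V * U.map τ * (V.map τ * A.map τ * U.map τ) * (V.map τ * U) =
        V * (U.map τ * V.map τ) * A.map τ * ((U.map τ * V.map τ) * U) := by
          simp only [Matrix.mul_assoc]
      _ = _ := by rw [hUVt, hVe, heU]
  have hS' : ∀ s ∈ S, s.map τ.symm = s := by
    intro s hs
    nth_rw 1 [← hS s hs]
    exact H76T.map_symmm τ s
  have hJs : J.map τ.symm = J := by
    nth_rw 1 [← hJ]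
    exact H76T.map_symmm τ J
  have hLb : ∀ X : Module.End K (Fin n → K), H76T.tht τ hCC X ∈ H76U.Lb J S U V ↔ X ∈ H76U.Lb J S U V := by
    intro X
    constructor
    · intro hX
      obtain ⟨y, hy, -⟩ := hmat (H76T.tht τ hCC X)
      rw [hy] at hX
      obtain ⟨A, hA, hAy⟩ := H76U.mem_Lb.1 hX
      have h1 : H76T.tht τ hCC (phi (cmp U V (A.map τ.symm))) = H76T.tht τ hCC X := by
        rw [hcmp, H76T.map_symmm', hAy, hy]
      rw [← (H76T.tht τ hCC).injective h1]
      exact H76U.mem_Lb.2 ⟨_, e3_preL hJs hS' hA, rfl⟩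
    · intro hX
      obtain ⟨y, rfl, -⟩ := hmat X
      obtain ⟨A, hA, rfl⟩ := H76U.mem_Lb.1 hX
      rw [hcmp]
      exact H76U.mem_Lb.2 ⟨_, e3_preL hJ hS hA, rfl⟩
  refine ⟨H76T.tht τ hCC, ⟨H76T.tht_smul τ hCC, fun g => ?_, fun X => ?_, fun X => ?_⟩, fun X => ?_⟩
  · rw [← phi_diag, H76T.tht_apply, ← phi_diag]
    congr 1
    have h1 : C * (Matrix.diagonal g).map τ = Matrix.diagonal (fun k => τ (g (σ.symm k))) * C := by
      have h2 : (Matrix.diagonal g).map τ = Matrix.diagonal (fun k => τ (g k)) := by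
        ext a b
        rw [Matrix.map_apply, Matrix.diagonal_apply, Matrix.diagonal_apply]
        split_ifs
        · rfl
        · exact map_zero τ
      rw [h2]
      ext l k
      rw [Matrix.diagonal_mul, Matrix.mul_diagonal]
      by_cases hz : C l k = 0
      · rw [hz, zero_mul, mul_zero]
      · rw [hCl l k hz, Equiv.symm_apply_apply, mul_comm]
    rw [h1, Matrix.mul_assoc, hCC, Matrix.mul_one]
  · show (_ ∧ _) ↔ (_ ∧ _)
    rw [hLb, htr, map_eq_zero]
  · exact hdet X
  · obtain ⟨y, rfl, hy⟩ := hmat X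
    rw [hy, H76T.tht_apply]
    have h1 : LinearMap.toMatrix' (phi (C * y.map τ * C')) = C * y.map τ * C' :=
      (phi (ι := Fin n) (K := K)).symm_apply_apply _
    rw [h1, e3_map_mul, e3_map_mul, hC, hC']
    calc U.map τ * y.map τ * V.map τ = (e * U.map τ) * y.map τ * (V.map τ * e) := by rw [heUt, hVte]
      _ = _ := by
          rw [hUV]
          simp only [Matrix.mul_assoc]

end Pool.Agent.H76Y
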