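import Pool.Agent.Lib.H76Y.C6
import Pool.Agent.Lib.H76Y.E3
import Pool.Agent.Lib.H76Y.E4
import Pool.Agent.Lib.H76Y.DN1
import Pool.Agent.Lib.H76Q.E5
import Pool.Agent.Lib.H76Q.E6

/-!
# the reciprocity law at l
-/

set_option autoImplicit false
set_option linter.unusedSectionVars false
namespace Pool.Agent.H76Y
open Pool.Agent.H76Q
open Module Matrix Polynomial Pool.Agent.H53Toric
open Pool.Agent.H76P
open Pool.Agent.H76T (IsIdeal Fam Lc)
open Pool.Agent.H76V (Cmp)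
open Pool.Agent.H76U (cmp preL IsSplitting)
open Pool.Agent.H76RM (spanK similD)
open H45P (PC PowIn)

/-- The group generated by the `m`-th powers and the commutators, as a monoid. -/
theorem pc_mono {G : Type*} [Group G] {H : Type*} [Group H] {m : ℕ} (ρ : G →* H) {y : H}
    (hy : y ∈ PC m ρ) :
    y ∈ Submonoid.closure ((Set.range fun g => ρ (g ^ m)) ∪ {x | ∃ g h : G, x = ρ (g * h * g⁻¹ * h⁻¹)}) := by
  have h0 : ((Set.range fun g => ρ g ^ m) ∪ {x | ∃ g h, x = ρ g * ρ h * (ρ g)⁻¹ * (ρ h)⁻¹}) =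
      ((Set.range fun g => ρ (g ^ m)) ∪ {x | ∃ g h : G, x = ρ (g * h * g⁻¹ * h⁻¹)}) := by
    simp only [map_mul, map_inv, map_pow]
  have h1 : y ∈ (PC m ρ).toSubmonoid := hy
  rw [PC, h0, Subgroup.closure_toSubmonoid] at h1
  refine Submonoid.closure_mono ?_ h1
  rintro z (hz | hz)
  · exact hz
  · rw [Set.mem_inv] at hz
    rcases hz with ⟨g, hg⟩ | ⟨g, h, hg⟩
    · left
      refine ⟨g⁻¹, ?_⟩
      show ρ (g⁻¹ ^ m) = z
      have h3 : ρ (g ^ m) = z⁻¹ := hg
      rw [inv_pow, map_inv, h3, inv_inv]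
    · right
      refine ⟨h, g, ?_⟩
      rw [← inv_inv z, hg, ← map_inv]
      congr 1
      group

theorem power_at {ι : Type*} [Fintype ι] [DecidableEq ι] {L : Type*} [Field L] [CharZero L]
    {G : Type*} [Group G] (ρ : G →* Matrix.GeneralLinearGroup ι L)
    {ct : Prop} {J : Matrix ι ι (AlgebraicClosure L)} {H₀ : Subgroup G} {e : Matrix ι ι (AlgebraicClosure L)}
    {q : AlgebraicClosure L} {n : ℕ} {U : Matrix ι (Fin n) (AlgebraicClosure L)}
    {V : Matrix (Fin n) ι (AlgebraicClosure L)} {Ω : Type*} [Field Ω] [CharZero Ω]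
    {a : Fin n → Ω} {i : Ω →+* AlgebraicClosure L} {Y : Submodule ℚ (Fin n → ℚ)} {σ₀ : G}
    (h : LocN ct J (img (AlgebraicClosure L) ρ H₀) (properProj (AlgebraicClosure L) ρ) e
      ((ρ σ₀).1.map (algebraMap L (AlgebraicClosure L))) q U V (fun k => i (a k)) Y)
    (gen : ∀ g : G, (ρ g).1.map (algebraMap L (AlgebraicClosure L)) ∈
      tgen (AlgebraicClosure L) ρ)
    (hsq : ρ σ₀ ∈ PC n ρ)
    {P : Module.End ℚ Y} (hP : Sp P) (hc : Comp (LcN J (img (AlgebraicClosure L) ρ H₀) U V) P)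
    (hJ : ∀ τ : AlgebraicClosure L ≃ₐ[L] AlgebraicClosure L, J.map τ = J)
    (he : ∀ τ : AlgebraicClosure L ≃ₐ[L] AlgebraicClosure L, e.map τ = e)
    (hdec : ∀ τ : AlgebraicClosure L ≃ₐ[L] AlgebraicClosure L, ∃ (s : Ω ≃+* Ω)
      (σ : Equiv.Perm (Fin n)), (∀ y, τ (i y) = i (s y)) ∧ (∀ k, s (a k) = a (σ k)) ∧ StabP P σ)
    {t : Fin n → Ω} (ht : Lift P a t) :
    PowIn n L (i (∏ k, t k)) := by
  classical
  have hVU := h.VU
  have hne : Nonempty (Fin n) := ⟨⟨0, h.pos⟩⟩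
  -- the semilinear automorphisms
  have hth : ∀ τ : AlgebraicClosure L ≃ₐ[L] AlgebraicClosure L,
      ∃ (θ : Module.End (AlgebraicClosure L) (Fin n → AlgebraicClosure L) ≃+*
          Module.End (AlgebraicClosure L) (Fin n → AlgebraicClosure L)) (s : Ω ≃+* Ω)
        (σ : Equiv.Perm (Fin n)), (∀ y, τ (i y) = i (s y)) ∧ (∀ k, s (a k) = a (σ k)) ∧
        StabP P σ ∧ ThetaN (LcN J (img (AlgebraicClosure L) ρ H₀) U V) θ τ.toRingEquiv σ ∧
        ∀ X, (U * LinearMap.toMatrix' X * V).map τ.toRingEquiv = U * LinearMap.toMatrix' (θ X) * V := by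
    intro τ
    obtain ⟨s, σ, h1, h2, h3⟩ := hdec τ
    obtain ⟨θ, h4, h5⟩ := exists_theta h (τ := τ.toRingEquiv) (he τ) (e6_fix τ _) (hJ τ)
      (fun x hx => by
        obtain ⟨g, -, rfl⟩ := hx
        exact e6_fix τ _) (σ := σ) (fun k => by
        show τ (i (a k)) = i (a (σ k))
        rw [h1, h2])
    exact ⟨θ, s, σ, h1, h2, h3, h4, h5⟩
  choose θ s σ h1 h2 h3 h4 h5 using hth
  obtain ⟨T, hT⟩ : ∃ T : Set ((Module.End (AlgebraicClosure L) (Fin n → AlgebraicClosure L) ≃+*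
      Module.End (AlgebraicClosure L) (Fin n → AlgebraicClosure L)) ×
      (AlgebraicClosure L ≃+* AlgebraicClosure L)),
      T = Set.range fun τ : AlgebraicClosure L ≃ₐ[L] AlgebraicClosure L => (θ τ, τ.toRingEquiv) := ⟨_, rfl⟩
  obtain ⟨W, hW⟩ : ∃ W : Set (Module.End (AlgebraicClosure L) (Fin n → AlgebraicClosure L) →ₗ[AlgebraicClosure L]
      AlgebraicClosure L), W = Set.range (e6_w U V) := ⟨_, rfl⟩
  have hTS : EN.TS0 (AZ (LcN J (img (AlgebraicClosure L) ρ H₀) U V) P) (AZ (LcN J (img (AlgebraicClosure L) ρ H₀) U V) (1 - P)) T W := by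
    refine ⟨?_, ?_, ?_, ?_, ?_, ?_⟩
    · intro x hx
      rw [hT] at hx
      obtain ⟨τ, rfl⟩ := hx
      exact (h4 τ).smul
    · intro x hx X hX
      rw [hT] at hx
      obtain ⟨τ, rfl⟩ := hx
      exact (h4 τ).AZ h.yo (h3 τ) hX
    · intro x hx X hX
      rw [hT] at hx
      obtain ⟨τ, rfl⟩ := hx
      have hPP : (1 : Module.End ℚ Y) - (1 - P) = P := sub_sub_cancel 1 P
      exact (h4 τ).AZ h.yo ⟨(h3 τ).2, fun k k' => hPP.symm ▸ (h3 τ).1 k k'⟩ hX
    · intro x hx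
      rw [hT] at hx
      obtain ⟨τ, rfl⟩ := hx
      exact (h4 τ).det
    · intro x hx w hw X
      rw [hT] at hx
      rw [hW] at hw
      obtain ⟨τ, rfl⟩ := hx
      obtain ⟨p, rfl⟩ := hw
      rw [e6_w_apply, e6_w_apply, ← h5 τ X]
      rfl
    · intro X hX
      by_contra hcon
      push Not at hcon
      apply hX
      have h6 : U * LinearMap.toMatrix' X * V = U * (0 : Matrix (Fin n) (Fin n) (AlgebraicClosure L)) * V := by
        ext b b'
        rw [Matrix.mul_zero, Matrix.zero_mul, Matrix.zero_apply]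
        exact hcon (e6_w U V (b, b')) (by rw [hW]; exact ⟨(b, b'), rfl⟩)
      have h7 := e6_can hVU h6
      exact LinearMap.toMatrix'.injective (by rw [h7, map_zero])
  obtain ⟨A, hA⟩ : ∃ A : Set (Module.End (AlgebraicClosure L) (Fin n → AlgebraicClosure L)),
      A = Set.range fun g : G => phi (cmp U V ((ρ g).1.map (algebraMap L (AlgebraicClosure L)))) := ⟨_, rfl⟩
  have comm : ∀ g : G, (ρ g).1.map (algebraMap L (AlgebraicClosure L)) * e =
      e * (ρ g).1.map (algebraMap L (AlgebraicClosure L)) := fun g => cmp_comm h (gen g)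
  have hAp : ∀ X ∈ A, (∃ u r, EN.PU (AZ (LcN J (img (AlgebraicClosure L) ρ H₀) U V) P)
      (AZ (LcN J (img (AlgebraicClosure L) ρ H₀) U V) (1 - P)) X u r) ∧ ∀ x ∈ T, x.1 X = X := by
    intro X hX
    rw [hA] at hX
    obtain ⟨g, rfl⟩ := hX
    refine ⟨by
      obtain ⟨u, r, t, h6⟩ := gen_PT h hP hc (gen g)
      exact ⟨u, r, h6.pu⟩, ?_⟩
    intro x hx
    rw [hT] at hx
    obtain ⟨τ, rfl⟩ := hx
    apply LinearMap.toMatrix'.injective
    apply e6_can hVU
    rw [← h5 τ, e6_mat, Pool.Agent.H76U.cmp_apply]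
    have h6 : U * (V * (ρ g).1.map (algebraMap L (AlgebraicClosure L)) * U) * V =
        e * (ρ g).1.map (algebraMap L (AlgebraicClosure L)) * e := by
      rw [h.UV]
      simp only [Matrix.mul_assoc]
    rw [h6]
    have h7 : (e * (ρ g).1.map (algebraMap L (AlgebraicClosure L)) * e).map τ.toRingEquiv =
        e.map τ.toRingEquiv * ((ρ g).1.map (algebraMap L (AlgebraicClosure L))).map τ.toRingEquiv *
          e.map τ.toRingEquiv := by
      rw [← Matrix.map_mul, ← Matrix.map_mul]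
    have h8 : e.map τ.toRingEquiv = e := he τ
    rw [h7, h8, e6_fix]
  -- the element
  have hmul : ∀ g g' : G, phi (cmp U V ((ρ (g * g')).1.map (algebraMap L (AlgebraicClosure L)))) =
      phi (cmp U V ((ρ g).1.map (algebraMap L (AlgebraicClosure L)))) *
        phi (cmp U V ((ρ g').1.map (algebraMap L (AlgebraicClosure L)))) := by
    intro g g'
    have h6 : (ρ (g * g')).1.map (algebraMap L (AlgebraicClosure L)) =
        (ρ g).1.map (algebraMap L (AlgebraicClosure L)) *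
          (ρ g').1.map (algebraMap L (AlgebraicClosure L)) := by
      rw [map_mul, ← Matrix.map_mul]
      rfl
    rw [h6, Pool.Agent.H76U.cmp_mul h.UV hVU (comm g'), map_mul]
  have hgone : phi (cmp U V ((ρ 1).1.map (algebraMap L (AlgebraicClosure L)))) = 1 := by
    have h6 : ((ρ 1).1.map (algebraMap L (AlgebraicClosure L))) = 1 := by
      rw [map_one]
      show (1 : Matrix ι ι L).map (algebraMap L (AlgebraicClosure L)) = 1
      rw [Matrix.map_one _ (map_zero _) (map_one _)]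
    rw [h6, Pool.Agent.H76U.cmp_one h.UV hVU, map_one]
  have hgpow : ∀ (g : G) (k : ℕ), phi (cmp U V ((ρ (g ^ k)).1.map (algebraMap L (AlgebraicClosure L)))) =
      phi (cmp U V ((ρ g).1.map (algebraMap L (AlgebraicClosure L)))) ^ k := by
    intro g k
    induction k with
    | zero => rw [pow_zero, pow_zero, hgone]
    | succ k ih => rw [pow_succ, hmul, ih, pow_succ]
  have hginv : ∀ g : G, phi (cmp U V ((ρ g).1.map (algebraMap L (AlgebraicClosure L)))) *
      phi (cmp U V ((ρ g⁻¹).1.map (algebraMap L (AlgebraicClosure L)))) = 1 := by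
    intro g
    rw [← hmul, mul_inv_cancel, hgone]
  have hclo : ∀ y ∈ Submonoid.closure ((Set.range fun g => ρ (g ^ n)) ∪ {x | ∃ g h : G, x = ρ (g * h * g⁻¹ * h⁻¹)}),
      (∃ g, y = ρ g) ∧
      phi (cmp U V (y.1.map (algebraMap L (AlgebraicClosure L)))) ∈
        Submonoid.closure ({Z | ∃ X ∈ A, Z = X ^ n} ∪
          {Z | ∃ X ∈ A, ∃ Y ∈ A, ∃ X' Y', X * X' = 1 ∧ Y * Y' = 1 ∧ Z = X * Y * X' * Y'}) := by
    intro y hy
    induction hy using Submonoid.closure_induction with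
    | mem y hy =>
      rcases hy with ⟨g, rfl⟩ | ⟨g, g', rfl⟩
      · refine ⟨⟨g ^ n, rfl⟩, Submonoid.subset_closure (Or.inl ⟨_, ?_, hgpow g n⟩)⟩
        rw [hA]
        exact ⟨g, rfl⟩
      · refine ⟨⟨g * g' * g⁻¹ * g'⁻¹, rfl⟩, Submonoid.subset_closure (Or.inr
          ⟨_, ?_, _, ?_, _, _, hginv g, hginv g', ?_⟩)⟩
        · rw [hA]
          exact ⟨g, rfl⟩
        · rw [hA]
          exact ⟨g', rfl⟩
        · rw [hmul, hmul, hmul]
    | one =>
      refine ⟨⟨1, (map_one _).symm⟩, ?_⟩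
      have h6 : ((1 : Matrix.GeneralLinearGroup ι L)).1.map (algebraMap L (AlgebraicClosure L)) = 1 := by
        show (1 : Matrix ι ι L).map (algebraMap L (AlgebraicClosure L)) = 1
        rw [Matrix.map_one _ (map_zero _) (map_one _)]
      rw [h6, Pool.Agent.H76U.cmp_one h.UV hVU, map_one]
      exact Submonoid.one_mem _
    | mul y y' _ _ ih ih' =>
      obtain ⟨⟨g, rfl⟩, h6⟩ := ih
      obtain ⟨⟨g', rfl⟩, h7⟩ := ih'
      refine ⟨⟨g * g', (map_mul _ _ _).symm⟩, ?_⟩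
      rw [← map_mul, hmul]
      exact Submonoid.mul_mem _ h6 h7
  have hX := (hclo _ (pc_mono ρ hsq)).2
  obtain ⟨u, r, c, h6, hdc, hc0, hfix⟩ := EN.powers (AZ_comm h.ts h.yo hP) (AZ_inter h.ts h.yo hP hc) hTS hAp n hX
  have h6 := ptn_of h6
  rw [hdc, H76P.cmp_phi hVU h.ec, H76P.phi_diag] at h6
  obtain ⟨u₀, r₀, hu, hr, hfu, hfr, hprod⟩ := PT_diag h.ts h.yo hP hc h.ec.inj h6
  have hdu : ∏ k, u₀ k = c ^ n := by
    rw [← det_dg, ← hu]
    exact h6.2.2.2.2.1
  have ha0 : ∀ k, a k ≠ 0 := by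
    intro k h0
    apply h.ec.ne k
    rw [h0, map_zero]
  obtain ⟨c', hc', huc, hpu⟩ := Lift.prod_eq ht ha0 hP (i := i) (u := u₀) (r := r₀) ⟨hprod, hfu, hfr⟩
  have hit : ∀ k, i (t k) ≠ 0 := fun k h0 => ht.ne k ((map_eq_zero i).1 h0)
  -- invariance
  have inv1 : ∀ τ : AlgebraicClosure L ≃ₐ[L] AlgebraicClosure L, τ c = c := by
    intro τ
    exact (hfix _ (by rw [hT]; exact ⟨τ, rfl⟩)).2
  have inv2 : ∀ τ : AlgebraicClosure L ≃ₐ[L] AlgebraicClosure L, τ c' = c' := by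
    intro τ
    have h7 := (hfix _ (by rw [hT]; exact ⟨τ, rfl⟩ : (θ τ, τ.toRingEquiv) ∈ T)).1
    have h8 : θ τ u = u := h7
    rw [hu, (h4 τ).diag] at h8
    have h9 := congrFun (H76P.dg_inj h8) (σ τ (Classical.arbitrary (Fin n)))
    simp only [Equiv.symm_apply_apply] at h9
    have h10 : τ (u₀ (Classical.arbitrary (Fin n))) = u₀ (σ τ (Classical.arbitrary (Fin n))) := h9
    rw [huc, huc, map_mul, h1 τ, ht.eqv (s τ) (σ τ) (h2 τ) (h3 τ)] at h10
    exact mul_right_cancel₀ (hit _) h10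
  obtain ⟨y, hy⟩ := fixed_mem inv1
  obtain ⟨y', hy'⟩ := fixed_mem inv2
  refine ⟨y / y', ?_⟩
  rw [hdu, Fintype.card_fin] at hpu
  have h13 : i (∏ k, t k) = c ^ n / c' ^ n := by
    rw [eq_div_iff (pow_ne_zero n hc'), mul_comm]
    exact hpu.symm
  rw [h13, hy, hy', map_div₀, div_pow]

end Pool.Agent.H76Y
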