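import Pool.Agent.Lib.H76Y.W3
import Pool.Agent.Lib.H76Y.E6
import Pool.Agent.Lib.H76Y.D2
import Pool.Agent.Lib.H76Q.D3
import Pool.Agent.Lib.H76Q.E5

/-!
# W4: reciprocity
-/

set_option autoImplicit false
set_option linter.unusedSectionVars false
namespace Pool.Agent.H76Y
open Pool.Agent.H76P Pool.Agent.H76V Pool.Agent.H76Q
open Module Matrix Polynomial Pool.Agent.H53Toric
open Pool.Agent.H76P
open Pool.Agent.H76T (IsIdeal Fam Lc)
open Pool.Agent.H76U (cmp preL IsSplitting)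
open Pool.Agent.H76RM (spanK similD)

/-- The automorphisms which fix the `n`-th roots of unity. -/
def fixMu (n : ℕ) (Ω : Type*) [Field Ω] : Subgroup (Ω ≃+* Ω) where
  carrier := {s | ∀ z : Ω, z ^ n = 1 → s z = z}
  mul_mem' := by
    intro s t hs ht z hz
    show s (t z) = z
    rw [ht z hz, hs z hz]
  one_mem' := fun z _ => rfl
  inv_mem' := by
    intro s hs z hz
    show s.symm z = z
    rw [RingEquiv.symm_apply_eq]
    exact (hs z hz).symm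

variable {ι : Type*} [Fintype ι] [DecidableEq ι] {ψ : Matrix ι ι ℚ}
    {D : Subalgebra ℚ (Matrix ι ι ℚ)} {M : Type*} [Field M] [NumberField M]
    {m : ℕ} {bar : Fin m → Fin m} {e : Fin m → Matrix ι ι M} {G : Type*} [Group G]
    {ρ : ∀ (l : ℕ) [Fact l.Prime], G →* Matrix.GeneralLinearGroup ι ℚ_[l]}
    {p : ℕ} [Fact p.Prime] {σ : G} {q : ℚ} {F : Fin m → M[X]}
    {φ μ ν : Matrix ι ι (AlgebraicClosure ℚ_[p])} {v : AlgebraicClosure ℚ_[p] → ℚ}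
    {Δ : Set (AlgebraicClosure ℚ_[p] ≃+* AlgebraicClosure ℚ_[p])}
    {Ω : Type*} [Field Ω] [CharZero Ω] [IsAlgClosed Ω] [Algebra.IsAlgebraic ℚ Ω] {j : M →+* Ω}
    {R : Finset Ω} {N : Set ℕ} (C : Core3 ψ D bar e ρ p σ q F φ μ ν v Δ j R N)

include C

theorem Core3.recl (b : Fin m)
    {n : ℕ} {a : Fin n → Ω} (ha : Function.Injective a)
    (hroot : ∀ y : Ω, (F b).eval₂ j y = 0 ↔ ∃ k, y = a k)
    {P : Module.End ℚ (YS a)} (hP : Sp P) (hg : GoodN (bar b = b) P) {t : Fin n → Ω} (ht : Lift P a t) :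
    ∃ (x : Ω → ℕ) (c : Ω), c ≠ 0 ∧ (∀ s ∈ GamP j R a P, s ∈ fixMu n Ω → s c = c) ∧
      ∏ k, t k = (∏ r ∈ R, r ^ x r) * c ^ n := by
  classical
  let i₀ : Ω →+* AlgebraicClosure ℚ_[p] := (IsAlgClosed.lift : Ω →ₐ[ℚ] AlgebraicClosure ℚ_[p]).toRingHom
  obtain ⟨H₁, U₁, V₁, -, hL₁⟩ := C.locp b ha hroot i₀
  have : Nonempty (Fin n) := ⟨⟨0, hL₁.pos⟩⟩
  have hn := C.card b ha hroot
  obtain ⟨Γ₀, hΓ₀⟩ := exists_gam (a := a) (P := P) j R
  obtain ⟨T₀, hT₀⟩ := gam_open (a := a) (P := P) j R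
  have hA := C.arith b
  rw [← hn] at hA
  have hmem : ∀ s, s ∈ Γ₀ ⊓ fixMu n Ω ↔ s ∈ GamP j R a P ∧ s ∈ fixMu n Ω := by
    intro s
    rw [Subgroup.mem_inf, hΓ₀]
  obtain ⟨x, c, hc0, hc, hprod⟩ := hA.cheb (Γ₀ ⊓ fixMu n Ω)
    ⟨T₀ ∪ (Polynomial.nthRoots n (1 : Ω)).toFinset, fun s hs => (hmem s).2 ⟨hT₀ s fun y hy =>
      hs y (Finset.mem_union_left _ hy), fun z hz => hs z (Finset.mem_union_right _ (by
        rw [Multiset.mem_toFinset, Polynomial.mem_nthRoots hL₁.pos]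
        exact hz))⟩⟩
    (fun s hs => ((hmem s).1 hs).2) (fun s hs r hr => ((hmem s).1 hs).1.2.1 r hr) (∏ k, t k) (lift_prod_ne ht)
    (by
      intro s hs
      obtain ⟨⟨-, -, σ', h1, h2⟩, -⟩ := (hmem s).1 hs
      exact lift_prod ht s σ' h1 h2)
    (by
      intro l _ hl i hdec hsq
      have hlp : l ≠ p := by
        intro h
        apply hl
        rw [h]
        exact C.hN
      obtain ⟨H₀, U, V, hfin, hL⟩ := C.locl b ha hroot l hlp i
      have hres : ∀ τ : AlgebraicClosure ℚ_[l] ≃ₐ[ℚ_[l]] AlgebraicClosure ℚ_[l], ∃ s : Ω ≃+* Ω,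
          (∀ y, τ (i y) = i (s y)) ∧ s ∈ GamP j R a P := by
        intro τ
        obtain ⟨s, hs⟩ := exists_res i τ.toRingEquiv
        exact ⟨s, hs, ((hmem s).1 (hdec τ s hs)).1⟩
      refine power_at (ρ l) hL (C.gen l) (hA.recl l hl i hsq) hP (hg _ _ hL.ts hL.cls hL.yo) ?_ ?_ ?_ ht
      · intro τ
        ext x y
        simp
      · intro τ
        obtain ⟨s, hs, hsΓ⟩ := hres τ
        ext x y
        show τ (i (j (e b x y))) = i (j (e b x y))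
        rw [hs, hsΓ.1]
      · intro τ
        obtain ⟨s, hs, hsΓ⟩ := hres τ
        obtain ⟨-, -, σ', h1, h2⟩ := hsΓ
        exact ⟨s, σ', hs, h1, h2⟩)
  exact ⟨x, c, hc0, fun s hs hs' => hc s ((hmem s).2 ⟨hs, hs'⟩), hprod⟩

end Pool.Agent.H76Y
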