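import Pool.Agent.Lib.H76Q.B1
import Pool.Agent.Lib.H76Q.B2
import Pool.Agent.Lib.H76Q.Q3
import Pool.Agent.Lib.H76Y.A1
import Pool.Agent.Lib.H76Y.C2
import Pool.Agent.Lib.H76Y.C3
import Pool.Agent.Lib.H76Y.T14
import Pool.Agent.Lib.H76Y.Y0

/-!
# inertia preserves the factors
-/

set_option autoImplicit false
set_option linter.unusedSectionVars false
namespace Pool.Agent.H76Y
open Pool.Agent.H76P Pool.Agent.H76V Pool.Agent.H76Q
open Module Matrix Polynomial Pool.Agent.H53Toric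
open Pool.Agent.H76P
open Pool.Agent.H76T (IsIdeal Fam Lc)
open Pool.Agent.H76U (cmp preL IsSplitting)
open Pool.Agent.H76RM (spanK similD)

variable {ι : Type*} [Fintype ι] [DecidableEq ι] {K : Type*} [Field K] [CharZero K]
  [IsAlgClosed K] {ct : Prop} {J : Matrix ι ι K} {S 𝓗 : Set (Matrix ι ι K)} {e x : Matrix ι ι K} {q : K} {n : ℕ}
  {U : Matrix ι (Fin n) K} {V : Matrix (Fin n) ι K} {d : Fin n → K}
  {Y : Submodule ℚ (Fin n → ℚ)}

theorem f7_map_add (τ : K ≃+* K) {m n : Type*} (A B : Matrix m n K) :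
    (A + B).map τ = A.map τ + B.map τ := by
  ext i j
  exact map_add τ _ _

theorem f7_map_smul (τ : K ≃+* K) {m n : Type*} (c : K) (A : Matrix m n K) :
    (c • A).map τ = τ c • A.map τ := by
  ext i j
  exact map_mul τ _ _

theorem f7_map_one (τ : K ≃+* K) : (1 : Matrix ι ι K).map τ = 1 :=
  Matrix.map_one τ (map_zero τ) (map_one τ)

theorem f7_map_mul (τ : K ≃+* K) (A B : Matrix ι ι K) : (A * B).map τ = A.map τ * B.map τ := by
  have := Matrix.map_mul (f := (τ : K →+* K)) (L := A) (M := B)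
  exact this

/-- The subspace of `zlie S` attached to an ideal. -/
noncomputable def f7_I (S : Set (Matrix ι ι K)) (U : Matrix ι (Fin n) K) (V : Matrix (Fin n) ι K)
    (I' : Submodule K (Module.End K (Fin n → K))) : Submodule K (Matrix ι ι K) where
  carrier := {C | C ∈ zlie S ∧ ∃ c : K, phi (cmp U V (C - c • 1)) ∈ I'}
  add_mem' := by
    rintro A B ⟨hA, a, ha⟩ ⟨hB, b, hb⟩
    refine ⟨(zlie S).add_mem hA hB, a + b, ?_⟩
    have h1 : A + B - (a + b) • (1 : Matrix ι ι K) = (A - a • 1) + (B - b • 1) := by module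
    rw [h1, map_add, map_add]
    exact I'.add_mem ha hb
  zero_mem' := by
    refine ⟨(zlie S).zero_mem, 0, ?_⟩
    rw [zero_smul, sub_zero, map_zero, map_zero]
    exact I'.zero_mem
  smul_mem' := by
    rintro r A ⟨hA, a, ha⟩
    refine ⟨(zlie S).smul_mem r hA, r * a, ?_⟩
    have h1 : r • A - (r * a) • (1 : Matrix ι ι K) = r • (A - a • 1) := by module
    rw [h1, map_smul, map_smul]
    exact I'.smul_mem r ha

theorem f7_mem {I' : Submodule K (Module.End K (Fin n → K))} {C : Matrix ι ι K} :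
    C ∈ f7_I S U V I' ↔ C ∈ zlie S ∧ ∃ c : K, phi (cmp U V (C - c • 1)) ∈ I' := Iff.rfl

/-- PROOF. See `H76Q.theta_ideal` (F7), where `hid` is stronger.  `{X | θ X ∈ I'}` is closed under sums and scalar multiples (`hθ.smul`), so by `ideal_span` (T14) we can
assume that `X = X₁ X₂ - X₂ X₁`, `X₁, X₂ ∈ I'`.  As there take preimages `C₁, C₂ ∈ f7_I S U V I'` (`phi (cmp U V (C₁ - c₁ • 1)) = X₁`, ...); `C = C₁ C₂ - C₂ C₁ ∈ f7_I S U V I'` and
`phi (cmp U V C) = X`, and `hid` gives `C.map τ ∈ f7_I S U V I'`.  The rest is the old proof with `A = C`, `c = 0`. -/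
theorem theta_ideal (h : LocN ct J S 𝓗 e x q U V d Y) {τ : K ≃+* K} (he : e.map τ = e)
    {θ : Module.End K (Fin n → K) ≃+* Module.End K (Fin n → K)} {σ : Equiv.Perm (Fin n)}
    (hθ : ThetaN (LcN J S U V) θ τ σ)
    (hθU : ∀ X, (U * LinearMap.toMatrix' X * V).map τ = U * LinearMap.toMatrix' (θ X) * V)
    (hid : ∀ I : Submodule K (Matrix ι ι K), I ≤ zlie S → adStable (zlie S) I →
      ∀ X ∈ I, ∀ Y ∈ I, (X * Y - Y * X).map τ ∈ I) :
    ∀ I, IsIdeal (LcN J S U V) I → ∀ X ∈ I, θ X ∈ I := by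
  intro I' hI X hX
  have hne : Nonempty (Fin n) := ⟨⟨0, h.pos⟩⟩
  have hmulp : ∀ A B : Matrix (Fin n) (Fin n) K, phi (A * B) = phi A * phi B := fun A B => map_mul phi A B
  have hcm : ∀ A C : Matrix ι ι K, C * e = e * C → cmp U V (A * C) = cmp U V A * cmp U V C :=
    fun A C hC => H76U.cmp_mul h.UV h.VU hC
  have hone : cmp U V (1 : Matrix ι ι K) = 1 := H76U.cmp_one h.UV h.VU
  have hbr : ∀ (A C : Matrix ι ι K) (a c : K), A * e = e * A → C * e = e * C →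
      phi (cmp U V (C * A - A * C)) =
        phi (cmp U V (C - c • 1)) * phi (cmp U V (A - a • 1)) -
          phi (cmp U V (A - a • 1)) * phi (cmp U V (C - c • 1)) := by
    intro A C a c hAe hCe
    rw [map_sub (cmp U V), hcm C A hAe, hcm A C hCe, map_sub (cmp U V), map_sub (cmp U V),
      map_smul (cmp U V), map_smul (cmp U V), hone, ← hmulp, ← hmulp, ← map_sub]
    congr 1
    simp only [mul_sub, sub_mul, smul_mul_assoc, mul_smul_comm, one_mul, mul_one]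
    module
  have hst : adStable (zlie S) (f7_I S U V I') := by
    intro C hC A hA
    obtain ⟨hA1, a, hA2⟩ := f7_mem.1 hA
    obtain ⟨hCe, c, hc⟩ := h.lie C hC
    obtain ⟨hAe, -⟩ := h.lie A hA1
    refine f7_mem.2 ⟨zlie_comm hC hA1, 0, ?_⟩
    have e1 : C * A - A * C - (0 : K) • (1 : Matrix ι ι K) = C * A - A * C := by
      rw [zero_smul, sub_zero]
    rw [e1, hbr A C a c hAe hCe]
    exact hI.2 _ hc _ hA2
  have hle : f7_I S U V I' ≤ zlie S := fun C hC => hC.1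
  have hpre : ∀ X ∈ I', ∃ C ∈ f7_I S U V I', ∃ c : K, phi (cmp U V (C - c • 1)) = X := by
    intro X hX
    obtain ⟨Z, hZ⟩ : ∃ Z : Matrix (Fin n) (Fin n) K, phi Z = X := (phi (ι := Fin n) (K := K)).surjective X
    have hXL := hI.1 hX
    have hXb : X ∈ H76U.Lb J S U V := hXL.1
    rw [← hZ] at hXb
    obtain ⟨A, hA, hAZ⟩ := H76U.mem_Lb.1 hXb
    obtain ⟨⟨c, C, hC, hAC⟩, -⟩ := hA
    have e1 : C - (-c) • (1 : Matrix ι ι K) = A := by
      rw [hAC]
      module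
    have e2 : phi (cmp U V (C - (-c) • 1)) = X := by
      rw [e1, hAZ, hZ]
    refine ⟨C, f7_mem.2 ⟨hC, -c, ?_⟩, -c, e2⟩
    rw [e2]
    exact hX
  have hspan := ideal_span h.ts.cmp hI hX
  induction hspan using Submodule.span_induction with
  | mem X hXs =>
    obtain ⟨X₁, hX₁, X₂, hX₂, rfl⟩ := hXs
    obtain ⟨C₁, hC₁, c₁, e₁⟩ := hpre X₁ hX₁
    obtain ⟨C₂, hC₂, c₂, e₂⟩ := hpre X₂ hX₂
    have hC₁e := (h.lie C₁ hC₁.1).1
    have hC₂e := (h.lie C₂ hC₂.1).1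
    obtain ⟨A, hA⟩ : ∃ A : Matrix ι ι K, A = C₁ * C₂ - C₂ * C₁ := ⟨_, rfl⟩
    have hX0 : X₁ * X₂ - X₂ * X₁ = phi (cmp U V A) := by
      rw [hA, hbr C₂ C₁ c₂ c₁ hC₂e hC₁e, e₁, e₂]
    have hAe : A * e = e * A := by
      have h1 : C₁ * C₂ * e = e * (C₁ * C₂) := by
        rw [Matrix.mul_assoc, hC₂e, ← Matrix.mul_assoc, hC₁e, Matrix.mul_assoc]
      have h2 : C₂ * C₁ * e = e * (C₂ * C₁) := by
        rw [Matrix.mul_assoc, hC₁e, ← Matrix.mul_assoc, hC₂e, Matrix.mul_assoc]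
      rw [hA, sub_mul, mul_sub, h1, h2]
    obtain ⟨-, c', hc'⟩ := f7_mem.1 (hid _ hle hst C₁ hC₁ C₂ hC₂)
    rw [← hA] at hc'
    have htm : ∀ M : Matrix (Fin n) (Fin n) K, LinearMap.toMatrix' (phi M) = M := fun M =>
      LinearMap.toMatrix'_toLin' M
    have hUAV : U * LinearMap.toMatrix' (X₁ * X₂ - X₂ * X₁) * V = A * e := by
      rw [hX0, htm, H76U.P_cmp h.UV h.VU hAe, Matrix.mul_assoc, ← h.UV]
    obtain ⟨W, hW⟩ : ∃ W : Matrix (Fin n) (Fin n) K, phi W = θ (X₁ * X₂ - X₂ * X₁) :=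
      (phi (ι := Fin n) (K := K)).surjective (θ (X₁ * X₂ - X₂ * X₁))
    have hθX : W = cmp U V (A.map τ) := by
      have h1 := hθU (X₁ * X₂ - X₂ * X₁)
      rw [hUAV, f7_map_mul, he, ← hW, htm] at h1
      have h2 : V * (U * W * V) * U = W := by
        calc V * (U * W * V) * U = (V * U) * W * (V * U) := by simp only [Matrix.mul_assoc]
          _ = W := by rw [h.VU, Matrix.one_mul, Matrix.mul_one]
      have h3 : V * (A.map τ * e) * U = cmp U V (A.map τ) := by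
        rw [H76U.cmp_apply]
        have h4 : e * U = U := H76U.p_P h.UV h.VU
        calc V * (A.map τ * e) * U = V * A.map τ * (e * U) := by simp only [Matrix.mul_assoc]
          _ = V * A.map τ * U := by rw [h4]
      rw [← h2, ← h1, h3]
    have hdec : θ (X₁ * X₂ - X₂ * X₁) = phi (cmp U V (A.map τ - c' • 1)) + c' • 1 := by
      rw [← hW, hθX]
      have e1 : A.map τ = (A.map τ - c' • (1 : Matrix ι ι K)) + c' • 1 := by module
      conv_lhs => rw [e1]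
      rw [map_add, map_add, map_smul, map_smul, hone, map_one]
    have hXI : X₁ * X₂ - X₂ * X₁ ∈ I' := hI.2 X₁ (hI.1 hX₁) X₂ hX₂
    have hθL : θ (X₁ * X₂ - X₂ * X₁) ∈ LcN J S U V := (hθ.mem _).2 (hI.1 hXI)
    have hsc : (c' • (1 : Module.End K (Fin n → K))) ∈ LcN J S U V := by
      have e1 : (c' • (1 : Module.End K (Fin n → K))) =
          θ (X₁ * X₂ - X₂ * X₁) - phi (cmp U V (A.map τ - c' • 1)) := by
        rw [hdec]
        abel
      rw [e1]
      exact Submodule.sub_mem _ hθL (hI.1 hc')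
    have hz : c' = 0 := by
      have h1 := h.ts.cmp.tr _ hsc
      rw [map_smul, LinearMap.trace_one, smul_eq_mul, mul_eq_zero] at h1
      rcases h1 with h1 | h1
      · exact h1
      · exact absurd h1 (by exact_mod_cast (finrank_pos (R := K) (M := Fin n → K)).ne')
    have e0 : c' • (1 : Module.End K (Fin n → K)) = 0 := by rw [hz, zero_smul]
    rw [hdec, e0, add_zero]
    exact hc'
  | zero =>
    rw [map_zero]
    exact I'.zero_mem
  | add a b ha hb iha ihb =>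
    have hle2 : Submodule.span K {W | ∃ X ∈ I', ∃ Y ∈ I', W = X * Y - Y * X} ≤ I' := by
      rw [Submodule.span_le]
      rintro W ⟨X, hX, Y, hY, rfl⟩
      exact hI.2 X (hI.1 hX) Y hY
    rw [map_add]
    exact I'.add_mem (iha (hle2 ha)) (ihb (hle2 hb))
  | smul c a ha iha =>
    have hle2 : Submodule.span K {W | ∃ X ∈ I', ∃ Y ∈ I', W = X * Y - Y * X} ≤ I' := by
      rw [Submodule.span_le]
      rintro W ⟨X, hX, Y, hY, rfl⟩
      exact hI.2 X (hI.1 hX) Y hY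
    rw [hθ.smul]
    exact I'.smul_mem _ (iha (hle2 ha))

theorem f7_funP (h : LocN ct J S 𝓗 e x q U V d Y) {τ : K ≃+* K}
    {θ : Module.End K (Fin n → K) ≃+* Module.End K (Fin n → K)} {σ : Equiv.Perm (Fin n)}
    (hθ : ThetaN (LcN J S U V) θ τ σ) {P : Module.End ℚ Y} (hP : Sp P)
    (hc : Comp (LcN J S U V) P) (hI : ∀ I, IsIdeal (LcN J S U V) I → ∀ X ∈ I, θ X ∈ I)
    {f : Fin n → ℚ} (hf : f ∈ Y) (hfP : FunP P f) :
    (fun k => f (σ⁻¹ k)) ∈ Y ∧ FunP P (fun k => f (σ⁻¹ k)) := by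
  classical
  have hne : Nonempty (Fin n) := ⟨⟨0, h.pos⟩⟩
  have hYL : Yo (LcN J S U V) = Y := h.yo
  obtain ⟨m, I, hF⟩ := H76T.exists_fam h.ts.cmp.lie h.ts.cmp.irr h.ts.cmp.tr
  have hf' : f ∈ Yo (LcN J S U V) := by rw [hYL]; exact hf
  obtain ⟨g, hg, hsum⟩ := exists_decomp h.ts.cmp hF hf'
  set T : Finset (Fin m) := Finset.univ.filter fun j => InP P (I j) with hT
  have hTg : ∀ i ∈ T, FunP P (g i) := by
    intro i hi
    have h1 : InP P (I i) := (Finset.mem_filter.1 hi).2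
    exact h1 (g i) (hYL ▸ (hg i).1) (hg i).2
  have hTg' : ∀ i ∈ Tᶜ, FunP (1 - P) (g i) := by
    intro i hi
    have h1 : ¬ InP P (I i) := by
      intro h2
      rw [Finset.mem_compl] at hi
      exact hi (Finset.mem_filter.2 ⟨Finset.mem_univ i, h2⟩)
    rcases hc m I hF i with h2 | h2
    · exact absurd h2 h1
    · exact h2 (g i) (hYL ▸ (hg i).1) (hg i).2
  have hsplit : f = ∑ i ∈ T, g i + ∑ i ∈ Tᶜ, g i := by
    rw [Finset.sum_add_sum_compl, hsum]
  have h1 : FunP P (∑ i ∈ Tᶜ, g i) := by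
    have h2 : ∑ i ∈ Tᶜ, g i = f - ∑ i ∈ T, g i := by
      rw [hsplit]
      abel
    rw [h2]
    intro k k' hk
    rw [Pi.sub_apply, Pi.sub_apply, hfP k k' hk, c3_fsum T hTg k k' hk]
  have h2 : FunP (1 - P) (∑ i ∈ Tᶜ, g i) := c3_fsum _ hTg'
  have h3 : ∑ i ∈ Tᶜ, g i ∈ Yo (LcN J S U V) := Submodule.sum_mem _ fun i _ => (hg i).1
  have h4 := FunP_both hP (Yo_sum h.ts.cmp h3) h1 h2
  rw [h4, add_zero] at hsplit
  have hdq : ∀ u : Fin n → ℚ, θ (dq u) = dq (fun k => u (σ⁻¹ k)) := by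
    intro u
    unfold dq
    rw [hθ.diag]
    congr 1
    funext k
    exact map_ratCast τ _
  have hgi : ∀ i ∈ T, (fun k => g i (σ⁻¹ k)) ∈ Y ∧ FunP P (fun k => g i (σ⁻¹ k)) := by
    intro i hi
    have h5 : (dq (fun k => g i (σ⁻¹ k)) : Module.End K (Fin n → K)) ∈ I i := by
      rw [← hdq]
      exact hI _ (hF.ideal i) _ (hg i).2
    have h6 : (fun k => g i (σ⁻¹ k)) ∈ Y := by
      rw [← hYL]
      exact h.ts.diag _ ((hF.ideal i).1 h5)
    exact ⟨h6, (Finset.mem_filter.1 hi).2 _ h6 h5⟩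
  have hsum' : (fun k => f (σ⁻¹ k)) = ∑ i ∈ T, fun k => g i (σ⁻¹ k) := by
    funext k
    rw [hsplit, Finset.sum_apply, Finset.sum_apply]
  rw [hsum']
  exact ⟨Submodule.sum_mem _ fun i hi => (hgi i hi).1, c3_fsum T fun i hi => (hgi i hi).2⟩

theorem f7_funP_pow (h : LocN ct J S 𝓗 e x q U V d Y) {τ : K ≃+* K}
    {θ : Module.End K (Fin n → K) ≃+* Module.End K (Fin n → K)} {σ : Equiv.Perm (Fin n)}
    (hθ : ThetaN (LcN J S U V) θ τ σ) {P : Module.End ℚ Y} (hP : Sp P)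
    (hc : Comp (LcN J S U V) P) (hI : ∀ I, IsIdeal (LcN J S U V) I → ∀ X ∈ I, θ X ∈ I)
    (N : ℕ) : ∀ {f : Fin n → ℚ}, f ∈ Y → FunP P f →
    (fun k => f ((σ⁻¹ ^ N) k)) ∈ Y ∧ FunP P (fun k => f ((σ⁻¹ ^ N) k)) := by
  induction N with
  | zero =>
    intro f hf hfP
    exact ⟨hf, hfP⟩
  | succ N ih =>
    intro f hf hfP
    obtain ⟨h1, h2⟩ := ih hf hfP
    have h3 := f7_funP h hθ hP hc hI h1 h2
    have e1 : (fun k => f ((σ⁻¹ ^ (N + 1)) k)) = fun k => (fun k => f ((σ⁻¹ ^ N) k)) (σ⁻¹ k) := by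
      funext k
      rw [pow_succ, Equiv.Perm.mul_apply]
    rw [e1]
    exact h3

theorem f7_half (h : LocN ct J S 𝓗 e x q U V d Y) {τ : K ≃+* K}
    {θ : Module.End K (Fin n → K) ≃+* Module.End K (Fin n → K)} {σ : Equiv.Perm (Fin n)}
    (hθ : ThetaN (LcN J S U V) θ τ σ) {P : Module.End ℚ Y} (hP : Sp P)
    (hc : Comp (LcN J S U V) P) (hI : ∀ I, IsIdeal (LcN J S U V) I → ∀ X ∈ I, θ X ∈ I)
    (k k' : Fin n) : cz P k k' ↔ cz P (σ k) (σ k') := by
  have hne : Nonempty (Fin n) := ⟨⟨0, h.pos⟩⟩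
  have hY0 : ∀ f ∈ Y, ∑ k, f k = 0 := by
    intro f hf
    rw [← h.yo] at hf
    exact Yo_sum h.ts.cmp hf
  have hPf : ∀ f : Y, FunP P (P f : Fin n → ℚ) := by
    intro f a b hab
    exact hab f
  have hfix : ∀ f : Y, FunP P (f : Fin n → ℚ) → P f = f := fun f hf => (FunP_iff hP hY0 f).1 hf
  constructor
  · intro hk f
    -- `P f ∘ σ` is in `Y` and depends only on the first coordinate
    have h1 : ∀ k, (P f : Fin n → ℚ) (σ k) = (P f : Fin n → ℚ) ((σ⁻¹ ^ (orderOf σ - 1)) k) := by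
      intro k
      have h2 : σ⁻¹ ^ (orderOf σ - 1) = σ := by
        have h3 : σ⁻¹ ^ (orderOf σ - 1) * σ⁻¹ = 1 := by
          rw [← pow_succ, Nat.sub_add_cancel (orderOf_pos σ), inv_pow, pow_orderOf_eq_one, inv_one]
        exact mul_inv_eq_one.1 h3
      rw [h2]
    rw [h1 k, h1 k']
    obtain ⟨h4, h5⟩ := f7_funP_pow h hθ hP hc hI (orderOf σ - 1) (P f).2 (hPf f)
    exact h5 k k' hk
  · intro hk f
    obtain ⟨h4, h5⟩ := f7_funP h hθ hP hc hI (P f).2 (hPf f)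
    have h6 := h5 (σ k) (σ k') hk
    have e : ∀ k, σ⁻¹ (σ k) = k := fun k => σ.symm_apply_apply k
    change (P f : Fin n → ℚ) (σ⁻¹ (σ k)) = (P f : Fin n → ℚ) (σ⁻¹ (σ k')) at h6
    rw [e, e] at h6
    exact h6

/-- PROOF. `Y₁ = {f ∈ Y | FunP P f}` is the range of `P` (`FunP_iff`), so `cz P k k'` iff `f k = f k'` for all `f ∈ Y₁`.  `exists_fam`, `exists_decomp`: `f ∈ Y₁` is the sum of the `g j` with `InP P (I j)`
(see `dq_AZ`), `θ (dq (g j)) = dq (g j ∘ σ⁻¹) ∈ I j`, so `g j ∘ σ⁻¹` is in `Y` and depends only on the first coordinate.  So `f ↦ f ∘ σ⁻¹` maps `Y₁` into `Y₁`; it is injective and `Y₁` is finite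
dimensional, so it is bijective and `f ∘ σ ∈ Y₁`, too.  This gives the first half of `StabP`; the second half is the same for `1 - P` (`Comp.compl`, `Sp.compl`). -/
theorem stab_of_theta (h : LocN ct J S 𝓗 e x q U V d Y) {τ : K ≃+* K}
    {θ : Module.End K (Fin n → K) ≃+* Module.End K (Fin n → K)} {σ : Equiv.Perm (Fin n)}
    (hθ : ThetaN (LcN J S U V) θ τ σ) {P : Module.End ℚ Y} (hP : Sp P)
    (hc : Comp (LcN J S U V) P) (hI : ∀ I, IsIdeal (LcN J S U V) I → ∀ X ∈ I, θ X ∈ I) :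
    StabP P σ := by
  have hne : Nonempty (Fin n) := ⟨⟨0, h.pos⟩⟩
  exact ⟨f7_half h hθ hP hc hI, f7_half h hθ hP.compl hc.compl hI⟩

end Pool.Agent.H76Y
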