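import Pool.Agent.Lib.H76Y.G10
import Pool.Agent.Lib.H76Y.W11a
import Pool.Agent.Lib.H76Q.BL3

/-!
# the Lie algebra of a component
-/

set_option autoImplicit false
set_option linter.unusedSectionVars false
namespace Pool.Agent.H76Y
open Pool.Agent.H76P Pool.Agent.H76V Pool.Agent.H76Q
open Module Matrix Polynomial Pool.Agent.H53Toric
open Pool.Agent.H76P
open Pool.Agent.H76T (IsIdeal Fam Lc)
open Pool.Agent.H76U (cmp preL IsSplitting)
open Pool.Agent.H76RM (spanK similD)

variable {ι : Type*} [Fintype ι] [DecidableEq ι] {ψ : Matrix ι ι ℚ}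
    {D : Subalgebra ℚ (Matrix ι ι ℚ)} {M : Type*} [Field M] [NumberField M]
    {m : ℕ} {bar : Fin m → Fin m} {e : Fin m → Matrix ι ι M} {G : Type*} [Group G]
    {ρ : ∀ (l : ℕ) [Fact l.Prime], G →* Matrix.GeneralLinearGroup ι ℚ_[l]}
    {p : ℕ} [Fact p.Prime] {σ : G} {q : ℚ} {F : Fin m → M[X]}
    {φ μ ν : Matrix ι ι (AlgebraicClosure ℚ_[p])} {v : AlgebraicClosure ℚ_[p] → ℚ}
    {Δ : Set (AlgebraicClosure ℚ_[p] ≃+* AlgebraicClosure ℚ_[p])}
    {Ω : Type*} [Field Ω] [CharZero Ω] [IsAlgClosed Ω] [Algebra.IsAlgebraic ℚ Ω] {j : M →+* Ω}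
    {R : Finset Ω} {N : Set ℕ} (C : Core3 ψ D bar e ρ p σ q F φ μ ν v Δ j R N)

include C


/-- The rank of the idempotent is even and positive. -/
theorem Core3.rank_even (b : Fin m) : 0 < (e b).rank ∧ Even (e b).rank := by
  obtain ⟨a, ha, hroot⟩ := C.enum b
  obtain ⟨h1, -⟩ := C.w9_prod b ha hroot
  obtain ⟨i⟩ := w9_exists_i p Ω
  refine ⟨h1, ?_⟩
  rw [← C.bal p μ C.crys.mu (i.comp j) b]
  exact even_two_mul _

/-- The component theorem: if the decompositions of the set of embeddings are excluded, the Lie algebra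
of the component is the whole symplectic algebra if the component is its own conjugate, and contains an
operator of rank one if not. -/
theorem Core3.comp (part : ∀ b (k : ℕ) (c : Ω → Fin k) (A : Fin k → ℕ), 2 ≤ k →
      PartN D j (bar b = b) (e b) (e (bar b)) (F b) q R c A → (e b).rank ≠ ∏ x, A x)
    (two : ∀ b (k : ℕ), 4 ≤ k → (bar b = b ∨ Even k) → (e b).rank ≠ 2 ^ k)
    (binom : ∀ b (k : ℕ), bar b = b → 3 ≤ k → Odd k → (e b).rank ≠ k.centralBinom) (b : Fin m) :
    ∃ a : Fin (e b).rank → Ω, Function.Injective a ∧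
      (∀ y : Ω, (F b).eval₂ j y = 0 ↔ ∃ k, y = a k) ∧
      ∀ (K : Type) [Field K] [CharZero K] [IsAlgClosed K]
        (L : Submodule K (Module.End K (Fin (e b).rank → K))), TM L → Yo L = YS a →
        (bar b = b → ∀ J : Matrix (Fin (e b).rank) (Fin (e b).rank) K, Jᵀ = -J → IsUnit J.det →
          (∀ X ∈ L, adjE J X = -X) → ∀ X, adjE J X = -X → X ∈ L) ∧
        (bar b ≠ b → NsL L → ∃ N ∈ L, N * N = 0 ∧ finrank K (LinearMap.range N) = 1) := by
  obtain ⟨a, ha, hroot⟩ := C.enum b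
  obtain ⟨hn, hev⟩ := C.rank_even b
  obtain ⟨-, ha0, -, -⟩ := C.w9_prod b ha hroot
  have hsep : ∀ k l, k ≠ l → ∃ g ∈ YS a, g k ≠ g l :=
    YS_sep ha0 fun k l n hn h => ha (C.tor b ((hroot _).2 ⟨k, rfl⟩) ((hroot _).2 ⟨l, rfl⟩) hn h)
  have hs : ∀ g ∈ YS a, ∑ k, g k = 0 := fun g hg => hg.1
  obtain ⟨FF, hFF, horth, hsum, hperm, hone⟩ := exists_blocksN hn hs (bar b = b)
  have : Nonempty (Fin (e b).rank) := ⟨⟨0, hn⟩⟩
  have hF1 : FF.card = 1 := by
    rcases Nat.lt_or_ge FF.card 2 with h5 | h5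
    · interval_cases h6 : FF.card
      · exfalso
        have hcard : (e b).rank = 1 := by
          have h7 := prod_nz hs hsep (fun P hP => (hFF P hP).1) horth hsum
          rw [Finset.card_eq_zero.1 h6, Finset.prod_empty, Fintype.card_fin] at h7
          exact h7
        rw [hcard] at hev
        exact absurd hev (by decide)
      · rfl
    · exfalso
      obtain ⟨c, A, h7, h8⟩ := C.partd b ha hroot hn hFF horth hsum hperm (by omega)
      exact part b FF.card c A h5 h7 h8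
  have hB := hone hF1
  refine ⟨a, ha, hroot, fun K _ _ _ L hT hY => ⟨fun hb J hJ hJd hsk X hX => ?_, fun hb hns => ?_⟩⟩
  · have hTS : TS L J := ⟨⟨hT.cmp.lie, hT.cmp.irr, hJ, hJd, hsk, hT.cmp.gen⟩, hT.diag, hT.sep⟩
    refine full_of_one hTS hY hB (fun k hk => ?_) (fun k hk hk2 => ?_) hX
    · rw [Fintype.card_fin]
      exact two b k hk (Or.inl hb)
    · rw [Fintype.card_fin]
      exact binom b k hb hk hk2
  · refine one_ns hT hns hY hB fun k hk hk2 => ?_
    rw [Fintype.card_fin]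
    exact two b k hk (Or.inr hk2)

end Pool.Agent.H76Y
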