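import Pool.Agent.Lib.H76Y.AS3
import Pool.Agent.Lib.H76Y.W2
import Pool.Agent.Lib.H76Y.W11
import Pool.Agent.Lib.H76Q.G12

/-!
# AS4: the theorem of the third version over an abstract group
-/

set_option autoImplicit false
set_option linter.unusedSectionVars false
namespace Pool.Agent.H76Y
open Module Matrix Polynomial Pool.Agent.H53Toric
open Pool.Agent.H76P
open Pool.Agent.H76U (cmp preL Lb Split4 IsSplitting typeGrp split4_of)
open Pool.Agent.H76RM (van spanK similD)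
open Pool.Agent.H76Q (tgen YS FrobT)

/-- A symplectic component of the Lie algebra contains an operator of rank one. -/
theorem as4_rank1 {K : Type*} [Field K] [CharZero K] {n : ℕ} (hn : 0 < n)
    {J : Matrix (Fin n) (Fin n) K} (hJ : Jᵀ = -J) (hdet : IsUnit J.det) :
    ∃ X : Module.End K (Fin n → K), adjE J X = -X ∧ finrank K (LinearMap.range X) = 1 := by
  have : Nonempty (Fin n) := ⟨⟨0, hn⟩⟩
  set d : Fin n → K := Pi.single ⟨0, hn⟩ 1 with hd
  have hd0 : d ≠ 0 := by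
    intro h0
    have := congrFun h0 ⟨0, hn⟩
    rw [hd, Pi.single_eq_same] at this
    exact one_ne_zero this
  refine ⟨phi (Matrix.vecMulVec d (J *ᵥ d)), (skew_iff hdet _).2 (trv_skew hJ d), ?_⟩
  change (Matrix.vecMulVec d (J *ᵥ d)).rank = 1
  apply le_antisymm (Matrix.rank_vecMulVec_le _ _)
  apply Pool.Agent.H76T.rank_pos_of_ne
  intro h0
  have h1 : phi (Matrix.vecMulVec d (J *ᵥ d)) = 0 := by rw [h0, map_zero]
  rw [phi_trv] at h1
  exact Pool.Agent.H76RM.trv_ne (om_nd2 hJ hdet) (om_alt hJ) hd0 h1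

variable {ι : Type*} [Fintype ι] [DecidableEq ι] {ψ : Matrix ι ι ℚ}
    {D : Subalgebra ℚ (Matrix ι ι ℚ)} {M : Type*} [Field M] [NumberField M]
    {m : ℕ} {bar : Fin m → Fin m} {e : Fin m → Matrix ι ι M} {G : Type*} [Group G]
    {ρ : ∀ (l : ℕ) [Fact l.Prime], G →* Matrix.GeneralLinearGroup ι ℚ_[l]}
    {p : ℕ} [Fact p.Prime] {σ : G} {q : ℚ} {F : Fin m → M[X]}
    {φ μ ν : Matrix ι ι (AlgebraicClosure ℚ_[p])} {v : AlgebraicClosure ℚ_[p] → ℚ}
    {Δ : Set (AlgebraicClosure ℚ_[p] ≃+* AlgebraicClosure ℚ_[p])}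
    {Ω : Type*} [Field Ω] [CharZero Ω] [IsAlgClosed Ω] [Algebra.IsAlgebraic ℚ Ω] {j : M →+* Ω}
    {R : Finset Ω} {N : Set ℕ}

/-- The local data at every prime and for every subgroup. -/
theorem Core3.loc (C : Core3 ψ D bar e ρ p σ q F φ μ ν v Δ j R N) (b : Fin m)
    {a : Fin (e b).rank → Ω} (ha : Function.Injective a)
    (hroot : ∀ y : Ω, (F b).eval₂ j y = 0 ↔ ∃ k, y = a k)
    (l : ℕ) [Fact l.Prime] (i : Ω →+* AlgebraicClosure ℚ_[l])
    {H₀ : Subgroup G} (hfin : H₀.FiniteIndex) (hprime : (van (img (AlgebraicClosure ℚ_[l]) (ρ l) H₀)).IsPrime) :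
    ∃ (x : Matrix ι ι (AlgebraicClosure ℚ_[l])) (U : Matrix ι (Fin (e b).rank) (AlgebraicClosure ℚ_[l]))
      (V : Matrix (Fin (e b).rank) ι (AlgebraicClosure ℚ_[l])),
      LocN (bar b = b) (ψ.map (algebraMap ℚ (AlgebraicClosure ℚ_[l]))) (img (AlgebraicClosure ℚ_[l]) (ρ l) H₀)
        (properProj (AlgebraicClosure ℚ_[l]) (ρ l)) ((e b).map (i.comp j)) x
        (algebraMap ℚ (AlgebraicClosure ℚ_[l]) q) U V (fun k => i (a k)) (YS a) := by
  by_cases hl : l = p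
  · subst hl
    exact ⟨φ, mk_loc C.hψ C.hψ0 D (ρ l) (C.lin l) (C.sim l) (C.semis l) (C.commt l) (C.gen l) C.hspl
      C.frobp C.crys.phigen C.multp hfin hprime j i b (fun h hh => by rw [C.bal l h hh (i.comp j) b]) ha hroot
      (fun k l' N hN h => ha (C.tor b ((hroot _).2 ⟨k, rfl⟩) ((hroot _).2 ⟨l', rfl⟩) hN h))⟩
  · have hmult := sim_map (K := AlgebraicClosure ℚ_[l]) (C.mult l hl)
    have h1 : algebraMap ℚ_[l] (AlgebraicClosure ℚ_[l]) (algebraMap ℚ ℚ_[l] q) =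
        algebraMap ℚ (AlgebraicClosure ℚ_[l]) q := by simp
    rw [h1] at hmult
    exact ⟨_, mk_loc C.hψ C.hψ0 D (ρ l) (C.lin l) (C.sim l) (C.semis l) (C.commt l) (C.gen l) C.hspl
      (C.frob l hl) (C.gen l σ) hmult hfin hprime j i b (fun h hh => by rw [C.bal l h hh (i.comp j) b]) ha hroot
      (fun k l' N hN h => ha (C.tor b ((hroot _).2 ⟨k, rfl⟩) ((hroot _).2 ⟨l', rfl⟩) hN h))⟩

/-- **The third version over an abstract group**: from the Lie algebras of the components (the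
conclusion of `Core3.comp`) to the monodromy groups at every prime. -/
theorem Core3.final_of (C : Core3 ψ D bar e ρ p σ q F φ μ ν v Δ j R N)
    (hcomp : ∀ b, ∃ a : Fin (e b).rank → Ω, Function.Injective a ∧
      (∀ y : Ω, (F b).eval₂ j y = 0 ↔ ∃ k, y = a k) ∧
      ∀ (K : Type) [Field K] [CharZero K] [IsAlgClosed K]
        (L : Submodule K (Module.End K (Fin (e b).rank → K))), TM L → Yo L = YS a →
        (bar b = b → ∀ J : Matrix (Fin (e b).rank) (Fin (e b).rank) K, Jᵀ = -J → IsUnit J.det →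
          (∀ X ∈ L, adjE J X = -X) → ∀ X, adjE J X = -X → X ∈ L) ∧
        (bar b ≠ b → NsL L → ∃ N ∈ L, N * N = 0 ∧ finrank K (LinearMap.range N) = 1))
    (l : ℕ) [Fact l.Prime] (i : M →+* AlgebraicClosure ℚ_[l]) (H : Subgroup G) (hH : H.FiniteIndex) :
    monodromy (AlgebraicClosure ℚ_[l]) (ρ l) H = balGrp (AlgebraicClosure ℚ_[l]) ψ D (fun b => (e b).map i) := by
  refine C.mono l i ?_ H hH
  intro H₀ hfin hprime b
  obtain ⟨i', rfl⟩ := Pool.Agent.H76Q.g12_ext j i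
  obtain ⟨a, ha, hroot, hc⟩ := hcomp b
  obtain ⟨x, U, V, hL⟩ := C.loc b ha hroot l i' hfin hprime
  obtain ⟨hsp, hsl⟩ := hc _ _ hL.ts hL.yo
  have hspl : IsSplitting D ψ bar (fun b => (e b).map (i'.comp j)) := C.hspl.map (i'.comp j)
  have hι : Nonempty ι := by
    by_contra hemp
    rw [not_nonempty_iff] at hemp
    apply hspl.ne_zero b
    ext i
    exact (hemp.false i).elim
  have hgen : img (AlgebraicClosure ℚ_[l]) (ρ l) ⊤ ⊆ zar (Submonoid.closure {m | ∃ h ∈ properProj (AlgebraicClosure ℚ_[l]) (ρ l),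
      ∃ t : AlgebraicClosure ℚ_[l], t ≠ 0 ∧ m = 1 + (t - 1) • h} : Set (Matrix ι ι (AlgebraicClosure ℚ_[l]))) := by
    rintro _ ⟨γ, -, rfl⟩
    exact subset_zar _ (C.gen l γ)
  have g := Pool.Agent.H76V.mk_sh (H' := ⊤) C.hψ C.hψ0 D (ρ l) (C.lin l) (C.sim l) (C.semis l) (C.commt l)
    (𝓗 := properProj (AlgebraicClosure ℚ_[l]) (ρ l))
    (fun x hx => hx.1) (fun x hx => hx.2) inferInstance hgen hfin hprime
  have hX : ∃ X ∈ LcN (ψ.map (algebraMap ℚ (AlgebraicClosure ℚ_[l]))) (img (AlgebraicClosure ℚ_[l]) (ρ l) H₀) U V,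
      finrank (AlgebraicClosure ℚ_[l]) (LinearMap.range X) = 1 := by
    by_cases hb : bar b = b
    · obtain ⟨J', h1, h2, h3⟩ := hL.cls.1 hb
      obtain ⟨X, hX1, hX2⟩ := as4_rank1 hL.pos h1 h2
      exact ⟨X, hsp hb J' h1 h2 h3 X hX1, hX2⟩
    · obtain ⟨X, hX1, -, hX2⟩ := hsl hb (hL.cls.2 hb)
      exact ⟨X, hX1, hX2⟩
  obtain ⟨X, hX1, hX2⟩ := hX
  exact as2_sl (split4_of hspl) g hL.UV hL.VU hX1 hX2

/-- **The third version over an abstract group.** -/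
theorem Core3.final (C : Core3 ψ D bar e ρ p σ q F φ μ ν v Δ j R N)
    (part : ∀ b (k : ℕ) (c : Ω → Fin k) (A : Fin k → ℕ), 2 ≤ k →
      PartN D j (bar b = b) (e b) (e (bar b)) (F b) q R c A → (e b).rank ≠ ∏ x, A x)
    (two : ∀ b (k : ℕ), 4 ≤ k → (bar b = b ∨ Even k) → (e b).rank ≠ 2 ^ k)
    (binom : ∀ b (k : ℕ), bar b = b → 3 ≤ k → Odd k → (e b).rank ≠ k.centralBinom)
    (l : ℕ) [Fact l.Prime] (i : M →+* AlgebraicClosure ℚ_[l]) (H : Subgroup G) (hH : H.FiniteIndex) :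
    monodromy (AlgebraicClosure ℚ_[l]) (ρ l) H = balGrp (AlgebraicClosure ℚ_[l]) ψ D (fun b => (e b).map i) :=
  C.final_of (fun b => C.comp part two binom b) l i H hH

end Pool.Agent.H76Y
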