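import Pool.Agent.Lib.H76Y.A8
import Pool.Agent.Lib.H76Y.EN2

/-!
# balance is automatic for a component which is its own conjugate
-/

set_option autoImplicit false
set_option linter.unusedSectionVars false
namespace Pool.Agent.H76Y
open Module Matrix Polynomial Pool.Agent.H53Toric
open Pool.Agent.H76P Pool.Agent.H76Q
open Pool.Agent.H76U (cmp)

variable {ι : Type*} [Fintype ι] [DecidableEq ι] {K : Type*} [Field K] [CharZero K]

theorem bal_aux {n : ℕ} {J e h : Matrix ι ι K} (hJ : IsUnit J.det) (hadj : eᵀ * J = J * e)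
    (hh : h * h = h) (hhe : h * e = e * h) (hs : hᵀ * J + J * h = J)
    {P : Matrix ι (Fin n) K} {Q : Matrix (Fin n) ι K} (hPQ : e = P * Q) (hQP : Q * P = 1) :
    2 * (h * e).rank = n := by
  have h1 : (cmp P Q h).rank = (h * e).rank := EN.rank_cmp hPQ hQP hhe
  have hA : cmp P Q h * cmp P Q h = cmp P Q h := by
    rw [← Pool.Agent.H76U.cmp_mul hPQ hQP hhe, hh]
  have hJb : IsUnit (Pᵀ * J * P).det := Pool.Agent.H76U.det_cmp hPQ hQP hadj hJ
  have h2 := Pool.Agent.H76U.cmp_sim hPQ hQP hadj hhe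
  rw [hs] at h2
  obtain ⟨A, hAdef⟩ : ∃ A, A = cmp P Q h := ⟨_, rfl⟩
  obtain ⟨J', hJ'⟩ : ∃ J', J' = Pᵀ * J * P := ⟨_, rfl⟩
  rw [← hAdef] at h1 hA h2
  rw [← hJ'] at hJb h2
  have h3 : J'⁻¹ * Aᵀ * J' + A = 1 := by
    have h4 := congrArg (fun z => J'⁻¹ * z) h2
    simp only [Matrix.mul_add, ← Matrix.mul_assoc, Matrix.nonsing_inv_mul _ hJb, Matrix.one_mul] at h4
    exact h4
  have h4 : 2 * A.trace = (n : K) := by
    have h5 := congrArg Matrix.trace h3
    rw [Matrix.trace_add, Matrix.mul_assoc, Matrix.trace_mul_comm, Matrix.mul_assoc,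
      Matrix.mul_nonsing_inv _ hJb, Matrix.mul_one, Matrix.trace_transpose, Matrix.trace_one,
      Fintype.card_fin] at h5
    rw [two_mul]
    exact h5
  have h5 : A.trace = (A.rank : K) := by
    have h6 : phi A * phi A = phi A := by rw [← map_mul, hA]
    have h7 := trace_idem h6
    have h8 : LinearMap.trace K (Fin n → K) (phi A) = A.trace := Matrix.trace_toLin'_eq A
    rw [h8] at h7
    exact h7
  rw [h5, h1] at h4
  exact_mod_cast h4

/-- If `J` is nondegenerate, `e` is an idempotent which is its own adjoint, and `h` is an idempotent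
which commutes with `e` and has the adjoint `1 - h`, then `2 rank (h e) = rank e`. -/
theorem bal_self {J e h : Matrix ι ι K} (hJ : IsUnit J.det) (he : e * e = e) (hadj : eᵀ * J = J * e)
    (hh : h * h = h) (hhe : h * e = e * h) (hs : hᵀ * J + J * h = J) :
    2 * (h * e).rank = e.rank := by
  obtain ⟨P, Q, hPQ, hQP⟩ := Pool.Agent.H76U.idem_factor he
  exact bal_aux hJ hadj hh hhe hs hPQ hQP

end Pool.Agent.H76Y
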