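import Pool.Agent.Lib.H76Y.NS
import Pool.Agent.Lib.H76V.VC1
import Pool.Agent.Lib.H76T.TC6

/-!
# AS1: a matrix of square zero whose part in a component has rank one
-/

set_option autoImplicit false
set_option linter.unusedSectionVars false
namespace Pool.Agent.H76Y
open Module Matrix Polynomial Pool.Agent.H53Toric
open Pool.Agent.H76P
open Pool.Agent.H76T (IsIdeal Fam Lc mem_Lc)
open Pool.Agent.H76V (Cmp SH)
open Pool.Agent.H76U (cmp preL Lb Split4)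
open Pool.Agent.H76RM (zar_commute van)

variable {ι : Type*} [Fintype ι] [DecidableEq ι] {K : Type*} [Field K] [CharZero K]

variable {B : Type*} [Fintype B] [DecidableEq B]
  {J : Matrix ι ι K} {DD : Submodule K (Matrix ι ι K)}
  {bar : B → B} {e : B → Matrix ι ι K} (h : Split4 J DD bar e) {b : B}
  {S : Set (Matrix ι ι K)} {𝓗 : Set (Matrix ι ι K)} {Γ : Type*} [Group Γ] {r : Γ →* Matrix ι ι K}
  (g : SH S J DD r 𝓗)

theorem as1_ne {A : Matrix ι ι K} (hA : A ≠ 0) : ∃ v, A *ᵥ v ≠ 0 := by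
  by_contra hcon
  push Not at hcon
  apply hA
  apply (phi (ι := ι) (K := K)).injective
  apply LinearMap.ext
  intro v
  rw [phi_apply, hcon, map_zero]; rfl

include h g in
/-- `A` in `preL` with `A e_b` of rank one gives an `M` of square zero, `M e_b` of rank one. -/
theorem as1_seed (hJ : Jᵀ = -J) (hdet : IsUnit J.det) (hmul : ∀ a ∈ S, ∀ c ∈ S, a * c ∈ S)
    (hprime : (van S).IsPrime) (hr : ∀ s ∈ S, ∃ γ, r γ = s) {x : Matrix ι ι K} (hx : x ∈ 𝓗)
    (hx1 : x * e b ≠ 0) (hx2 : x * e (bar b) ≠ 0) {A : Matrix ι ι K} (hA : A ∈ preL J S)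
    (hA1 : (A * e b).rank = 1) :
    ∃ M ∈ zlie S, M * M = 0 ∧ Mᵀ * J + J * M = 0 ∧ (M * e b).rank = 1 := by
  have hxL : x ∈ preL J S := ⟨⟨0, x, g.hz x hx, by rw [zero_smul, add_zero]⟩, 1, by rw [g.hs x hx, one_smul]⟩
  have hxx := g.hi x hx
  have hxe : ∀ c, x * e c = e c * x := fun c => Pool.Agent.H76V.preL_ec (b := c) h g hxL
  have hAe : A * e b = e b * A := Pool.Agent.H76V.preL_ec (b := b) h g hA
  obtain ⟨d, hd⟩ := hA.2
  -- the adjoint of `A`
  have hAadj : ∀ v w, om J (A *ᵥ v) w = om J v ((d • (1 : Matrix ι ι K) - A) *ᵥ w) := by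
    intro v w
    have h1 : Aᵀ * J = J * (d • (1 : Matrix ι ι K) - A) := by
      rw [mul_sub, mul_smul_comm, mul_one]
      exact eq_sub_of_add_eq hd
    rw [om_apply, om_apply, Matrix.mulVec_mulVec _ J _, ← h1, ← Matrix.mulVec_mulVec _ Aᵀ J,
      Matrix.dotProduct_mulVec v, Matrix.vecMul_transpose]
  have hxadj : ∀ v w, om J (x *ᵥ v) w = om J v ((1 - x) *ᵥ w) := by
    intro v w
    have h1 : xᵀ * J = J * (1 - x) := by
      rw [mul_sub, mul_one]
      exact eq_sub_of_add_eq (g.hs x hx)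
    rw [om_apply, om_apply, Matrix.mulVec_mulVec _ J _, ← h1, ← Matrix.mulVec_mulVec _ xᵀ J,
      Matrix.dotProduct_mulVec v, Matrix.vecMul_transpose]
  have hanti : ∀ v w, om J v w = - om J w v := omega_antisymm (om_alt hJ)
  -- the range
  obtain ⟨⟨u, hu⟩, hu0, hspan⟩ := finrank_eq_one_iff'.1 (show finrank K (LinearMap.range (A * e b).mulVecLin) = 1 from hA1)
  have hu0' : u ≠ 0 := fun h0 => hu0 (Subtype.ext h0)
  have hline : ∀ v, ∃ c : K, (A * e b) *ᵥ v = c • u := by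
    intro v
    obtain ⟨c, hc⟩ := hspan ⟨(A * e b) *ᵥ v, v, rfl⟩
    exact ⟨c, (congrArg Subtype.val hc).symm⟩
  have hub : e b *ᵥ u = u := by
    obtain ⟨v, hv⟩ := hu
    have hv' : (A * e b) *ᵥ v = u := hv
    rw [← hv', Matrix.mulVec_mulVec, hAe, ← Matrix.mul_assoc, h.idem]
  -- the test vectors
  obtain ⟨v₁, hv₁⟩ := as1_ne hx1
  obtain ⟨v₂, hv₂⟩ := as1_ne hx2
  have hAe0 : A * e b ≠ 0 := by
    intro h0
    rw [h0, Matrix.rank_zero] at hA1
    exact zero_ne_one hA1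
  obtain ⟨v₃, hv₃⟩ := as1_ne hAe0
  obtain ⟨t, ht⟩ : ∃ t, om J ((A * e b) *ᵥ v₃) t ≠ 0 := by
    by_contra hcon
    push Not at hcon
    apply hv₃
    apply om_nd hdet
    intro w
    rw [hanti, hcon, neg_zero]
  set w : ι → K := e (bar b) *ᵥ ((d • (1 : Matrix ι ι K) - A) *ᵥ t) with hw
  have hAw : ∀ v, om J ((A * e b) *ᵥ v) t = om J v w := by
    intro v
    rw [← Matrix.mulVec_mulVec, hAadj, h.self, hw]
  have hw0 : w ≠ 0 := by
    intro h0
    apply ht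
    rw [hAw, h0, map_zero]
  have hwb : e (bar b) *ᵥ w = w := by rw [hw, Matrix.mulVec_mulVec, h.idem]
  set z₁ := (x * e b) *ᵥ v₁ with hz₁
  set z₂ := (x * e (bar b)) *ᵥ v₂ with hz₂
  have hz₁b : e b *ᵥ z₁ = z₁ := by
    rw [hz₁, Matrix.mulVec_mulVec, ← mul_assoc, ← hxe, mul_assoc, h.idem]
  have hz₂b : e (bar b) *ᵥ z₂ = z₂ := by
    rw [hz₂, Matrix.mulVec_mulVec, ← mul_assoc, ← hxe, mul_assoc, h.idem]
  have hfix : ∀ c, ∀ v : ι → K, e c *ᵥ v = v → (∑ c, phi (e c)) v = v := by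
    intro c v hv
    rw [LinearMap.sum_apply, Finset.sum_eq_single c]
    · rw [phi_apply, hv]
    · intro c' _ hcc
      rw [phi_apply, ← hv, Matrix.mulVec_mulVec, h.orth1 hcc, Matrix.zero_mulVec]
    · intro hb
      exact absurd (Finset.mem_univ _) hb
  have hex : ∀ c, ∀ v z : ι → K, e c *ᵥ v = v → e (bar c) *ᵥ z = z → v ≠ 0 → z ≠ 0 →
      ∃ s ∈ S, om J z (s *ᵥ v) ≠ 0 := by
    intro c v z hv hz hv0 hz0
    by_contra hcon
    push Not at hcon
    rcases Pool.Agent.H76U.exists_falt4 h hJ hdet g.one hmul g.semis g.commt z v (hfix _ _ hz) (hfix _ _ hv)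
      (fun s hs => by rw [hanti, hcon s hs, neg_zero]) c with h1 | h1
    · rw [phi_apply, hv] at h1
      exact hv0 h1
    · rw [phi_apply, hz] at h1
      exact hz0 h1
  have hex1 := hex (bar b) w z₁ hwb (by rw [h.barbar]; exact hz₁b) hw0 hv₁
  have hex2 := hex b u z₂ hub hz₂b hu0' hv₂
  obtain ⟨s, hs, hs1, hs2, -⟩ := Pool.Agent.H76RM.gen_of_prime hprime hex1 hex2 hex2
  obtain ⟨γ, rfl⟩ := hr s hs
  obtain ⟨c, hc0, hc⟩ := g.sim γ
  have hsim : ∀ v w, om J (r γ *ᵥ v) (r γ *ᵥ w) = c * om J v w := by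
    intro v w
    rw [om_mul, hc, om_apply, om_apply, Matrix.smul_mulVec, dotProduct_smul, smul_eq_mul]
  obtain ⟨⟨c₁, C, hC, hAC⟩, -⟩ := hA
  obtain ⟨hy1, hy2⟩ := g.preL_r γ ⟨c₁, C, hC, hAC⟩ hd
  set y := r γ * A * r γ⁻¹ with hy
  have hyL : y ∈ preL J S := ⟨hy1, d, hy2⟩
  obtain ⟨hM1, hM2⟩ := Pool.Agent.H76U.preL_hodge hxL hyL hxx
  refine ⟨y * x - x * y * x, hM1, ?_, hM2, ?_⟩
  · calc (y * x - x * y * x) * (y * x - x * y * x) = y * x * y * x - y * (x * x) * y * x -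
              x * y * x * y * x + x * y * (x * x) * y * x := by noncomm_ring
          _ = 0 := by rw [hxx]; abel
  have hre : ∀ γ', r γ' * e b = e b * r γ' := fun γ' => g.rD γ' _ (h.mem b)
  have hMe : (y * x - x * y * x) * e b = ((1 - x) * r γ) * (A * e b) * (r γ⁻¹ * x) := by
    calc (y * x - x * y * x) * e b = (1 - x) * (r γ * A * r γ⁻¹) * (x * e b) := by
          rw [hy]; noncomm_ring
      _ = (1 - x) * r γ * A * (r γ⁻¹ * e b) * x := by rw [hxe b]; noncomm_ring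
      _ = _ := by rw [hre]; noncomm_ring
  have hle : ((y * x - x * y * x) * e b).rank ≤ 1 := by
    rw [hMe]
    calc _ ≤ (((1 - x) * r γ) * (A * e b)).rank := Matrix.rank_mul_le_left _ _
      _ ≤ (A * e b).rank := Matrix.rank_mul_le_right _ _
      _ = 1 := hA1
  have hne : (y * x - x * y * x) * e b ≠ 0 := by
    intro h0
    have h1 : ((y * x - x * y * x) * e b) *ᵥ (e b *ᵥ v₁) = 0 := by rw [h0, Matrix.zero_mulVec]
    obtain ⟨a, ha⟩ := hline (r γ⁻¹ *ᵥ z₁)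
    have h2 : (r γ⁻¹ * x) *ᵥ (e b *ᵥ v₁) = r γ⁻¹ *ᵥ z₁ := by
      rw [hz₁, Matrix.mulVec_mulVec, Matrix.mulVec_mulVec, Matrix.mul_assoc]
    rw [hMe, ← Matrix.mulVec_mulVec, h2, ← Matrix.mulVec_mulVec, ha, Matrix.mulVec_smul,
      ← Matrix.mulVec_mulVec] at h1
    have ha0 : a ≠ 0 := by
      intro h3
      rw [h3, zero_smul] at ha
      have h4 := hAw (r γ⁻¹ *ᵥ z₁)
      rw [ha, map_zero, LinearMap.zero_apply] at h4
      have h5 := hsim (r γ⁻¹ *ᵥ z₁) w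
      rw [← h4, mul_zero, Matrix.mulVec_mulVec, g.rr, Matrix.one_mulVec] at h5
      exact hs1 h5
    have h3 : (1 - x) *ᵥ (r γ *ᵥ u) = 0 := (smul_eq_zero.1 h1).resolve_left ha0
    apply hs2
    rw [hanti, neg_eq_zero, hz₂, ← Matrix.mulVec_mulVec]
    have h4 : om J (r γ *ᵥ u) (x *ᵥ (e (bar b) *ᵥ v₂)) = om J ((1 - x) *ᵥ (r γ *ᵥ u)) (e (bar b) *ᵥ v₂) := by
      rw [Matrix.sub_mulVec, Matrix.one_mulVec, map_sub, LinearMap.sub_apply, hxadj, Matrix.sub_mulVec,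
        Matrix.one_mulVec, map_sub, sub_sub_cancel]
    rw [h4, h3, map_zero, LinearMap.zero_apply]
  have hpos : 1 ≤ ((y * x - x * y * x) * e b).rank := Pool.Agent.H76T.rank_pos_of_ne hne
  omega

end Pool.Agent.H76Y
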