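import Pool.Agent.Lib.H76Y.AS2
import Pool.Agent.Lib.H76U.Conj

/-!
# AS3: the monodromy group at every prime
-/

set_option autoImplicit false
set_option linter.unusedSectionVars false
namespace Pool.Agent.H76Y
open Module Matrix Polynomial Pool.Agent.H53Toric
open Pool.Agent.H76P
open Pool.Agent.H76U (cmp preL Lb Split4 IsSplitting typeGrp split4_of)
open Pool.Agent.H76RM (van spanK similD)
open Pool.Agent.H76Q (tgen)

variable {ι : Type*} [Fintype ι] [DecidableEq ι] {ψ : Matrix ι ι ℚ}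
    {D : Subalgebra ℚ (Matrix ι ι ℚ)} {M : Type*} [Field M] [NumberField M]
    {m : ℕ} {bar : Fin m → Fin m} {e : Fin m → Matrix ι ι M} {G : Type*} [Group G]
    {ρ : ∀ (l : ℕ) [Fact l.Prime], G →* Matrix.GeneralLinearGroup ι ℚ_[l]}
    {p : ℕ} [Fact p.Prime] {σ : G} {q : ℚ} {F : Fin m → M[X]}
    {φ μ ν : Matrix ι ι (AlgebraicClosure ℚ_[p])} {v : AlgebraicClosure ℚ_[p] → ℚ}
    {Δ : Set (AlgebraicClosure ℚ_[p] ≃+* AlgebraicClosure ℚ_[p])}
    {Ω : Type*} [Field Ω] [CharZero Ω] [IsAlgClosed Ω] [Algebra.IsAlgebraic ℚ Ω] {j : M →+* Ω}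
    {R : Finset Ω} {N : Set ℕ}

/-- There are projectors at every prime. -/
theorem Core3.nonempty (C : Core3 ψ D bar e ρ p σ q F φ μ ν v Δ j R N) [Nonempty ι] (l : ℕ) [Fact l.Prime] :
    (properProj (AlgebraicClosure ℚ_[l]) (ρ l)).Nonempty := by
  by_cases hl : l = p
  · subst hl
    exact ⟨μ, C.crys.mu⟩
  · obtain ⟨hJ, hdet⟩ := gram_basic C.hψ C.hψ0 (AlgebraicClosure ℚ_[l])
    have hJ0 : ψ.map (algebraMap ℚ (AlgebraicClosure ℚ_[l])) ≠ 0 := by
      intro h0
      rw [h0, Matrix.det_zero] at hdet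
      exact not_isUnit_zero hdet
    have hc := sim_map (K := AlgebraicClosure ℚ_[l]) (C.mult l hl)
    refine as2_nonempty (σ := σ) hJ0 (C.gen l σ) hc ?_
    intro h1
    apply C.hq 1 one_ne_zero
    rw [pow_one]
    have h2 : algebraMap ℚ_[l] (AlgebraicClosure ℚ_[l]) (algebraMap ℚ ℚ_[l] q) = algebraMap ℚ_[l] (AlgebraicClosure ℚ_[l]) (algebraMap ℚ ℚ_[l] 1) := by
      rw [h1, map_one, map_one]
    exact (algebraMap ℚ ℚ_[l]).injective ((algebraMap ℚ_[l] (AlgebraicClosure ℚ_[l])).injective h2)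

/-- **The monodromy group at every prime.** -/
theorem Core3.mono (C : Core3 ψ D bar e ρ p σ q F φ μ ν v Δ j R N)
    (l : ℕ) [Fact l.Prime] (i : M →+* AlgebraicClosure ℚ_[l])
    (block : ∀ H₀ : Subgroup G, H₀.FiniteIndex →
      (van (img (AlgebraicClosure ℚ_[l]) (ρ l) H₀)).IsPrime → ∀ b,
      ∃ A ∈ preL (ψ.map (algebraMap ℚ (AlgebraicClosure ℚ_[l]))) (img (AlgebraicClosure ℚ_[l]) (ρ l) H₀),
        (A * (e b).map i).rank = 1)
    (H : Subgroup G) (hH : H.FiniteIndex) :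
    monodromy (AlgebraicClosure ℚ_[l]) (ρ l) H = balGrp (AlgebraicClosure ℚ_[l]) ψ D (fun b => (e b).map i) := by
  have hspl : IsSplitting D ψ bar (fun b => (e b).map i) := C.hspl.map i
  rcases isEmpty_or_nonempty ι with hι | hι
  · have huniq : ∀ y z : Matrix ι ι (AlgebraicClosure ℚ_[l]), y = z := by
      intro y z
      ext i
      exact (hι.false i).elim
    ext x
    constructor
    · rintro ⟨hx, -⟩
      refine ⟨hx, fun d _ => huniq _ _, 0, huniq _ _, fun b => ?_⟩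
      exact absurd (huniq _ _) (hspl.ne_zero b)
    · rintro ⟨hx, -, -⟩
      refine ⟨hx, ?_⟩
      rw [huniq x 1]
      exact subset_zar _ (img_one (ρ l) H)
  · refine as2_mono C.hψ C.hψ0 D (ρ l) (C.lin l) (C.sim l) (C.semis l) (C.commt l) hspl (C.nonempty l)
      (C.gen l) ?_ block H hH
    intro x hx b
    show 2 * (x * (e b).map i).rank = ((e b).map i).rank
    rw [Pool.Agent.H76U.rank_idem_map (C.hspl.idem b) i]
    exact C.bal l x hx i b

end Pool.Agent.H76Y
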