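import Pool.Agent.Lib.H76Y.C5
import Pool.Agent.Lib.H76Y.E1
import Pool.Agent.Lib.H76Y.EN0

/-!
# E2: factorisations fixed by a group of semilinear automorphisms
-/

set_option autoImplicit false
set_option linter.unusedSectionVars false
namespace Pool.Agent.H76Y
open Pool.Agent.H76P Pool.Agent.H76V Pool.Agent.H76Q
open Module Matrix Pool.Agent.H53Toric
open Pool.Agent.H76T (IsIdeal Fam)

variable {κ : Type*} {K : Type*} [Field K] [CharZero K] [Fintype κ] [DecidableEq κ]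
  {L : Submodule K (Module.End K (κ → K))} [IsAlgClosed K] [Nonempty κ]
  {Y : Submodule ℚ (κ → ℚ)} {P : Module.End ℚ Y}

/-- `T` is a set of semilinear automorphisms which stabilise `P`, `W` a set of linear forms compatible with
them (the entries of a matrix) which separates the operators. -/
def TSetN (L : Submodule K (Module.End K (κ → K))) (P : Module.End ℚ Y)
    (T : Set ((Module.End K (κ → K) ≃+* Module.End K (κ → K)) × (K ≃+* K)))
    (W : Set (Module.End K (κ → K) →ₗ[K] K)) : Prop :=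
  (∀ x ∈ T, ∃ σ, ThetaN L x.1 x.2 σ ∧ StabP P σ) ∧
  (∀ x ∈ T, ∀ w ∈ W, ∀ X, w (x.1 X) = x.2 (w X)) ∧ ∀ X, X ≠ 0 → ∃ w ∈ W, w X ≠ 0

/-- PROOF. As `H76Q.exists_norm` (E2): `u ≠ 0` (`t ≠ 0`); let `w u ≠ 0`, `c = (w u)⁻¹`.  For `x = (θ, τ) ∈ T`: `θ X = X`, so by `ThetaN.pt` and `PT_unique`
`θ u = d • u`, `τ t = d ^ n t`; `w (θ u) = τ (w u)` gives `d * w u = τ (w u)`. -/
theorem exists_norm (h : TM L) (hY : Yo L = Y) (hP : Sp P) (hc : Comp L P)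
    {T : Set ((Module.End K (κ → K) ≃+* Module.End K (κ → K)) × (K ≃+* K))}
    {W : Set (Module.End K (κ → K) →ₗ[K] K)} (hT : TSetN L P T W)
    {X u r : Module.End K (κ → K)} {t : K} (h1 : PTN L P X u r t)
    (hX : ∀ x ∈ T, x.1 X = X) {w : Module.End K (κ → K) →ₗ[K] K} (hw : w ∈ W) (hwu : w u ≠ 0) :
    ∀ x ∈ T, x.1 ((w u)⁻¹ • u) = (w u)⁻¹ • u ∧
      x.2 ((w u)⁻¹ ^ Fintype.card κ * t) = (w u)⁻¹ ^ Fintype.card κ * t := by
  intro x hx
  obtain ⟨σ, hθ, hst⟩ := hT.1 x hx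
  have h2 := hθ.pt hY hst h1
  rw [hX x hx] at h2
  obtain ⟨c, hc0, hcu, hct⟩ := PT_unique h hY hP hc h1 h2
  have h3 : c * w u = x.2 (w u) := by
    rw [← hT.2.1 x hx w hw u, hcu, map_smul, smul_eq_mul]
  refine ⟨?_, ?_⟩
  · rw [hθ.smul, map_inv₀, ← h3, hcu, smul_smul, mul_inv, mul_assoc, mul_comm (w u)⁻¹ c,
      ← mul_assoc, inv_mul_cancel₀ hc0, one_mul]
  · rw [map_mul, map_pow, map_inv₀, ← h3, hct, mul_inv, mul_pow, inv_pow c]
    have h4 : c ^ Fintype.card κ ≠ 0 := pow_ne_zero _ hc0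
    field_simp

/-- PROOF. As `H76Q.squares` (E2).  Let `n = Fintype.card κ`.  Each `X ∈ A` has a factorisation `(u, r, t)` with `x.1 u = u` and `x.2 t = t` for all `x ∈ T`
(`exists_norm`, rescale).  For the generator `X ^ n` take `u ^ n * t⁻¹`, i.e. `(t⁻¹ • u ^ n, t • r ^ n)`: its determinant is `t⁻ⁿ tⁿ = 1`.  For the generator
`X * X₁ * X' * X₁'` with `X X' = 1`, `X₁ X₁' = 1` take `u * u₁ * u' * u₁'` with `u u' = 1`, `u₁ u₁' = 1` (`PT_inv`, `PT_mul`): determinant `1`; `u'` is fixed because `u` is.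
Products: `PT_mul`. -/
theorem powers (h : TM L) (hY : Yo L = Y) (hP : Sp P) (hc : Comp L P)
    {T : Set ((Module.End K (κ → K) ≃+* Module.End K (κ → K)) × (K ≃+* K))}
    {W : Set (Module.End K (κ → K) →ₗ[K] K)} (hT : TSetN L P T W)
    {A : Set (Module.End K (κ → K))} (hA : ∀ X ∈ A, (∃ u r t, PTN L P X u r t) ∧ ∀ x ∈ T, x.1 X = X)
    {X : Module.End K (κ → K)} (hX : X ∈ Submonoid.closure ({Z | ∃ X ∈ A, Z = X ^ Fintype.card κ} ∪
      {Z | ∃ X ∈ A, ∃ X₁ ∈ A, ∃ X' X₁', X * X' = 1 ∧ X₁ * X₁' = 1 ∧ Z = X * X₁ * X' * X₁'})) :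
    ∃ u r, PTN L P X u r 1 ∧ ∀ x ∈ T, x.1 u = u := by
  have hst' : ∀ σ, StabP P σ → StabP (1 - P) σ := fun σ hst => by
    have hPP : (1 : Module.End ℚ Y) - (1 - P) = P := sub_sub_cancel 1 P
    exact ⟨hst.2, fun k k' => hPP.symm ▸ hst.1 k k'⟩
  have hT0 : EN.TS0 (AZ L P) (AZ L (1 - P)) T W := by
    refine ⟨fun x hx c X => ?_, fun x hx X hXA => ?_, fun x hx X hXA => ?_, fun x hx X => ?_, hT.2.1, hT.2.2⟩
    · obtain ⟨σ, hθ, hst⟩ := hT.1 x hx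
      exact hθ.smul c X
    · obtain ⟨σ, hθ, hst⟩ := hT.1 x hx
      exact hθ.AZ hY hst hXA
    · obtain ⟨σ, hθ, hst⟩ := hT.1 x hx
      exact hθ.AZ hY (hst' σ hst) hXA
    · obtain ⟨σ, hθ, hst⟩ := hT.1 x hx
      exact hθ.det X
  obtain ⟨u, r, c, h1, hd, hc0, hfix⟩ := EN.powers (AZ_comm h hY hP) (AZ_inter h hY hP hc) hT0 (B := A)
    (fun X hX => ⟨by
      obtain ⟨u, r, t, h1⟩ := (hA X hX).1
      exact ⟨u, r, h1.pu⟩, (hA X hX).2⟩) (Fintype.card κ) hX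
  have h2 := ptn_of (h1.smul (inv_ne_zero hc0))
  have h3 : LinearMap.det (c⁻¹ • u) = 1 := by
    rw [LinearMap.det_smul, Module.finrank_fintype_fun_eq_card, hd, ← mul_pow, inv_mul_cancel₀ hc0, one_pow]
  rw [h3] at h2
  refine ⟨_, _, h2, fun x hx => ?_⟩
  obtain ⟨σ, hθ, hst⟩ := hT.1 x hx
  rw [hθ.smul, map_inv₀, (hfix x hx).1, (hfix x hx).2]

end Pool.Agent.H76Y
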