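import Pool.Agent.Lib.H76Y.Y1

/-!
# positivity of the Rosati involution and complex conjugations
-/

set_option autoImplicit false
set_option linter.unusedSectionVars false
namespace Pool.Agent.H76Y
open Module Matrix Polynomial Pool.Agent.H53Toric
open Pool.Agent.H76P Pool.Agent.H76Q
open Pool.Agent.H76U (IsSplitting)
open Pool.Agent.H76RM (spanK)

variable {ι : Type*} [Fintype ι] [DecidableEq ι]

/-- The bilinear form `trace (d * d'*)`. -/
noncomputable def rosT (ψ : Matrix ι ι ℚ) (D : Subalgebra ℚ (Matrix ι ι ℚ)) :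
    LinearMap.BilinForm ℚ D :=
  LinearMap.mk₂ ℚ (fun d d' : D => ((d : Matrix ι ι ℚ) * (ψ⁻¹ * (d' : Matrix ι ι ℚ)ᵀ * ψ)).trace)
    (fun a b c => by
      simp only [Subalgebra.coe_add, Matrix.add_mul, Matrix.trace_add])
    (fun r a b => by
      simp only [Subalgebra.coe_smul, Matrix.smul_mul, Matrix.trace_smul])
    (fun a b c => by
      simp only [Subalgebra.coe_add, Matrix.transpose_add, Matrix.mul_add, Matrix.add_mul,
        Matrix.trace_add])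
    (fun r a b => by
      simp only [Subalgebra.coe_smul, Matrix.transpose_smul, Matrix.mul_smul, Matrix.smul_mul,
        Matrix.trace_smul])

theorem rosT_apply (ψ : Matrix ι ι ℚ) (D : Subalgebra ℚ (Matrix ι ι ℚ)) (d d' : D) :
    rosT ψ D d d' = ((d : Matrix ι ι ℚ) * (ψ⁻¹ * (d' : Matrix ι ι ℚ)ᵀ * ψ)).trace := rfl

theorem rosT_symm {ψ : Matrix ι ι ℚ} (hψ : ψᵀ = -ψ) (hψ0 : ψ.det ≠ 0) (D : Subalgebra ℚ (Matrix ι ι ℚ)) (d d' : D) :
    rosT ψ D d d' = rosT ψ D d' d := by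
  rw [rosT_apply, rosT_apply, ← Matrix.trace_transpose]
  have h1 : (ψ⁻¹)ᵀ = -ψ⁻¹ := by
    rw [Matrix.transpose_nonsing_inv, hψ]
    refine Matrix.inv_eq_left_inv ?_
    rw [neg_mul_neg, Matrix.nonsing_inv_mul _ (isUnit_iff_ne_zero.2 hψ0)]
  have h2 : ((d : Matrix ι ι ℚ) * (ψ⁻¹ * (d' : Matrix ι ι ℚ)ᵀ * ψ))ᵀ =
      ψ * ((d' : Matrix ι ι ℚ) * (ψ⁻¹ * (d : Matrix ι ι ℚ)ᵀ)) := by
    rw [Matrix.transpose_mul, Matrix.transpose_mul, Matrix.transpose_mul, Matrix.transpose_transpose,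
      hψ, h1]
    simp only [Matrix.mul_neg, Matrix.neg_mul, neg_neg, Matrix.mul_assoc]
  rw [h2, Matrix.trace_mul_comm]
  simp only [Matrix.mul_assoc]

/-- Positivity over `ℚ` gives positivity over `ℂ`. -/
theorem pos_ne {ψ : Matrix ι ι ℚ} (hψ : ψᵀ = -ψ) (hψ0 : ψ.det ≠ 0) {D : Subalgebra ℚ (Matrix ι ι ℚ)}
    (pos : ∀ d ∈ D, d ≠ 0 → 0 < (d * (ψ⁻¹ * dᵀ * ψ)).trace) {x : Matrix ι ι ℂ}
    (hx : x ∈ spanK ℂ D) (hx0 : x ≠ 0) :
    (x.map (starRingEnd ℂ) * ((ψ⁻¹).map (algebraMap ℚ ℂ) * xᵀ * ψ.map (algebraMap ℚ ℂ))).trace ≠ 0 := by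
  classical
  have hsym : LinearMap.IsSymm (rosT ψ D) := ⟨fun d d' => by
    rw [RingHom.id_apply]
    exact rosT_symm hψ hψ0 D d d'⟩
  obtain ⟨n, v, hv⟩ : ∃ (n : ℕ) (v : Basis (Fin n) ℚ D), ∀ i k, i ≠ k → rosT ψ D (v i) (v k) = 0 := by
    obtain ⟨v, hv⟩ := LinearMap.BilinForm.exists_orthogonal_basis hsym
    exact ⟨_, v, fun i k h => hv h⟩
  -- `x` is a combination of the basis
  obtain ⟨z, hz⟩ : ∃ z : Fin n → ℂ, x = ∑ i, z i • ((v i : D) : Matrix ι ι ℚ).map (algebraMap ℚ ℂ) := by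
    refine Submodule.span_induction (p := fun x _ => ∃ z : Fin n → ℂ,
      x = ∑ i, z i • ((v i : D) : Matrix ι ι ℚ).map (algebraMap ℚ ℂ)) ?_ ?_ ?_ ?_ hx
    · rintro _ ⟨d, hd, rfl⟩
      refine ⟨fun i => algebraMap ℚ ℂ (v.repr ⟨d, hd⟩ i), ?_⟩
      have h1 := congrArg (fun y : D => (y : Matrix ι ι ℚ)) (v.sum_repr ⟨d, hd⟩)
      simp only at h1
      ext a b
      have h2 := congrFun (congrFun h1 a) b
      rw [AddSubmonoidClass.coe_finset_sum, Matrix.sum_apply] at h2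
      rw [Matrix.map_apply, Matrix.sum_apply, ← h2, map_sum]
      refine Finset.sum_congr rfl fun i _ => ?_
      rw [Subalgebra.coe_smul, Matrix.smul_apply, Matrix.smul_apply, Matrix.map_apply, smul_eq_mul,
        smul_eq_mul, map_mul]
    · exact ⟨0, by simp⟩
    · rintro _ _ _ _ ⟨z, rfl⟩ ⟨w, rfl⟩
      exact ⟨z + w, by simp only [Pi.add_apply, add_smul, Finset.sum_add_distrib]⟩
    · rintro c _ _ ⟨z, rfl⟩
      exact ⟨c • z, by simp only [Pi.smul_apply, smul_eq_mul, mul_smul, Finset.smul_sum]⟩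
  have hT : ∀ i k, (((v i : D) : Matrix ι ι ℚ).map (algebraMap ℚ ℂ) *
      ((ψ⁻¹).map (algebraMap ℚ ℂ) * (((v k : D) : Matrix ι ι ℚ).map (algebraMap ℚ ℂ))ᵀ *
        ψ.map (algebraMap ℚ ℂ))).trace = algebraMap ℚ ℂ (rosT ψ D (v i) (v k)) := by
    intro i k
    rw [rosT_apply, ← Matrix.transpose_map, ← Matrix.map_mul, ← Matrix.map_mul, ← Matrix.map_mul]
    simp only [Matrix.trace, Matrix.diag_apply, Matrix.map_apply, map_sum]
  have hpos : ∀ i, 0 < rosT ψ D (v i) (v i) := by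
    intro i
    rw [rosT_apply]
    exact pos _ (v i).2 fun h0 => v.ne_zero i (Subtype.ext h0)
  have hval : (x.map (starRingEnd ℂ) * ((ψ⁻¹).map (algebraMap ℚ ℂ) * xᵀ * ψ.map (algebraMap ℚ ℂ))).trace
      = ((∑ i, Complex.normSq (z i) * ((rosT ψ D (v i) (v i) : ℚ) : ℝ) : ℝ) : ℂ) := by
    have h1 : x.map (starRingEnd ℂ) = ∑ i, starRingEnd ℂ (z i) •
        ((v i : D) : Matrix ι ι ℚ).map (algebraMap ℚ ℂ) := by
      rw [hz]
      ext a b
      simp only [Matrix.map_apply, Matrix.sum_apply, Matrix.smul_apply, smul_eq_mul, map_sum, map_mul]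
      refine Finset.sum_congr rfl fun i _ => ?_
      congr 1
      rw [eq_ratCast]
      exact map_ratCast _ _
    have h2 : (ψ⁻¹).map (algebraMap ℚ ℂ) * xᵀ * ψ.map (algebraMap ℚ ℂ) = ∑ k, z k •
        ((ψ⁻¹).map (algebraMap ℚ ℂ) * (((v k : D) : Matrix ι ι ℚ).map (algebraMap ℚ ℂ))ᵀ *
          ψ.map (algebraMap ℚ ℂ)) := by
      rw [hz, Matrix.transpose_sum, Matrix.mul_sum, Matrix.sum_mul]
      refine Finset.sum_congr rfl fun i _ => ?_
      rw [Matrix.transpose_smul, Matrix.mul_smul, Matrix.smul_mul]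
    rw [h1, h2, Matrix.sum_mul, Matrix.trace_sum]
    push_cast
    refine Finset.sum_congr rfl fun i _ => ?_
    rw [Matrix.mul_sum, Matrix.trace_sum, Finset.sum_eq_single i]
    · rw [Matrix.smul_mul, Matrix.mul_smul, Matrix.trace_smul, Matrix.trace_smul, hT, smul_eq_mul,
        smul_eq_mul, ← mul_assoc, Complex.normSq_eq_conj_mul_self]
      rfl
    · intro k _ hki
      have h3 : rosT ψ D (v i) (v k) = 0 := hv i k (Ne.symm hki)
      rw [Matrix.smul_mul, Matrix.mul_smul, Matrix.trace_smul, Matrix.trace_smul, hT, h3, map_zero,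
        smul_zero, smul_zero]
    · intro h
      exact absurd (Finset.mem_univ i) h
  rw [hval]
  have hi : ∃ i, z i ≠ 0 := by
    by_contra hcon
    push Not at hcon
    apply hx0
    rw [hz]
    exact Finset.sum_eq_zero fun i _ => by rw [hcon i, zero_smul]
  obtain ⟨i, hi⟩ := hi
  have h1 : 0 < ∑ i, Complex.normSq (z i) * ((rosT ψ D (v i) (v i) : ℚ) : ℝ) := by
    refine Finset.sum_pos' (fun k _ => mul_nonneg (Complex.normSq_nonneg _) (by exact_mod_cast (hpos k).le))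
      ⟨i, Finset.mem_univ i, mul_pos (Complex.normSq_pos.2 hi) (by exact_mod_cast hpos i)⟩
  exact_mod_cast h1.ne'

/-- For a complex conjugation `s` the image of `e_b` under `s` is linked with `e_(bar b)`. -/
theorem linked_of_pos {ψ : Matrix ι ι ℚ} (hψ : ψᵀ = -ψ) (hψ0 : ψ.det ≠ 0)
    {D : Subalgebra ℚ (Matrix ι ι ℚ)}
    (pos : ∀ d ∈ D, d ≠ 0 → 0 < (d * (ψ⁻¹ * dᵀ * ψ)).trace) {M : Type*} [Field M] [CharZero M]
    {m : ℕ} {bar : Fin m → Fin m} {e : Fin m → Matrix ι ι M} (hspl : IsSplitting D ψ bar e)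
    {Ω : Type*} [Field Ω] [CharZero Ω] (j : M →+* Ω) (s : Ω ≃+* Ω) (κ : Ω →+* ℂ)
    (hκ : ∀ y, κ (s y) = starRingEnd ℂ (κ y)) (b : Fin m) :
    Linked D ((e (bar b)).map j) ((e b).map (s.toRingHom.comp j)) := by
  have hs := hspl.map (κ.comp j)
  have h1 := pos_ne hψ hψ0 pos (hs.mem b) (hs.ne_zero b)
  have hdet : IsUnit (ψ.map (algebraMap ℚ ℂ)).det := by
    have h5 : (ψ.map (algebraMap ℚ ℂ)).det = algebraMap ℚ ℂ ψ.det := (RingHom.map_det _ _).symm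
    rw [h5]
    exact ((_root_.map_ne_zero _).2 hψ0).isUnit
  have hinv : (ψ⁻¹).map (algebraMap ℚ ℂ) * ψ.map (algebraMap ℚ ℂ) = 1 := by
    rw [← Matrix.map_mul, Matrix.nonsing_inv_mul _ (isUnit_iff_ne_zero.2 hψ0)]
    simp
  have h2 : (ψ⁻¹).map (algebraMap ℚ ℂ) * ((e b).map (κ.comp j))ᵀ * ψ.map (algebraMap ℚ ℂ) =
      (e (bar b)).map (κ.comp j) := by
    rw [Matrix.mul_assoc, hs.adj b, ← Matrix.mul_assoc, hinv, Matrix.one_mul]
  rw [h2] at h1
  refine ⟨1, Submodule.subset_span ⟨1, D.one_mem, by simp⟩, fun h0 => h1 ?_⟩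
  have h3 : ((e b).map (κ.comp j)).map (starRingEnd ℂ) = ((e b).map (s.toRingHom.comp j)).map κ := by
    ext a c
    exact (hκ _).symm
  have h4 : (e (bar b)).map (κ.comp j) = ((e (bar b)).map j).map κ := by
    ext a c
    rfl
  rw [h3, h4, Matrix.trace_mul_comm, ← Matrix.map_mul]
  rw [Matrix.mul_one] at h0
  rw [h0]
  simp

end Pool.Agent.H76Y
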