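import Pool.Agent.Lib.H76Y.SimpleN
import Pool.Agent.Lib.H86N.O4

/-!
# The component theorem with a symmetric form, one ideal
-/

set_option autoImplicit false
set_option linter.unusedSectionVars false
namespace Pool.Agent.H76Y
open Pool.Agent.H76P Pool.Agent.H76V Pool.Agent.H76Q
open Module Matrix Pool.Agent.H53Toric
open Pool.Agent.H76T (IsIdeal Fam)

variable {κ : Type*} [Fintype κ] [DecidableEq κ] {K : Type*} [Field K]

theorem om_sym {J : Matrix κ κ K} (hJ : Jᵀ = J) (v w : κ → K) : om J v w = om J w v := by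
  rw [om_apply, om_apply, Matrix.dotProduct_mulVec, ← Matrix.mulVec_transpose, hJ, dotProduct_comm]

theorem skew_om {J : Matrix κ κ K} (hdet : IsUnit J.det) {X : Module.End K (κ → K)} :
    adjE J X = -X ↔ ∀ v w, om J (X v) w + om J v (X w) = 0 := by
  constructor
  · intro h v w
    rw [H49M.C0_spec hdet, h, LinearMap.neg_apply, map_neg, neg_add_cancel]
  · intro h
    apply LinearMap.ext
    intro w
    rw [LinearMap.neg_apply, ← sub_eq_zero, sub_neg_eq_add]
    apply om_nd hdet
    intro v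
    rw [map_add, ← H49M.C0_spec hdet]
    exact h v w

variable [CharZero K] {L : Submodule K (Module.End K (κ → K))}

variable [IsAlgClosed K] [Nonempty κ]

/-- A component which is simple and respects a symmetric form is everything, or its rank is `2 ^ m` with
`m ≡ 0, 3 mod 4`, `m ≥ 3`, or a central binomial coefficient `C(2k, k)` with `k ≥ 4` even. -/
theorem CmpN.simpleO (h : CmpN L) {I : Fin 1 → Submodule K (Module.End K (κ → K))} (hF : Fam L I)
    {J : Matrix κ κ K} (hJ : Jᵀ = J) (hdet : IsUnit J.det) (hskew : ∀ X ∈ L, adjE J X = -X) :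
    (∀ X : Module.End K (κ → K), adjE J X = -X → X ∈ L) ∨
    (∃ m : ℕ, 3 ≤ m ∧ (m % 4 = 0 ∨ m % 4 = 3) ∧ Fintype.card κ = 2 ^ m ∧
      ∀ N ∈ L, N * N = 0 → N ≠ 0 → 4 * finrank K (LinearMap.range N) = Fintype.card κ ∨
        2 * finrank K (LinearMap.range N) = Fintype.card κ) ∨
    (∃ k : ℕ, 4 ≤ k ∧ Even k ∧ Fintype.card κ = k.centralBinom ∧
      ∀ N ∈ L, N * N = 0 → N ≠ 0 → finrank K (LinearMap.range N) = (k - 1).centralBinom) := by
  have hcard : finrank K (κ → K) = Fintype.card κ := Module.finrank_fintype_fun_eq_card K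
  have hcore := h.coreN hF
  obtain ⟨y, hy, hy2⟩ := h.inv_mem hF 0
  have hyL := (hF.ideal 0).1 hy
  have hB : om J ≠ 0 := by
    intro h0
    obtain ⟨k⟩ := ‹Nonempty κ›
    have h1 : (Pi.single k (1 : K) : κ → K) = 0 := om_nd hdet _ (fun w => by rw [h0]; rfl)
    have h2 := congrFun h1 k
    rw [Pi.single_eq_same] at h2
    exact one_ne_zero h2
  have h1 := H86N.coreO hcore hB (om_sym hJ) (fun X hX => (skew_om hdet).1 (hskew X hX)) hyL hy2
  rw [hcard] at h1
  rcases h1 with h1 | h1 | h1
  · exact Or.inl fun X hX => h1 X ((skew_om hdet).1 hX)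
  · exact Or.inr (Or.inl h1)
  · exact Or.inr (Or.inr h1)

end Pool.Agent.H76Y
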